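import Mathlib

/-!
# Fourier analysis on `ℤᵈ`

`FT f k = ∑ f x e^(i k·x)`; `mu d` is the uniform probability measure on the cube `[-π, π]ᵈ`; `cv` is the convolution.
-/

set_option autoImplicit false

noncomputable section

open Finset MeasureTheory

namespace IPC.Fo

variable {d : ℕ}

/-- the scalar product -/
def dot (k : Fin d → ℝ) (x : Fin d → ℤ) : ℝ := ∑ i, k i * x i

/-- the character `e^(i k·x)` -/
def ch (k : Fin d → ℝ) (x : Fin d → ℤ) : ℂ := Complex.exp (dot k x * Complex.I)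

/-- the Fourier transform -/
def FT (f : (Fin d → ℤ) → ℝ) (k : Fin d → ℝ) : ℂ := ∑' x, (f x : ℂ) * ch k x

/-- absolutely summable functions -/
def S1 (f : (Fin d → ℤ) → ℝ) : Prop := Summable fun x => |f x|

/-- convolution -/
def cv (f g : (Fin d → ℤ) → ℝ) : (Fin d → ℤ) → ℝ := fun x => ∑' y, f y * g (x - y)

/-- the unit of the convolution -/
def del (d : ℕ) : (Fin d → ℤ) → ℝ := fun x => if x = 0 then 1 else 0

/-- the uniform probability measure on `[-π, π]` -/
def nu1 : Measure ℝ := ENNReal.ofReal (1 / (2 * Real.pi)) • volume.restrict (Set.Icc (-Real.pi) Real.pi)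

/-- the uniform probability measure on the cube -/
def mu (d : ℕ) : Measure (Fin d → ℝ) := Measure.pi fun _ => nu1

theorem nu1_univ : nu1 Set.univ = 1 := by
  have hpi := Real.pi_pos
  rw [nu1, Measure.smul_apply, Measure.restrict_apply MeasurableSet.univ, Set.univ_inter, Real.volume_Icc,
    smul_eq_mul, ← ENNReal.ofReal_mul (by positivity), sub_neg_eq_add]
  rw [show 1 / (2 * Real.pi) * (Real.pi + Real.pi) = 1 by field_simp; ring, ENNReal.ofReal_one]

instance instProbNu1 : IsProbabilityMeasure nu1 := ⟨nu1_univ⟩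

instance instProbMu (d : ℕ) : IsProbabilityMeasure (mu d) := by
  unfold mu
  infer_instance

theorem dot_zero_right (k : Fin d → ℝ) : dot k 0 = 0 := by simp [dot]

theorem dot_add (k : Fin d → ℝ) (x y : Fin d → ℤ) : dot k (x + y) = dot k x + dot k y := by
  simp [dot, mul_add, Finset.sum_add_distrib]

theorem dot_sub (k : Fin d → ℝ) (x y : Fin d → ℤ) : dot k (x - y) = dot k x - dot k y := by
  simp [dot, mul_sub, Finset.sum_sub_distrib]

theorem dot_neg (k : Fin d → ℝ) (x : Fin d → ℤ) : dot k (-x) = -dot k x := by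
  simp [dot, Finset.sum_neg_distrib]

theorem ch_zero (k : Fin d → ℝ) : ch k 0 = 1 := by simp [ch, dot_zero_right]

theorem ch_add (k : Fin d → ℝ) (x y : Fin d → ℤ) : ch k (x + y) = ch k x * ch k y := by
  unfold ch
  rw [← Complex.exp_add, dot_add]
  congr 1
  push_cast
  ring

theorem norm_ch (k : Fin d → ℝ) (x : Fin d → ℤ) : ‖ch k x‖ = 1 := by
  unfold ch
  exact Complex.norm_exp_ofReal_mul_I _

theorem ch_neg (k : Fin d → ℝ) (x : Fin d → ℤ) : ch k (-x) = (starRingEnd ℂ) (ch k x) := by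
  unfold ch
  rw [← Complex.exp_conj, dot_neg]
  congr 1
  simp

theorem S1.ft {f : (Fin d → ℤ) → ℝ} (hf : S1 f) (k : Fin d → ℝ) :
    Summable fun x => (f x : ℂ) * ch k x := by
  refine Summable.of_norm ?_
  refine hf.congr fun x => ?_
  rw [norm_mul, norm_ch, mul_one, Complex.norm_real, Real.norm_eq_abs]

theorem S1.sum {f : (Fin d → ℤ) → ℝ} (hf : S1 f) : Summable f := Summable.of_abs hf

theorem norm_FT_le {f : (Fin d → ℤ) → ℝ} (hf : S1 f) (k : Fin d → ℝ) : ‖FT f k‖ ≤ ∑' x, |f x| := by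
  unfold FT
  have h1 : ∀ x, ‖(f x : ℂ) * ch k x‖ = |f x| := fun x => by
    rw [norm_mul, norm_ch, mul_one, Complex.norm_real, Real.norm_eq_abs]
  refine (norm_tsum_le_tsum_norm ?_).trans (le_of_eq ?_)
  · simp only [h1]
    exact hf
  · simp only [h1]

theorem S1.add {f g : (Fin d → ℤ) → ℝ} (hf : S1 f) (hg : S1 g) : S1 (fun x => f x + g x) :=
  Summable.of_nonneg_of_le (fun _ => abs_nonneg _) (fun _ => abs_add_le _ _) (Summable.add hf hg)

theorem S1.sub {f g : (Fin d → ℤ) → ℝ} (hf : S1 f) (hg : S1 g) : S1 (fun x => f x - g x) :=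
  Summable.of_nonneg_of_le (fun _ => abs_nonneg _) (fun _ => abs_sub _ _) (Summable.add hf hg)

theorem S1.const_mul {f : (Fin d → ℤ) → ℝ} (hf : S1 f) (c : ℝ) : S1 (fun x => c * f x) := by
  unfold S1
  simp only [abs_mul]
  exact Summable.mul_left _ hf

theorem FT_add {f g : (Fin d → ℤ) → ℝ} (hf : S1 f) (hg : S1 g) (k : Fin d → ℝ) :
    FT (fun x => f x + g x) k = FT f k + FT g k := by
  unfold FT
  rw [← (hf.ft k).tsum_add (hg.ft k)]
  refine tsum_congr fun x => ?_
  push_cast
  ring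

theorem FT_sub {f g : (Fin d → ℤ) → ℝ} (hf : S1 f) (hg : S1 g) (k : Fin d → ℝ) :
    FT (fun x => f x - g x) k = FT f k - FT g k := by
  unfold FT
  rw [← (hf.ft k).tsum_sub (hg.ft k)]
  refine tsum_congr fun x => ?_
  push_cast
  ring

theorem FT_const_mul (f : (Fin d → ℤ) → ℝ) (c : ℝ) (k : Fin d → ℝ) :
    FT (fun x => c * f x) k = c * FT f k := by
  unfold FT
  rw [← tsum_mul_left]
  refine tsum_congr fun x => ?_
  push_cast
  ring

theorem S1_sum {ι : Type*} (s : Finset ι) (f : ι → (Fin d → ℤ) → ℝ) (hf : ∀ i ∈ s, S1 (f i)) :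
    S1 (fun x => ∑ i ∈ s, f i x) := by
  classical
  induction s using Finset.induction_on with
  | empty => simp [S1]
  | insert a s ha ih =>
    simp only [Finset.sum_insert ha]
    exact (hf a (Finset.mem_insert_self _ _)).add (ih fun i hi => hf i (Finset.mem_insert_of_mem hi))

theorem FT_sum {ι : Type*} (s : Finset ι) (f : ι → (Fin d → ℤ) → ℝ) (hf : ∀ i ∈ s, S1 (f i)) (k : Fin d → ℝ) :
    FT (fun x => ∑ i ∈ s, f i x) k = ∑ i ∈ s, FT (f i) k := by
  classical
  induction s using Finset.induction_on with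
  | empty => simp [FT]
  | insert a s ha ih =>
    simp only [Finset.sum_insert ha]
    rw [FT_add (hf a (Finset.mem_insert_self _ _))
      (S1_sum s f fun i hi => hf i (Finset.mem_insert_of_mem hi)), ih fun i hi => hf i (Finset.mem_insert_of_mem hi)]

theorem S1_del : S1 (del d) := by
  unfold S1
  refine summable_of_hasFiniteSupport ((Set.finite_singleton (0 : Fin d → ℤ)).subset fun x hx => ?_)
  rw [Set.mem_singleton_iff]
  by_contra h
  apply hx
  simp [del, h]

theorem FT_del (k : Fin d → ℝ) : FT (del d) k = 1 := by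
  unfold FT
  rw [tsum_eq_single 0]
  · simp [del, ch_zero]
  · intro x hx
    simp [del, hx]

/-- the change of variables `(y, z) ↦ (y, y + z)` -/
def shear (d : ℕ) : ((Fin d → ℤ) × (Fin d → ℤ)) ≃ ((Fin d → ℤ) × (Fin d → ℤ)) where
  toFun q := (q.1 + q.2, q.1)
  invFun q := (q.2, q.1 - q.2)
  left_inv q := by simp
  right_inv q := by simp

theorem summable_cv {f g : (Fin d → ℤ) → ℝ} (hf : S1 f) (hg : S1 g) :
    Summable fun q : (Fin d → ℤ) × (Fin d → ℤ) => |f q.2 * g (q.1 - q.2)| := by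
  have h1 : Summable fun q : (Fin d → ℤ) × (Fin d → ℤ) => |f q.1| * |g q.2| :=
    Summable.mul_of_nonneg hf hg (fun _ => abs_nonneg _) (fun _ => abs_nonneg _)
  rw [← (shear d).summable_iff]
  refine h1.congr fun q => ?_
  simp [shear, abs_mul]

theorem cv_summable_inner {f g : (Fin d → ℤ) → ℝ} (hf : S1 f) (hg : S1 g) (x : Fin d → ℤ) :
    Summable fun y => |f y * g (x - y)| := (summable_cv hf hg).prod_factor x

theorem abs_cv_le {f g : (Fin d → ℤ) → ℝ} (hf : S1 f) (hg : S1 g) (x : Fin d → ℤ) :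
    |cv f g x| ≤ ∑' y, |f y * g (x - y)| := by
  have h := norm_tsum_le_tsum_norm (f := fun y => f y * g (x - y)) (by
    simpa only [Real.norm_eq_abs] using cv_summable_inner hf hg x)
  simp only [Real.norm_eq_abs] at h
  exact h

theorem S1.cv {f g : (Fin d → ℤ) → ℝ} (hf : S1 f) (hg : S1 g) : S1 (cv f g) :=
  Summable.of_nonneg_of_le (fun _ => abs_nonneg _) (fun x => abs_cv_le hf hg x) (summable_cv hf hg).prod

theorem FT_cv {f g : (Fin d → ℤ) → ℝ} (hf : S1 f) (hg : S1 g) (k : Fin d → ℝ) :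
    FT (cv f g) k = FT f k * FT g k := by
  have hf' : Summable fun x => ‖(f x : ℂ) * ch k x‖ := by
    refine hf.congr fun x => ?_
    rw [norm_mul, norm_ch, mul_one, Complex.norm_real, Real.norm_eq_abs]
  have hg' : Summable fun x => ‖(g x : ℂ) * ch k x‖ := by
    refine hg.congr fun x => ?_
    rw [norm_mul, norm_ch, mul_one, Complex.norm_real, Real.norm_eq_abs]
  have h0 : Summable fun q : (Fin d → ℤ) × (Fin d → ℤ) =>
      ((f q.2 * g (q.1 - q.2) : ℝ) : ℂ) * ch k q.1 := by
    refine Summable.of_norm ((summable_cv hf hg).congr fun q => ?_)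
    rw [norm_mul, norm_ch, mul_one, Complex.norm_real, Real.norm_eq_abs]
  unfold FT
  rw [tsum_mul_tsum_of_summable_norm hf' hg']
  have h1 : ∑' q : (Fin d → ℤ) × (Fin d → ℤ), ((f q.1 : ℂ) * ch k q.1) * ((g q.2 : ℂ) * ch k q.2) =
      ∑' q : (Fin d → ℤ) × (Fin d → ℤ), ((f q.2 * g (q.1 - q.2) : ℝ) : ℂ) * ch k q.1 := by
    rw [← (shear d).tsum_eq (fun q : (Fin d → ℤ) × (Fin d → ℤ) =>
      ((f q.2 * g (q.1 - q.2) : ℝ) : ℂ) * ch k q.1)]
    refine tsum_congr fun q => ?_
    change _ = ((f q.1 * g (q.1 + q.2 - q.1) : ℝ) : ℂ) * ch k (q.1 + q.2)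
    rw [add_sub_cancel_left, ch_add]
    push_cast
    ring
  rw [h1, h0.tsum_prod]
  refine tsum_congr fun x => ?_
  unfold cv
  rw [Complex.ofReal_tsum, ← tsum_mul_right]

theorem cv_comm (f g : (Fin d → ℤ) → ℝ) : cv f g = cv g f := by
  funext x
  unfold cv
  rw [← (Equiv.subLeft x).tsum_eq]
  refine tsum_congr fun y => ?_
  rw [Equiv.subLeft_apply, sub_sub_cancel, mul_comm]

/-! ## inversion -/

theorem nu1_integral (f : ℝ → ℂ) : ∫ t, f t ∂nu1 = (1 / (2 * Real.pi) : ℝ) • ∫ t in (-Real.pi)..Real.pi, f t := by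
  have hpi := Real.pi_pos
  rw [nu1, integral_smul_measure, ENNReal.toReal_ofReal (by positivity), intervalIntegral.integral_of_le (by linarith),
    integral_Icc_eq_integral_Ioc]

theorem nu1_exp (m : ℤ) : ∫ t, Complex.exp ((t * m : ℝ) * Complex.I) ∂nu1 = if m = 0 then 1 else 0 := by
  have hpi := Real.pi_pos
  rw [nu1_integral]
  by_cases hm : m = 0
  · rw [if_pos hm, hm]
    simp only [Int.cast_zero, mul_zero, Complex.ofReal_zero, zero_mul, Complex.exp_zero,
      intervalIntegral.integral_const, sub_neg_eq_add]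
    rw [smul_smul, show 1 / (2 * Real.pi) * (Real.pi + Real.pi) = 1 by field_simp; ring, one_smul]
  · rw [if_neg hm]
    have hc : ((m : ℂ) * Complex.I) ≠ 0 := mul_ne_zero (Int.cast_ne_zero.2 hm) Complex.I_ne_zero
    have h1 : ∀ t : ℝ, Complex.exp ((t * m : ℝ) * Complex.I) = Complex.exp (((m : ℂ) * Complex.I) * t) := by
      intro t
      congr 1
      push_cast
      ring
    simp only [h1]
    rw [integral_exp_mul_complex hc]
    have h2 : Complex.exp ((m : ℂ) * Complex.I * ((Real.pi : ℝ) : ℂ)) =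
        Complex.exp ((m : ℂ) * Complex.I * ((-Real.pi : ℝ) : ℂ)) := by
      rw [Complex.exp_eq_exp_iff_exists_int]
      refine ⟨m, ?_⟩
      push_cast
      ring
    rw [h2, sub_self, zero_div, smul_zero]

theorem ch_eq_prod (k : Fin d → ℝ) (x : Fin d → ℤ) :
    ch k x = ∏ i, Complex.exp ((k i * x i : ℝ) * Complex.I) := by
  unfold ch dot
  rw [← Complex.exp_sum]
  congr 1
  push_cast
  rw [Finset.sum_mul]

theorem mu_ch (y : Fin d → ℤ) : ∫ k, ch k y ∂(mu d) = if y = 0 then 1 else 0 := by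
  simp only [ch_eq_prod]
  unfold mu
  rw [integral_fintype_prod_eq_prod (f := fun i t => Complex.exp ((t * y i : ℝ) * Complex.I))]
  simp only [nu1_exp]
  by_cases hy : y = 0
  · rw [if_pos hy]
    refine Finset.prod_eq_one fun i _ => ?_
    rw [hy, if_pos (Pi.zero_apply _)]
  · rw [if_neg hy]
    obtain ⟨i, hi⟩ : ∃ i, y i ≠ 0 := by
      by_contra h
      push Not at h
      exact hy (funext h)
    exact Finset.prod_eq_zero (Finset.mem_univ i) (if_neg hi)

theorem ch_measurable (y : Fin d → ℤ) : Measurable fun k : Fin d → ℝ => ch k y := by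
  unfold ch dot
  fun_prop

theorem ch_continuous (y : Fin d → ℤ) : Continuous fun k : Fin d → ℝ => ch k y := by
  unfold ch dot
  fun_prop

theorem FT_continuous {f : (Fin d → ℤ) → ℝ} (hf : S1 f) : Continuous (FT f) := by
  refine continuous_tsum (u := fun x => |f x|) (fun x => (ch_continuous x).const_mul _ |>.congr fun _ => rfl) hf
    fun x k => ?_
  rw [norm_mul, norm_ch, mul_one, Complex.norm_real, Real.norm_eq_abs]

theorem FT_integrable {f : (Fin d → ℤ) → ℝ} (hf : S1 f) : Integrable (FT f) (mu d) := by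
  refine Integrable.mono' (integrable_const (∑' x, |f x|)) (FT_continuous hf).aestronglyMeasurable ?_
  exact Filter.Eventually.of_forall fun k => norm_FT_le hf k

/-- the inversion formula -/
theorem FT_inv {f : (Fin d → ℤ) → ℝ} (hf : S1 f) (x : Fin d → ℤ) :
    (f x : ℂ) = ∫ k, FT f k * ch k (-x) ∂(mu d) := by
  have h1 : ∀ k, FT f k * ch k (-x) = ∑' y, (f y : ℂ) * ch k (y - x) := by
    intro k
    unfold FT
    rw [← tsum_mul_right]
    refine tsum_congr fun y => ?_
    rw [sub_eq_add_neg, ch_add]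
    ring
  simp only [h1]
  have h2 := hasSum_integral_of_summable_integral_norm (μ := mu d)
    (F := fun (y : Fin d → ℤ) (k : Fin d → ℝ) => (f y : ℂ) * ch k (y - x)) ?_ ?_
  · rw [← h2.tsum_eq]
    have h3 : ∀ y, ∫ k, (f y : ℂ) * ch k (y - x) ∂(mu d) = if y = x then (f x : ℂ) else 0 := by
      intro y
      rw [integral_const_mul, mu_ch]
      by_cases hy : y = x
      · rw [if_pos hy, if_pos (by rw [hy, sub_self]), mul_one, hy]
      · rw [if_neg hy, if_neg (fun h => hy (sub_eq_zero.1 h)), mul_zero]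
    simp only [h3, tsum_ite_eq]
  · intro y
    refine (Integrable.mono' (integrable_const (1 : ℝ)) (ch_measurable (y - x)).aestronglyMeasurable ?_).const_mul _
    exact Filter.Eventually.of_forall fun k => (norm_ch k _).le
  · refine hf.congr fun y => ?_
    have h4 : ∀ k : Fin d → ℝ, ‖(f y : ℂ) * ch k (y - x)‖ = |f y| := fun k => by
      rw [norm_mul, norm_ch, mul_one, Complex.norm_real, Real.norm_eq_abs]
    simp only [h4, integral_const, probReal_univ, one_smul]

theorem abs_le_FT {f : (Fin d → ℤ) → ℝ} (hf : S1 f) (x : Fin d → ℤ) :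
    |f x| ≤ ∫ k, ‖FT f k‖ ∂(mu d) := by
  have h1 := FT_inv hf x
  have h2 : |f x| = ‖(f x : ℂ)‖ := by rw [Complex.norm_real, Real.norm_eq_abs]
  rw [h2, h1]
  refine (norm_integral_le_integral_norm _).trans (le_of_eq ?_)
  refine integral_congr_ae (Filter.Eventually.of_forall fun k => ?_)
  change ‖FT f k * ch k (-x)‖ = ‖FT f k‖
  rw [norm_mul, norm_ch, mul_one]

theorem FT_injective {f g : (Fin d → ℤ) → ℝ} (hf : S1 f) (hg : S1 g) (h : ∀ k, FT f k = FT g k) : f = g := by
  funext x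
  have h1 := FT_inv hf x
  have h2 := FT_inv hg x
  simp only [h] at h1
  rw [← h2] at h1
  exact_mod_cast h1

/-- Parseval -/
theorem parseval {f : (Fin d → ℤ) → ℝ} (hf : S1 f) : ∑' x, f x ^ 2 = ∫ k, ‖FT f k‖ ^ 2 ∂(mu d) := by
  set g : (Fin d → ℤ) → ℝ := fun x => f (-x) with hg
  have hg1 : S1 g := (Equiv.neg (Fin d → ℤ)).summable_iff.2 hf
  have h1 : ∀ k, FT g k = (starRingEnd ℂ) (FT f k) := by
    intro k
    unfold FT
    rw [Complex.conj_tsum, ← (Equiv.neg (Fin d → ℤ)).tsum_eq]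
    refine tsum_congr fun x => ?_
    change ((f (- -x) : ℝ) : ℂ) * ch k (-x) = _
    rw [neg_neg, ch_neg, map_mul, Complex.conj_ofReal]
  have h2 := FT_inv (hf.cv hg1) 0
  have h3 : cv f g 0 = ∑' x, f x ^ 2 := by
    unfold cv
    refine tsum_congr fun y => ?_
    simp only [hg, zero_sub, neg_neg]
    ring
  rw [h3] at h2
  have h4 : ∀ k, FT (cv f g) k * ch k (-0) = ((‖FT f k‖ ^ 2 : ℝ) : ℂ) := by
    intro k
    rw [neg_zero, ch_zero, mul_one, FT_cv hf hg1, h1, Complex.mul_conj, Complex.normSq_eq_norm_sq]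
  simp only [h4] at h2
  rw [integral_complex_ofReal] at h2
  exact_mod_cast h2

end IPC.Fo
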