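import Mathlib
import Pool.Agent.Lib.MP_25e40f_pr.E.Fou

/-!
# Moments of functions on `ℤᵈ`; Leibniz' rule for convolutions; reflections and permutations

`mo e a f x = (x e)^a f x`; its Fourier transform is (up to `i^a`) the `a`-th derivative of `FT f` in the direction `e`.
-/

set_option autoImplicit false

noncomputable section

open Finset MeasureTheory

namespace IPC.Fo

variable {d : ℕ}

/-- the `m`-th moment is finite -/
def Mo (m : ℕ) (f : (Fin d → ℤ) → ℝ) : Prop := Summable fun x : Fin d → ℤ => (1 + ‖x‖) ^ m * |f x|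

/-- multiplication with `(x e)^a` -/
def mo (e : Fin d) (a : ℕ) (f : (Fin d → ℤ) → ℝ) : (Fin d → ℤ) → ℝ := fun x => (x e : ℝ) ^ a * f x

theorem abs_coord_le (x : Fin d → ℤ) (e : Fin d) : |(x e : ℝ)| ≤ ‖x‖ := by
  have h := norm_le_pi_norm x e
  rwa [Int.norm_eq_abs] at h

theorem one_le_w (x : Fin d → ℤ) : 1 ≤ 1 + ‖x‖ := by linarith [norm_nonneg x]

theorem Mo.mono {m n : ℕ} (h : m ≤ n) {f : (Fin d → ℤ) → ℝ} (hf : Mo n f) : Mo m f :=
  Summable.of_nonneg_of_le (fun x => mul_nonneg (pow_nonneg (by linarith [norm_nonneg x]) _) (abs_nonneg _))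
    (fun x => mul_le_mul_of_nonneg_right (pow_le_pow_right₀ (one_le_w x) h) (abs_nonneg _)) hf

theorem Mo.s1 {m : ℕ} {f : (Fin d → ℤ) → ℝ} (hf : Mo m f) : S1 f := by
  have h := hf.mono (Nat.zero_le m)
  unfold Mo at h
  simp only [pow_zero, one_mul] at h
  exact h

theorem Mo_zero {f : (Fin d → ℤ) → ℝ} (hf : S1 f) : Mo 0 f := by
  unfold Mo
  simp only [pow_zero, one_mul]
  exact hf

theorem Mo.mo {m a : ℕ} {f : (Fin d → ℤ) → ℝ} (hf : Mo (m + a) f) (e : Fin d) : Mo m (mo e a f) := by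
  refine Summable.of_nonneg_of_le (fun x => mul_nonneg (pow_nonneg (by linarith [norm_nonneg x]) _) (abs_nonneg _))
    (fun x => ?_) hf
  rw [IPC.Fo.mo, abs_mul, abs_pow, pow_add, mul_assoc]
  refine mul_le_mul_of_nonneg_left (mul_le_mul_of_nonneg_right ?_ (abs_nonneg _))
    (pow_nonneg (by linarith [norm_nonneg x]) _)
  exact pow_le_pow_left₀ (abs_nonneg _) (by linarith [abs_coord_le x e]) _

theorem Mo.add {m : ℕ} {f g : (Fin d → ℤ) → ℝ} (hf : Mo m f) (hg : Mo m g) : Mo m (fun x => f x + g x) := by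
  refine Summable.of_nonneg_of_le (fun x => mul_nonneg (pow_nonneg (by linarith [norm_nonneg x]) _) (abs_nonneg _))
    (fun x => ?_) (Summable.add hf hg)
  rw [← mul_add]
  exact mul_le_mul_of_nonneg_left (abs_add_le _ _) (pow_nonneg (by linarith [norm_nonneg x]) _)

theorem Mo.sub {m : ℕ} {f g : (Fin d → ℤ) → ℝ} (hf : Mo m f) (hg : Mo m g) : Mo m (fun x => f x - g x) := by
  refine Summable.of_nonneg_of_le (fun x => mul_nonneg (pow_nonneg (by linarith [norm_nonneg x]) _) (abs_nonneg _))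
    (fun x => ?_) (Summable.add hf hg)
  rw [← mul_add]
  exact mul_le_mul_of_nonneg_left (abs_sub _ _) (pow_nonneg (by linarith [norm_nonneg x]) _)

theorem Mo.const_mul {m : ℕ} {f : (Fin d → ℤ) → ℝ} (hf : Mo m f) (c : ℝ) : Mo m (fun x => c * f x) := by
  refine (Summable.mul_left |c| hf).congr fun x => ?_
  rw [abs_mul]
  ring

theorem Mo_of_finite (m : ℕ) {f : (Fin d → ℤ) → ℝ} (hf : (Function.support f).Finite) : Mo m f := by
  refine summable_of_hasFiniteSupport (hf.subset fun x hx => ?_)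
  intro h
  apply hx
  simp [h]

theorem Mo_del (m : ℕ) : Mo m (del d) := by
  refine Mo_of_finite m ((Set.finite_singleton (0 : Fin d → ℤ)).subset fun x hx => ?_)
  rw [Set.mem_singleton_iff]
  by_contra h
  apply hx
  simp [del, h]

theorem w_mul_le (m : ℕ) (x y : Fin d → ℤ) : (1 + ‖x‖) ^ m ≤ (1 + ‖y‖) ^ m * (1 + ‖x - y‖) ^ m := by
  rw [← mul_pow]
  refine pow_le_pow_left₀ (by linarith [norm_nonneg x]) ?_ m
  have h1 : ‖x‖ ≤ ‖y‖ + ‖x - y‖ := by
    have := norm_add_le y (x - y)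
    rwa [add_sub_cancel] at this
  nlinarith [norm_nonneg y, norm_nonneg (x - y), mul_nonneg (norm_nonneg y) (norm_nonneg (x - y))]

theorem Mo.cv {m : ℕ} {f g : (Fin d → ℤ) → ℝ} (hf : Mo m f) (hg : Mo m g) : Mo m (cv f g) := by
  set f' : (Fin d → ℤ) → ℝ := fun x => (1 + ‖x‖) ^ m * |f x| with hf'
  set g' : (Fin d → ℤ) → ℝ := fun x => (1 + ‖x‖) ^ m * |g x| with hg'
  have hf1 : S1 f' := Summable.abs hf
  have hg1 : S1 g' := Summable.abs hg
  refine Summable.of_nonneg_of_le (fun x => mul_nonneg (pow_nonneg (by linarith [norm_nonneg x]) _) (abs_nonneg _))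
    (fun x => ?_) (hf1.cv hg1)
  have h1 := abs_cv_le hf.s1 hg.s1 x
  have h2 : (1 + ‖x‖) ^ m * |IPC.Fo.cv f g x| ≤ ∑' y, (1 + ‖x‖) ^ m * |f y * g (x - y)| := by
    rw [tsum_mul_left]
    exact mul_le_mul_of_nonneg_left h1 (pow_nonneg (by linarith [norm_nonneg x]) _)
  refine h2.trans ((Summable.tsum_le_tsum (fun y => ?_) ((cv_summable_inner hf.s1 hg.s1 x).mul_left _)
    ((cv_summable_inner hf1 hg1 x).of_abs)).trans (le_abs_self _))
  change (1 + ‖x‖) ^ m * |f y * g (x - y)| ≤ ((1 + ‖y‖) ^ m * |f y|) * ((1 + ‖x - y‖) ^ m * |g (x - y)|)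
  rw [abs_mul]
  calc (1 + ‖x‖) ^ m * (|f y| * |g (x - y)|) ≤ ((1 + ‖y‖) ^ m * (1 + ‖x - y‖) ^ m) * (|f y| * |g (x - y)|) :=
        mul_le_mul_of_nonneg_right (w_mul_le m x y) (by positivity)
    _ = ((1 + ‖y‖) ^ m * |f y|) * ((1 + ‖x - y‖) ^ m * |g (x - y)|) := by ring

/-- Leibniz' rule -/
theorem mo_cv (e : Fin d) (a : ℕ) {f g : (Fin d → ℤ) → ℝ} (hf : Mo a f) (hg : Mo a g) :
    mo e a (cv f g) = fun x => ∑ b ∈ range (a + 1), (a.choose b : ℝ) * cv (mo e b f) (mo e (a - b) g) x := by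
  funext x
  unfold IPC.Fo.mo IPC.Fo.cv
  rw [← tsum_mul_left]
  have h1 : ∀ b ∈ range (a + 1), Summable fun y => (a.choose b : ℝ) *
      (((y e : ℝ) ^ b * f y) * (((x - y) e : ℝ) ^ (a - b) * g (x - y))) := by
    intro b hb
    have hb' : b ≤ a := Nat.lt_succ_iff.1 (mem_range.1 hb)
    have h2 : S1 (IPC.Fo.mo e b f) := (Mo.mo (m := 0) (a := b) (hf.mono (by omega)) e).s1
    have h3 : S1 (IPC.Fo.mo e (a - b) g) := (Mo.mo (m := 0) (a := a - b) (hg.mono (by omega)) e).s1
    exact (Summable.of_abs (cv_summable_inner h2 h3 x)).mul_left _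
  have h4 : ∀ b ∈ range (a + 1), (a.choose b : ℝ) *
      ∑' y, ((y e : ℝ) ^ b * f y) * (((x - y) e : ℝ) ^ (a - b) * g (x - y)) =
      ∑' y, (a.choose b : ℝ) * (((y e : ℝ) ^ b * f y) * (((x - y) e : ℝ) ^ (a - b) * g (x - y))) := fun b _ => by
    rw [tsum_mul_left]
  rw [Finset.sum_congr rfl h4, ← Summable.tsum_finsetSum h1]
  refine tsum_congr fun y => ?_
  have h5 : (x e : ℝ) = (y e : ℝ) + ((x - y) e : ℝ) := by
    rw [Pi.sub_apply]
    push_cast
    ring
  rw [h5, add_pow, Finset.sum_mul]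
  refine Finset.sum_congr rfl fun b _ => ?_
  ring

theorem mo_zero (e : Fin d) (f : (Fin d → ℤ) → ℝ) : mo e 0 f = f := by
  funext x
  simp [mo]

theorem mo_mo (e : Fin d) (a b : ℕ) (f : (Fin d → ℤ) → ℝ) : mo e a (mo e b f) = mo e (a + b) f := by
  funext x
  simp only [mo, pow_add]
  ring

theorem mo_del (e : Fin d) {a : ℕ} (ha : 0 < a) : mo e a (del d) = fun _ => 0 := by
  funext x
  unfold mo del
  by_cases h : x = 0
  · rw [if_pos h, h]
    simp [ha.ne']
  · rw [if_neg h, mul_zero]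

theorem FT_zero (k : Fin d → ℝ) : FT (fun _ => 0) k = 0 := by simp [FT]

/-! ## symmetries -/

/-- reflection in a coordinate -/
def refl (e : Fin d) (x : Fin d → ℤ) : Fin d → ℤ := Function.update x e (-x e)

theorem refl_refl (e : Fin d) (x : Fin d → ℤ) : refl e (refl e x) = x := by
  funext i
  unfold refl
  by_cases h : i = e
  · subst h
    simp
  · simp [Function.update_of_ne h]

/-- reflection as an equivalence -/
def reflE (e : Fin d) : (Fin d → ℤ) ≃ (Fin d → ℤ) := ⟨refl e, refl e, refl_refl e, refl_refl e⟩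

theorem refl_sub (e : Fin d) (x y : Fin d → ℤ) : refl e (x - y) = refl e x - refl e y := by
  funext i
  unfold refl
  by_cases h : i = e
  · subst h
    simp
    ring
  · simp [Function.update_of_ne h]

theorem refl_self (e : Fin d) (x : Fin d → ℤ) : refl e x e = -x e := by simp [refl]

theorem refl_other {e i : Fin d} (h : i ≠ e) (x : Fin d → ℤ) : refl e x i = x i := by
  simp [refl, Function.update_of_ne h]

/-- even in every coordinate -/
def Ev (f : (Fin d → ℤ) → ℝ) : Prop := ∀ e x, f (refl e x) = f x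

/-- invariant under permutations of the coordinates -/
def Sy (f : (Fin d → ℤ) → ℝ) : Prop := ∀ (σ : Equiv.Perm (Fin d)) x, f (fun i => x (σ i)) = f x

theorem Ev.cv {f g : (Fin d → ℤ) → ℝ} (hf : Ev f) (hg : Ev g) : Ev (cv f g) := by
  intro e x
  unfold IPC.Fo.cv
  rw [← (reflE e).tsum_eq]
  refine tsum_congr fun y => ?_
  change f (refl e y) * g (refl e x - refl e y) = f y * g (x - y)
  rw [← refl_sub, hf, hg]

theorem Sy.cv {f g : (Fin d → ℤ) → ℝ} (hf : Sy f) (hg : Sy g) : Sy (cv f g) := by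
  intro σ x
  unfold IPC.Fo.cv
  rw [← (Equiv.piCongrLeft' (fun _ : Fin d => ℤ) σ.symm).tsum_eq]
  refine tsum_congr fun y => ?_
  have h1 : (Equiv.piCongrLeft' (fun _ : Fin d => ℤ) σ.symm) y = fun i => y (σ i) := by
    funext i
    simp [Equiv.piCongrLeft'_apply]
  rw [h1]
  have h2 : ((fun i => x (σ i)) - fun i => y (σ i)) = fun i => (x - y) (σ i) := rfl
  rw [h2, hf σ y, hg σ (x - y)]

theorem Ev_del : Ev (del d) := by
  intro e x
  unfold del
  have h : refl e x = 0 ↔ x = 0 := by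
    constructor
    · intro h
      rw [← refl_refl e x, h]
      funext i
      by_cases hi : i = e
      · subst hi
        rw [refl_self]
        simp
      · rw [refl_other hi]
    · rintro rfl
      funext i
      by_cases hi : i = e
      · subst hi
        rw [refl_self]
        simp
      · rw [refl_other hi]
  simp only [h]

theorem Ev.add {f g : (Fin d → ℤ) → ℝ} (hf : Ev f) (hg : Ev g) : Ev (fun x => f x + g x) := fun e x => by
  show f (refl e x) + g (refl e x) = f x + g x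
  rw [hf, hg]

theorem Ev.sub {f g : (Fin d → ℤ) → ℝ} (hf : Ev f) (hg : Ev g) : Ev (fun x => f x - g x) := fun e x => by
  show f (refl e x) - g (refl e x) = f x - g x
  rw [hf, hg]

theorem Ev.const_mul {f : (Fin d → ℤ) → ℝ} (hf : Ev f) (c : ℝ) : Ev (fun x => c * f x) := fun e x => by
  show c * f (refl e x) = c * f x
  rw [hf]

theorem dot_refl (k : Fin d → ℝ) (e : Fin d) (x : Fin d → ℤ) : dot k (refl e x) = dot k x - 2 * (k e * x e) := by
  have h1 : dot k (refl e x) - dot k x = ∑ i, if i = e then -(2 * (k e * x e)) else 0 := by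
    unfold dot
    rw [← Finset.sum_sub_distrib]
    refine Finset.sum_congr rfl fun i _ => ?_
    by_cases h : i = e
    · rw [if_pos h, h, refl_self]
      push_cast
      ring
    · rw [if_neg h, refl_other h, sub_self]
  rw [Finset.sum_ite_eq' univ e, if_pos (Finset.mem_univ e)] at h1
  linarith

/-- the first derivative of the transform of an even function vanishes at `0` -/
theorem FT_mo_one_le {f : (Fin d → ℤ) → ℝ} (hf : Mo 2 f) (he : Ev f) (e : Fin d) (k : Fin d → ℝ) :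
    ‖FT (mo e 1 f) k‖ ≤ |k e| * ∑' x, (x e : ℝ) ^ 2 * |f x| := by
  have hs1 : S1 (mo e 1 f) := (Mo.mo (m := 1) (a := 1) hf e).s1
  have hs2 : S1 (mo e 2 f) := (Mo.mo (m := 0) (a := 2) hf e).s1
  have h0 : FT (mo e 1 f) k = ∑' x, (((refl e x e : ℝ) ^ 1 * f (refl e x) : ℝ) : ℂ) * ch k (refl e x) :=
    ((reflE e).tsum_eq (fun x => ((mo e 1 f x : ℝ) : ℂ) * ch k x)).symm
  have h1 : Summable fun x => (((refl e x e : ℝ) ^ 1 * f (refl e x) : ℝ) : ℂ) * ch k (refl e x) :=
    (reflE e).summable_iff.2 (hs1.ft k)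
  have h2 : 2 * FT (mo e 1 f) k = ∑' x, (((x e : ℝ) * f x : ℝ) : ℂ) * (ch k x - ch k (refl e x)) := by
    rw [two_mul]
    nth_rw 2 [h0]
    unfold FT
    rw [← (hs1.ft k).tsum_add h1]
    refine tsum_congr fun x => ?_
    rw [he, refl_self]
    unfold mo
    push_cast
    ring
  have h3 : ∀ x, ‖(((x e : ℝ) * f x : ℝ) : ℂ) * (ch k x - ch k (refl e x))‖ ≤ 2 * (|k e| * ((x e : ℝ) ^ 2 * |f x|)) := by
    intro x
    rw [norm_mul, Complex.norm_real, Real.norm_eq_abs, abs_mul]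
    have h4 : ‖ch k x - ch k (refl e x)‖ ≤ 2 * |k e| * |(x e : ℝ)| := by
      unfold ch
      have h5 : Complex.exp (dot k x * Complex.I) - Complex.exp (dot k (refl e x) * Complex.I) =
          Complex.exp (dot k (refl e x) * Complex.I) * (Complex.exp (Complex.I * (2 * (k e * x e) : ℝ)) - 1) := by
        rw [mul_sub, ← Complex.exp_add, mul_one, dot_refl]
        congr 2
        push_cast
        ring
      rw [h5, norm_mul, Complex.norm_exp_ofReal_mul_I, one_mul]
      refine (Real.norm_exp_I_mul_ofReal_sub_one_le).trans (le_of_eq ?_)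
      rw [Real.norm_eq_abs, abs_mul, abs_mul, abs_of_pos (by norm_num : (0 : ℝ) < 2)]
      ring
    calc |(x e : ℝ)| * |f x| * ‖ch k x - ch k (refl e x)‖ ≤ |(x e : ℝ)| * |f x| * (2 * |k e| * |(x e : ℝ)|) :=
          mul_le_mul_of_nonneg_left h4 (by positivity)
      _ = 2 * (|k e| * (|(x e : ℝ)| ^ 2 * |f x|)) := by ring
      _ = 2 * (|k e| * ((x e : ℝ) ^ 2 * |f x|)) := by rw [sq_abs]
  have h6 : Summable fun x : Fin d → ℤ => 2 * (|k e| * ((x e : ℝ) ^ 2 * |f x|)) := by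
    refine Summable.mul_left _ (Summable.mul_left _ (hs2.congr fun x => ?_))
    unfold mo
    rw [abs_mul, abs_of_nonneg (by positivity : (0 : ℝ) ≤ (x e : ℝ) ^ 2)]
  have h7 : ‖2 * FT (mo e 1 f) k‖ ≤ 2 * (|k e| * ∑' x, (x e : ℝ) ^ 2 * |f x|) := by
    rw [h2]
    refine (norm_tsum_le_tsum_norm (Summable.of_nonneg_of_le (fun _ => norm_nonneg _) h3 h6)).trans ?_
    refine (Summable.tsum_le_tsum h3 (Summable.of_nonneg_of_le (fun _ => norm_nonneg _) h3 h6) h6).trans (le_of_eq ?_)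
    rw [tsum_mul_left, tsum_mul_left]
  rw [norm_mul, Complex.norm_ofNat] at h7
  linarith

theorem norm_FT_mo_le (e : Fin d) (a : ℕ) {f : (Fin d → ℤ) → ℝ} (hf : Mo a f) (k : Fin d → ℝ) :
    ‖FT (mo e a f) k‖ ≤ ∑' x, |(x e : ℝ)| ^ a * |f x| := by
  refine (norm_FT_le (Mo.mo (m := 0) (a := a) (by rwa [zero_add]) e).s1 k).trans (le_of_eq ?_)
  refine tsum_congr fun x => ?_
  rw [mo, abs_mul, abs_pow]

end IPC.Fo
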