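import Mathlib
import Pool.Agent.Lib.MP_25e40f_pr.E.Mom

/-!
THIS JOB (MmtC): the theorems summable_inv lattice_tail.  (The header describes the whole group Mmt; the other theorems are in other jobs and may be imported.)

# Job Mmt: moments, even functions, lattice sums

PROOFS.
* `norm_pow_le_sum`: for `d = 0` the norm is `0` and `a ≥ 1`; otherwise the sup norm is attained at a coordinate
  (`pi_norm_le_iff...`, `Finset.exists_max_image`, or: `‖x‖ ≤ ` the maximal `|x e|`), single term ≤ sum.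
* `Mo_of_coord`: `(1 + |x|)^a ≤ 2^a (1 + |x|^a) ≤ 2^a (1 + ∑_e |x e|^a)` (a ≥ 1).
* `tsum_norm_le`: termwise `norm_pow_le_sum` and `Summable.tsum_finsetSum`.
* `Ev.neg`: the total reflection is the product of the coordinate reflections: prove by induction over a finset `s` of
  coordinates that `f (fun i => if i ∈ s then - x i else x i) = f x`.
* `FT_im_zero`, `FT_re_eq`: `conj (FT f k) = ∑ f x ch k (-x) = ∑ f (-x) ch k (-x) = FT f k` (`Equiv.neg`, `ch_neg`), and
  `re (ch k x) = cos (dot k x)` (`Complex.re_tsum` or `Complex.reCLM.map_tsum`).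
* `tsum_odd`: `∑ (x e)^a h x` with a odd and `h` invariant under the reflection in `e` is `0`: `reflE e` maps the sum to
  its negative (`Equiv.tsum_eq`; no summability needed).  `tsum_neg_odd`: the same with `x ↦ -x`: if `h (-x) = - h x` then
  `∑ h = 0`.
* `tail_le`: `(1+|x|)^k ≤ (1+|x|)^n / r^(n-k)` if `r ≤ |x|`, `0 < r`.
* `summable_inv`: `ZLattice.summable_norm_rpow` (Mathlib/Algebra/Module/ZLattice/Summable.lean) for the lattice of integer
  points in `Fin d → ℝ` (`Submodule.span ℤ (range (Pi.basisFun ℝ (Fin d)))`, rank `d`), or directly: the number of `x` with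
  `|x| = r` is at most `(2r+1)^d - (2r-1)^d ≤ 2d (2r+1)^(d-1)`; or: `(1+|x|)^(d+1) ≥ ∏ (1+|x i|)^((d+1)/d)` and the sum over
  `Fin d → ℤ` of a product is the product of the sums (induction on `d` with `Fin.consEquiv`,
  `Summable.mul_of_nonneg`; or through `MeasureTheory.Integrable.fintype_prod` with the counting measure).
* `lattice_tail`: on `r ≤ |x|`: `(1+|x|)^(-s) ≤ r^(-(s-d-1)) (1+|x|)^(-(d+1))`.
-/

set_option autoImplicit false

noncomputable section

open Finset MeasureTheory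

namespace IPC.Fo

variable {d : ℕ}

private def MmtC_emb (x : Fin d → ℤ) :
    (Submodule.span ℤ (Set.range (Pi.basisFun ℝ (Fin d))) : Submodule ℤ (Fin d → ℝ)) :=
  ⟨fun i => (x i : ℝ), by
    have h : (fun i => (x i : ℝ)) = ∑ i, x i • (Pi.basisFun ℝ (Fin d)) i := by
      funext j
      rw [Finset.sum_apply]
      rw [Finset.sum_eq_single j]
      · simp
      · intro b _ hb
        simp [Ne.symm hb]
      · simp
    rw [h]
    exact Submodule.sum_mem _ fun i _ => Submodule.smul_mem _ _ (Submodule.subset_span ⟨i, rfl⟩)⟩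

private theorem MmtC_emb_inj : Function.Injective (MmtC_emb (d := d)) := by
  intro x y h
  have h1 := congrArg Subtype.val h
  funext i
  have h2 : (x i : ℝ) = (y i : ℝ) := congrFun h1 i
  exact_mod_cast h2

private theorem MmtC_norm (x : Fin d → ℤ) : ‖MmtC_emb x‖ = ‖x‖ := by
  have h : ‖MmtC_emb x‖ = ‖fun i => (x i : ℝ)‖ := rfl
  rw [h]
  apply le_antisymm
  · rw [pi_norm_le_iff_of_nonneg (norm_nonneg _)]
    intro i
    have := norm_le_pi_norm x i
    rw [Int.norm_eq_abs] at this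
    rwa [Real.norm_eq_abs]
  · rw [pi_norm_le_iff_of_nonneg (norm_nonneg _)]
    intro i
    have := norm_le_pi_norm (fun i => (x i : ℝ)) i
    rw [Real.norm_eq_abs] at this
    rwa [Int.norm_eq_abs]

theorem summable_inv (d : ℕ) : Summable fun x : Fin d → ℤ => ((1 + ‖x‖) ^ (d + 1))⁻¹ := by
  have hr : Module.finrank ℤ (Submodule.span ℤ (Set.range (Pi.basisFun ℝ (Fin d)))
      : Submodule ℤ (Fin d → ℝ)) = d := by
    rw [ZLattice.rank ℝ]
    simp
  have h1 := ZLattice.summable_norm_pow_inv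
    (L := (Submodule.span ℤ (Set.range (Pi.basisFun ℝ (Fin d))) : Submodule ℤ (Fin d → ℝ))) (d + 1)
    (by rw [hr]; exact Nat.lt_succ_self d)
  have h2 := (h1.comp_injective (MmtC_emb_inj (d := d))).add (S1_del (d := d))
  refine Summable.of_nonneg_of_le (fun x => by positivity) (fun x => ?_) h2
  show ((1 + ‖x‖) ^ (d + 1))⁻¹ ≤ (‖MmtC_emb x‖⁻¹ ^ (d + 1) : ℝ) + |del d x|
  rw [MmtC_norm, inv_pow]
  by_cases hx : x = 0
  · subst hx
    simp [del]
  · have hx' : 0 < ‖x‖ := norm_pos_iff.mpr hx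
    have h3 : ((1 + ‖x‖) ^ (d + 1))⁻¹ ≤ (‖x‖ ^ (d + 1))⁻¹ := by
      apply inv_anti₀ (by positivity)
      exact pow_le_pow_left₀ hx'.le (by linarith) _
    linarith [abs_nonneg (del d x)]

theorem lattice_tail {s : ℕ} (hs : d + 1 ≤ s) {r : ℝ} (hr : 0 < r) :
    Summable (fun x : Fin d → ℤ => if r ≤ ‖x‖ then ((1 + ‖x‖) ^ s)⁻¹ else 0) ∧
    ∑' x : Fin d → ℤ, (if r ≤ ‖x‖ then ((1 + ‖x‖) ^ s)⁻¹ else 0) ≤
      (∑' x : Fin d → ℤ, ((1 + ‖x‖) ^ (d + 1))⁻¹) / r ^ (s - d - 1) := by
  have key : ∀ x : Fin d → ℤ, (if r ≤ ‖x‖ then ((1 + ‖x‖) ^ s)⁻¹ else 0) ≤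
      ((1 + ‖x‖) ^ (d + 1))⁻¹ / r ^ (s - d - 1) := by
    intro x
    have hn := norm_nonneg x
    split_ifs with h
    · have e : (1 + ‖x‖) ^ s = (1 + ‖x‖) ^ (d + 1) * (1 + ‖x‖) ^ (s - d - 1) := by
        rw [← pow_add]
        congr 1
        omega
      rw [e, mul_inv, div_eq_mul_inv]
      apply mul_le_mul_of_nonneg_left _ (by positivity)
      apply inv_anti₀ (by positivity)
      exact pow_le_pow_left₀ hr.le (by linarith) _
    · positivity
  have hnn : ∀ x : Fin d → ℤ, 0 ≤ (if r ≤ ‖x‖ then ((1 + ‖x‖) ^ s)⁻¹ else 0) := by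
    intro x
    split_ifs
    · positivity
    · exact le_refl _
  have hS := (summable_inv d).div_const (r ^ (s - d - 1))
  have hS1 := Summable.of_nonneg_of_le hnn key hS
  refine ⟨hS1, ?_⟩
  rw [← tsum_div_const]
  exact hS1.tsum_le_tsum key hS

end IPC.Fo
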