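import Mathlib
import Pool.Agent.Lib.MP_25e40f_pr.E.Mom

/-!
# Job Sg: the classes `Sg n s C` (singularity of order `s` at `0`)

`Sg n s C f`: the `a`-th derivatives of `FT f` in the coordinate directions, `a ≤ n`, are at most `C |k|^(-s-a)` on
the cube (`|k|` is the sup norm, `0 < |k| ≤ π`).

PROOFS.
* `Cu.norm_le`: `pi_norm_le_iff_of_nonneg`.
* `Sg.cv`: `mo_cv` (Leibniz), `FT_sum`, `FT_const_mul`, `FT_cv`; every summand is at most
  `(a choose b) C |k|^(-(s+b)) D |k|^(-(t+(a-b)))`, `zpow_add₀`, and `∑ (a choose b) = 2^a ≤ 2^n`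
  (`Finset.sum_choose...`: `Nat.sum_range_choose`).  The functions `cv (mo e b f) (mo e (a-b) g)` are `S1` by `Mo.mo`, `Mo.s1`,
  `S1.cv`, `S1.const_mul`.
* `Sg.up`: `|k|^(-(s+a)) = |k|^(-(t+a)) |k|^(t-s)` and `|k| ≤ π`.
* `Sg_of_mom`: `norm_FT_mo_le`, then `M = M |k|^a |k|^(-a) ≤ M π^n |k|^(-a)` (`1 ≤ π`).
* `Sg.add`, `Sg.sub`, `Sg.const_mul`: `mo e a (f + g) = mo e a f + mo e a g` pointwise (`ring`), `FT_add`, `FT_sub`,
  `FT_const_mul`.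
-/

set_option autoImplicit false

noncomputable section

open Finset MeasureTheory

namespace IPC.Fo

variable {d : ℕ}

/-- the cube `[-π, π]ᵈ` -/
def Cu (k : Fin d → ℝ) : Prop := ∀ i, |k i| ≤ Real.pi

/-- the transform and its first `n` derivatives in coordinate directions have a singularity of order `s` -/
def Sg (n : ℕ) (s : ℤ) (C : ℝ) (f : (Fin d → ℤ) → ℝ) : Prop :=
  ∀ (e : Fin d) (a : ℕ), a ≤ n → ∀ k : Fin d → ℝ, Cu k → k ≠ 0 →
    ‖FT (mo e a f) k‖ ≤ C * ‖k‖ ^ (-(s + a) : ℤ)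

theorem Cu.norm_le {k : Fin d → ℝ} (h : Cu k) : ‖k‖ ≤ Real.pi := by
  refine (pi_norm_le_iff_of_nonneg Real.pi_pos.le).2 fun i => ?_
  rw [Real.norm_eq_abs]
  exact h i

private theorem Sg_pos {k : Fin d → ℝ} (h : k ≠ 0) : 0 < ‖k‖ := norm_pos_iff.2 h

private theorem Sg_s1 {n b : ℕ} (e : Fin d) (hb : b ≤ n) {f : (Fin d → ℤ) → ℝ} (mf : Mo n f) : S1 (mo e b f) :=
  (Mo.mo (m := 0) (a := b) (mf.mono (by omega)) e).s1

theorem Sg.mono {n m : ℕ} {s : ℤ} {C D : ℝ} {f : (Fin d → ℤ) → ℝ} (h : Sg n s C f) (hm : m ≤ n) (hC : C ≤ D) :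
    Sg m s D f := by
  intro e a ha k hk h0
  exact (h e a (ha.trans hm) k hk h0).trans (mul_le_mul_of_nonneg_right hC (zpow_nonneg (norm_nonneg k) _))

theorem Sg.cv {n : ℕ} {s t : ℤ} {C D : ℝ} {f g : (Fin d → ℤ) → ℝ} (hf : Sg n s C f) (hg : Sg n t D g)
    (hC : 0 ≤ C) (hD : 0 ≤ D) (mf : Mo n f) (mg : Mo n g) : Sg n (s + t) (2 ^ n * C * D) (cv f g) := by
  intro e a ha k hk h0
  have hp := Sg_pos h0
  have hs1 : ∀ b ∈ range (a + 1), S1 (IPC.Fo.cv (IPC.Fo.mo e b f) (IPC.Fo.mo e (a - b) g)) := by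
    intro b hb
    have hb' : b ≤ a := Nat.lt_succ_iff.1 (mem_range.1 hb)
    exact S1.cv (Sg_s1 e (hb'.trans ha) mf) (Sg_s1 e ((Nat.sub_le a b).trans ha) mg)
  rw [mo_cv e a (mf.mono ha) (mg.mono ha), FT_sum (range (a + 1))
    (fun b x => (a.choose b : ℝ) * IPC.Fo.cv (IPC.Fo.mo e b f) (IPC.Fo.mo e (a - b) g) x)
    (fun b hb => (hs1 b hb).const_mul _) k]
  have hterm : ∀ b ∈ range (a + 1),
      ‖FT (fun x => (a.choose b : ℝ) * IPC.Fo.cv (IPC.Fo.mo e b f) (IPC.Fo.mo e (a - b) g) x) k‖ ≤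
        (a.choose b : ℝ) * (C * D * ‖k‖ ^ (-(s + t + a) : ℤ)) := by
    intro b hb
    have hb' : b ≤ a := Nat.lt_succ_iff.1 (mem_range.1 hb)
    rw [FT_const_mul, FT_cv (Sg_s1 e (hb'.trans ha) mf) (Sg_s1 e ((Nat.sub_le a b).trans ha) mg), norm_mul, norm_mul]
    have e1 : ‖((a.choose b : ℝ) : ℂ)‖ = (a.choose b : ℝ) := by
      rw [Complex.norm_real, Real.norm_eq_abs, abs_of_nonneg (Nat.cast_nonneg _)]
    rw [e1]
    refine mul_le_mul_of_nonneg_left ?_ (Nat.cast_nonneg _)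
    have h1 := hf e b (hb'.trans ha) k hk h0
    have h2 := hg e (a - b) ((Nat.sub_le a b).trans ha) k hk h0
    have e2 : (-(s + t + (a : ℤ))) = -(s + (b : ℤ)) + -(t + ((a - b : ℕ) : ℤ)) := by
      rw [Nat.cast_sub hb']
      ring
    calc ‖FT (IPC.Fo.mo e b f) k‖ * ‖FT (IPC.Fo.mo e (a - b) g) k‖
        ≤ (C * ‖k‖ ^ (-(s + b) : ℤ)) * (D * ‖k‖ ^ (-(t + ((a - b : ℕ) : ℤ)) : ℤ)) :=
          mul_le_mul h1 h2 (norm_nonneg _) (mul_nonneg hC (zpow_nonneg hp.le _))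
      _ = C * D * ‖k‖ ^ (-(s + t + a) : ℤ) := by
          rw [e2, zpow_add₀ hp.ne']
          ring
  refine (norm_sum_le _ _).trans ((sum_le_sum hterm).trans ?_)
  rw [← sum_mul]
  have e3 : ∑ b ∈ range (a + 1), (a.choose b : ℝ) = 2 ^ a := by
    have := Nat.sum_range_choose a
    exact_mod_cast this
  rw [e3, mul_assoc (2 ^ n), mul_assoc (2 ^ n)]
  exact mul_le_mul_of_nonneg_right (pow_le_pow_right₀ one_le_two ha)
    (mul_nonneg (mul_nonneg hC hD) (zpow_nonneg hp.le _))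

theorem Sg.up {n : ℕ} {s : ℤ} {C : ℝ} {f : (Fin d → ℤ) → ℝ} (h : Sg n s C f) (hC : 0 ≤ C) (j : ℕ) :
    Sg n (s + j) (C * Real.pi ^ j) f := by
  intro e a ha k hk h0
  have hp := Sg_pos h0
  refine (h e a ha k hk h0).trans ?_
  have e1 : (-(s + (a : ℤ))) = (j : ℤ) + -(s + j + (a : ℤ)) := by ring
  rw [e1, zpow_add₀ hp.ne', zpow_natCast, mul_assoc]
  refine mul_le_mul_of_nonneg_left ?_ hC
  exact mul_le_mul_of_nonneg_right (pow_le_pow_left₀ hp.le hk.norm_le j) (zpow_nonneg hp.le _)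

theorem Sg_of_mom {n : ℕ} {M : ℝ} {f : (Fin d → ℤ) → ℝ} (mf : Mo n f) (hM : 0 ≤ M)
    (h : ∀ (e : Fin d) (a : ℕ), a ≤ n → ∑' x, |(x e : ℝ)| ^ a * |f x| ≤ M) : Sg n 0 (M * Real.pi ^ n) f := by
  intro e a ha k hk h0
  have hp := Sg_pos h0
  have h1 : ‖FT (mo e a f) k‖ ≤ M := (norm_FT_mo_le e a (mf.mono ha) k).trans (h e a ha)
  refine h1.trans ?_
  have e1 : ‖k‖ ^ a * ‖k‖ ^ (-(0 + (a : ℤ))) = 1 := by
    rw [zero_add, zpow_neg, zpow_natCast]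
    exact mul_inv_cancel₀ (pow_ne_zero a hp.ne')
  have h2 : ‖k‖ ^ a ≤ Real.pi ^ n :=
    (pow_le_pow_left₀ hp.le hk.norm_le a).trans (pow_le_pow_right₀ (by linarith [Real.pi_gt_three]) ha)
  calc M = M * (‖k‖ ^ a * ‖k‖ ^ (-(0 + (a : ℤ)))) := by rw [e1, mul_one]
    _ ≤ M * (Real.pi ^ n * ‖k‖ ^ (-(0 + (a : ℤ)))) :=
        mul_le_mul_of_nonneg_left (mul_le_mul_of_nonneg_right h2 (zpow_nonneg hp.le _)) hM
    _ = M * Real.pi ^ n * ‖k‖ ^ (-(0 + (a : ℤ))) := by rw [mul_assoc]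

theorem Sg.add {n : ℕ} {s : ℤ} {C D : ℝ} {f g : (Fin d → ℤ) → ℝ} (hf : Sg n s C f) (hg : Sg n s D g)
    (mf : Mo n f) (mg : Mo n g) : Sg n s (C + D) (fun x => f x + g x) := by
  intro e a ha k hk h0
  have e1 : mo e a (fun x => f x + g x) = fun x => mo e a f x + mo e a g x := by
    funext x
    unfold mo
    ring
  rw [e1, FT_add (Sg_s1 e ha mf) (Sg_s1 e ha mg), add_mul]
  exact (norm_add_le _ _).trans (add_le_add (hf e a ha k hk h0) (hg e a ha k hk h0))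

theorem Sg.sub {n : ℕ} {s : ℤ} {C D : ℝ} {f g : (Fin d → ℤ) → ℝ} (hf : Sg n s C f) (hg : Sg n s D g)
    (mf : Mo n f) (mg : Mo n g) : Sg n s (C + D) (fun x => f x - g x) := by
  intro e a ha k hk h0
  have e1 : mo e a (fun x => f x - g x) = fun x => mo e a f x - mo e a g x := by
    funext x
    unfold mo
    ring
  rw [e1, FT_sub (Sg_s1 e ha mf) (Sg_s1 e ha mg), add_mul]
  exact (norm_sub_le _ _).trans (add_le_add (hf e a ha k hk h0) (hg e a ha k hk h0))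

theorem Sg.const_mul {n : ℕ} {s : ℤ} {C : ℝ} {f : (Fin d → ℤ) → ℝ} (hf : Sg n s C f) (c : ℝ) :
    Sg n s (|c| * C) (fun x => c * f x) := by
  intro e a ha k hk h0
  have e1 : mo e a (fun x => c * f x) = fun x => c * mo e a f x := by
    funext x
    unfold mo
    ring
  rw [e1, FT_const_mul, norm_mul, Complex.norm_real, Real.norm_eq_abs, mul_assoc]
  exact mul_le_mul_of_nonneg_left (hf e a ha k hk h0) (abs_nonneg c)

end IPC.Fo
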