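import Mathlib
import Pool.Agent.Lib.MP_25e40f_pr.E.Sg

/-!
THIS JOB (PowA): the theorems cv_assoc cv_del_left cv_del_right cv_add_left cv_sub_left cv_const_left cv_nonneg cv_mono cvp_zero cvp_succ cvp_one Mo_cvp S1_cvp FT_cvp cvp_add cvp_nonneg cvp_mono cvp_le_succ.  (The header describes the whole group Pow; the other theorems are in other jobs and may be imported.)

# Job Pow: convolution powers

PROOFS.
* `cv_assoc`, `cv_del_left`, `cv_add_left` etc.: by `FT_injective` and `FT_cv`, `FT_add`, `FT_del` (all functions are `S1`), `ring`.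
* `cv_nonneg`, `cv_mono`: termwise (`tsum_nonneg`, `Summable.tsum_le_tsum`, summability from `cv_summable_inner` and `of_abs`).
* `cvp`: induction on `j`.
* `Sg_cvp`: induction on `i`: `Sg n 0 1 (del d)` (for `a = 0`: `FT = 1`, `|k|^0 = 1`; for `a > 0`: `mo_del`, `FT_zero`), then
  `Sg.cv` gives `Sg n (2 + 2 i) (2^n * C * C_i)`.  Take the maximum of the finitely many constants (or
  `C' = (1 + 2^n * C)^j`, which dominates `(2^n*C)^i` for all `i ≤ j`).
* `cvp_sub`: `cvp (j+1) f - cvp (j+1) g = ∑_(i ≤ j) (f - g) * cvp i f * cvp (j - i) g`: by `FT_injective` this is the identity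
  `a^(j+1) - b^(j+1) = (a - b) ∑ a^i b^(j-i)` (`Commute.geom_sum₂_mul` or `geom_sum₂_mul`, watch the order of exponents).
-/

set_option autoImplicit false

noncomputable section

open Finset MeasureTheory

namespace IPC.Fo

variable {d : ℕ}

theorem cv_assoc {f g h : (Fin d → ℤ) → ℝ} (hf : S1 f) (hg : S1 g) (hh : S1 h) :
    cv (cv f g) h = cv f (cv g h) := by
  refine FT_injective ((hf.cv hg).cv hh) (hf.cv (hg.cv hh)) fun k => ?_
  rw [FT_cv (hf.cv hg) hh, FT_cv hf hg, FT_cv hf (hg.cv hh), FT_cv hg hh]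
  ring

theorem cv_del_left (f : (Fin d → ℤ) → ℝ) : cv (del d) f = f := by
  funext x
  unfold cv
  rw [tsum_eq_single 0]
  · unfold del
    rw [if_pos rfl, one_mul, sub_zero]
  · intro y hy
    unfold del
    rw [if_neg hy, zero_mul]

theorem cv_del_right (f : (Fin d → ℤ) → ℝ) : cv f (del d) = f := by
  rw [cv_comm, cv_del_left]

theorem cv_add_left {f g h : (Fin d → ℤ) → ℝ} (hf : S1 f) (hg : S1 g) (hh : S1 h) :
    cv (fun x => f x + g x) h = fun x => cv f h x + cv g h x := by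
  refine FT_injective ((hf.add hg).cv hh) ((hf.cv hh).add (hg.cv hh)) fun k => ?_
  rw [FT_cv (hf.add hg) hh, FT_add hf hg, FT_add (hf.cv hh) (hg.cv hh), FT_cv hf hh, FT_cv hg hh]
  ring

theorem cv_sub_left {f g h : (Fin d → ℤ) → ℝ} (hf : S1 f) (hg : S1 g) (hh : S1 h) :
    cv (fun x => f x - g x) h = fun x => cv f h x - cv g h x := by
  refine FT_injective ((hf.sub hg).cv hh) ((hf.cv hh).sub (hg.cv hh)) fun k => ?_
  rw [FT_cv (hf.sub hg) hh, FT_sub hf hg, FT_sub (hf.cv hh) (hg.cv hh), FT_cv hf hh, FT_cv hg hh]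
  ring

theorem cv_const_left (f h : (Fin d → ℤ) → ℝ) (c : ℝ) :
    cv (fun x => c * f x) h = fun x => c * cv f h x := by
  funext x
  unfold cv
  rw [← tsum_mul_left]
  exact tsum_congr fun y => mul_assoc _ _ _

theorem cv_nonneg {f g : (Fin d → ℤ) → ℝ} (hf : ∀ x, 0 ≤ f x) (hg : ∀ x, 0 ≤ g x) (x : Fin d → ℤ) :
    0 ≤ cv f g x := by
  unfold cv
  exact tsum_nonneg fun y => mul_nonneg (hf y) (hg _)

private theorem PowA_S1 {f g : (Fin d → ℤ) → ℝ} (hg : S1 g) (h0 : ∀ x, 0 ≤ f x) (h1 : ∀ x, f x ≤ g x) :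
    S1 f := by
  refine Summable.of_nonneg_of_le (fun x => abs_nonneg _) (fun x => ?_) hg
  rw [abs_of_nonneg (h0 x)]
  exact (h1 x).trans (le_abs_self _)

theorem cv_mono {f g f' g' : (Fin d → ℤ) → ℝ} (hf : S1 f') (hg : S1 g') (h0 : ∀ x, 0 ≤ f x) (h1 : ∀ x, 0 ≤ g x)
    (h2 : ∀ x, f x ≤ f' x) (h3 : ∀ x, g x ≤ g' x) (x : Fin d → ℤ) : cv f g x ≤ cv f' g' x := by
  unfold cv
  refine Summable.tsum_le_tsum (fun y => ?_) (cv_summable_inner (PowA_S1 hf h0 h2) (PowA_S1 hg h1 h3) x).of_abs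
    (cv_summable_inner hf hg x).of_abs
  exact mul_le_mul (h2 y) (h3 _) (h1 _) ((h0 y).trans (h2 y))

/-- convolution powers -/
def cvp (f : (Fin d → ℤ) → ℝ) : ℕ → (Fin d → ℤ) → ℝ
  | 0 => del d
  | j + 1 => cv f (cvp f j)

theorem cvp_zero (f : (Fin d → ℤ) → ℝ) : cvp f 0 = del d := rfl

theorem cvp_succ (f : (Fin d → ℤ) → ℝ) (j : ℕ) : cvp f (j + 1) = cv f (cvp f j) := rfl

theorem cvp_one (f : (Fin d → ℤ) → ℝ) : cvp f 1 = f := by
  rw [cvp_succ, cvp_zero, cv_del_right]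

theorem Mo_cvp {m : ℕ} {f : (Fin d → ℤ) → ℝ} (hf : Mo m f) (j : ℕ) : Mo m (cvp f j) := by
  induction j with
  | zero => exact Mo_del m
  | succ j ih => exact hf.cv ih

theorem S1_cvp {f : (Fin d → ℤ) → ℝ} (hf : S1 f) (j : ℕ) : S1 (cvp f j) := by
  induction j with
  | zero => exact S1_del
  | succ j ih => exact hf.cv ih

theorem FT_cvp {f : (Fin d → ℤ) → ℝ} (hf : S1 f) (j : ℕ) (k : Fin d → ℝ) : FT (cvp f j) k = FT f k ^ j := by
  induction j with
  | zero => rw [cvp_zero, FT_del, pow_zero]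
  | succ j ih => rw [cvp_succ, FT_cv hf (S1_cvp hf j), ih, pow_succ']

theorem cvp_add {f : (Fin d → ℤ) → ℝ} (hf : S1 f) (i j : ℕ) : cvp f (i + j) = cv (cvp f i) (cvp f j) := by
  refine FT_injective (S1_cvp hf _) ((S1_cvp hf i).cv (S1_cvp hf j)) fun k => ?_
  rw [FT_cv (S1_cvp hf i) (S1_cvp hf j), FT_cvp hf, FT_cvp hf, FT_cvp hf, pow_add]

private theorem PowA_del (x : Fin d → ℤ) : 0 ≤ del d x := by
  unfold del
  split_ifs
  · exact zero_le_one
  · exact le_rfl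

theorem cvp_nonneg {f : (Fin d → ℤ) → ℝ} (hf : ∀ x, 0 ≤ f x) (j : ℕ) (x : Fin d → ℤ) : 0 ≤ cvp f j x := by
  induction j generalizing x with
  | zero => exact PowA_del x
  | succ j ih => exact cv_nonneg hf ih x

theorem cvp_mono {f g : (Fin d → ℤ) → ℝ} (hg : S1 g) (h0 : ∀ x, 0 ≤ f x) (h1 : ∀ x, f x ≤ g x) (j : ℕ)
    (x : Fin d → ℤ) : cvp f j x ≤ cvp g j x := by
  induction j generalizing x with
  | zero => exact le_rfl
  | succ j ih => exact cv_mono hg (S1_cvp hg j) h0 (cvp_nonneg h0 j) h1 ih x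

/-- if `f 0 ≥ 1` the powers are nondecreasing -/
theorem cvp_le_succ {f : (Fin d → ℤ) → ℝ} (hf : S1 f) (h0 : ∀ x, 0 ≤ f x) (h1 : 1 ≤ f 0) (j : ℕ)
    (x : Fin d → ℤ) : cvp f j x ≤ cvp f (j + 1) x := by
  have h2 : ∀ y, del d y ≤ f y := by
    intro y
    unfold del
    split_ifs with hy
    · rw [hy]
      exact h1
    · exact h0 y
  have h3 := cv_mono hf (S1_cvp hf j) PowA_del (cvp_nonneg h0 j) h2 (fun _ => le_rfl) x
  rw [cv_del_left] at h3
  exact h3

end IPC.Fo
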