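import Mathlib
import Pool.Agent.Lib.MP_25e40f_pr.E.Sg
import Pool.Agent.Lib.MP_25e40f_pr.E.PowA

/-!
THIS JOB (PowB): the theorems Sg_del Sg_cvp cvp_sub.  (The header describes the whole group Pow; the other theorems are in other jobs and may be imported.)

# Job Pow: convolution powers

PROOFS.
* `cv_assoc`, `cv_del_left`, `cv_add_left` etc.: by `FT_injective` and `FT_cv`, `FT_add`, `FT_del` (all functions are `S1`), `ring`.
* `cv_nonneg`, `cv_mono`: termwise (`tsum_nonneg`, `Summable.tsum_le_tsum`, summability from `cv_summable_inner` and `of_abs`).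
* `cvp`: induction on `j`.
* `Sg_cvp`: induction on `i`: `Sg n 0 1 (del d)` (for `a = 0`: `FT = 1`, `|k|^0 = 1`; for `a > 0`: `mo_del`, `FT_zero`), then
  `Sg.cv` gives `Sg n (2 + 2 i) (2^n * C * C_i)`.  Take the maximum of the finitely many constants (or
  `C' = (1 + 2^n * C)^j`, which dominates `(2^n*C)^i` for all `i ≤ j`).
* `cvp_sub`: `cvp (j+1) f - cvp (j+1) g = ∑_(i ≤ j) (f - g) * cvp i f * cvp (j - i) g`: by `FT_injective` this is the identity
  `a^(j+1) - b^(j+1) = (a - b) ∑ a^i b^(j-i)` (`Commute.geom_sum₂_mul` or `geom_sum₂_mul`, watch the order of exponents).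
-/

set_option autoImplicit false

noncomputable section

open Finset MeasureTheory

namespace IPC.Fo

variable {d : ℕ}

theorem Sg_del (n : ℕ) : Sg n 0 1 (del d) := by
  intro e a _ k _ _
  rcases Nat.eq_zero_or_pos a with h | h
  · subst h
    rw [mo_zero, FT_del]
    simp
  · rw [mo_del e h, FT_zero, norm_zero]
    positivity

theorem Sg_cvp (d n j : ℕ) (C : ℝ) (hC : 0 ≤ C) : ∃ C', 0 ≤ C' ∧ ∀ f : (Fin d → ℤ) → ℝ, Mo n f → Sg n 2 C f →
    ∀ i ≤ j, Sg n ((2 * i : ℕ) : ℤ) C' (cvp f i) := by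
  have hA : 0 ≤ 2 ^ n * C := by positivity
  refine ⟨(1 + 2 ^ n * C) ^ j, by positivity, fun f mf hf => ?_⟩
  have h1 : ∀ i : ℕ, Sg n ((2 * i : ℕ) : ℤ) ((2 ^ n * C) ^ i) (cvp f i) := by
    intro i
    induction i with
    | zero =>
      have h2 := Sg_del (d := d) n
      simpa [cvp_zero] using h2
    | succ i ih =>
      have h3 := Sg.cv hf ih hC (pow_nonneg hA i) mf (Mo_cvp mf i)
      have h4 : ((2 * (i + 1) : ℕ) : ℤ) = 2 + ((2 * i : ℕ) : ℤ) := by
        push_cast
        ring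
      rw [h4, cvp_succ, pow_succ']
      exact h3
  intro i hi
  refine (h1 i).mono le_rfl ?_
  exact (pow_le_pow_left₀ hA (by linarith) i).trans (pow_le_pow_right₀ (by linarith) hi)

theorem cvp_sub {f g : (Fin d → ℤ) → ℝ} (hf : S1 f) (hg : S1 g) (j : ℕ) (x : Fin d → ℤ) :
    cvp f (j + 1) x - cvp g (j + 1) x =
      ∑ i ∈ range (j + 1), cv (fun y => f y - g y) (cv (cvp f i) (cvp g (j - i))) x := by
  have hs : S1 (fun y => f y - g y) := hf.sub hg
  have hi : ∀ i : ℕ, S1 (cv (cvp f i) (cvp g (j - i))) := fun i => (S1_cvp hf i).cv (S1_cvp hg (j - i))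
  have hc : ∀ i ∈ range (j + 1), S1 (fun y => cv (fun y => f y - g y) (cv (cvp f i) (cvp g (j - i))) y) :=
    fun i _ => hs.cv (hi i)
  have h := FT_injective (f := fun x => cvp f (j + 1) x - cvp g (j + 1) x)
    (g := fun x => ∑ i ∈ range (j + 1), cv (fun y => f y - g y) (cv (cvp f i) (cvp g (j - i))) x)
    ((S1_cvp hf (j + 1)).sub (S1_cvp hg (j + 1))) (S1_sum _ _ hc) ?_
  · exact congrFun h x
  · intro k
    rw [FT_sub (S1_cvp hf (j + 1)) (S1_cvp hg (j + 1)), FT_cvp hf, FT_cvp hg, FT_sum _ _ hc]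
    have h2 : ∀ i ∈ range (j + 1), FT (fun y => cv (fun y => f y - g y) (cv (cvp f i) (cvp g (j - i))) y) k =
        (FT f k - FT g k) * (FT f k ^ i * FT g k ^ (j - i)) := by
      intro i _
      have h3 : FT (cv (fun y => f y - g y) (cv (cvp f i) (cvp g (j - i)))) k =
          (FT f k - FT g k) * (FT f k ^ i * FT g k ^ (j - i)) := by
        rw [FT_cv hs (hi i), FT_cv (S1_cvp hf i) (S1_cvp hg (j - i)), FT_sub hf hg, FT_cvp hf, FT_cvp hg]
      exact h3
    rw [Finset.sum_congr rfl h2, ← Finset.mul_sum]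
    have h4 := (Commute.all (FT f k) (FT g k)).mul_geom_sum₂ (j + 1)
    simp only [Nat.add_sub_cancel] at h4
    exact h4.symm

end IPC.Fo
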