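import Mathlib
import Pool.Agent.Lib.MP_25e40f_pr.E.PowB

/-!
THIS JOB (ChnA): the theorems chn_zero chn_succ chn_nonneg chn_mono chn_le box_one.  (The header describes the whole group BoxA; the other theorems are in other jobs and may be imported.)

# Job BoxA: finite chains and convolution powers

`chn T B j x y` is the sum over `z_1, ..., z_j ∈ B` of `T x z_1 * T z_1 z_2 * ... * T z_j y`.

PROOF of `chn_le`: induction on `j`: `cvp T (j+2) (y-x) = ∑'_z T(z-x) cvp T (j+1) (y-z)` (definition of `cv`, substitution `z ↦ z - x`) and a finite subsum of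
a nonnegative series is at most the sum.

PROOF of `box_one`, induction on `j`.  `j = 0`: `cvp T 1 = T` (`cvp_one`), equality.  Step: `cvp T (j+2) (y-x) = ∑'_z T(z-x) cvp T (j+1) (y-z)
= ∑_(z ∈ B) + ∑'_(z ∉ B)`.  The second part is the term `i = 0` of the right side for `j + 1` (`cvp T 1 = T`).  In the first part insert the
induction hypothesis (for `z, y`): `∑_(z ∈ B) T(z-x) chn .. j z y = chn .. (j+1) x y` and
`∑_(z ∈ B) T(z-x) ∑'_(z' ∉ B) cvp T (i+1) (z'-z) cvp T (j-i) (y-z') ≤ ∑'_(z' ∉ B) cvp T (i+2) (z'-x) cvp T (j-i) (y-z')`, the term `i + 1`.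

PROOF of `box_two`, induction on `j` for all `x, y ∈ B`.  `j = 0`: hypothesis.  Step: `chn T B (j+1) x y = ∑_(z ∈ B) T(z-x) chn T B j z y
≤ ∑_(z ∈ B) TB x z chn T B j z y + ∑_(w ∈ S) T(w-x) ∑_(z ∈ B) T(z-w) chn T B j z y`.  The last sum is at most `∑_(w ∈ S) cvp T 1 (w-x) cvp T (j+2) (y-w)`
(`chn_le`, term `i = 0`).  For the first, induction hypothesis and `0 ≤ TB x z ≤ T(z-x)`:
`∑_(z ∈ B) TB x z chn TB B j z y + ∑_i ∑_(w ∈ S) (∑_z T(z-x) cvp T (i+1) (w-z)) cvp T (j+1-i) (y-w)`, which is at most `chn TB B (j+1) x y` + the terms `i + 1`.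
-/

set_option autoImplicit false

noncomputable section

open Finset MeasureTheory

namespace IPC.Fo

variable {d : ℕ}

/-- chains of `j + 1` steps with intermediate points in `B` -/
def chn {V : Type} (T : V → V → ℝ) (B : Finset V) : ℕ → V → V → ℝ
  | 0 => T
  | j + 1 => fun x y => ∑ z ∈ B, T x z * chn T B j z y

theorem chn_zero {V : Type} (T : V → V → ℝ) (B : Finset V) (x y : V) : chn T B 0 x y = T x y := rfl

theorem chn_succ {V : Type} (T : V → V → ℝ) (B : Finset V) (j : ℕ) (x y : V) :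
    chn T B (j + 1) x y = ∑ z ∈ B, T x z * chn T B j z y := rfl

theorem chn_nonneg {V : Type} {T : V → V → ℝ} {B : Finset V} (h : ∀ u v, 0 ≤ T u v) (j : ℕ) (x y : V) :
    0 ≤ chn T B j x y := by
  induction j generalizing x with
  | zero => exact h x y
  | succ j ih =>
    rw [chn_succ]
    exact Finset.sum_nonneg fun z _ => mul_nonneg (h x z) (ih z)

theorem chn_mono {V : Type} {T T' : V → V → ℝ} {B : Finset V} (h0 : ∀ u ∈ B, ∀ v ∈ B, 0 ≤ T u v)
    (h : ∀ u ∈ B, ∀ v ∈ B, T u v ≤ T' u v) (j : ℕ) {x y : V} (hx : x ∈ B) (hy : y ∈ B) :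
    chn T B j x y ≤ chn T' B j x y := by
  have key : ∀ (j : ℕ) (x : V), x ∈ B → 0 ≤ chn T B j x y ∧ chn T B j x y ≤ chn T' B j x y := by
    intro j
    induction j with
    | zero => exact fun x hx => ⟨h0 x hx y hy, h x hx y hy⟩
    | succ j ih =>
      intro x hx
      rw [chn_succ, chn_succ]
      refine ⟨Finset.sum_nonneg fun z hz => mul_nonneg (h0 x hx z hz) (ih z hz).1,
        Finset.sum_le_sum fun z hz => ?_⟩
      exact mul_le_mul (h x hx z hz) (ih z hz).2 (ih z hz).1 ((h0 x hx z hz).trans (h x hx z hz))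
  exact (key j x hx).2

theorem chnA_sm {f g : (Fin d → ℤ) → ℝ} (hf : S1 f) (hg : S1 g) (x y : Fin d → ℤ) :
    Summable fun z => f (z - x) * g (y - z) := by
  have h1 : Summable fun u => f u * g (y - x - u) := (cv_summable_inner hf hg (y - x)).of_abs
  refine ((Equiv.subRight x).summable_iff.2 h1).congr fun z => ?_
  change f (z - x) * g (y - x - (z - x)) = _
  rw [show y - x - (z - x) = y - z by abel]

theorem chnA_shift (f g : (Fin d → ℤ) → ℝ) (x y : Fin d → ℤ) :
    cv f g (y - x) = ∑' z, f (z - x) * g (y - z) := by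
  unfold cv
  rw [← (Equiv.subRight x).tsum_eq]
  refine tsum_congr fun z => ?_
  change f (z - x) * g (y - x - (z - x)) = _
  rw [show y - x - (z - x) = y - z by abel]

theorem chnA_split {F : (Fin d → ℤ) → ℝ} (hF : Summable F) (B : Finset (Fin d → ℤ)) :
    (Summable fun z => if z ∈ B then 0 else F z) ∧
      ∑' z, F z = ∑ z ∈ B, F z + ∑' z, (if z ∈ B then 0 else F z) := by
  have h1 : Summable fun z => if z ∈ B then F z else 0 :=
    summable_of_ne_finset_zero (s := B) fun z hz => if_neg hz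
  have h2 : Summable fun z => if z ∈ B then 0 else F z := by
    refine (hF.sub h1).congr fun z => ?_
    by_cases hz : z ∈ B
    · rw [if_pos hz, if_pos hz, sub_self]
    · rw [if_neg hz, if_neg hz, sub_zero]
  refine ⟨h2, ?_⟩
  have h3 : ∑' z, (if z ∈ B then F z else 0) = ∑ z ∈ B, F z := by
    rw [tsum_eq_sum (s := B) fun z hz => if_neg hz]
    exact Finset.sum_congr rfl fun z hz => if_pos hz
  rw [← h3, ← h1.tsum_add h2]
  refine tsum_congr fun z => ?_
  by_cases hz : z ∈ B
  · rw [if_pos hz, if_pos hz, add_zero]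
  · rw [if_neg hz, if_neg hz, zero_add]

theorem chn_le {T : (Fin d → ℤ) → ℝ} (hT : S1 T) (h0 : ∀ x, 0 ≤ T x) (B : Finset (Fin d → ℤ)) (j : ℕ)
    (x y : Fin d → ℤ) : chn (fun u v => T (v - u)) B j x y ≤ cvp T (j + 1) (y - x) := by
  induction j generalizing x with
  | zero => exact le_of_eq (by rw [chn_zero, cvp_one])
  | succ j ih =>
    rw [chn_succ, cvp_succ, chnA_shift]
    refine (Finset.sum_le_sum fun z _ => mul_le_mul_of_nonneg_left (ih z) (h0 (z - x))).trans ?_
    exact Summable.sum_le_tsum B (fun z _ => mul_nonneg (h0 _) (cvp_nonneg h0 _ _))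
      (chnA_sm hT (S1_cvp hT (j + 1)) x y)

theorem box_one {T : (Fin d → ℤ) → ℝ} (hT : S1 T) (h0 : ∀ x, 0 ≤ T x) (B : Finset (Fin d → ℤ)) (j : ℕ)
    (x y : Fin d → ℤ) : cvp T (j + 1) (y - x) ≤ chn (fun u v => T (v - u)) B j x y +
      ∑ i ∈ range j, ∑' z, (if z ∈ B then 0 else cvp T (i + 1) (z - x) * cvp T (j - i) (y - z)) := by
  induction j generalizing x with
  | zero =>
    rw [Finset.range_zero, Finset.sum_empty, add_zero, chn_zero, cvp_one]
  | succ j ih =>
    have hs : ∀ a b (x y : Fin d → ℤ), Summable fun z => cvp T a (z - x) * cvp T b (y - z) := fun a b x y =>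
      chnA_sm (S1_cvp hT a) (S1_cvp hT b) x y
    have hs' : ∀ a b (x y : Fin d → ℤ), Summable fun z => if z ∈ B then 0 else cvp T a (z - x) * cvp T b (y - z) :=
      fun a b x y => (chnA_split (hs a b x y) B).1
    have hn : ∀ a (x : Fin d → ℤ), 0 ≤ cvp T a x := fun a x => cvp_nonneg h0 a x
    rw [cvp_succ, chnA_shift, (chnA_split (chnA_sm hT (S1_cvp hT (j + 1)) x y) B).2, chn_succ,
      Finset.sum_range_succ']
    have e0 : ∑' z, (if z ∈ B then 0 else cvp T (0 + 1) (z - x) * cvp T (j + 1 - 0) (y - z)) =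
        ∑' z, (if z ∈ B then 0 else T (z - x) * cvp T (j + 1) (y - z)) := by
      refine tsum_congr fun z => ?_
      rw [zero_add, cvp_one, Nat.sub_zero]
    rw [e0]
    have e1 : ∑ z ∈ B, T (z - x) * cvp T (j + 1) (y - z) ≤
        ∑ z ∈ B, T (z - x) * chn (fun u v => T (v - u)) B j z y +
        ∑ i ∈ range j, ∑' z, (if z ∈ B then 0 else
          cvp T (i + 1 + 1) (z - x) * cvp T (j + 1 - (i + 1)) (y - z)) := by
      have e2 : ∑ z ∈ B, T (z - x) * cvp T (j + 1) (y - z) ≤ ∑ z ∈ B, (T (z - x) *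
          chn (fun u v => T (v - u)) B j z y + ∑ i ∈ range j, ∑' w, (if w ∈ B then 0 else
            T (z - x) * cvp T (i + 1) (w - z) * cvp T (j - i) (y - w))) := by
        refine Finset.sum_le_sum fun z _ => ?_
        refine (mul_le_mul_of_nonneg_left (ih z) (h0 (z - x))).trans (le_of_eq ?_)
        rw [mul_add, Finset.mul_sum]
        congr 1
        refine Finset.sum_congr rfl fun i _ => ?_
        rw [← tsum_mul_left]
        refine tsum_congr fun w => ?_
        by_cases hw : w ∈ B
        · rw [if_pos hw, if_pos hw, mul_zero]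
        · rw [if_neg hw, if_neg hw, mul_assoc]
      refine e2.trans ?_
      rw [Finset.sum_add_distrib, Finset.sum_comm]
      refine add_le_add le_rfl (Finset.sum_le_sum fun i _ => ?_)
      have e3 : ∀ z ∈ B, Summable fun w => if w ∈ B then 0 else
          T (z - x) * cvp T (i + 1) (w - z) * cvp T (j - i) (y - w) := by
        intro z _
        refine ((hs' (i + 1) (j - i) z y).mul_left (T (z - x))).congr fun w => ?_
        by_cases hw : w ∈ B
        · rw [if_pos hw, if_pos hw, mul_zero]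
        · rw [if_neg hw, if_neg hw, mul_assoc]
      rw [← Summable.tsum_finsetSum e3, Nat.add_sub_add_right]
      refine Summable.tsum_le_tsum (fun w => ?_) (summable_sum e3) (hs' _ _ x y)
      by_cases hw : w ∈ B
      · simp only [if_pos hw, Finset.sum_const_zero]
        exact le_rfl
      · simp only [if_neg hw]
        rw [← Finset.sum_mul]
        refine mul_le_mul_of_nonneg_right ?_ (hn _ _)
        rw [cvp_succ T (i + 1), chnA_shift]
        exact Summable.sum_le_tsum B (fun z _ => mul_nonneg (h0 _) (hn _ _))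
          (chnA_sm hT (S1_cvp hT (i + 1)) x w)
    linarith [e1]

end IPC.Fo
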