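import Mathlib
import Pool.Agent.Lib.MP_25e40f_pr.E.PowB
import Pool.Agent.Lib.MP_25e40f_pr.E.ChnA

/-!
THIS JOB (ChnB): the theorems box_two.  (The header describes the whole group BoxA; the other theorems are in other jobs and may be imported.)

# Job BoxA: finite chains and convolution powers

`chn T B j x y` is the sum over `z_1, ..., z_j ∈ B` of `T x z_1 * T z_1 z_2 * ... * T z_j y`.

PROOF of `chn_le`: induction on `j`: `cvp T (j+2) (y-x) = ∑'_z T(z-x) cvp T (j+1) (y-z)` (definition of `cv`, substitution `z ↦ z - x`) and a finite subsum of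
a nonnegative series is at most the sum.

PROOF of `box_one`, induction on `j`.  `j = 0`: `cvp T 1 = T` (`cvp_one`), equality.  Step: `cvp T (j+2) (y-x) = ∑'_z T(z-x) cvp T (j+1) (y-z)
= ∑_(z ∈ B) + ∑'_(z ∉ B)`.  The second part is the term `i = 0` of the right side for `j + 1` (`cvp T 1 = T`).  In the first part insert the
induction hypothesis (for `z, y`): `∑_(z ∈ B) T(z-x) chn .. j z y = chn .. (j+1) x y` and
`∑_(z ∈ B) T(z-x) ∑'_(z' ∉ B) cvp T (i+1) (z'-z) cvp T (j-i) (y-z') ≤ ∑'_(z' ∉ B) cvp T (i+2) (z'-x) cvp T (j-i) (y-z')`, the term `i + 1`.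

PROOF of `box_two`, induction on `j` for all `x, y ∈ B`.  `j = 0`: hypothesis.  Step: `chn T B (j+1) x y = ∑_(z ∈ B) T(z-x) chn T B j z y
≤ ∑_(z ∈ B) TB x z chn T B j z y + ∑_(w ∈ S) T(w-x) ∑_(z ∈ B) T(z-w) chn T B j z y`.  The last sum is at most `∑_(w ∈ S) cvp T 1 (w-x) cvp T (j+2) (y-w)`
(`chn_le`, term `i = 0`).  For the first, induction hypothesis and `0 ≤ TB x z ≤ T(z-x)`:
`∑_(z ∈ B) TB x z chn TB B j z y + ∑_i ∑_(w ∈ S) (∑_z T(z-x) cvp T (i+1) (w-z)) cvp T (j+1-i) (y-w)`, which is at most `chn TB B (j+1) x y` + the terms `i + 1`.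
-/

set_option autoImplicit false

noncomputable section

open Finset MeasureTheory

namespace IPC.Fo

variable {d : ℕ}

theorem chnB_sm {f g : (Fin d → ℤ) → ℝ} (hf : S1 f) (hg : S1 g) (x y : Fin d → ℤ) :
    Summable fun z => f (z - x) * g (y - z) := by
  have h1 : Summable fun u => f u * g (y - x - u) := (cv_summable_inner hf hg (y - x)).of_abs
  refine ((Equiv.subRight x).summable_iff.2 h1).congr fun z => ?_
  change f (z - x) * g (y - x - (z - x)) = _
  rw [show y - x - (z - x) = y - z by abel]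

theorem chnB_shift (f g : (Fin d → ℤ) → ℝ) (x y : Fin d → ℤ) :
    cv f g (y - x) = ∑' z, f (z - x) * g (y - z) := by
  unfold cv
  rw [← (Equiv.subRight x).tsum_eq]
  refine tsum_congr fun z => ?_
  change f (z - x) * g (y - x - (z - x)) = _
  rw [show y - x - (z - x) = y - z by abel]

theorem box_two {T : (Fin d → ℤ) → ℝ} (hT : S1 T) (h0 : ∀ x, 0 ≤ T x) {TB : (Fin d → ℤ) → (Fin d → ℤ) → ℝ}
    {B S : Finset (Fin d → ℤ)} (h : ∀ u ∈ B, ∀ v ∈ B, 0 ≤ TB u v ∧ TB u v ≤ T (v - u) ∧
      T (v - u) ≤ TB u v + ∑ w ∈ S, T (w - u) * T (v - w)) (j : ℕ) {x y : Fin d → ℤ} (hx : x ∈ B) (hy : y ∈ B) :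
    chn (fun u v => T (v - u)) B j x y ≤ chn TB B j x y +
      ∑ i ∈ range (j + 1), ∑ w ∈ S, cvp T (i + 1) (w - x) * cvp T (j + 1 - i) (y - w) := by
  have hn : ∀ a (x : Fin d → ℤ), 0 ≤ cvp T a x := fun a x => cvp_nonneg h0 a x
  induction j generalizing x with
  | zero =>
    rw [chn_zero, chn_zero, zero_add, Finset.range_one, Finset.sum_singleton]
    refine (h x hx y hy).2.2.trans (le_of_eq ?_)
    congr 1
    refine Finset.sum_congr rfl fun w _ => ?_
    rw [zero_add, Nat.sub_zero, cvp_one]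
  | succ j ih =>
    have hc : ∀ z, 0 ≤ chn (fun u v => T (v - u)) B j z y := fun z => chn_nonneg (fun u v => h0 _) j z y
    have e1 : chn (fun u v => T (v - u)) B (j + 1) x y ≤
        ∑ z ∈ B, TB x z * chn (fun u v => T (v - u)) B j z y +
        ∑ w ∈ S, cvp T (0 + 1) (w - x) * cvp T (j + 1 + 1 - 0) (y - w) := by
      rw [chn_succ]
      have e2 : ∑ z ∈ B, T (z - x) * chn (fun u v => T (v - u)) B j z y ≤
          ∑ z ∈ B, (TB x z * chn (fun u v => T (v - u)) B j z y +
            ∑ w ∈ S, T (w - x) * (T (z - w) * chn (fun u v => T (v - u)) B j z y)) := by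
        refine Finset.sum_le_sum fun z hz => ?_
        refine (mul_le_mul_of_nonneg_right (h x hx z hz).2.2 (hc z)).trans (le_of_eq ?_)
        rw [add_mul, Finset.sum_mul]
        congr 1
        exact Finset.sum_congr rfl fun w _ => mul_assoc _ _ _
      refine e2.trans ?_
      rw [Finset.sum_add_distrib, Finset.sum_comm]
      refine add_le_add le_rfl (Finset.sum_le_sum fun w _ => ?_)
      rw [← Finset.mul_sum, zero_add, Nat.sub_zero, cvp_one]
      refine mul_le_mul_of_nonneg_left ?_ (h0 _)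
      exact chn_le hT h0 B (j + 1) w y
    have e3 : ∑ z ∈ B, TB x z * chn (fun u v => T (v - u)) B j z y ≤ chn TB B (j + 1) x y +
        ∑ i ∈ range (j + 1), ∑ w ∈ S, cvp T (i + 1 + 1) (w - x) * cvp T (j + 1 + 1 - (i + 1)) (y - w) := by
      have e4 : ∑ z ∈ B, TB x z * chn (fun u v => T (v - u)) B j z y ≤ ∑ z ∈ B, (TB x z * chn TB B j z y +
          ∑ i ∈ range (j + 1), ∑ w ∈ S, TB x z * (cvp T (i + 1) (w - z) * cvp T (j + 1 - i) (y - w))) := by
        refine Finset.sum_le_sum fun z hz => ?_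
        refine (mul_le_mul_of_nonneg_left (ih hz) (h x hx z hz).1).trans (le_of_eq ?_)
        rw [mul_add, Finset.mul_sum]
        congr 1
        exact Finset.sum_congr rfl fun i _ => Finset.mul_sum _ _ _
      refine e4.trans ?_
      rw [Finset.sum_add_distrib, Finset.sum_comm, ← chn_succ]
      refine add_le_add le_rfl (Finset.sum_le_sum fun i _ => ?_)
      rw [Finset.sum_comm, Nat.add_sub_add_right]
      refine Finset.sum_le_sum fun w _ => ?_
      have e5 : ∑ z ∈ B, TB x z * (cvp T (i + 1) (w - z) * cvp T (j + 1 - i) (y - w)) =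
          (∑ z ∈ B, TB x z * cvp T (i + 1) (w - z)) * cvp T (j + 1 - i) (y - w) := by
        rw [Finset.sum_mul]
        exact Finset.sum_congr rfl fun z _ => (mul_assoc _ _ _).symm
      rw [e5]
      refine mul_le_mul_of_nonneg_right ?_ (hn _ _)
      rw [cvp_succ T (i + 1), chnB_shift]
      refine (Finset.sum_le_sum fun z hz => mul_le_mul_of_nonneg_right (h x hx z hz).2.1 (hn _ _)).trans ?_
      exact Summable.sum_le_tsum B (fun z _ => mul_nonneg (h0 _) (hn _ _))
        (chnB_sm hT (S1_cvp hT (i + 1)) x w)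
    rw [Finset.sum_range_succ']
    linarith [e1, e3]

end IPC.Fo
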