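import Mathlib
import Pool.Agent.Lib.MP_25e40f_pr.E.Sg

/-!
# Job Der: the inverse of a good function has a singularity of order 2

PROOF.  `cv W V = del`.  `FT W k * FT V k = 1` (`FT_cv`, `FT_del`), so `‖FT V k‖ ≤ (c |k|²)⁻¹`
(`c |k|² ≤ re (FT W k) ≤ ‖FT W k‖`).  For `1 ≤ a ≤ n` apply `mo e a` to `cv W V = del`: by `mo_cv`, `mo_del`, `FT_sum`,
`FT_const_mul`, `FT_cv`
`0 = ∑_(b ≤ a) (a choose b) FT (mo e b W) k * FT (mo e (a-b) V) k`,
hence (term `b = 0`, `mo_zero`) `‖FT W k‖ ‖FT (mo e a V) k‖ ≤ ∑_(1 ≤ b ≤ a) (a choose b) ‖FT (mo e b W) k‖ ‖FT (mo e (a-b) V) k‖`.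
Now `‖FT (mo e 1 W) k‖ ≤ |k e| M ≤ |k| M` by `FT_mo_one_le` (second moment, `2 ≤ n`), `‖FT (mo e b W) k‖ ≤ M ≤ M π^n |k|^(2-b)`
for `2 ≤ b ≤ n` by `norm_FT_mo_le` (as `|k| ≤ π`, `1 ≤ π`).  So in all cases `‖FT (mo e b W) k‖ ≤ M π^n |k|^(2-b)` (`zpow`).
Strong induction on `a` with constants `K 0 = c⁻¹`, `K a = c⁻¹ ∑_(1≤b≤a) (a choose b) M π^n K (a-b)` (or simply
`K = (c⁻¹ + 1) (1 + c⁻¹ M π^n 2^n)^a`: show `‖FT (mo e a V) k‖ ≤ c⁻¹ (1 + c⁻¹ M π^n 2^n)^a |k|^(-2-a)`), finally `C = ` the value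
for `a = n` (nondecreasing in `a`).
-/

set_option autoImplicit false

noncomputable section

open Finset MeasureTheory

namespace IPC.Fo

variable {d : ℕ}

/-- even functions with bounded moments of orders `2 .. n` and `re FT W ≥ c |k|²` -/
structure Good (n : ℕ) (c M : ℝ) (W : (Fin d → ℤ) → ℝ) : Prop where
  mo : Mo n W
  ev : Ev W
  mom : ∀ (e : Fin d) (a : ℕ), 2 ≤ a → a ≤ n → ∑' x, |(x e : ℝ)| ^ a * |W x| ≤ M
  low : ∀ k : Fin d → ℝ, Cu k → c * ‖k‖ ^ 2 ≤ (FT W k).re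

private theorem Der_W {n : ℕ} {c M : ℝ} (hM : 0 ≤ M) (hn : 2 ≤ n) {W : (Fin d → ℤ) → ℝ} (hW : Good n c M W)
    (e : Fin d) {k : Fin d → ℝ} (hk : Cu k) (hk0 : k ≠ 0) {b : ℕ} (hb1 : 1 ≤ b) (hbn : b ≤ n) :
    ‖FT (mo e b W) k‖ ≤ M * Real.pi ^ n * ‖k‖ ^ (2 - b : ℤ) := by
  have hpi := Real.pi_gt_three
  have hpi1 : (1 : ℝ) ≤ Real.pi := by linarith
  have hκ : 0 < ‖k‖ := norm_pos_iff.2 hk0
  have hκπ := hk.norm_le
  have hpn : (1 : ℝ) ≤ Real.pi ^ n := one_le_pow₀ hpi1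
  rcases Nat.eq_or_lt_of_le hb1 with h | h
  · subst h
    have h1 := FT_mo_one_le (hW.mo.mono hn) hW.ev e k
    have h2 : ∑' x, (x e : ℝ) ^ 2 * |W x| ≤ M := by
      have h3 := hW.mom e 2 le_rfl hn
      simpa only [sq_abs] using h3
    have h4 : |k e| ≤ ‖k‖ := norm_le_pi_norm k e
    have h5 : 0 ≤ ∑' x, (x e : ℝ) ^ 2 * |W x| := tsum_nonneg fun x => by positivity
    have e1 : ‖k‖ ^ (2 - (1 : ℕ) : ℤ) = ‖k‖ := by
      have : (2 - (1 : ℕ) : ℤ) = 1 := by norm_num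
      rw [this, zpow_one]
    rw [e1]
    calc ‖FT (mo e 1 W) k‖ ≤ |k e| * ∑' x, (x e : ℝ) ^ 2 * |W x| := h1
      _ ≤ ‖k‖ * M := mul_le_mul h4 h2 h5 hκ.le
      _ = M * 1 * ‖k‖ := by ring
      _ ≤ M * Real.pi ^ n * ‖k‖ :=
          mul_le_mul_of_nonneg_right (mul_le_mul_of_nonneg_left hpn hM) hκ.le
  · have h1 := norm_FT_mo_le e b (hW.mo.mono hbn) k
    have h2 := h1.trans (hW.mom e b h hbn)
    obtain ⟨j, rfl⟩ : ∃ j, b = j + 2 := ⟨b - 2, by omega⟩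
    have e1 : ‖k‖ ^ (2 - ((j + 2 : ℕ) : ℤ)) = (‖k‖ ^ j)⁻¹ := by
      have : (2 - ((j + 2 : ℕ) : ℤ)) = -(j : ℤ) := by push_cast; ring
      rw [this, zpow_neg, zpow_natCast]
    rw [e1]
    have h3 : ‖k‖ ^ j ≤ Real.pi ^ n :=
      (pow_le_pow_left₀ hκ.le hκπ j).trans (pow_le_pow_right₀ hpi1 (by omega))
    have h4 : 0 < ‖k‖ ^ j := pow_pos hκ j
    have h5 : 1 ≤ Real.pi ^ n * (‖k‖ ^ j)⁻¹ := by
      rw [← div_eq_mul_inv, le_div_iff₀ h4, one_mul]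
      exact h3
    calc ‖FT (mo e (j + 2) W) k‖ ≤ M := h2
      _ = M * 1 := (mul_one M).symm
      _ ≤ M * (Real.pi ^ n * (‖k‖ ^ j)⁻¹) := mul_le_mul_of_nonneg_left h5 hM
      _ = M * Real.pi ^ n * (‖k‖ ^ j)⁻¹ := by ring

private theorem Der_rel {n : ℕ} {W V : (Fin d → ℤ) → ℝ} (hW : Mo n W) (hV : Mo n V)
    (h : cv W V = del d) (e : Fin d) (k : Fin d → ℝ) {a : ℕ} (ha : 0 < a) (han : a ≤ n) :
    FT W k * FT (mo e a V) k = -∑ b ∈ range a, ((a.choose (b + 1) : ℝ) : ℂ) *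
      (FT (mo e (b + 1) W) k * FT (mo e (a - (b + 1)) V) k) := by
  have hSW : ∀ b, b ≤ n → S1 (mo e b W) := fun b hb =>
    (Mo.mo (m := 0) (a := b) (hW.mono (by omega)) e).s1
  have hSV : ∀ b, b ≤ n → S1 (mo e b V) := fun b hb =>
    (Mo.mo (m := 0) (a := b) (hV.mono (by omega)) e).s1
  have h1 : FT (mo e a (IPC.Fo.cv W V)) k = 0 := by
    rw [h, mo_del e ha, FT_zero]
  rw [mo_cv e a (hW.mono han) (hV.mono han)] at h1
  rw [FT_sum (range (a + 1)) (fun b x => (a.choose b : ℝ) * cv (mo e b W) (mo e (a - b) V) x)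
    (fun b hb => ((hSW b (by have := Finset.mem_range.1 hb; omega)).cv
      (hSV (a - b) (by omega))).const_mul _) k] at h1
  rw [Finset.sum_range_succ'] at h1
  have h2 : ∀ b ∈ range (a + 1), FT (fun x => (a.choose b : ℝ) * cv (mo e b W) (mo e (a - b) V) x) k =
      ((a.choose b : ℝ) : ℂ) * (FT (mo e b W) k * FT (mo e (a - b) V) k) := by
    intro b hb
    have hb' := Finset.mem_range.1 hb
    rw [FT_const_mul, FT_cv (hSW b (by omega)) (hSV (a - b) (by omega))]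
  rw [h2 0 (Finset.mem_range.2 (by omega)), Finset.sum_congr rfl (fun b hb =>
    h2 (b + 1) (Finset.mem_range.2 (by have := Finset.mem_range.1 hb; omega)))] at h1
  rw [Nat.choose_zero_right, Nat.cast_one, Complex.ofReal_one, one_mul, mo_zero, Nat.sub_zero] at h1
  rw [eq_neg_iff_add_eq_zero, add_comm]
  exact h1

theorem Sg_inverse (d n : ℕ) (c M : ℝ) (hn : 2 ≤ n) (hc : 0 < c) (hM : 0 ≤ M) : ∃ C, 0 ≤ C ∧
    ∀ W V : (Fin d → ℤ) → ℝ, Good n c M W → Mo n V → cv W V = del d → Sg n 2 C V := by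
  have hpi := Real.pi_gt_three
  set B : ℝ := M * Real.pi ^ n with hB
  have hB0 : 0 ≤ B := by positivity
  set A : ℝ := 1 + c⁻¹ * B * 2 ^ n with hA
  have hA1 : 1 ≤ A := by
    have : 0 ≤ c⁻¹ * B * 2 ^ n := by positivity
    linarith
  have hA0 : 0 < A := by linarith
  refine ⟨c⁻¹ * A ^ n, by positivity, ?_⟩
  intro W V hW hV h e a ha k hk hk0
  have hκ : 0 < ‖k‖ := norm_pos_iff.2 hk0
  have hκne : ‖k‖ ≠ 0 := hκ.ne'
  have hlow := hW.low k hk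
  have hlow' : c * ‖k‖ ^ 2 ≤ ‖FT W k‖ := hlow.trans (Complex.re_le_norm _)
  have hck : 0 < c * ‖k‖ ^ 2 := by positivity
  have hmain : ∀ a : ℕ, a ≤ n → ‖FT (mo e a V) k‖ ≤ c⁻¹ * A ^ a * ‖k‖ ^ (-(2 + a) : ℤ) := by
    intro a
    induction a using Nat.strong_induction_on with
    | _ a ih =>
      intro han
      rcases Nat.eq_zero_or_pos a with h0 | hpos
      · subst h0
        rw [mo_zero, pow_zero, mul_one]
        have h1 : FT W k * FT V k = 1 := by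
          rw [← FT_cv hW.mo.s1 hV.s1, h, FT_del]
        have h2 : ‖FT W k‖ * ‖FT V k‖ = 1 := by
          rw [← norm_mul, h1, norm_one]
        have h3 : c * ‖k‖ ^ 2 * ‖FT V k‖ ≤ 1 := by
          rw [← h2]
          exact mul_le_mul_of_nonneg_right hlow' (norm_nonneg _)
        have e1 : ‖k‖ ^ (-(2 + (0 : ℕ)) : ℤ) = (‖k‖ ^ 2)⁻¹ := by
          have : (-(2 + (0 : ℕ)) : ℤ) = -((2 : ℕ) : ℤ) := by norm_num
          rw [this, zpow_neg, zpow_natCast]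
        rw [e1, ← mul_inv, ← one_div, le_div_iff₀ hck, mul_comm]
        exact h3
      · have hrel := Der_rel hW.mo hV h e k hpos han
        have hb : ∀ b ∈ range a, ‖((a.choose (b + 1) : ℝ) : ℂ) *
            (FT (mo e (b + 1) W) k * FT (mo e (a - (b + 1)) V) k)‖ ≤
            (a.choose (b + 1) : ℝ) * (B * c⁻¹ * A ^ (a - 1) * ‖k‖ ^ (-a : ℤ)) := by
          intro b hb
          rw [Finset.mem_range] at hb
          have h1 := Der_W hM hn hW e hk hk0 (b := b + 1) (by omega) (by omega)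
          have h2 := ih (a - (b + 1)) (by omega) (by omega)
          rw [norm_mul, norm_mul, Complex.norm_real, Real.norm_eq_abs, abs_of_nonneg (Nat.cast_nonneg _)]
          refine mul_le_mul_of_nonneg_left ?_ (Nat.cast_nonneg _)
          have h3 : ‖k‖ ^ (2 - ((b + 1 : ℕ) : ℤ)) * ‖k‖ ^ (-(2 + ((a - (b + 1) : ℕ) : ℤ))) =
              ‖k‖ ^ (-a : ℤ) := by
            rw [← zpow_add₀ hκne]
            congr 1
            rw [Nat.cast_sub (by omega)]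
            push_cast
            ring
          have h4 : A ^ (a - (b + 1)) ≤ A ^ (a - 1) := pow_le_pow_right₀ hA1 (by omega)
          have h5 : 0 ≤ ‖k‖ ^ (-a : ℤ) := (zpow_pos hκ _).le
          have h6 : 0 ≤ ‖k‖ ^ (2 - ((b + 1 : ℕ) : ℤ)) := (zpow_pos hκ _).le
          calc ‖FT (mo e (b + 1) W) k‖ * ‖FT (mo e (a - (b + 1)) V) k‖
              ≤ (B * ‖k‖ ^ (2 - ((b + 1 : ℕ) : ℤ))) *
                (c⁻¹ * A ^ (a - (b + 1)) * ‖k‖ ^ (-(2 + ((a - (b + 1) : ℕ) : ℤ)))) :=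
                mul_le_mul h1 h2 (norm_nonneg _) (mul_nonneg hB0 h6)
            _ = B * c⁻¹ * A ^ (a - (b + 1)) * (‖k‖ ^ (2 - ((b + 1 : ℕ) : ℤ)) *
                ‖k‖ ^ (-(2 + ((a - (b + 1) : ℕ) : ℤ)))) := by ring
            _ = B * c⁻¹ * A ^ (a - (b + 1)) * ‖k‖ ^ (-a : ℤ) := by rw [h3]
            _ ≤ B * c⁻¹ * A ^ (a - 1) * ‖k‖ ^ (-a : ℤ) :=
                mul_le_mul_of_nonneg_right (mul_le_mul_of_nonneg_left h4 (by positivity)) h5
        have hchoose : ∑ b ∈ range a, (a.choose (b + 1) : ℝ) ≤ 2 ^ n := by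
          have h1 := Nat.sum_range_choose a
          rw [Finset.sum_range_succ'] at h1
          have h2 : ∑ b ∈ range a, a.choose (b + 1) ≤ 2 ^ a := by omega
          have h3 : ∑ b ∈ range a, a.choose (b + 1) ≤ 2 ^ n :=
            h2.trans (Nat.pow_le_pow_right (by norm_num) han)
          exact_mod_cast h3
        have h7 : ‖FT W k‖ * ‖FT (mo e a V) k‖ ≤ A ^ a * ‖k‖ ^ (-a : ℤ) := by
          have hnn : 0 ≤ B * c⁻¹ * A ^ (a - 1) * ‖k‖ ^ (-a : ℤ) := by positivity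
          calc ‖FT W k‖ * ‖FT (mo e a V) k‖ = ‖FT W k * FT (mo e a V) k‖ := (norm_mul _ _).symm
            _ = ‖∑ b ∈ range a, ((a.choose (b + 1) : ℝ) : ℂ) *
                (FT (mo e (b + 1) W) k * FT (mo e (a - (b + 1)) V) k)‖ := by rw [hrel, norm_neg]
            _ ≤ ∑ b ∈ range a, (a.choose (b + 1) : ℝ) *
                (B * c⁻¹ * A ^ (a - 1) * ‖k‖ ^ (-a : ℤ)) := norm_sum_le_of_le _ hb
            _ = (∑ b ∈ range a, (a.choose (b + 1) : ℝ)) *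
                (B * c⁻¹ * A ^ (a - 1) * ‖k‖ ^ (-a : ℤ)) := by rw [Finset.sum_mul]
            _ ≤ 2 ^ n * (B * c⁻¹ * A ^ (a - 1) * ‖k‖ ^ (-a : ℤ)) :=
                mul_le_mul_of_nonneg_right hchoose hnn
            _ = (c⁻¹ * B * 2 ^ n) * (A ^ (a - 1) * ‖k‖ ^ (-a : ℤ)) := by ring
            _ ≤ A * (A ^ (a - 1) * ‖k‖ ^ (-a : ℤ)) :=
                mul_le_mul_of_nonneg_right (by rw [hA]; linarith) (by positivity)
            _ = A ^ a * ‖k‖ ^ (-a : ℤ) := by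
                obtain ⟨j, rfl⟩ : ∃ j, a = j + 1 := ⟨a - 1, by omega⟩
                rw [Nat.add_sub_cancel]
                ring
        have h8 : c * ‖k‖ ^ 2 * ‖FT (mo e a V) k‖ ≤ A ^ a * ‖k‖ ^ (-a : ℤ) :=
          (mul_le_mul_of_nonneg_right hlow' (norm_nonneg _)).trans h7
        have e2 : c⁻¹ * A ^ a * ‖k‖ ^ (-(2 + a) : ℤ) = (A ^ a * ‖k‖ ^ (-a : ℤ)) / (c * ‖k‖ ^ 2) := by
          have e3 : ‖k‖ ^ (-(2 + a) : ℤ) = (‖k‖ ^ 2)⁻¹ * ‖k‖ ^ (-a : ℤ) := by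
            have e4 : (-(2 + a) : ℤ) = -((2 : ℕ) : ℤ) + -(a : ℤ) := by push_cast; ring
            rw [e4, zpow_add₀ hκne, zpow_neg, zpow_natCast]
          rw [e3, div_eq_mul_inv, mul_inv]
          ring
        rw [e2, le_div_iff₀ hck, mul_comm]
        exact h8
  refine (hmain a ha).trans ?_
  have h9 : 0 ≤ ‖k‖ ^ (-(2 + a) : ℤ) := (zpow_pos hκ _).le
  exact mul_le_mul_of_nonneg_right (mul_le_mul_of_nonneg_left (pow_le_pow_right₀ hA1 ha) (by positivity)) h9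

end IPC.Fo
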