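import Mathlib
import Pool.Agent.Lib.MP_25e40f_pr.E.Mom

/-!
THIS JOB (MmtA): the theorems norm_pow_le_sum Mo_of_coord Mo.coord Mo.norm_pow tsum_norm_le tail_le.  (The header describes the whole group Mmt; the other theorems are in other jobs and may be imported.)

# Job Mmt: moments, even functions, lattice sums

PROOFS.
* `norm_pow_le_sum`: for `d = 0` the norm is `0` and `a ≥ 1`; otherwise the sup norm is attained at a coordinate
  (`pi_norm_le_iff...`, `Finset.exists_max_image`, or: `‖x‖ ≤ ` the maximal `|x e|`), single term ≤ sum.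
* `Mo_of_coord`: `(1 + |x|)^a ≤ 2^a (1 + |x|^a) ≤ 2^a (1 + ∑_e |x e|^a)` (a ≥ 1).
* `tsum_norm_le`: termwise `norm_pow_le_sum` and `Summable.tsum_finsetSum`.
* `Ev.neg`: the total reflection is the product of the coordinate reflections: prove by induction over a finset `s` of
  coordinates that `f (fun i => if i ∈ s then - x i else x i) = f x`.
* `FT_im_zero`, `FT_re_eq`: `conj (FT f k) = ∑ f x ch k (-x) = ∑ f (-x) ch k (-x) = FT f k` (`Equiv.neg`, `ch_neg`), and
  `re (ch k x) = cos (dot k x)` (`Complex.re_tsum` or `Complex.reCLM.map_tsum`).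
* `tsum_odd`: `∑ (x e)^a h x` with a odd and `h` invariant under the reflection in `e` is `0`: `reflE e` maps the sum to
  its negative (`Equiv.tsum_eq`; no summability needed).  `tsum_neg_odd`: the same with `x ↦ -x`: if `h (-x) = - h x` then
  `∑ h = 0`.
* `tail_le`: `(1+|x|)^k ≤ (1+|x|)^n / r^(n-k)` if `r ≤ |x|`, `0 < r`.
* `summable_inv`: `ZLattice.summable_norm_rpow` (Mathlib/Algebra/Module/ZLattice/Summable.lean) for the lattice of integer
  points in `Fin d → ℝ` (`Submodule.span ℤ (range (Pi.basisFun ℝ (Fin d)))`, rank `d`), or directly: the number of `x` with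
  `|x| = r` is at most `(2r+1)^d - (2r-1)^d ≤ 2d (2r+1)^(d-1)`; or: `(1+|x|)^(d+1) ≥ ∏ (1+|x i|)^((d+1)/d)` and the sum over
  `Fin d → ℤ` of a product is the product of the sums (induction on `d` with `Fin.consEquiv`,
  `Summable.mul_of_nonneg`; or through `MeasureTheory.Integrable.fintype_prod` with the counting measure).
* `lattice_tail`: on `r ≤ |x|`: `(1+|x|)^(-s) ≤ r^(-(s-d-1)) (1+|x|)^(-(d+1))`.
-/

set_option autoImplicit false

noncomputable section

open Finset MeasureTheory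

namespace IPC.Fo

variable {d : ℕ}

theorem norm_pow_le_sum (x : Fin d → ℤ) {a : ℕ} (ha : 1 ≤ a) : ‖x‖ ^ a ≤ ∑ e, |(x e : ℝ)| ^ a := by
  rcases isEmpty_or_nonempty (Fin d) with hd | hd
  · have h0 : ‖x‖ = 0 := by
      have : x = 0 := Subsingleton.elim _ _
      rw [this, norm_zero]
    rw [h0, zero_pow (by omega)]
    exact Finset.sum_nonneg fun _ _ => pow_nonneg (abs_nonneg _) _
  · obtain ⟨e, -, he⟩ := Finset.exists_max_image Finset.univ (fun e : Fin d => |(x e : ℝ)|)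
      Finset.univ_nonempty
    have h1 : ‖x‖ ≤ |(x e : ℝ)| := by
      rw [pi_norm_le_iff_of_nonneg (abs_nonneg _)]
      intro i
      rw [Int.norm_eq_abs]
      exact he i (Finset.mem_univ i)
    calc ‖x‖ ^ a ≤ |(x e : ℝ)| ^ a := pow_le_pow_left₀ (norm_nonneg _) h1 _
      _ ≤ ∑ e, |(x e : ℝ)| ^ a :=
        Finset.single_le_sum (f := fun e => |(x e : ℝ)| ^ a) (fun _ _ => pow_nonneg (abs_nonneg _) _)
          (Finset.mem_univ e)

private theorem MmtA_two (t : ℝ) (ht : 0 ≤ t) (a : ℕ) : (1 + t) ^ a ≤ 2 ^ a * (1 + t ^ a) := by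
  have h1 : (1 + t) ^ a ≤ (2 * max 1 t) ^ a := by
    apply pow_le_pow_left₀ (by positivity)
    have := le_max_left 1 t
    have := le_max_right 1 t
    linarith
  have h2 : (2 * max 1 t) ^ a = 2 ^ a * (max 1 t) ^ a := mul_pow _ _ _
  have h3 : (max 1 t) ^ a ≤ 1 + t ^ a := by
    rcases max_choice 1 t with h | h
    · rw [h, one_pow]
      have := pow_nonneg ht a
      linarith
    · rw [h]
      linarith
  rw [h2] at h1
  refine h1.trans ?_
  exact mul_le_mul_of_nonneg_left h3 (by positivity)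

theorem Mo_of_coord {a : ℕ} (ha : 1 ≤ a) {f : (Fin d → ℤ) → ℝ} (h0 : S1 f)
    (h1 : ∀ e : Fin d, Summable fun x : Fin d → ℤ => |(x e : ℝ)| ^ a * |f x|) : Mo a f := by
  have h2 : Summable fun x : Fin d → ℤ => ∑ e, |(x e : ℝ)| ^ a * |f x| := summable_sum fun e _ => h1 e
  have h3 : Summable fun x : Fin d → ℤ => (2 : ℝ) ^ a * (|f x| + ∑ e, |(x e : ℝ)| ^ a * |f x|) :=
    (Summable.add h0 h2).mul_left _
  refine Summable.of_nonneg_of_le (fun x => mul_nonneg (pow_nonneg (by linarith [norm_nonneg x]) _) (abs_nonneg _))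
    (fun x => ?_) h3
  have h4 := MmtA_two ‖x‖ (norm_nonneg x) a
  have h5 := norm_pow_le_sum x ha
  have h6 : (1 + ‖x‖) ^ a ≤ 2 ^ a * (1 + ∑ e, |(x e : ℝ)| ^ a) := by
    refine h4.trans ?_
    apply mul_le_mul_of_nonneg_left _ (by positivity)
    linarith
  calc (1 + ‖x‖) ^ a * |f x| ≤ (2 ^ a * (1 + ∑ e, |(x e : ℝ)| ^ a)) * |f x| :=
        mul_le_mul_of_nonneg_right h6 (abs_nonneg _)
    _ = (2 : ℝ) ^ a * (|f x| + ∑ e, |(x e : ℝ)| ^ a * |f x|) := by
        rw [← Finset.sum_mul]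
        ring

theorem Mo.coord {a : ℕ} {f : (Fin d → ℤ) → ℝ} (h : Mo a f) (e : Fin d) :
    Summable fun x : Fin d → ℤ => |(x e : ℝ)| ^ a * |f x| := by
  refine Summable.of_nonneg_of_le (fun x => mul_nonneg (pow_nonneg (abs_nonneg _) _) (abs_nonneg _))
    (fun x => ?_) h
  apply mul_le_mul_of_nonneg_right _ (abs_nonneg _)
  exact pow_le_pow_left₀ (abs_nonneg _) (by linarith [abs_coord_le x e]) _

theorem Mo.norm_pow {a : ℕ} {f : (Fin d → ℤ) → ℝ} (h : Mo a f) :
    Summable fun x : Fin d → ℤ => ‖x‖ ^ a * |f x| := by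
  refine Summable.of_nonneg_of_le (fun x => mul_nonneg (pow_nonneg (norm_nonneg _) _) (abs_nonneg _))
    (fun x => ?_) h
  apply mul_le_mul_of_nonneg_right _ (abs_nonneg _)
  exact pow_le_pow_left₀ (norm_nonneg _) (by linarith) _

theorem tsum_norm_le {a : ℕ} (ha : 1 ≤ a) {f : (Fin d → ℤ) → ℝ} (h : Mo a f) :
    ∑' x : Fin d → ℤ, ‖x‖ ^ a * |f x| ≤ ∑ e, ∑' x : Fin d → ℤ, |(x e : ℝ)| ^ a * |f x| := by
  rw [← Summable.tsum_finsetSum (fun e _ => h.coord e)]
  refine h.norm_pow.tsum_le_tsum (fun x => ?_) (summable_sum fun e _ => h.coord e)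
  rw [← Finset.sum_mul]
  exact mul_le_mul_of_nonneg_right (norm_pow_le_sum x ha) (abs_nonneg _)

theorem tail_le {n k : ℕ} (hk : k ≤ n) {f : (Fin d → ℤ) → ℝ} (h : Mo n f) {M : ℝ}
    (hM : ∑' x : Fin d → ℤ, (1 + ‖x‖) ^ n * |f x| ≤ M) {r : ℝ} (hr : 0 < r) :
    ∑' x : Fin d → ℤ, (if r ≤ ‖x‖ then (1 + ‖x‖) ^ k * |f x| else 0) ≤ M / r ^ (n - k) := by
  have key : ∀ x : Fin d → ℤ, (if r ≤ ‖x‖ then (1 + ‖x‖) ^ k * |f x| else 0) ≤
      (1 + ‖x‖) ^ n * |f x| / r ^ (n - k) := by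
    intro x
    have hn := norm_nonneg x
    split_ifs with hx
    · rw [le_div_iff₀ (by positivity)]
      have e : (1 + ‖x‖) ^ n = (1 + ‖x‖) ^ k * (1 + ‖x‖) ^ (n - k) := by
        rw [← pow_add]
        congr 1
        omega
      rw [e]
      have h1 : r ^ (n - k) ≤ (1 + ‖x‖) ^ (n - k) := pow_le_pow_left₀ hr.le (by linarith) _
      have h2 : 0 ≤ (1 + ‖x‖) ^ k * |f x| := mul_nonneg (by positivity) (abs_nonneg _)
      calc (1 + ‖x‖) ^ k * |f x| * r ^ (n - k) ≤ (1 + ‖x‖) ^ k * |f x| * (1 + ‖x‖) ^ (n - k) :=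
            mul_le_mul_of_nonneg_left h1 h2
        _ = (1 + ‖x‖) ^ k * (1 + ‖x‖) ^ (n - k) * |f x| := by ring
    · exact div_nonneg (mul_nonneg (by positivity) (abs_nonneg _)) (by positivity)
  have hnn : ∀ x : Fin d → ℤ, 0 ≤ (if r ≤ ‖x‖ then (1 + ‖x‖) ^ k * |f x| else 0) := by
    intro x
    split_ifs
    · exact mul_nonneg (by positivity) (abs_nonneg _)
    · exact le_refl _
  have hS : Summable fun x : Fin d → ℤ => (1 + ‖x‖) ^ n * |f x| / r ^ (n - k) := Summable.div_const h _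
  have hS1 := Summable.of_nonneg_of_le hnn key hS
  refine (hS1.tsum_le_tsum key hS).trans ?_
  rw [tsum_div_const]
  exact div_le_div_of_nonneg_right hM (by positivity)

end IPC.Fo
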