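import Mathlib
import Pool.Agent.Lib.MP_25e40f_pr.E.Mom

/-!
THIS JOB (MmtB): the theorems Ev.neg FT_im_zero FT_re_eq tsum_odd tsum_neg_odd.  (The header describes the whole group Mmt; the other theorems are in other jobs and may be imported.)

# Job Mmt: moments, even functions, lattice sums

PROOFS.
* `norm_pow_le_sum`: for `d = 0` the norm is `0` and `a ≥ 1`; otherwise the sup norm is attained at a coordinate
  (`pi_norm_le_iff...`, `Finset.exists_max_image`, or: `‖x‖ ≤ ` the maximal `|x e|`), single term ≤ sum.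
* `Mo_of_coord`: `(1 + |x|)^a ≤ 2^a (1 + |x|^a) ≤ 2^a (1 + ∑_e |x e|^a)` (a ≥ 1).
* `tsum_norm_le`: termwise `norm_pow_le_sum` and `Summable.tsum_finsetSum`.
* `Ev.neg`: the total reflection is the product of the coordinate reflections: prove by induction over a finset `s` of
  coordinates that `f (fun i => if i ∈ s then - x i else x i) = f x`.
* `FT_im_zero`, `FT_re_eq`: `conj (FT f k) = ∑ f x ch k (-x) = ∑ f (-x) ch k (-x) = FT f k` (`Equiv.neg`, `ch_neg`), and
  `re (ch k x) = cos (dot k x)` (`Complex.re_tsum` or `Complex.reCLM.map_tsum`).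
* `tsum_odd`: `∑ (x e)^a h x` with a odd and `h` invariant under the reflection in `e` is `0`: `reflE e` maps the sum to
  its negative (`Equiv.tsum_eq`; no summability needed).  `tsum_neg_odd`: the same with `x ↦ -x`: if `h (-x) = - h x` then
  `∑ h = 0`.
* `tail_le`: `(1+|x|)^k ≤ (1+|x|)^n / r^(n-k)` if `r ≤ |x|`, `0 < r`.
* `summable_inv`: `ZLattice.summable_norm_rpow` (Mathlib/Algebra/Module/ZLattice/Summable.lean) for the lattice of integer
  points in `Fin d → ℝ` (`Submodule.span ℤ (range (Pi.basisFun ℝ (Fin d)))`, rank `d`), or directly: the number of `x` with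
  `|x| = r` is at most `(2r+1)^d - (2r-1)^d ≤ 2d (2r+1)^(d-1)`; or: `(1+|x|)^(d+1) ≥ ∏ (1+|x i|)^((d+1)/d)` and the sum over
  `Fin d → ℤ` of a product is the product of the sums (induction on `d` with `Fin.consEquiv`,
  `Summable.mul_of_nonneg`; or through `MeasureTheory.Integrable.fintype_prod` with the counting measure).
* `lattice_tail`: on `r ≤ |x|`: `(1+|x|)^(-s) ≤ r^(-(s-d-1)) (1+|x|)^(-(d+1))`.
-/

set_option autoImplicit false

noncomputable section

open Finset MeasureTheory

namespace IPC.Fo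

variable {d : ℕ}

private theorem MmtB_refl {f : (Fin d → ℤ) → ℝ} (h : Ev f) (x : Fin d → ℤ) (s : Finset (Fin d)) :
    f (fun i => if i ∈ s then -x i else x i) = f x := by
  induction s using Finset.induction_on with
  | empty => simp only [Finset.notMem_empty, if_false]
  | insert e s he ih =>
    have h1 : (fun i => if i ∈ insert e s then -x i else x i) =
        refl e (fun i => if i ∈ s then -x i else x i) := by
      funext i
      by_cases hi : i = e
      · subst hi
        rw [refl_self, if_pos (Finset.mem_insert_self i s), if_neg he]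
      · rw [refl_other hi]
        by_cases h2 : i ∈ s
        · rw [if_pos h2, if_pos (Finset.mem_insert_of_mem h2)]
        · rw [if_neg h2, if_neg (fun h3 => h2 ((Finset.mem_insert.1 h3).resolve_left hi))]
    rw [h1, h, ih]

private theorem MmtB_odd {h : (Fin d → ℤ) → ℝ} (σ : (Fin d → ℤ) ≃ (Fin d → ℤ))
    (hh : ∀ x, h (σ x) = -h x) : ∑' x, h x = 0 := by
  have h1 := σ.tsum_eq h
  have h2 : ∑' x, h (σ x) = -∑' x, h x := by
    rw [← tsum_neg]
    exact tsum_congr hh
  linarith

theorem Ev.neg {f : (Fin d → ℤ) → ℝ} (h : Ev f) (x : Fin d → ℤ) : f (-x) = f x := by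
  have h1 := MmtB_refl h x Finset.univ
  have h2 : (fun i => if i ∈ (Finset.univ : Finset (Fin d)) then -x i else x i) = -x := by
    funext i
    rw [if_pos (Finset.mem_univ i)]
    rfl
  rw [h2] at h1
  exact h1

theorem FT_im_zero {f : (Fin d → ℤ) → ℝ} (hf : S1 f) (he : Ev f) (k : Fin d → ℝ) : (FT f k).im = 0 := by
  unfold FT
  rw [Complex.im_tsum (hf.ft k)]
  refine MmtB_odd (Equiv.neg _) fun x => ?_
  have h1 : (Equiv.neg (Fin d → ℤ)) x = -x := rfl
  rw [h1, he.neg]
  unfold ch
  rw [Complex.im_ofReal_mul, Complex.im_ofReal_mul, Complex.exp_ofReal_mul_I_im,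
    Complex.exp_ofReal_mul_I_im, dot_neg, Real.sin_neg]
  ring

theorem FT_re_eq {f : (Fin d → ℤ) → ℝ} (hf : S1 f) (k : Fin d → ℝ) :
    (FT f k).re = ∑' x, f x * Real.cos (dot k x) := by
  unfold FT
  rw [Complex.re_tsum (hf.ft k)]
  refine tsum_congr fun x => ?_
  unfold ch
  rw [Complex.re_ofReal_mul, Complex.exp_ofReal_mul_I_re]

theorem tsum_odd (e : Fin d) {h : (Fin d → ℤ) → ℝ} (hh : ∀ x, h (refl e x) = -h x) : ∑' x, h x = 0 := by
  exact MmtB_odd (reflE e) hh

theorem tsum_neg_odd {h : (Fin d → ℤ) → ℝ} (hh : ∀ x, h (-x) = -h x) : ∑' x, h x = 0 := by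
  exact MmtB_odd (Equiv.neg _) hh

end IPC.Fo
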