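import Mathlib
import Pool.Agent.Lib.MP_25e40f_pr.E.Der
import Pool.Agent.Lib.MP_25e40f_pr.E.PowB
import Pool.Agent.Lib.MP_25e40f_pr.E.MmtA
import Pool.Agent.Lib.MP_25e40f_pr.E.MmtB
import Pool.Agent.Lib.MP_25e40f_pr.E.MmtC

/-!
THIS JOB (EKA): the theorems nn_nonneg Mo_nn nn_norm tsum_nn Ev_nn Sy_nn FT_nn.  (The header describes the whole group EK; the other theorems are in other jobs and may be imported.)

# Job EK: the massive nearest neighbour operator and its Green function

`nn x = 1` if `x` is a neighbour of `0` (sum over the `2d` unit vectors), `EK w κ = (w + dκ) δ - (κ/2) nn`.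

PROOFS.
* `FT_nn`: `FT (fun x => del d (x - u)) k = ch k u` (`tsum_eq_single u`), `exp(i k_j) + exp(-i k_j) = 2 cos k_j`.
* `Good_EK`: all moments are finite (finite support).  `re FT (EK w κ) k = w + κ ∑ (1 - cos k_i) ≥ c ∑ (2/π²) k_i² ≥ c (2/π²) |k|²` on the cube
  (`Real.cos_le_one_sub_mul_cos_sq`... search: `1 - cos t = 2 sin² (t/2)` and Jordan `2/π * s ≤ sin s` (`Real.mul_le_sin`) for
  `0 ≤ s ≤ π/2`).  Moments: for `a ≥ 1`: `∑ |x_e|^a |EK x| = κ` (only `x = ± e` contribute, `κ/2` each).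
  So `c1 = 2 c/π²`, `M1 = M`.
* `exists_green`: `A = w + dκ > 0`, `S = (κ/(2A)) nn`, `∑ |S| = q = dκ/A < 1`, `cvp S j` vanishes outside `|x| ≤ j` and
  `∑ |cvp S j| ≤ q^j`.  `G = A⁻¹ ∑_j cvp S j`.  `∑_j ∑_x (1+|x|)^m |cvp S j x| ≤ ∑_j (1+j)^m q^j < ∞`
  (`summable_pow_mul_geometric_of_norm_lt_one` type), so everything is summable on the product `ℕ × (Fin d → ℤ)`.
  `FT G k = A⁻¹ ∑_j (FT S k)^j = A⁻¹ (1 - FT S k)⁻¹` (geometric series) and `FT (EK w κ) k = A (1 - FT S k)`;
  `FT_injective` with `FT_cv`, `FT_del`.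
-/

set_option autoImplicit false

noncomputable section

open Finset MeasureTheory

namespace IPC.Fo

variable {d : ℕ}

/-- the indicator of the neighbours of `0` -/
def nn (d : ℕ) : (Fin d → ℤ) → ℝ := fun x => ∑ i : Fin d, (del d (x - Pi.single i 1) + del d (x + Pi.single i 1))

/-- the massive operator -/
def EK (w κ : ℝ) : (Fin d → ℤ) → ℝ := fun x => (w + d * κ) * del d x - κ / 2 * nn d x

private theorem EKA_del_nonneg (x : Fin d → ℤ) : 0 ≤ del d x := by
  unfold del
  split_ifs
  · exact zero_le_one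
  · exact le_rfl

private theorem EKA_supp {x : Fin d → ℤ} (h : nn d x ≠ 0) :
    ∃ i : Fin d, x = Pi.single i 1 ∨ x = -Pi.single i 1 := by
  by_contra hn
  push Not at hn
  apply h
  unfold nn
  refine Finset.sum_eq_zero fun i _ => ?_
  unfold del
  rw [if_neg (fun h0 => (hn i).1 (sub_eq_zero.1 h0)),
    if_neg (fun h0 => (hn i).2 (eq_neg_of_add_eq_zero_left h0)), add_zero]

private theorem EKA_S1 (u : Fin d → ℤ) : S1 (fun x => del d (x - u)) := by
  unfold S1
  refine summable_of_hasFiniteSupport ((Set.finite_singleton u).subset fun x hx => ?_)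
  rw [Set.mem_singleton_iff]
  by_contra h
  apply hx
  show |del d (x - u)| = 0
  unfold del
  rw [if_neg (fun h0 => h (sub_eq_zero.1 h0)), abs_zero]

private theorem EKA_FT (u : Fin d → ℤ) (k : Fin d → ℝ) : FT (fun x => del d (x - u)) k = ch k u := by
  unfold FT
  rw [tsum_eq_single u]
  · have h : del d (u - u) = 1 := if_pos (sub_self u)
    show ((del d (u - u) : ℝ) : ℂ) * ch k u = ch k u
    rw [h, Complex.ofReal_one, one_mul]
  · intro x hx
    have h : del d (x - u) = 0 := if_neg (fun h0 => hx (sub_eq_zero.1 h0))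
    show ((del d (x - u) : ℝ) : ℂ) * ch k x = 0
    rw [h, Complex.ofReal_zero, zero_mul]

private theorem EKA_dot (k : Fin d → ℝ) (i : Fin d) : dot k (Pi.single i 1) = k i := by
  unfold dot
  rw [Finset.sum_eq_single i]
  · rw [Pi.single_eq_same, Int.cast_one, mul_one]
  · intro j _ hj
    rw [Pi.single_eq_of_ne hj, Int.cast_zero, mul_zero]
  · intro h
    exact absurd (Finset.mem_univ i) h

private theorem EKA_nn : nn d = fun x => ∑ i : Fin d, (del d (x - Pi.single i 1) + del d (x - -Pi.single i 1)) := by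
  funext x
  unfold nn
  simp only [sub_neg_eq_add]

private theorem EKA_del_comp (σ : Equiv.Perm (Fin d)) (y : Fin d → ℤ) : del d (fun i => y (σ i)) = del d y := by
  unfold del
  by_cases h : y = 0
  · rw [if_pos h, if_pos]
    funext i
    rw [h]
    rfl
  · rw [if_neg h, if_neg]
    intro h0
    apply h
    funext i
    have h1 := congrFun h0 (σ.symm i)
    simp only [Equiv.apply_symm_apply] at h1
    exact h1

theorem nn_nonneg (x : Fin d → ℤ) : 0 ≤ nn d x := by
  unfold nn
  exact Finset.sum_nonneg fun i _ => add_nonneg (EKA_del_nonneg _) (EKA_del_nonneg _)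

theorem Mo_nn (m : ℕ) : Mo m (nn d) := by
  refine Mo_of_finite m ((Set.finite_iUnion (fun i : Fin d =>
    Set.toFinite ({Pi.single i 1, -Pi.single i 1} : Set (Fin d → ℤ)))).subset ?_)
  intro x hx
  obtain ⟨i, hi⟩ := EKA_supp hx
  exact Set.mem_iUnion.2 ⟨i, hi⟩

theorem nn_norm {x : Fin d → ℤ} (h : nn d x ≠ 0) : ‖x‖ ≤ 1 := by
  obtain ⟨i, hi⟩ := EKA_supp h
  have h1 : ‖(Pi.single i 1 : Fin d → ℤ)‖ ≤ 1 := by
    rw [pi_norm_le_iff_of_nonneg zero_le_one]
    intro j
    by_cases hj : j = i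
    · rw [hj, Pi.single_eq_same, norm_one]
    · rw [Pi.single_eq_of_ne hj, norm_zero]
      exact zero_le_one
  rcases hi with hi | hi
  · rw [hi]
    exact h1
  · rw [hi, norm_neg]
    exact h1

private theorem EKA_FTnn (k : Fin d → ℝ) : FT (nn d) k = ((∑ i, 2 * Real.cos (k i) : ℝ) : ℂ) := by
  have h1 : FT (nn d) k = ∑ i : Fin d, FT (fun x => del d (x - Pi.single i 1) + del d (x - -Pi.single i 1)) k := by
    rw [EKA_nn]
    exact FT_sum Finset.univ (fun (i : Fin d) (x : Fin d → ℤ) => del d (x - Pi.single i 1) + del d (x - -Pi.single i 1))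
      (fun i _ => (EKA_S1 (Pi.single i 1)).add (EKA_S1 (-Pi.single i 1))) k
  rw [h1, Complex.ofReal_sum]
  refine Finset.sum_congr rfl fun i _ => ?_
  rw [FT_add (EKA_S1 (Pi.single i 1)) (EKA_S1 (-Pi.single i 1)), EKA_FT, EKA_FT]
  unfold ch
  rw [dot_neg, EKA_dot, Complex.ofReal_mul, Complex.ofReal_cos, Complex.cos, Complex.ofReal_neg]
  push_cast
  ring

theorem tsum_nn : ∑' x, nn d x = 2 * d := by
  have h := EKA_FTnn (d := d) 0
  unfold FT at h
  have h1 : ∀ x : Fin d → ℤ, ch 0 x = 1 := by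
    intro x
    unfold ch dot
    simp
  simp only [h1, mul_one, Pi.zero_apply, Real.cos_zero, Finset.sum_const, Finset.card_univ, Fintype.card_fin,
    nsmul_eq_mul] at h
  rw [← Complex.ofReal_tsum, Complex.ofReal_inj] at h
  rw [h]
  ring

theorem Ev_nn : Ev (nn d) := by
  intro e x
  have key : ∀ u : Fin d → ℤ, del d (refl e x - u) = del d (x - refl e u) := by
    intro u
    rw [← Ev_del e (refl e x - u), refl_sub, refl_refl]
  have k1 : ∀ i : Fin d, i ≠ e → refl e (Pi.single i 1) = Pi.single i 1 := by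
    intro i hi
    funext j
    by_cases hj : j = e
    · rw [hj, refl_self, Pi.single_eq_of_ne (fun h => hi h.symm), neg_zero]
    · rw [refl_other hj]
  have k2 : refl e (Pi.single e 1) = -Pi.single e 1 := by
    funext j
    by_cases hj : j = e
    · rw [hj, refl_self, Pi.neg_apply]
    · rw [refl_other hj, Pi.neg_apply, Pi.single_eq_of_ne hj, neg_zero]
  have k3 : ∀ u : Fin d → ℤ, refl e (-u) = -refl e u := by
    intro u
    have h := refl_sub e 0 u
    have h0 : refl e (0 : Fin d → ℤ) = 0 := by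
      have h1 := refl_sub e (0 : Fin d → ℤ) 0
      rw [sub_self, sub_self] at h1
      exact h1
    rw [zero_sub, h0, zero_sub] at h
    exact h
  rw [EKA_nn]
  refine Finset.sum_congr rfl fun i _ => ?_
  rw [key, key, k3]
  by_cases hi : i = e
  · rw [hi, k2, neg_neg, add_comm]
  · rw [k1 i hi]

theorem Sy_nn : Sy (nn d) := by
  intro σ x
  have key : ∀ i : Fin d, (fun j => x (σ j)) - Pi.single i 1 =
      fun j => (x - Pi.single (σ i) 1 : Fin d → ℤ) (σ j) := by
    intro i
    funext j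
    rw [Pi.sub_apply, Pi.sub_apply]
    congr 1
    by_cases h : j = i
    · rw [h, Pi.single_eq_same, Pi.single_eq_same]
    · rw [Pi.single_eq_of_ne h, Pi.single_eq_of_ne (fun h0 => h (σ.injective h0))]
  have key2 : ∀ i : Fin d, (fun j => x (σ j)) + Pi.single i 1 =
      fun j => (x + Pi.single (σ i) 1 : Fin d → ℤ) (σ j) := by
    intro i
    funext j
    rw [Pi.add_apply, Pi.add_apply]
    congr 1
    by_cases h : j = i
    · rw [h, Pi.single_eq_same, Pi.single_eq_same]
    · rw [Pi.single_eq_of_ne h, Pi.single_eq_of_ne (fun h0 => h (σ.injective h0))]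
  unfold nn
  refine Eq.trans (Finset.sum_congr rfl fun i _ => ?_)
    (Equiv.sum_comp σ (fun i : Fin d => del d (x - Pi.single i 1) + del d (x + Pi.single i 1)))
  rw [key, key2, EKA_del_comp, EKA_del_comp]

theorem FT_nn (k : Fin d → ℝ) : FT (nn d) k = ((∑ i, 2 * Real.cos (k i) : ℝ) : ℂ) := by
  exact EKA_FTnn k

end IPC.Fo
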