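import Mathlib
import Pool.Agent.Lib.MP_25e40f_pr.E.Der
import Pool.Agent.Lib.MP_25e40f_pr.E.PowB
import Pool.Agent.Lib.MP_25e40f_pr.E.MmtA
import Pool.Agent.Lib.MP_25e40f_pr.E.MmtB
import Pool.Agent.Lib.MP_25e40f_pr.E.MmtC
import Pool.Agent.Lib.MP_25e40f_pr.E.EKA

/-!
THIS JOB (EKB): the theorems Mo_EK FT_EK Ev_EK tsum_EK tsum_sq_EK mom_EK Good_EK.  (The header describes the whole group EK; the other theorems are in other jobs and may be imported.)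

# Job EK: the massive nearest neighbour operator and its Green function

`nn x = 1` if `x` is a neighbour of `0` (sum over the `2d` unit vectors), `EK w κ = (w + dκ) δ - (κ/2) nn`.

PROOFS.
* `FT_nn`: `FT (fun x => del d (x - u)) k = ch k u` (`tsum_eq_single u`), `exp(i k_j) + exp(-i k_j) = 2 cos k_j`.
* `Good_EK`: all moments are finite (finite support).  `re FT (EK w κ) k = w + κ ∑ (1 - cos k_i) ≥ c ∑ (2/π²) k_i² ≥ c (2/π²) |k|²` on the cube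
  (`Real.cos_le_one_sub_mul_cos_sq`... search: `1 - cos t = 2 sin² (t/2)` and Jordan `2/π * s ≤ sin s` (`Real.mul_le_sin`) for
  `0 ≤ s ≤ π/2`).  Moments: for `a ≥ 1`: `∑ |x_e|^a |EK x| = κ` (only `x = ± e` contribute, `κ/2` each).
  So `c1 = 2 c/π²`, `M1 = M`.
* `exists_green`: `A = w + dκ > 0`, `S = (κ/(2A)) nn`, `∑ |S| = q = dκ/A < 1`, `cvp S j` vanishes outside `|x| ≤ j` and
  `∑ |cvp S j| ≤ q^j`.  `G = A⁻¹ ∑_j cvp S j`.  `∑_j ∑_x (1+|x|)^m |cvp S j x| ≤ ∑_j (1+j)^m q^j < ∞`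
  (`summable_pow_mul_geometric_of_norm_lt_one` type), so everything is summable on the product `ℕ × (Fin d → ℤ)`.
  `FT G k = A⁻¹ ∑_j (FT S k)^j = A⁻¹ (1 - FT S k)⁻¹` (geometric series) and `FT (EK w κ) k = A (1 - FT S k)`;
  `FT_injective` with `FT_cv`, `FT_del`.
-/

set_option autoImplicit false

noncomputable section

open Finset MeasureTheory

namespace IPC.Fo

variable {d : ℕ}

theorem Mo_EK (m : ℕ) (w κ : ℝ) : Mo m (EK w κ : (Fin d → ℤ) → ℝ) :=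
  Mo.sub (Mo.const_mul (Mo_del m) _) (Mo.const_mul (Mo_nn m) _)

theorem FT_EK (w κ : ℝ) (k : Fin d → ℝ) :
    FT (EK w κ) k = ((w + κ * ∑ i, (1 - Real.cos (k i)) : ℝ) : ℂ) := by
  have h1 : S1 (fun x : Fin d → ℤ => (w + d * κ) * del d x) := S1.const_mul S1_del _
  have h2 : S1 (fun x : Fin d → ℤ => κ / 2 * nn d x) := S1.const_mul (Mo_nn 0).s1 _
  have h3 : FT (EK w κ) k = FT (fun x : Fin d → ℤ => (w + d * κ) * del d x) k -
      FT (fun x : Fin d → ℤ => κ / 2 * nn d x) k := FT_sub h1 h2 k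
  rw [h3, FT_const_mul, FT_const_mul, FT_del, FT_nn, Finset.sum_sub_distrib, ← Finset.mul_sum]
  simp only [Finset.sum_const, Finset.card_univ, Fintype.card_fin, nsmul_eq_mul, mul_one]
  push_cast
  ring

theorem Ev_EK (w κ : ℝ) : Ev (EK w κ : (Fin d → ℤ) → ℝ) :=
  Ev.sub (Ev.const_mul Ev_del _) (Ev.const_mul Ev_nn _)

private theorem EKB_sum_nn (g : (Fin d → ℤ) → ℝ) :
    ∑' x, g x * nn d x = ∑ i : Fin d, (g (Pi.single i 1) + g (-Pi.single i 1)) := by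
  have hs : ∀ u : Fin d → ℤ, HasSum (fun x => g x * del d (x - u)) (g u) := by
    intro u
    have h := hasSum_single (f := fun x => g x * del d (x - u)) u (fun x hx => by
      simp [del, sub_eq_zero, hx])
    simpa [del] using h
  have h1 : ∀ i : Fin d, HasSum (fun x => g x * (del d (x - Pi.single i 1) + del d (x + Pi.single i 1)))
      (g (Pi.single i 1) + g (-Pi.single i 1)) := by
    intro i
    have h2 := (hs (Pi.single i 1)).add (hs (-Pi.single i 1))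
    simp only [sub_neg_eq_add, ← mul_add] at h2
    exact h2
  have h3 := hasSum_sum (s := (univ : Finset (Fin d))) fun i _ => h1 i
  rw [← h3.tsum_eq]
  refine tsum_congr fun x => ?_
  unfold nn
  rw [Finset.mul_sum]

private theorem EKB_two (e : Fin d) (f : ℤ → ℝ) (h0 : f 0 = 0) (h1 : f 1 = 1) (h2 : f (-1) = 1) :
    ∑ i : Fin d, (f ((Pi.single i 1 : Fin d → ℤ) e) + f ((-Pi.single i 1 : Fin d → ℤ) e)) = 2 := by
  rw [Finset.sum_eq_single e]
  · rw [Pi.neg_apply, Pi.single_eq_same, h1, h2]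
    norm_num
  · intro i _ hi
    rw [Pi.neg_apply, Pi.single_eq_of_ne (Ne.symm hi), neg_zero, h0, add_zero]
  · intro h
    exact absurd (Finset.mem_univ e) h

theorem tsum_EK (w κ : ℝ) : ∑' x : Fin d → ℤ, EK w κ x = w := by
  have h := FT_EK w κ (0 : Fin d → ℝ)
  have h1 : FT (EK w κ) (0 : Fin d → ℝ) = ((∑' x : Fin d → ℤ, EK w κ x : ℝ) : ℂ) := by
    unfold FT
    rw [Complex.ofReal_tsum]
    refine tsum_congr fun x => ?_
    have h2 : ch (0 : Fin d → ℝ) x = 1 := by simp [ch, dot]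
    rw [h2, mul_one]
  rw [h1] at h
  have h3 := Complex.ofReal_injective h
  rw [h3]
  simp

private theorem EKB_eq (w κ : ℝ) (f : ℤ → ℝ) (h0 : f 0 = 0) (e : Fin d) (x : Fin d → ℤ) :
    f (x e) * EK w κ x = (-(κ / 2)) * (f (x e) * nn d x) := by
  unfold EK
  by_cases hx : x = 0
  · subst hx
    rw [Pi.zero_apply, h0]
    ring
  · have h1 : del d x = 0 := by simp [del, hx]
    rw [h1]
    ring

theorem tsum_sq_EK (w κ : ℝ) (e : Fin d) : ∑' x : Fin d → ℤ, (x e : ℝ) ^ 2 * EK w κ x = -κ := by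
  have h1 : ∀ x : Fin d → ℤ, (x e : ℝ) ^ 2 * EK w κ x = (-(κ / 2)) * ((x e : ℝ) ^ 2 * nn d x) := fun x =>
    EKB_eq w κ (fun z : ℤ => (z : ℝ) ^ 2) (by simp) e x
  simp only [h1]
  rw [tsum_mul_left, EKB_sum_nn (fun x : Fin d → ℤ => (x e : ℝ) ^ 2),
    EKB_two e (fun z : ℤ => (z : ℝ) ^ 2) (by simp) (by simp) (by simp)]
  ring

theorem mom_EK {w κ : ℝ} (hκ : 0 ≤ κ) (e : Fin d) {a : ℕ} (ha : 1 ≤ a) :
    ∑' x : Fin d → ℤ, |(x e : ℝ)| ^ a * |EK w κ x| ≤ κ := by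
  have h1 : ∀ x : Fin d → ℤ, |(x e : ℝ)| ^ a * |EK w κ x| = (κ / 2) * (|(x e : ℝ)| ^ a * nn d x) := by
    intro x
    have h2 := EKB_eq w κ (fun z : ℤ => |(z : ℝ)| ^ a) (by simp [Nat.one_le_iff_ne_zero.mp ha]) e x
    have h3 := congrArg abs h2
    rw [abs_mul, abs_mul, abs_mul, abs_neg, abs_of_nonneg (by positivity : (0 : ℝ) ≤ κ / 2),
      abs_of_nonneg (by positivity : (0 : ℝ) ≤ |(x e : ℝ)| ^ a), abs_of_nonneg (nn_nonneg x)] at h3
    exact h3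
  simp only [h1]
  rw [tsum_mul_left, EKB_sum_nn (fun x : Fin d → ℤ => |(x e : ℝ)| ^ a),
    EKB_two e (fun z : ℤ => |(z : ℝ)| ^ a) (by simp [Nat.one_le_iff_ne_zero.mp ha]) (by simp) (by simp)]
  linarith

theorem Good_EK (d n : ℕ) (c M : ℝ) (hc : 0 < c) : ∃ c1, 0 < c1 ∧
    ∀ κ w : ℝ, c ≤ κ → κ ≤ M → 0 ≤ w → Good n c1 M (EK w κ : (Fin d → ℤ) → ℝ) := by
  have hpi := Real.pi_pos
  refine ⟨c * (2 / Real.pi ^ 2), by positivity, fun κ w h1 h2 h3 => ?_⟩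
  have hκ : 0 ≤ κ := hc.le.trans h1
  refine ⟨Mo_EK n w κ, Ev_EK w κ, fun e a ha _ => (mom_EK hκ e (by omega)).trans h2, fun k hk => ?_⟩
  rw [FT_EK, Complex.ofReal_re]
  have h4 : ∀ i, 2 / Real.pi ^ 2 * k i ^ 2 ≤ 1 - Real.cos (k i) := fun i => by
    have := Real.cos_le_one_sub_mul_cos_sq (hk i)
    linarith
  have h5 : ‖k‖ ^ 2 ≤ ∑ i, k i ^ 2 := by
    have h6 : 0 ≤ ∑ i, k i ^ 2 := Finset.sum_nonneg fun i _ => sq_nonneg _
    have h7 : ‖k‖ ≤ √(∑ i, k i ^ 2) := by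
      rw [pi_norm_le_iff_of_nonneg (Real.sqrt_nonneg _)]
      intro i
      rw [Real.norm_eq_abs]
      refine Real.abs_le_sqrt ?_
      exact Finset.single_le_sum (f := fun i => k i ^ 2) (fun j _ => sq_nonneg _) (Finset.mem_univ i)
    calc ‖k‖ ^ 2 ≤ (√(∑ i, k i ^ 2)) ^ 2 := pow_le_pow_left₀ (norm_nonneg _) h7 2
      _ = ∑ i, k i ^ 2 := Real.sq_sqrt h6
  have h8 : 2 / Real.pi ^ 2 * ∑ i, k i ^ 2 ≤ ∑ i, (1 - Real.cos (k i)) := by
    rw [Finset.mul_sum]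
    exact Finset.sum_le_sum fun i _ => h4 i
  have h9 : 0 ≤ ∑ i, (1 - Real.cos (k i)) :=
    Finset.sum_nonneg fun i _ => by linarith [Real.cos_le_one (k i)]
  calc c * (2 / Real.pi ^ 2) * ‖k‖ ^ 2 ≤ c * (2 / Real.pi ^ 2) * ∑ i, k i ^ 2 :=
        mul_le_mul_of_nonneg_left h5 (by positivity)
    _ = c * (2 / Real.pi ^ 2 * ∑ i, k i ^ 2) := by ring
    _ ≤ c * ∑ i, (1 - Real.cos (k i)) := mul_le_mul_of_nonneg_left h8 hc.le
    _ ≤ κ * ∑ i, (1 - Real.cos (k i)) := mul_le_mul_of_nonneg_right h1 h9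
    _ ≤ w + κ * ∑ i, (1 - Real.cos (k i)) := by linarith

end IPC.Fo
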