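import Mathlib
import Pool.Agent.Lib.MP_25e40f_pr.E.Der
import Pool.Agent.Lib.MP_25e40f_pr.E.PowB
import Pool.Agent.Lib.MP_25e40f_pr.E.MmtA
import Pool.Agent.Lib.MP_25e40f_pr.E.MmtB
import Pool.Agent.Lib.MP_25e40f_pr.E.MmtC
import Pool.Agent.Lib.MP_25e40f_pr.E.EKB

/-!
THIS JOB (EKC): the theorems exists_green.  (The header describes the whole group EK; the other theorems are in other jobs and may be imported.)

# Job EK: the massive nearest neighbour operator and its Green function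

`nn x = 1` if `x` is a neighbour of `0` (sum over the `2d` unit vectors), `EK w κ = (w + dκ) δ - (κ/2) nn`.

PROOFS.
* `FT_nn`: `FT (fun x => del d (x - u)) k = ch k u` (`tsum_eq_single u`), `exp(i k_j) + exp(-i k_j) = 2 cos k_j`.
* `Good_EK`: all moments are finite (finite support).  `re FT (EK w κ) k = w + κ ∑ (1 - cos k_i) ≥ c ∑ (2/π²) k_i² ≥ c (2/π²) |k|²` on the cube
  (`Real.cos_le_one_sub_mul_cos_sq`... search: `1 - cos t = 2 sin² (t/2)` and Jordan `2/π * s ≤ sin s` (`Real.mul_le_sin`) for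
  `0 ≤ s ≤ π/2`).  Moments: for `a ≥ 1`: `∑ |x_e|^a |EK x| = κ` (only `x = ± e` contribute, `κ/2` each).
  So `c1 = 2 c/π²`, `M1 = M`.
* `exists_green`: `A = w + dκ > 0`, `S = (κ/(2A)) nn`, `∑ |S| = q = dκ/A < 1`, `cvp S j` vanishes outside `|x| ≤ j` and
  `∑ |cvp S j| ≤ q^j`.  `G = A⁻¹ ∑_j cvp S j`.  `∑_j ∑_x (1+|x|)^m |cvp S j x| ≤ ∑_j (1+j)^m q^j < ∞`
  (`summable_pow_mul_geometric_of_norm_lt_one` type), so everything is summable on the product `ℕ × (Fin d → ℤ)`.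
  `FT G k = A⁻¹ ∑_j (FT S k)^j = A⁻¹ (1 - FT S k)⁻¹` (geometric series) and `FT (EK w κ) k = A (1 - FT S k)`;
  `FT_injective` with `FT_cv`, `FT_del`.
-/

set_option autoImplicit false

noncomputable section

open Finset MeasureTheory

namespace IPC.Fo

variable {d : ℕ}

private theorem EKC_supp {S : (Fin d → ℤ) → ℝ} (hS : ∀ x, S x ≠ 0 → ‖x‖ ≤ 1) (j : ℕ) :
    ∀ x, cvp S j x ≠ 0 → ‖x‖ ≤ j := by
  induction j with
  | zero =>
    intro x hx
    rw [cvp_zero] at hx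
    have h0 : x = 0 := by
      by_contra h
      apply hx
      simp [del, h]
    rw [h0, norm_zero]
    simp
  | succ j ih =>
    intro x hx
    by_contra hlt
    apply hx
    rw [cvp_succ]
    unfold cv
    have h1 : ∀ y, S y * cvp S j (x - y) = 0 := by
      intro y
      by_contra hne
      have h2 := hS y (left_ne_zero_of_mul hne)
      have h3 := ih (x - y) (right_ne_zero_of_mul hne)
      apply hlt
      have h4 : ‖x‖ ≤ ‖y‖ + ‖x - y‖ := by
        have := norm_add_le y (x - y)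
        rwa [add_sub_cancel] at this
      push_cast
      linarith
    simp only [h1, tsum_zero]

private theorem EKC_FT0 {f : (Fin d → ℤ) → ℝ} : FT f 0 = ((∑' x, f x : ℝ) : ℂ) := by
  unfold FT
  rw [Complex.ofReal_tsum]
  refine tsum_congr fun x => ?_
  have h : ch (0 : Fin d → ℝ) x = 1 := by
    unfold ch dot
    simp
  rw [h, mul_one]

private theorem EKC_sum {S : (Fin d → ℤ) → ℝ} (hS : S1 S) (j : ℕ) :
    ∑' x, cvp S j x = (∑' x, S x) ^ j := by
  have h1 := FT_cvp hS j 0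
  rw [EKC_FT0, EKC_FT0] at h1
  exact_mod_cast h1

private theorem EKC_geo (m : ℕ) {q : ℝ} (hq0 : 0 ≤ q) (hq1 : q < 1) :
    Summable fun j : ℕ => (1 + (j : ℝ)) ^ m * q ^ j := by
  have hn : ‖q‖ < 1 := by rwa [Real.norm_of_nonneg hq0]
  have h1 : Summable fun j : ℕ => (j : ℝ) ^ m * q ^ j := summable_pow_mul_geometric_of_norm_lt_one m hn
  have h2 : Summable fun j : ℕ => q ^ j := summable_geometric_of_lt_one hq0 hq1
  refine Summable.of_nonneg_of_le (fun j => by positivity) (fun j => ?_) ((h1.add h2).mul_left (2 ^ m))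
  have h3 : (1 + (j : ℝ)) ^ m ≤ 2 ^ m * ((j : ℝ) ^ m + 1) := by
    rcases Nat.eq_zero_or_pos j with h | h
    · subst h
      have h4 : (1 : ℝ) ≤ 2 ^ m := one_le_pow₀ (by norm_num)
      have h5 : (0 : ℝ) ≤ (((0 : ℕ) : ℝ)) ^ m := by positivity
      simp only [Nat.cast_zero, add_zero, one_pow]
      simp only [Nat.cast_zero] at h5
      nlinarith
    · have h4 : (1 : ℝ) ≤ j := by exact_mod_cast h
      calc (1 + (j : ℝ)) ^ m ≤ (2 * (j : ℝ)) ^ m := pow_le_pow_left₀ (by linarith) (by linarith) m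
        _ = 2 ^ m * (j : ℝ) ^ m := mul_pow _ _ _
        _ ≤ 2 ^ m * ((j : ℝ) ^ m + 1) := by
            apply mul_le_mul_of_nonneg_left _ (by positivity)
            linarith
  calc (1 + (j : ℝ)) ^ m * q ^ j ≤ (2 ^ m * ((j : ℝ) ^ m + 1)) * q ^ j :=
        mul_le_mul_of_nonneg_right h3 (by positivity)
    _ = 2 ^ m * ((j : ℝ) ^ m * q ^ j + q ^ j) := by ring

private theorem EKC_prod {S : (Fin d → ℤ) → ℝ} (hS0 : ∀ x, 0 ≤ S x) (hSs : ∀ x, S x ≠ 0 → ‖x‖ ≤ 1)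
    (hSm : ∀ m, Mo m S) (hq1 : ∑' x, S x < 1) (m : ℕ) :
    Summable fun p : ℕ × (Fin d → ℤ) => (1 + ‖p.2‖) ^ m * cvp S p.1 p.2 := by
  have hq0 : 0 ≤ ∑' x, S x := tsum_nonneg hS0
  have hnn : ∀ j x, 0 ≤ cvp S j x := fun j x => cvp_nonneg hS0 j x
  have hw : ∀ x : Fin d → ℤ, (0 : ℝ) ≤ (1 + ‖x‖) ^ m := fun x => by positivity
  have hx : ∀ j, Summable fun x : Fin d → ℤ => (1 + ‖x‖) ^ m * cvp S j x := by
    intro j
    have h1 : Mo m (cvp S j) := Mo_cvp (hSm m) j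
    refine Summable.congr h1 fun x => ?_
    rw [abs_of_nonneg (hnn j x)]
  rw [summable_prod_of_nonneg (fun p => mul_nonneg (hw p.2) (hnn p.1 p.2))]
  refine ⟨fun j => hx j, ?_⟩
  refine Summable.of_nonneg_of_le (fun j => tsum_nonneg fun x => mul_nonneg (hw x) (hnn j x)) (fun j => ?_)
    (EKC_geo m hq0 hq1)
  have hs : Summable fun x => cvp S j x := (S1_cvp (hSm 0).s1 j).sum
  rw [← EKC_sum (hSm 0).s1 j, ← tsum_mul_left]
  refine Summable.tsum_le_tsum (fun x => ?_) (hx j) (hs.mul_left _)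
  by_cases h0 : cvp S j x = 0
  · change (1 + ‖x‖) ^ m * cvp S j x ≤ (1 + (j : ℝ)) ^ m * cvp S j x
    rw [h0, mul_zero, mul_zero]
  · have h1 := EKC_supp hSs j x h0
    exact mul_le_mul_of_nonneg_right (pow_le_pow_left₀ (by positivity) (by linarith) m) (hnn j x)

theorem exists_green (d : ℕ) {w κ : ℝ} (hw : 0 < w) (hκ : 0 ≤ κ) :
    ∃ G : (Fin d → ℤ) → ℝ, (∀ m, Mo m G) ∧ cv (EK w κ) G = del d := by
  obtain ⟨A, hA⟩ : ∃ A : ℝ, A = w + d * κ := ⟨_, rfl⟩
  have hd : (0 : ℝ) ≤ d := Nat.cast_nonneg d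
  have hdk : 0 ≤ (d : ℝ) * κ := mul_nonneg hd hκ
  have hA0 : 0 < A := by rw [hA]; linarith
  obtain ⟨c, hc⟩ : ∃ c : ℝ, c = κ / (2 * A) := ⟨_, rfl⟩
  have hc0 : 0 ≤ c := by rw [hc]; positivity
  obtain ⟨S, hS⟩ : ∃ S : (Fin d → ℤ) → ℝ, S = fun x => c * nn d x := ⟨_, rfl⟩
  have hS0 : ∀ x, 0 ≤ S x := fun x => by
    rw [hS]
    exact mul_nonneg hc0 (nn_nonneg x)
  have hSs : ∀ x, S x ≠ 0 → ‖x‖ ≤ 1 := fun x hx => by
    rw [hS] at hx
    exact nn_norm (right_ne_zero_of_mul hx)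
  have hSm : ∀ m, Mo m S := fun m => by
    rw [hS]
    exact (Mo_nn m).const_mul c
  have hS1 : S1 S := (hSm 0).s1
  have hsum : ∑' x, S x = d * κ / A := by
    rw [hS, tsum_mul_left, tsum_nn, hc]
    field_simp
  have hq1 : ∑' x, S x < 1 := by
    rw [hsum, div_lt_one hA0, hA]
    linarith
  have hnn : ∀ j x, 0 ≤ cvp S j x := fun j x => cvp_nonneg hS0 j x
  have hF := EKC_prod hS0 hSs hSm hq1
  have hmo : ∀ m, Mo m (fun x => A⁻¹ * ∑' j, cvp S j x) := by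
    intro m
    have h1 : Summable fun x : Fin d → ℤ => ∑' j : ℕ, (1 + ‖x‖) ^ m * cvp S j x :=
      (hF m).prod_symm.prod
    refine Summable.congr (h1.mul_left A⁻¹) fun x => ?_
    rw [abs_of_nonneg (mul_nonneg (inv_nonneg.2 hA0.le) (tsum_nonneg fun j => hnn j x)), tsum_mul_left]
    ring
  refine ⟨fun x => A⁻¹ * ∑' j, cvp S j x, hmo, ?_⟩
  have hG1 : S1 (fun x => A⁻¹ * ∑' j, cvp S j x) := (hmo 0).s1
  refine FT_injective ((Mo_EK 0 w κ).s1.cv hG1) S1_del fun k => ?_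
  rw [FT_cv (Mo_EK 0 w κ).s1 hG1, FT_del, FT_EK]
  have hFS : FT S k = ((c * ∑ i, 2 * Real.cos (k i) : ℝ) : ℂ) := by
    rw [hS, FT_const_mul, FT_nn]
    push_cast
    ring
  have hnorm : ‖FT S k‖ < 1 := by
    refine lt_of_le_of_lt (norm_FT_le hS1 k) ?_
    have h1 : ∑' x, |S x| = ∑' x, S x := tsum_congr fun x => abs_of_nonneg (hS0 x)
    rw [h1]
    exact hq1
  have hFG : FT (fun x => A⁻¹ * ∑' j, cvp S j x) k = (A : ℂ)⁻¹ * (1 - FT S k)⁻¹ := by
    rw [FT_const_mul, Complex.ofReal_inv]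
    congr 1
    have h2 : Summable (Function.uncurry fun (j : ℕ) (x : Fin d → ℤ) =>
        ((cvp S j x : ℝ) : ℂ) * ch k x) := by
      refine Summable.of_norm ?_
      have h3 := hF 0
      refine Summable.congr h3 fun p => ?_
      rw [Function.uncurry_def]
      change (1 + ‖p.2‖) ^ 0 * cvp S p.1 p.2 = ‖((cvp S p.1 p.2 : ℝ) : ℂ) * ch k p.2‖
      rw [norm_mul, norm_ch, mul_one, Complex.norm_real, Real.norm_eq_abs, abs_of_nonneg (hnn _ _),
        pow_zero, one_mul]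
    unfold FT
    have h4 : ∀ x : Fin d → ℤ, (((∑' j, cvp S j x : ℝ)) : ℂ) * ch k x =
        ∑' j, ((cvp S j x : ℝ) : ℂ) * ch k x := by
      intro x
      rw [Complex.ofReal_tsum, tsum_mul_right]
    rw [tsum_congr h4, Summable.tsum_comm h2]
    have h5 : ∀ j : ℕ, ∑' x : Fin d → ℤ, ((cvp S j x : ℝ) : ℂ) * ch k x = FT S k ^ j :=
      fun j => FT_cvp hS1 j k
    rw [tsum_congr h5]
    exact tsum_geometric_of_norm_lt_one hnorm
  rw [hFG]
  have hne : (1 - FT S k) ≠ 0 := by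
    intro h
    have h1 : FT S k = 1 := (sub_eq_zero.1 h).symm
    rw [h1] at hnorm
    simp at hnorm
  have hAne : (A : ℂ) ≠ 0 := by exact_mod_cast hA0.ne'
  have hkey : ((w + κ * ∑ i, (1 - Real.cos (k i)) : ℝ) : ℂ) = A * (1 - FT S k) := by
    rw [hFS, ← Complex.ofReal_one, ← Complex.ofReal_sub, ← Complex.ofReal_mul]
    congr 1
    rw [Finset.sum_sub_distrib, ← Finset.mul_sum, hc]
    simp only [Finset.sum_const, Finset.card_univ, Fintype.card_fin, nsmul_eq_mul, mul_one]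
    field_simp
    rw [hA]
    ring
  rw [hkey]
  field_simp

end IPC.Fo
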