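import Mathlib
import Pool.Agent.Lib.MP_25e40f_pr.E.Sg

/-!
THIS JOB (ItgA): the theorems ae_cube ae_coord_ne ae_ne_zero integrable_inv_pow Ic_nonneg.  (The header describes the whole group Itg; the other theorems are in other jobs and may be imported.)

# Job Itg: `|k|^(-s)` is integrable on the cube for `s < d`; sup norm bounds

PROOFS.
* `ae_cube`: `mu d = Measure.pi (fun _ => nu1)`; `nu1` is concentrated on `Icc (-π) π` (`ae_restrict_mem`,
  `Measure.ae_smul_measure` or direct computation of the measure of the complement); use `Measure.ae_eval...`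
  (`MeasureTheory.Measure.tendsto_eval_ae_ae`) for every coordinate and `eventually_all`.
* `ae_coord_ne`: `nu1 {0} = 0` (volume has no atoms), again `tendsto_eval_ae_ae`.
* `integrable_inv_pow`: let `r = s / d` in `[0, 1)`.  On the (full measure) set where all `k i ≠ 0`:
  `(|k|^s)⁻¹ = ∏_i (|k| ^ r)⁻¹ ≤ ∏_i (|k i| ^ r)⁻¹` (rpow; `|k i| ≤ |k|`, `(|k|^r)^d = |k|^s` by `Real.rpow_natCast`,
  `Real.rpow_mul`), and the right side is integrable by `MeasureTheory.Integrable.fintype_prod` from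
  `Integrable (fun t => |t| ^ (-r)) nu1`, which follows from `intervalIntegral.intervalIntegrable_rpow'`
  (`-1 < -r`) on `[0, π]` and evenness (or on `[-π, 0]` by the substitution `t ↦ -t`), and `nu1` being a finite multiple of
  the restriction of the volume (`Integrable.smul_measure`).  `d = 0` is excluded by `s < d`.  Measurability: continuity of
  the norm, `Measurable.inv`, `Measurable.pow_const`.
* `sup_le`: `abs_le_FT`, `integral_mono_ae` with the bound `C * (|k|^s)⁻¹` valid for almost every `k` (`ae_cube`, `k ≠ 0`),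
  `zpow_neg`, `zpow_natCast`, `integral_const_mul`.
* `Sg.decay`: for `x` choose `e` with `|x e| = |x|` (`d > 0`; sup norm of a vector in a finite product is attained), then
  `|x|^a |f x| = |mo e a f x|` and `sup_le` for `mo e a f` (which is `S1` by `Mo.mo`, `Mo.s1`).
* `Sg.decay1`: `(1 + |x|)^a ≤ 2^a (1 + |x|^a)` (if `|x| ≤ 1` the left side is at most `2^a`, otherwise at most `(2|x|)^a`), and
  `Sg.decay` for `0` and `a`.
-/

set_option autoImplicit false

noncomputable section

open Finset MeasureTheory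

namespace IPC.Fo

variable {d : ℕ}

private theorem ItgA_nu1_le : ∀ᵐ t ∂nu1, |t| ≤ Real.pi := by
  unfold nu1
  refine Measure.ae_smul_measure ?_ _
  filter_upwards [ae_restrict_mem (μ := volume) (measurableSet_Icc (a := -Real.pi) (b := Real.pi))] with t ht
  exact abs_le.2 ht

private theorem ItgA_nu1_ne : ∀ᵐ t ∂nu1, t ≠ 0 := by
  unfold nu1
  refine Measure.ae_smul_measure (ae_restrict_of_ae ?_) _
  rw [ae_iff]
  simp

private theorem ItgA_eval {p : ℝ → Prop} (h : ∀ᵐ t ∂nu1, p t) : ∀ᵐ k ∂(mu d), ∀ i, p (k i) := by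
  unfold mu
  refine Filter.eventually_all.2 (fun i => ?_)
  exact (Measure.tendsto_eval_ae_ae (μ := fun _ : Fin d => nu1) (i := i)).eventually h

private theorem ItgA_one {r : ℝ} (hr1 : r < 1) : Integrable (fun t : ℝ => |t| ^ (-r)) nu1 := by
  have h0 : IntegrableOn (fun t : ℝ => |t| ^ (-r)) (Set.Icc 0 Real.pi) volume := by
    have h1 : IntervalIntegrable (fun t : ℝ => t ^ (-r)) volume 0 Real.pi :=
      intervalIntegral.intervalIntegrable_rpow' (by linarith)
    rw [intervalIntegrable_iff_integrableOn_Icc_of_le Real.pi_pos.le] at h1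
    refine h1.congr_fun (fun t ht => ?_) measurableSet_Icc
    simp only [abs_of_nonneg ht.1]
  have h2 : IntegrableOn (fun t : ℝ => |t| ^ (-r)) (Set.Icc (-Real.pi) 0) volume := by
    have h3 := ((Measure.measurePreserving_neg (volume : Measure ℝ)).integrableOn_comp_preimage
      (MeasurableEquiv.neg ℝ).measurableEmbedding (f := fun t : ℝ => |t| ^ (-r)) (s := Set.Icc 0 Real.pi)).2 h0
    have e1 : (fun t : ℝ => |t| ^ (-r)) ∘ Neg.neg = fun t : ℝ => |t| ^ (-r) := by
      funext t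
      simp only [Function.comp_apply, abs_neg]
    have e2 : (Neg.neg ⁻¹' Set.Icc (0 : ℝ) Real.pi) = Set.Icc (-Real.pi) 0 := by
      ext t
      rw [Set.mem_preimage, Set.mem_Icc, Set.mem_Icc]
      constructor
      · rintro ⟨a, b⟩
        exact ⟨by linarith, by linarith⟩
      · rintro ⟨a, b⟩
        exact ⟨by linarith, by linarith⟩
    rw [e1, e2] at h3
    exact h3
  have h4 : IntegrableOn (fun t : ℝ => |t| ^ (-r)) (Set.Icc (-Real.pi) Real.pi) volume := by
    have h5 := h2.union h0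
    rwa [Set.Icc_union_Icc_eq_Icc (by linarith [Real.pi_pos]) Real.pi_pos.le] at h5
  unfold nu1
  exact h4.smul_measure ENNReal.ofReal_ne_top

private theorem ItgA_bound {s : ℕ} (hs : s < d) (k : Fin d → ℝ) (hk : ∀ i, k i ≠ 0) :
    (‖k‖ ^ s)⁻¹ ≤ ∏ i, |k i| ^ (-((s : ℝ) / d)) := by
  have hd : (0 : ℝ) < d := by exact_mod_cast lt_of_le_of_lt (Nat.zero_le s) hs
  have hr : -((s : ℝ) / d) ≤ 0 := neg_nonpos.2 (by positivity)
  have h1 : ∀ i ∈ (Finset.univ : Finset (Fin d)), ‖k‖ ^ (-((s : ℝ) / d)) ≤ |k i| ^ (-((s : ℝ) / d)) := by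
    intro i _
    exact Real.rpow_le_rpow_of_nonpos (abs_pos.2 (hk i)) (norm_le_pi_norm k i) hr
  have h2 := Finset.prod_le_prod (fun i _ => Real.rpow_nonneg (norm_nonneg k) _) h1
  refine le_trans (le_of_eq ?_) h2
  rw [Finset.prod_const, Finset.card_univ, Fintype.card_fin]
  have e1 : (‖k‖ ^ (-((s : ℝ) / d))) ^ d = ‖k‖ ^ (-((s : ℝ) / d) * d) := by
    rw [Real.rpow_mul (norm_nonneg k), Real.rpow_natCast]
  rw [e1, neg_mul, div_mul_cancel₀ _ hd.ne', Real.rpow_neg (norm_nonneg k), Real.rpow_natCast]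

theorem ae_cube : ∀ᵐ k ∂(mu d), Cu k := by
  exact ItgA_eval ItgA_nu1_le

theorem ae_coord_ne : ∀ᵐ k ∂(mu d), ∀ i, k i ≠ 0 := by
  exact ItgA_eval ItgA_nu1_ne

theorem ae_ne_zero (hd : 0 < d) : ∀ᵐ k ∂(mu d), k ≠ 0 := by
  filter_upwards [ae_coord_ne (d := d)] with k hk h0
  exact hk ⟨0, hd⟩ (by rw [h0]; rfl)

theorem integrable_inv_pow (s : ℕ) (hs : s < d) :
    Integrable (fun k : Fin d → ℝ => (‖k‖ ^ s)⁻¹) (mu d) := by
  have hd : (0 : ℝ) < d := by exact_mod_cast lt_of_le_of_lt (Nat.zero_le s) hs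
  have hr1 : (s : ℝ) / d < 1 := by
    rw [div_lt_one hd]
    exact_mod_cast hs
  have h1 : Integrable (fun k : Fin d → ℝ => ∏ i, |k i| ^ (-((s : ℝ) / d))) (mu d) := by
    unfold mu
    exact Integrable.fintype_prod (f := fun (_ : Fin d) (t : ℝ) => |t| ^ (-((s : ℝ) / d))) (fun _ => ItgA_one hr1)
  refine h1.mono' ?_ ?_
  · exact ((continuous_norm.pow s).measurable.inv).aestronglyMeasurable
  · filter_upwards [ae_coord_ne (d := d)] with k hk
    rw [Real.norm_eq_abs, abs_of_nonneg (inv_nonneg.2 (pow_nonneg (norm_nonneg k) s))]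
    exact ItgA_bound hs k hk

/-- the integral of `|k|^(-s)` -/
def Ic (d s : ℕ) : ℝ := ∫ k : Fin d → ℝ, (‖k‖ ^ s)⁻¹ ∂(mu d)

theorem Ic_nonneg (d s : ℕ) : 0 ≤ Ic d s := by
  exact integral_nonneg (fun k => inv_nonneg.2 (pow_nonneg (norm_nonneg k) s))

end IPC.Fo
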