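import Mathlib
import Pool.Agent.Lib.MP_25e40f_pr.E.Sg
import Pool.Agent.Lib.MP_25e40f_pr.E.ItgA

/-!
THIS JOB (ItgB): the theorems sup_le Sg.decay Sg.decay1.  (The header describes the whole group Itg; the other theorems are in other jobs and may be imported.)

# Job Itg: `|k|^(-s)` is integrable on the cube for `s < d`; sup norm bounds

PROOFS.
* `ae_cube`: `mu d = Measure.pi (fun _ => nu1)`; `nu1` is concentrated on `Icc (-π) π` (`ae_restrict_mem`,
  `Measure.ae_smul_measure` or direct computation of the measure of the complement); use `Measure.ae_eval...`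
  (`MeasureTheory.Measure.tendsto_eval_ae_ae`) for every coordinate and `eventually_all`.
* `ae_coord_ne`: `nu1 {0} = 0` (volume has no atoms), again `tendsto_eval_ae_ae`.
* `integrable_inv_pow`: let `r = s / d` in `[0, 1)`.  On the (full measure) set where all `k i ≠ 0`:
  `(|k|^s)⁻¹ = ∏_i (|k| ^ r)⁻¹ ≤ ∏_i (|k i| ^ r)⁻¹` (rpow; `|k i| ≤ |k|`, `(|k|^r)^d = |k|^s` by `Real.rpow_natCast`,
  `Real.rpow_mul`), and the right side is integrable by `MeasureTheory.Integrable.fintype_prod` from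
  `Integrable (fun t => |t| ^ (-r)) nu1`, which follows from `intervalIntegral.intervalIntegrable_rpow'`
  (`-1 < -r`) on `[0, π]` and evenness (or on `[-π, 0]` by the substitution `t ↦ -t`), and `nu1` being a finite multiple of
  the restriction of the volume (`Integrable.smul_measure`).  `d = 0` is excluded by `s < d`.  Measurability: continuity of
  the norm, `Measurable.inv`, `Measurable.pow_const`.
* `sup_le`: `abs_le_FT`, `integral_mono_ae` with the bound `C * (|k|^s)⁻¹` valid for almost every `k` (`ae_cube`, `k ≠ 0`),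
  `zpow_neg`, `zpow_natCast`, `integral_const_mul`.
* `Sg.decay`: for `x` choose `e` with `|x e| = |x|` (`d > 0`; sup norm of a vector in a finite product is attained), then
  `|x|^a |f x| = |mo e a f x|` and `sup_le` for `mo e a f` (which is `S1` by `Mo.mo`, `Mo.s1`).
* `Sg.decay1`: `(1 + |x|)^a ≤ 2^a (1 + |x|^a)` (if `|x| ≤ 1` the left side is at most `2^a`, otherwise at most `(2|x|)^a`), and
  `Sg.decay` for `0` and `a`.
-/

set_option autoImplicit false

noncomputable section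

open Finset MeasureTheory

namespace IPC.Fo

variable {d : ℕ}

theorem sup_le {f : (Fin d → ℤ) → ℝ} (hf : S1 f) {s : ℕ} (hs : s < d) {C : ℝ}
    (h : ∀ k : Fin d → ℝ, Cu k → k ≠ 0 → ‖FT f k‖ ≤ C * ‖k‖ ^ (-(s : ℤ))) (x : Fin d → ℤ) :
    |f x| ≤ C * Ic d s := by
  refine (abs_le_FT hf x).trans ?_
  have h1 : ∫ k, ‖FT f k‖ ∂(mu d) ≤ ∫ k : Fin d → ℝ, C * (‖k‖ ^ s)⁻¹ ∂(mu d) := by
    refine integral_mono_ae (FT_integrable hf).norm ((integrable_inv_pow s hs).const_mul C) ?_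
    filter_upwards [ae_cube, ae_ne_zero (by omega)] with k hk hk0
    have h2 := h k hk hk0
    rwa [zpow_neg, zpow_natCast] at h2
  rw [integral_const_mul] at h1
  exact h1

theorem Sg.decay {n : ℕ} {s : ℕ} {C : ℝ} {f : (Fin d → ℤ) → ℝ} (hf : Sg n s C f) (mf : Mo n f) {a : ℕ}
    (ha : a ≤ n) (hs : s + a < d) (x : Fin d → ℤ) : ‖x‖ ^ a * |f x| ≤ C * Ic d (s + a) := by
  have hd : 0 < d := by omega
  have hne : Nonempty (Fin d) := ⟨⟨0, hd⟩⟩
  obtain ⟨e, he⟩ := Finite.exists_max (fun i => ‖x i‖)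
  have h1 : ‖x‖ = |(x e : ℝ)| := by
    rw [← Int.norm_eq_abs]
    exact le_antisymm ((pi_norm_le_iff_of_nonneg (norm_nonneg _)).2 he) (norm_le_pi_norm x e)
  have h2 : ‖x‖ ^ a * |f x| = |mo e a f x| := by
    rw [mo, abs_mul, abs_pow, h1]
  have h3 : S1 (mo e a f) :=
    (Mo.mo (m := 0) (a := a) (mf.mono (by omega)) e).s1
  rw [h2]
  refine sup_le h3 hs (fun k hk hk0 => ?_) x
  have h4 := hf e a ha k hk hk0
  rw [Nat.cast_add]
  exact h4

theorem Sg.decay1 {n : ℕ} {s : ℕ} {C : ℝ} {f : (Fin d → ℤ) → ℝ} (hf : Sg n s C f) (mf : Mo n f) {a : ℕ}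
    (ha : a ≤ n) (hs : s + a < d) (x : Fin d → ℤ) :
    (1 + ‖x‖) ^ a * |f x| ≤ 2 ^ a * (C * Ic d s + C * Ic d (s + a)) := by
  have h0 : |f x| ≤ C * Ic d s := by
    have h := Sg.decay hf mf (Nat.zero_le n) (a := 0) (by omega) x
    rw [pow_zero, one_mul, add_zero] at h
    exact h
  have h1 := Sg.decay hf mf ha hs x
  have hx : 0 ≤ ‖x‖ := norm_nonneg x
  have h2 : (1 + ‖x‖) ^ a ≤ 2 ^ a * (1 + ‖x‖ ^ a) := by
    have h3 : 0 ≤ ‖x‖ ^ a := pow_nonneg hx a
    have h4 : (0 : ℝ) < 2 ^ a := by positivity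
    rcases le_total ‖x‖ 1 with h | h
    · have h5 : (1 + ‖x‖) ^ a ≤ 2 ^ a := pow_le_pow_left₀ (by linarith) (by linarith) a
      nlinarith
    · have h5 : (1 + ‖x‖) ^ a ≤ (2 * ‖x‖) ^ a := pow_le_pow_left₀ (by linarith) (by linarith) a
      rw [mul_pow] at h5
      nlinarith
  calc (1 + ‖x‖) ^ a * |f x| ≤ 2 ^ a * (1 + ‖x‖ ^ a) * |f x| :=
        mul_le_mul_of_nonneg_right h2 (abs_nonneg _)
    _ = 2 ^ a * (|f x| + ‖x‖ ^ a * |f x|) := by ring
    _ ≤ 2 ^ a * (C * Ic d s + C * Ic d (s + a)) :=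
        mul_le_mul_of_nonneg_left (add_le_add h0 h1) (by positivity)

end IPC.Fo
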