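import Mathlib
import Pool.Agent.Lib.MP_25e40f_pr.E.ItgB
import Pool.Agent.Lib.MP_25e40f_pr.E.PowB
import Pool.Agent.Lib.MP_25e40f_pr.E.Der
import Pool.Agent.Lib.MP_25e40f_pr.E.EKC

/-!
THIS JOB (DcyA): the theorems decay_cvp dia.  (The header describes the whole group Dcy; the other theorems are in other jobs and may be imported.)

# Job Dcy: pointwise decay of the powers, the diagram bound, moments of `W` from moments of `g`

PROOFS.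
* `decay_cvp`: `Sg_cvp` with `j = 7` gives one constant `C'`; `Sg.decay1` with `s = 2 i`; `K` = maximum (or sum) of the finitely many
  numbers `2^a (C' Ic d (2i) + C' Ic d (2i + a))`, `i ≤ 7`, `a ≤ d` (note `a < d`).
* `dia`: the transform of the fourfold convolution is the product (`FT_cv`), at most
  `C |k|^(-2-a) C |k|^(-2-b) C |k|^(-2) C |k|^(-2)` (for the last two use `mo_zero`: `Sg` with `a = 0`), `zpow_add₀`;
  `sup_le` with `s = 8 + a + b < d`.  `K = C^4 ∑_(s < d) Ic d s`.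
* `mom_W`: with `W = del - cv (Pn p) g`: for `1 ≤ a ≤ m`: `|x_e|^a ≤ |x_e|^m` (integers), `|x_e|^m |W x| = |x_e|^m |cv (Pn p) g x|` (at `x = 0` both sides are `0`), and
  `∑_x |x_e|^m |cv (Pn p) g x| ≤ ∑_x ∑_y p nn(y) |x_e|^m |g (x - y)| ≤ ∑_y p nn(y) ∑_z (|z_e| + 1)^m |g z| ≤ 2 d p 2^m (∑ |g| + ∑ |z_e|^m |g z|)`
  (`|y_e| ≤ 1` if `nn y ≠ 0`; `tsum_nn`; `(u+1)^m ≤ 2^m (1 + u^m)`), `p ≤ 1`.
-/

set_option autoImplicit false

noncomputable section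

open Finset MeasureTheory

namespace IPC.Fo

variable {d : ℕ}

/-- `p` times the indicator of the neighbours of `0` -/
def Pn (p : ℝ) : (Fin d → ℤ) → ℝ := fun x => p * nn d x

theorem decay_cvp (d n : ℕ) (C : ℝ) (hC : 0 ≤ C) : ∃ K, 0 ≤ K ∧ ∀ V : (Fin d → ℤ) → ℝ, Mo n V → Sg n 2 C V →
    ∀ i a, i ≤ 7 → a ≤ n → 2 * i + a < d → ∀ x, (1 + ‖x‖) ^ a * |cvp V i x| ≤ K := by
  obtain ⟨C', hC', h⟩ := Sg_cvp d n 7 C hC
  have h0 : ∀ i a : ℕ, 0 ≤ (2 : ℝ) ^ a * (C' * Ic d (2 * i) + C' * Ic d (2 * i + a)) := fun i a =>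
    mul_nonneg (by positivity) (add_nonneg (mul_nonneg hC' (Ic_nonneg _ _)) (mul_nonneg hC' (Ic_nonneg _ _)))
  refine ⟨∑ i ∈ range 8, ∑ a ∈ range (n + 1), (2 : ℝ) ^ a * (C' * Ic d (2 * i) + C' * Ic d (2 * i + a)),
    Finset.sum_nonneg fun i _ => Finset.sum_nonneg fun a _ => h0 i a, ?_⟩
  intro V hM hV i a hi ha hd x
  have h1 := (h V hM hV i hi).decay1 (Mo_cvp hM i) ha hd x
  refine h1.trans ?_
  have h2 : (2 : ℝ) ^ a * (C' * Ic d (2 * i) + C' * Ic d (2 * i + a)) ≤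
      ∑ a ∈ range (n + 1), (2 : ℝ) ^ a * (C' * Ic d (2 * i) + C' * Ic d (2 * i + a)) :=
    Finset.single_le_sum (f := fun a => (2 : ℝ) ^ a * (C' * Ic d (2 * i) + C' * Ic d (2 * i + a)))
      (fun a _ => h0 i a) (Finset.mem_range.2 (by omega))
  refine h2.trans ?_
  exact Finset.single_le_sum
    (f := fun i => ∑ a ∈ range (n + 1), (2 : ℝ) ^ a * (C' * Ic d (2 * i) + C' * Ic d (2 * i + a)))
    (fun i _ => Finset.sum_nonneg fun a _ => h0 i a) (Finset.mem_range.2 (by omega))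

theorem dia (d m : ℕ) (C : ℝ) (hC : 0 ≤ C) : ∃ K, 0 ≤ K ∧ ∀ V : (Fin d → ℤ) → ℝ, Mo m V → Sg m 2 C V →
    ∀ (e : Fin d) (a b : ℕ), a ≤ m → b ≤ m → 8 + (a + b) < d → ∀ x,
      |cv (mo e a V) (cv (mo e b V) (cv V V)) x| ≤ K := by
  refine ⟨C ^ 4 * ∑ s ∈ range d, Ic d s, mul_nonneg (by positivity) (Finset.sum_nonneg fun s _ => Ic_nonneg d s), ?_⟩
  intro V hM hV e a b ha hb hd x
  have sa : S1 (mo e a V) := (Mo.mo (m := 0) (a := a) (by rw [zero_add]; exact hM.mono ha) e).s1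
  have sb : S1 (mo e b V) := (Mo.mo (m := 0) (a := b) (by rw [zero_add]; exact hM.mono hb) e).s1
  have sV : S1 V := hM.s1
  have s2 : S1 (cv V V) := sV.cv sV
  have s3 : S1 (cv (mo e b V) (cv V V)) := sb.cv s2
  have s4 : S1 (cv (mo e a V) (cv (mo e b V) (cv V V))) := sa.cv s3
  have key : ∀ k : Fin d → ℝ, Cu k → k ≠ 0 →
      ‖FT (cv (mo e a V) (cv (mo e b V) (cv V V))) k‖ ≤ C ^ 4 * ‖k‖ ^ (-((8 + (a + b) : ℕ) : ℤ)) := by
    intro k hk hk0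
    have hz : (0 : ℝ) < ‖k‖ := norm_pos_iff.2 hk0
    rw [FT_cv sa s3, FT_cv sb s2, FT_cv sV sV, norm_mul, norm_mul, norm_mul]
    have h1 := hV e a ha k hk hk0
    have h2 := hV e b hb k hk hk0
    have h3 := hV e 0 (Nat.zero_le _) k hk hk0
    rw [mo_zero] at h3
    have e1 : (-(2 + ((0 : ℕ) : ℤ)) : ℤ) = -2 := by norm_num
    rw [e1] at h3
    have h4 : ‖FT V k‖ * ‖FT V k‖ ≤ (C * ‖k‖ ^ (-2 : ℤ)) * (C * ‖k‖ ^ (-2 : ℤ)) :=
      mul_le_mul h3 h3 (norm_nonneg _) (by positivity)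
    have h5 : ‖FT (mo e b V) k‖ * (‖FT V k‖ * ‖FT V k‖) ≤
        (C * ‖k‖ ^ (-(2 + (b : ℤ)) : ℤ)) * ((C * ‖k‖ ^ (-2 : ℤ)) * (C * ‖k‖ ^ (-2 : ℤ))) :=
      mul_le_mul h2 h4 (by positivity) (by positivity)
    have h6 : ‖FT (mo e a V) k‖ * (‖FT (mo e b V) k‖ * (‖FT V k‖ * ‖FT V k‖)) ≤
        (C * ‖k‖ ^ (-(2 + (a : ℤ)) : ℤ)) * ((C * ‖k‖ ^ (-(2 + (b : ℤ)) : ℤ)) *
          ((C * ‖k‖ ^ (-2 : ℤ)) * (C * ‖k‖ ^ (-2 : ℤ)))) :=
      mul_le_mul h1 h5 (by positivity) (by positivity)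
    refine h6.trans (le_of_eq ?_)
    have e2 : (-((8 + (a + b) : ℕ) : ℤ)) = -(2 + (a : ℤ)) + (-(2 + (b : ℤ)) + (-2 + -2)) := by
      push_cast; ring
    rw [e2, zpow_add₀ hz.ne', zpow_add₀ hz.ne', zpow_add₀ hz.ne']
    ring
  refine (sup_le s4 hd key x).trans ?_
  apply mul_le_mul_of_nonneg_left _ (by positivity)
  exact Finset.single_le_sum (f := fun s => Ic d s) (fun s _ => Ic_nonneg d s) (Finset.mem_range.2 hd)

end IPC.Fo
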