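import Mathlib
import Pool.Agent.Lib.MP_25e40f_pr.E.ItgB
import Pool.Agent.Lib.MP_25e40f_pr.E.PowB
import Pool.Agent.Lib.MP_25e40f_pr.E.Der
import Pool.Agent.Lib.MP_25e40f_pr.E.EKC
import Pool.Agent.Lib.MP_25e40f_pr.E.DcyA

/-!
THIS JOB (DcyB): the theorems mom_W.  (The header describes the whole group Dcy; the other theorems are in other jobs and may be imported.)

# Job Dcy: pointwise decay of the powers, the diagram bound, moments of `W` from moments of `g`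

PROOFS.
* `decay_cvp`: `Sg_cvp` with `j = 7` gives one constant `C'`; `Sg.decay1` with `s = 2 i`; `K` = maximum (or sum) of the finitely many
  numbers `2^a (C' Ic d (2i) + C' Ic d (2i + a))`, `i ≤ 7`, `a ≤ d` (note `a < d`).
* `dia`: the transform of the fourfold convolution is the product (`FT_cv`), at most
  `C |k|^(-2-a) C |k|^(-2-b) C |k|^(-2) C |k|^(-2)` (for the last two use `mo_zero`: `Sg` with `a = 0`), `zpow_add₀`;
  `sup_le` with `s = 8 + a + b < d`.  `K = C^4 ∑_(s < d) Ic d s`.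
* `mom_W`: with `W = del - cv (Pn p) g`: for `1 ≤ a ≤ m`: `|x_e|^a ≤ |x_e|^m` (integers), `|x_e|^m |W x| = |x_e|^m |cv (Pn p) g x|` (at `x = 0` both sides are `0`), and
  `∑_x |x_e|^m |cv (Pn p) g x| ≤ ∑_x ∑_y p nn(y) |x_e|^m |g (x - y)| ≤ ∑_y p nn(y) ∑_z (|z_e| + 1)^m |g z| ≤ 2 d p 2^m (∑ |g| + ∑ |z_e|^m |g z|)`
  (`|y_e| ≤ 1` if `nn y ≠ 0`; `tsum_nn`; `(u+1)^m ≤ 2^m (1 + u^m)`), `p ≤ 1`.
-/

set_option autoImplicit false

noncomputable section

open Finset MeasureTheory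

namespace IPC.Fo

variable {d : ℕ}

private theorem DcyB_FT0 (f : (Fin d → ℤ) → ℝ) : FT f 0 = ((∑' x, f x : ℝ) : ℂ) := by
  unfold FT
  rw [Complex.ofReal_tsum]
  refine tsum_congr fun x => ?_
  have h : ch (0 : Fin d → ℝ) x = 1 := by simp [ch, dot]
  rw [h, mul_one]

private theorem DcyB_tsum_cv {f g : (Fin d → ℤ) → ℝ} (hf : S1 f) (hg : S1 g) :
    ∑' x, cv f g x = (∑' x, f x) * ∑' x, g x := by
  have h := FT_cv hf hg 0
  rw [DcyB_FT0, DcyB_FT0, DcyB_FT0] at h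
  exact_mod_cast h

private theorem DcyB_pow (u : ℝ) (hu : 0 ≤ u) (m : ℕ) : (u + 1) ^ m ≤ 2 ^ m * (1 + u ^ m) := by
  rcases le_or_gt u 1 with h | h
  · have h1 : (u + 1) ^ m ≤ 2 ^ m := pow_le_pow_left₀ (by linarith) (by linarith) m
    have h2 : (2 : ℝ) ^ m * 1 ≤ 2 ^ m * (1 + u ^ m) :=
      mul_le_mul_of_nonneg_left (by linarith [pow_nonneg hu m]) (by positivity)
    linarith
  · have h1 : (u + 1) ^ m ≤ (2 * u) ^ m := pow_le_pow_left₀ (by linarith) (by linarith) m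
    rw [mul_pow] at h1
    have h2 : (2 : ℝ) ^ m * u ^ m ≤ 2 ^ m * (1 + u ^ m) :=
      mul_le_mul_of_nonneg_left (by linarith) (by positivity)
    linarith

/-- powers of integers -/
private theorem DcyB_int (n : ℤ) {a m : ℕ} (ha : 1 ≤ a) (ham : a ≤ m) : |(n : ℝ)| ^ a ≤ |(n : ℝ)| ^ m := by
  by_cases hn : n = 0
  · rw [hn]
    simp only [Int.cast_zero, abs_zero]
    rw [zero_pow (by omega), zero_pow (by omega)]
  · refine pow_le_pow_right₀ ?_ ham
    have h1 : (1 : ℤ) ≤ |n| := Int.one_le_abs hn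
    exact_mod_cast h1

theorem mom_W {m : ℕ} {p K0 K : ℝ} (hp : 0 ≤ p) (hp1 : p ≤ 1) {g : (Fin d → ℤ) → ℝ} (mg : Mo m g)
    (h0 : ∑' x, |g x| ≤ K0) (h1 : ∀ e : Fin d, ∑' x, |(x e : ℝ)| ^ m * |g x| ≤ K) (e : Fin d) {a : ℕ} (ha : 1 ≤ a)
    (ham : a ≤ m) : ∑' x, |(x e : ℝ)| ^ a * |del d x - cv (Pn p) g x| ≤ 2 * d * 2 ^ m * (K0 + K) := by
  obtain ⟨g', hg'⟩ : ∃ g' : (Fin d → ℤ) → ℝ, ∀ z, g' z = (|(z e : ℝ)| + 1) ^ m * |g z| := ⟨_, fun _ => rfl⟩
  have hg0 : ∀ z, 0 ≤ g' z := fun z => by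
    rw [hg']
    positivity
  have hgs : Summable g' := by
    refine Summable.of_nonneg_of_le hg0 (fun z => ?_) mg
    rw [hg']
    refine mul_le_mul_of_nonneg_right (pow_le_pow_left₀ (by positivity) ?_ m) (abs_nonneg _)
    linarith [abs_coord_le z e]
  have hgS : S1 g' := hgs.abs
  have hP : S1 (Pn p : (Fin d → ℤ) → ℝ) := ((Mo_nn 0).const_mul p).s1
  have hP0 : ∀ y, 0 ≤ (Pn p : (Fin d → ℤ) → ℝ) y := fun y => mul_nonneg hp (nn_nonneg y)
  have hsumP : ∑' y, (Pn p : (Fin d → ℤ) → ℝ) y = p * (2 * d) := by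
    unfold Pn
    rw [tsum_mul_left, tsum_nn]
  have hpt : ∀ x : Fin d → ℤ, |(x e : ℝ)| ^ a * |del d x - cv (Pn p) g x| ≤ cv (Pn p) g' x := by
    intro x
    have hcv0 : 0 ≤ cv (Pn p) g' x := cv_nonneg hP0 hg0 x
    by_cases hx : x = 0
    · have hx0 : (x e : ℝ) = 0 := by rw [hx]; simp
      rw [hx0, abs_zero, zero_pow (by omega), zero_mul]
      exact hcv0
    · have hd0 : del d x = 0 := by simp [del, hx]
      rw [hd0, zero_sub, abs_neg]
      have h2 : |(x e : ℝ)| ^ a * |cv (Pn p) g x| ≤ |(x e : ℝ)| ^ m * ∑' y, |Pn p y * g (x - y)| :=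
        mul_le_mul (DcyB_int (x e) ha ham) (abs_cv_le hP mg.s1 x) (abs_nonneg _) (by positivity)
      refine h2.trans ?_
      rw [← tsum_mul_left]
      refine Summable.tsum_le_tsum (fun y => ?_) ((cv_summable_inner hP mg.s1 x).mul_left _)
        ((cv_summable_inner hP hgS x).of_abs)
      rw [abs_mul, abs_of_nonneg (hP0 y), hg']
      by_cases hy : nn d y = 0
      · have h3 : (Pn p : (Fin d → ℤ) → ℝ) y = 0 := by
          unfold Pn
          rw [hy, mul_zero]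
        rw [h3, zero_mul, zero_mul, mul_zero]
      · have h3 : |(y e : ℝ)| ≤ 1 := (abs_coord_le y e).trans (nn_norm hy)
        have h4 : |(x e : ℝ)| ≤ |((x - y) e : ℝ)| + 1 := by
          have h5 : (x e : ℝ) = ((x - y) e : ℝ) + (y e : ℝ) := by
            rw [Pi.sub_apply]
            push_cast
            ring
          rw [h5]
          exact (abs_add_le _ _).trans (by linarith)
        have h6 : |(x e : ℝ)| ^ m ≤ (|((x - y) e : ℝ)| + 1) ^ m := pow_le_pow_left₀ (abs_nonneg _) h4 m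
        calc |(x e : ℝ)| ^ m * (Pn p y * |g (x - y)|) ≤ (|((x - y) e : ℝ)| + 1) ^ m * (Pn p y * |g (x - y)|) :=
              mul_le_mul_of_nonneg_right h6 (mul_nonneg (hP0 y) (abs_nonneg _))
          _ = Pn p y * ((|((x - y) e : ℝ)| + 1) ^ m * |g (x - y)|) := by ring
  have hcs : Summable (cv (Pn p) g') := (hP.cv hgS).sum
  have h2 : ∑' x : Fin d → ℤ, |(x e : ℝ)| ^ a * |del d x - cv (Pn p) g x| ≤ ∑' x, cv (Pn p) g' x :=
    Summable.tsum_le_tsum hpt (Summable.of_nonneg_of_le (fun x => by positivity) hpt hcs) hcs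
  rw [DcyB_tsum_cv hP hgS, hsumP] at h2
  have hsg : Summable fun z => |g z| := mg.s1
  have hsm : Summable fun z : Fin d → ℤ => |(z e : ℝ)| ^ m * |g z| := by
    refine ((Mo.mo (m := 0) (a := m) (by rwa [zero_add]) e).s1 : S1 (mo e m g)).congr fun x => ?_
    rw [mo, abs_mul, abs_pow]
  have h3 : ∑' z, g' z ≤ 2 ^ m * (K0 + K) := by
    have h4 : ∑' z, g' z ≤ ∑' z, 2 ^ m * (|g z| + |(z e : ℝ)| ^ m * |g z|) := by
      refine Summable.tsum_le_tsum (fun z => ?_) hgs ((hsg.add hsm).mul_left _)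
      rw [hg']
      have h5 := mul_le_mul_of_nonneg_right (DcyB_pow |(z e : ℝ)| (abs_nonneg _) m) (abs_nonneg (g z))
      linarith
    refine h4.trans ?_
    rw [tsum_mul_left, Summable.tsum_add hsg hsm]
    exact mul_le_mul_of_nonneg_left (add_le_add h0 (h1 e)) (by positivity)
  have h4 : 0 ≤ 2 ^ m * (K0 + K) := (tsum_nonneg hg0).trans h3
  have h5 : p * (2 * d) * ∑' z, g' z ≤ p * (2 * d) * (2 ^ m * (K0 + K)) :=
    mul_le_mul_of_nonneg_left h3 (by positivity)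
  have h6 : p * (2 * d) * (2 ^ m * (K0 + K)) ≤ 1 * ((2 * d) * (2 ^ m * (K0 + K))) := by
    rw [mul_assoc]
    exact mul_le_mul_of_nonneg_right hp1 (by positivity)
  calc _ ≤ _ := h2
    _ ≤ _ := h5
    _ ≤ _ := h6
    _ = _ := by ring

end IPC.Fo
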