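import Mathlib
import Pool.Agent.Lib.MP_25e40f_pr.E.Fou

/-!
THIS JOB (HsA): the theorems hs_nonneg hs_le_one hs_continuous hs_complex.  (The header describes the whole group Hs; the other theorems are in other jobs and may be imported.)

# Job Hs: the heat kernel on `ℤ`

`hs s m = (1/2π) ∫_(-π)^π exp(-s (1 - cos t)) cos (m t) dt`.

PROOF of `hs_nonneg`.  `c j m = ∫ (cos t)^j cos (m t) dnu1 ≥ 0` for all `j : ℕ`, `m : ℤ` by induction on `j`:
`cos t cos (m t) = (cos ((m+1) t) + cos ((m-1) t))/2` and `∫ cos (m t) dnu1 = if m = 0 then 1 else 0` (real part of `nu1_exp`).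
`exp(s cos t) = ∑ s^j (cos t)^j / j!`, the series converges uniformly (`∑ s^j/j!`), exchange of sum and integral
(`hasSum_integral_of_summable_integral_norm`), all terms are nonnegative for `s ≥ 0`, `exp(-s(1 - cos t)) = exp(-s) exp(s cos t)`.

PROOF of `hs_lower`.  Let `s ≥ 2`, `|m| ≤ √s/4`, `δ = 4/√s ≤ π`.  `2π hs s m = ∫_(|t| ≤ δ) + ∫_(δ < |t| ≤ π)`.
On `|t| ≤ δ`: `|m t| ≤ 1`, `cos (m t) ≥ cos 1 ≥ 1/2` (`Real.cos_one_pos`... : `cos 1 ≥ 1 - 1/2` by `Real.one_sub_sq_div_two_le_cos`), the integrand is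
nonnegative, and on `|t| ≤ 1/√s` it is at least `exp(-s t²/2)/2 ≥ exp(-1/2)/2` (`1 - cos t ≤ t²/2`), so the first integral is at least
`(2/√s) exp(-1/2)/2 = exp(-1/2)/√s ≥ 0.6/√s`.
On `|t| ≥ δ`: `1 - cos t ≥ 2 t²/π² ≥ t²/5` (`|t| ≤ π`, `1 - cos t = 2 sin²(t/2)`, `Real.mul_le_sin`), the second integral is at most in absolute value
`2 ∫_δ^∞ exp(-s t²/5) dt ≤ 2 ∫_δ^∞ (t/δ) exp(-s t²/5) dt = 2 (5/(2 s δ)) exp(-s δ²/5) = (5/(4 √s)) exp(-16/5) ≤ 0.06/√s` (`exp(-3.2) ≤ 1/24`; one can also use
the crude bound `exp(-u) ≤ 1/(1 + u + u²/2 + ...)`).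
So `hs s m ≥ (0.5/(2π))/√s ≥ (1/20)/√s`.
-/

set_option autoImplicit false

noncomputable section

open Finset MeasureTheory

namespace IPC.Fo

/-- the heat kernel on `ℤ` -/
def hs (s : ℝ) (m : ℤ) : ℝ := ∫ t, Real.exp (-s * (1 - Real.cos t)) * Real.cos (t * m) ∂nu1

private theorem HsA_int {E : Type*} [NormedAddCommGroup E] {f : ℝ → E} (hf : Continuous f) :
    Integrable f nu1 := by
  unfold nu1
  exact (hf.integrableOn_Icc).smul_measure ENNReal.ofReal_ne_top

private theorem HsA_cos (m : ℤ) : ∫ t, Real.cos (t * m) ∂nu1 = if m = 0 then 1 else 0 := by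
  have hc : Continuous fun t : ℝ => Complex.exp ((t * m : ℝ) * Complex.I) :=
    Complex.continuous_exp.comp
      ((Complex.continuous_ofReal.comp (continuous_id.mul continuous_const)).mul continuous_const)
  have h1 := Complex.reCLM.integral_comp_comm (HsA_int hc)
  rw [nu1_exp m] at h1
  have h2 : ∀ t : ℝ, Complex.reCLM (Complex.exp ((t * m : ℝ) * Complex.I)) = Real.cos (t * m) := by
    intro t
    rw [Complex.reCLM_apply, Complex.exp_ofReal_mul_I_re]
  simp only [h2] at h1
  rw [h1, Complex.reCLM_apply]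
  split_ifs <;> simp

private theorem HsA_cont (j : ℕ) (m : ℤ) : Continuous fun t : ℝ => Real.cos t ^ j * Real.cos (t * m) :=
  (Real.continuous_cos.pow j).mul (Real.continuous_cos.comp (continuous_id.mul continuous_const))

private theorem HsA_c (j : ℕ) : ∀ m : ℤ, 0 ≤ ∫ t, Real.cos t ^ j * Real.cos (t * m) ∂nu1 := by
  induction j with
  | zero =>
    intro m
    simp only [pow_zero, one_mul]
    rw [HsA_cos]
    split_ifs <;> norm_num
  | succ j ih =>
    intro m
    have h1 : ∀ t : ℝ, Real.cos t ^ (j + 1) * Real.cos (t * m) =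
        (1 / 2) * (Real.cos t ^ j * Real.cos (t * ((m + 1 : ℤ) : ℝ)) +
          Real.cos t ^ j * Real.cos (t * ((m - 1 : ℤ) : ℝ))) := by
      intro t
      have h2 : t * ((m + 1 : ℤ) : ℝ) = t * m + t := by push_cast; ring
      have h3 : t * ((m - 1 : ℤ) : ℝ) = t * m - t := by push_cast; ring
      rw [h2, h3, Real.cos_add, Real.cos_sub]
      ring
    simp only [h1]
    rw [integral_const_mul, integral_add (HsA_int (HsA_cont j (m + 1))) (HsA_int (HsA_cont j (m - 1)))]
    have h4 := ih (m + 1)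
    have h5 := ih (m - 1)
    linarith

private theorem HsA_intc (s : ℝ) (m : ℤ) :
    Continuous fun t : ℝ => Real.exp (-s * (1 - Real.cos t)) * Real.cos (t * m) :=
  (Real.continuous_exp.comp (continuous_const.mul (continuous_const.sub Real.continuous_cos))).mul
    (Real.continuous_cos.comp (continuous_id.mul continuous_const))

theorem hs_nonneg {s : ℝ} (h : 0 ≤ s) (m : ℤ) : 0 ≤ hs s m := by
  have hF : ∀ (j : ℕ) (t : ℝ), (s * Real.cos t) ^ j / (j.factorial : ℝ) * Real.cos (t * m) =
      s ^ j / (j.factorial : ℝ) * (Real.cos t ^ j * Real.cos (t * m)) := by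
    intro j t
    rw [mul_pow]
    ring
  have hint : ∀ j : ℕ, Integrable (fun t : ℝ =>
      (s * Real.cos t) ^ j / (j.factorial : ℝ) * Real.cos (t * m)) nu1 := by
    intro j
    simp only [hF]
    exact (HsA_int (HsA_cont j m)).const_mul _
  have hbd : ∀ j : ℕ, ∫ t, ‖(s * Real.cos t) ^ j / (j.factorial : ℝ) * Real.cos (t * m)‖ ∂nu1 ≤
      s ^ j / (j.factorial : ℝ) := by
    intro j
    have h1 : ∫ t, ‖(s * Real.cos t) ^ j / (j.factorial : ℝ) * Real.cos (t * m)‖ ∂nu1 ≤
        ∫ _t, s ^ j / (j.factorial : ℝ) ∂nu1 := by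
      refine integral_mono (hint j).norm (integrable_const _) fun t => ?_
      show ‖(s * Real.cos t) ^ j / (j.factorial : ℝ) * Real.cos (t * m)‖ ≤ s ^ j / (j.factorial : ℝ)
      have h2 : 0 ≤ s ^ j / (j.factorial : ℝ) := by positivity
      rw [hF, Real.norm_eq_abs, abs_mul, abs_mul, abs_pow, abs_of_nonneg h2]
      have h3 : |Real.cos t| ^ j ≤ 1 := pow_le_one₀ (abs_nonneg _) (Real.abs_cos_le_one t)
      have h4 : |Real.cos (t * m)| ≤ 1 := Real.abs_cos_le_one _
      have h5 : |Real.cos t| ^ j * |Real.cos (t * m)| ≤ 1 :=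
        mul_le_one₀ h3 (abs_nonneg _) h4
      exact mul_le_of_le_one_right h2 h5
    refine h1.trans (le_of_eq ?_)
    rw [integral_const]
    simp
  have hsum : Summable fun j : ℕ => ∫ t, ‖(s * Real.cos t) ^ j / (j.factorial : ℝ) * Real.cos (t * m)‖ ∂nu1 :=
    Summable.of_nonneg_of_le (fun j => integral_nonneg fun t => norm_nonneg _) hbd
      (Real.summable_pow_div_factorial s)
  have hH := hasSum_integral_of_summable_integral_norm hint hsum
  have htsum : ∀ t : ℝ, ∑' j : ℕ, (s * Real.cos t) ^ j / (j.factorial : ℝ) * Real.cos (t * m) =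
      Real.exp (s * Real.cos t) * Real.cos (t * m) := by
    intro t
    have h1 := (NormedSpace.expSeries_div_hasSum_exp (s * Real.cos t)).mul_right (Real.cos (t * m))
    rw [← Real.exp_eq_exp_ℝ] at h1
    exact h1.tsum_eq
  simp only [htsum] at hH
  have hpos : 0 ≤ ∫ t, Real.exp (s * Real.cos t) * Real.cos (t * m) ∂nu1 := by
    refine hH.nonneg fun j => ?_
    simp only [hF]
    rw [integral_const_mul]
    exact mul_nonneg (by positivity) (HsA_c j m)
  have he : hs s m = Real.exp (-s) * ∫ t, Real.exp (s * Real.cos t) * Real.cos (t * m) ∂nu1 := by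
    unfold hs
    rw [← integral_const_mul]
    refine integral_congr_ae (Filter.Eventually.of_forall fun t => ?_)
    show Real.exp (-s * (1 - Real.cos t)) * Real.cos (t * m) =
      Real.exp (-s) * (Real.exp (s * Real.cos t) * Real.cos (t * m))
    rw [← mul_assoc, ← Real.exp_add]
    congr 2
    ring
  rw [he]
  exact mul_nonneg (Real.exp_pos _).le hpos

theorem hs_le_one {s : ℝ} (h : 0 ≤ s) (m : ℤ) : hs s m ≤ 1 := by
  unfold hs
  have h1 : ∫ t, Real.exp (-s * (1 - Real.cos t)) * Real.cos (t * m) ∂nu1 ≤ ∫ _t, (1 : ℝ) ∂nu1 := by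
    refine integral_mono (HsA_int (HsA_intc s m)) (integrable_const _) fun t => ?_
    show Real.exp (-s * (1 - Real.cos t)) * Real.cos (t * m) ≤ 1
    have h2 : Real.exp (-s * (1 - Real.cos t)) ≤ 1 := by
      rw [Real.exp_le_one_iff]
      have h3 := Real.cos_le_one t
      nlinarith
    have h4 := Real.exp_pos (-s * (1 - Real.cos t))
    have h5 := Real.cos_le_one (t * m)
    calc Real.exp (-s * (1 - Real.cos t)) * Real.cos (t * m)
        ≤ Real.exp (-s * (1 - Real.cos t)) * 1 := mul_le_mul_of_nonneg_left h5 h4.le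
      _ ≤ 1 := by rw [mul_one]; exact h2
  refine h1.trans (le_of_eq ?_)
  rw [integral_const]
  simp

theorem hs_continuous (m : ℤ) : Continuous fun s => hs s m := by
  have hc : Continuous (Function.uncurry fun (s : ℝ) (t : ℝ) =>
      Real.exp (-s * (1 - Real.cos t)) * Real.cos (t * m)) := by
    have h1 : Continuous fun p : ℝ × ℝ => Real.exp (-p.1 * (1 - Real.cos p.2)) * Real.cos (p.2 * m) :=
      (Real.continuous_exp.comp (continuous_fst.neg.mul
        (continuous_const.sub (Real.continuous_cos.comp continuous_snd)))).mul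
        (Real.continuous_cos.comp (continuous_snd.mul continuous_const))
    exact h1
  have h2 := continuous_parametric_integral_of_continuous (μ := volume) hc
    (s := Set.Icc (-Real.pi) Real.pi) isCompact_Icc
  have h3 : (fun s => hs s m) = fun s => (ENNReal.ofReal (1 / (2 * Real.pi))).toReal •
      ∫ t in Set.Icc (-Real.pi) Real.pi, Real.exp (-s * (1 - Real.cos t)) * Real.cos (t * m) := by
    funext s
    unfold hs nu1
    rw [integral_smul_measure]
  rw [h3]
  simp only [smul_eq_mul]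
  exact continuous_const.mul h2

/-- the complex form -/
theorem hs_complex (s : ℝ) (m : ℤ) : ((hs s m : ℝ) : ℂ) =
    ∫ t, (Real.exp (-s * (1 - Real.cos t)) : ℂ) * Complex.exp ((t * m : ℝ) * Complex.I) ∂nu1 := by
  obtain ⟨f, hf⟩ : ∃ f : ℝ → ℂ, f = fun t : ℝ =>
      (Real.exp (-s * (1 - Real.cos t)) : ℂ) * Complex.exp ((t * m : ℝ) * Complex.I) := ⟨_, rfl⟩
  have hfc : Continuous f := by
    rw [hf]
    exact (Complex.continuous_ofReal.comp (Real.continuous_exp.comp
      (continuous_const.mul (continuous_const.sub Real.continuous_cos)))).mul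
      (Complex.continuous_exp.comp
        ((Complex.continuous_ofReal.comp (continuous_id.mul continuous_const)).mul continuous_const))
  have hneg : ∫ t, f (-t) ∂nu1 = ∫ t, f t ∂nu1 := by
    rw [nu1_integral, nu1_integral, intervalIntegral.integral_comp_neg, neg_neg]
  have hconj : ∀ t : ℝ, f (-t) = (starRingEnd ℂ) (f t) := by
    intro t
    rw [hf]
    show (Real.exp (-s * (1 - Real.cos (-t))) : ℂ) * Complex.exp ((-t * m : ℝ) * Complex.I) =
      (starRingEnd ℂ) ((Real.exp (-s * (1 - Real.cos t)) : ℂ) * Complex.exp ((t * m : ℝ) * Complex.I))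
    rw [map_mul, Complex.conj_ofReal, ← Complex.exp_conj, map_mul, Complex.conj_ofReal, Complex.conj_I,
      Real.cos_neg]
    congr 2
    push_cast
    ring
  have hI : (starRingEnd ℂ) (∫ t, f t ∂nu1) = ∫ t, f t ∂nu1 := by
    rw [← integral_conj, ← hneg]
    refine integral_congr_ae (Filter.Eventually.of_forall fun t => ?_)
    exact (hconj t).symm
  have hre : (∫ t, f t ∂nu1).re = hs s m := by
    have h1 := Complex.reCLM.integral_comp_comm (HsA_int hfc)
    rw [Complex.reCLM_apply] at h1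
    rw [← h1]
    unfold hs
    refine integral_congr_ae (Filter.Eventually.of_forall fun t => ?_)
    show Complex.reCLM (f t) = _
    rw [Complex.reCLM_apply, hf]
    show ((Real.exp (-s * (1 - Real.cos t)) : ℂ) * Complex.exp ((t * m : ℝ) * Complex.I)).re = _
    rw [Complex.re_ofReal_mul, Complex.exp_ofReal_mul_I_re]
  have h2 := Complex.conj_eq_iff_re.1 hI
  rw [hre] at h2
  rw [h2, hf]

end IPC.Fo
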