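import Mathlib
import Pool.Agent.Lib.MP_25e40f_pr.E.Fou
import Pool.Agent.Lib.MP_25e40f_pr.E.HsA

/-!
THIS JOB (HsB): the theorems hs_lower.  (The header describes the whole group Hs; the other theorems are in other jobs and may be imported.)

# Job Hs: the heat kernel on `ℤ`

`hs s m = (1/2π) ∫_(-π)^π exp(-s (1 - cos t)) cos (m t) dt`.

PROOF of `hs_nonneg`.  `c j m = ∫ (cos t)^j cos (m t) dnu1 ≥ 0` for all `j : ℕ`, `m : ℤ` by induction on `j`:
`cos t cos (m t) = (cos ((m+1) t) + cos ((m-1) t))/2` and `∫ cos (m t) dnu1 = if m = 0 then 1 else 0` (real part of `nu1_exp`).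
`exp(s cos t) = ∑ s^j (cos t)^j / j!`, the series converges uniformly (`∑ s^j/j!`), exchange of sum and integral
(`hasSum_integral_of_summable_integral_norm`), all terms are nonnegative for `s ≥ 0`, `exp(-s(1 - cos t)) = exp(-s) exp(s cos t)`.

PROOF of `hs_lower`.  Let `s ≥ 2`, `|m| ≤ √s/4`, `δ = 4/√s ≤ π`.  `2π hs s m = ∫_(|t| ≤ δ) + ∫_(δ < |t| ≤ π)`.
On `|t| ≤ δ`: `|m t| ≤ 1`, `cos (m t) ≥ cos 1 ≥ 1/2` (`Real.cos_one_pos`... : `cos 1 ≥ 1 - 1/2` by `Real.one_sub_sq_div_two_le_cos`), the integrand is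
nonnegative, and on `|t| ≤ 1/√s` it is at least `exp(-s t²/2)/2 ≥ exp(-1/2)/2` (`1 - cos t ≤ t²/2`), so the first integral is at least
`(2/√s) exp(-1/2)/2 = exp(-1/2)/√s ≥ 0.6/√s`.
On `|t| ≥ δ`: `1 - cos t ≥ 2 t²/π² ≥ t²/5` (`|t| ≤ π`, `1 - cos t = 2 sin²(t/2)`, `Real.mul_le_sin`), the second integral is at most in absolute value
`2 ∫_δ^∞ exp(-s t²/5) dt ≤ 2 ∫_δ^∞ (t/δ) exp(-s t²/5) dt = 2 (5/(2 s δ)) exp(-s δ²/5) = (5/(4 √s)) exp(-16/5) ≤ 0.06/√s` (`exp(-3.2) ≤ 1/24`; one can also use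
the crude bound `exp(-u) ≤ 1/(1 + u + u²/2 + ...)`).
So `hs s m ≥ (0.5/(2π))/√s ≥ (1/20)/√s`.
-/

set_option autoImplicit false

noncomputable section

open Finset MeasureTheory

namespace IPC.Fo

private def HsB_F (s : ℝ) (m : ℤ) (t : ℝ) : ℝ :=
  Real.exp (-s * (1 - Real.cos t)) * Real.cos (t * m)

private lemma HsB_cont (s : ℝ) (m : ℤ) : Continuous (HsB_F s m) := by
  unfold HsB_F
  fun_prop

private lemma HsB_int (s : ℝ) (m : ℤ) (a b : ℝ) :
    IntervalIntegrable (HsB_F s m) volume a b := (HsB_cont s m).intervalIntegrable a b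

private lemma HsB_even (s : ℝ) (m : ℤ) (t : ℝ) : HsB_F s m (-t) = HsB_F s m t := by
  unfold HsB_F
  rw [Real.cos_neg, neg_mul t, Real.cos_neg]

private lemma HsB_eq (s : ℝ) (m : ℤ) :
    hs s m = 1 / Real.pi * ∫ t in (0 : ℝ)..Real.pi, HsB_F s m t := by
  have hpi := Real.pi_pos
  have h1 : hs s m = ∫ t, HsB_F s m t ∂nu1 := rfl
  have h2 : (∫ t in (-Real.pi)..0, HsB_F s m t) = ∫ t in (0 : ℝ)..Real.pi, HsB_F s m t := by
    have h3 := intervalIntegral.integral_comp_neg (a := 0) (b := Real.pi) (HsB_F s m)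
    rw [neg_zero] at h3
    rw [← h3]
    simp_rw [HsB_even]
  have h4 : (∫ t in (-Real.pi)..Real.pi, HsB_F s m t) =
      2 * ∫ t in (0 : ℝ)..Real.pi, HsB_F s m t := by
    rw [← intervalIntegral.integral_add_adjacent_intervals (HsB_int s m (-Real.pi) 0)
      (HsB_int s m 0 Real.pi), h2]
    ring
  rw [h1, nu1, integral_smul_measure, integral_Icc_eq_integral_Ioc,
    ← intervalIntegral.integral_of_le (by linarith), h4, ENNReal.toReal_ofReal (by positivity),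
    smul_eq_mul]
  field_simp

private lemma HsB_small {s : ℝ} (h : 2 ≤ s) {m : ℤ} (hm : |(m : ℝ)| ≤ Real.sqrt s / 4) {t : ℝ}
    (ht0 : 0 ≤ t) (ht : t ≤ 1 / Real.sqrt s) : 1 / 4 ≤ HsB_F s m t := by
  have hs0 : 0 < s := by linarith
  have hq0 : 0 < Real.sqrt s := Real.sqrt_pos.mpr hs0
  have hqq : Real.sqrt s * Real.sqrt s = s := Real.mul_self_sqrt hs0.le
  have h1 : t * Real.sqrt s ≤ 1 := by rwa [le_div_iff₀ hq0] at ht
  have h2 : t ^ 2 * s ≤ 1 := by
    have h3 : t ^ 2 * s = (t * Real.sqrt s) * (t * Real.sqrt s) := by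
      calc t ^ 2 * s = t ^ 2 * (Real.sqrt s * Real.sqrt s) := by rw [hqq]
        _ = _ := by ring
    rw [h3]
    have h4 : 0 ≤ t * Real.sqrt s := by positivity
    nlinarith
  have h5 : 1 - t ^ 2 / 2 ≤ Real.cos t := Real.one_sub_sq_div_two_le_cos
  have h6 : 1 / 2 ≤ Real.exp (-s * (1 - Real.cos t)) := by
    have h7 := Real.add_one_le_exp (-s * (1 - Real.cos t))
    nlinarith
  have h8 : |t * m| ≤ 1 := by
    rw [abs_mul, abs_of_nonneg ht0]
    have h9 : t * |(m : ℝ)| ≤ t * (Real.sqrt s / 4) := mul_le_mul_of_nonneg_left hm ht0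
    linarith
  have h10 : 1 - (t * m) ^ 2 / 2 ≤ Real.cos (t * m) := Real.one_sub_sq_div_two_le_cos
  have h11 : (t * m) ^ 2 ≤ 1 := by
    rw [← sq_abs]
    have := abs_nonneg (t * (m : ℝ))
    nlinarith
  have h12 : 1 / 2 ≤ Real.cos (t * m) := by linarith
  unfold HsB_F
  nlinarith

private lemma HsB_mid {s : ℝ} (h : 2 ≤ s) {m : ℤ} (hm : |(m : ℝ)| ≤ Real.sqrt s / 4) {t : ℝ}
    (ht0 : 0 ≤ t) (ht : t ≤ 4 / Real.sqrt s) : 0 ≤ HsB_F s m t := by
  have hs0 : 0 < s := by linarith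
  have hq0 : 0 < Real.sqrt s := Real.sqrt_pos.mpr hs0
  have h1 : t * Real.sqrt s ≤ 4 := by rwa [le_div_iff₀ hq0] at ht
  have h8 : |t * m| ≤ 1 := by
    rw [abs_mul, abs_of_nonneg ht0]
    have h9 : t * |(m : ℝ)| ≤ t * (Real.sqrt s / 4) := mul_le_mul_of_nonneg_left hm ht0
    linarith
  have h10 : 1 - (t * m) ^ 2 / 2 ≤ Real.cos (t * m) := Real.one_sub_sq_div_two_le_cos
  have h11 : (t * m) ^ 2 ≤ 1 := by
    rw [← sq_abs]
    have := abs_nonneg (t * (m : ℝ))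
    nlinarith
  have h12 : 0 ≤ Real.cos (t * m) := by linarith
  exact mul_nonneg (Real.exp_pos _).le h12

private lemma HsB_cos {t : ℝ} (ht0 : 0 ≤ t) (ht : t ≤ Real.pi) : t ^ 2 / 5 ≤ 1 - Real.cos t := by
  have hpi := Real.pi_pos
  have h1 : 2 / Real.pi * (t / 2) ≤ Real.sin (t / 2) :=
    Real.mul_le_sin (by linarith) (by linarith)
  have h2 : Real.cos t = 1 - 2 * Real.sin (t / 2) ^ 2 := by
    have h3 := Real.cos_two_mul (t / 2)
    have h4 := Real.sin_sq_add_cos_sq (t / 2)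
    have h5 : 2 * (t / 2) = t := by ring
    rw [h5] at h3
    rw [h3]
    linarith
  have h6 : 0 ≤ 2 / Real.pi * (t / 2) := by positivity
  have h7 : (2 / Real.pi * (t / 2)) ^ 2 ≤ Real.sin (t / 2) ^ 2 := by
    gcongr
  have h8 : (2 / Real.pi * (t / 2)) ^ 2 = t ^ 2 / Real.pi ^ 2 := by
    field_simp
  have h9 : Real.pi ^ 2 ≤ 10 := by
    have := Real.pi_lt_d2
    nlinarith
  have h10 : t ^ 2 / 10 ≤ t ^ 2 / Real.pi ^ 2 := by
    gcongr
  rw [h2]
  rw [h8] at h7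
  linarith

private lemma HsB_tail {s : ℝ} (h : 2 ≤ s) {m : ℤ} {t : ℝ}
    (ht0 : 4 / Real.sqrt s ≤ t) (ht : t ≤ Real.pi) :
    -(t * Real.sqrt s / 4 * Real.exp (-s * t ^ 2 / 5)) ≤ HsB_F s m t := by
  have hs0 : 0 < s := by linarith
  have hq0 : 0 < Real.sqrt s := Real.sqrt_pos.mpr hs0
  have h1 : 4 ≤ t * Real.sqrt s := by rwa [div_le_iff₀ hq0] at ht0
  have htp : 0 ≤ t := le_trans (by positivity) ht0
  have h2 := HsB_cos htp ht
  have h3 : Real.exp (-s * (1 - Real.cos t)) ≤ Real.exp (-s * t ^ 2 / 5) := by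
    apply Real.exp_le_exp.mpr
    nlinarith
  have h4 : -1 ≤ Real.cos (t * m) := Real.neg_one_le_cos _
  have h5 : 0 < Real.exp (-s * (1 - Real.cos t)) := Real.exp_pos _
  have h6 : 0 < Real.exp (-s * t ^ 2 / 5) := Real.exp_pos _
  unfold HsB_F
  nlinarith

theorem hs_lower {s : ℝ} (h : 2 ≤ s) {m : ℤ} (hm : |(m : ℝ)| ≤ Real.sqrt s / 4) :
    1 / 20 / Real.sqrt s ≤ hs s m := by
  have hs0 : 0 < s := by linarith
  have hq0 : 0 < Real.sqrt s := Real.sqrt_pos.mpr hs0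
  have hqq : Real.sqrt s * Real.sqrt s = s := Real.mul_self_sqrt hs0.le
  have hpi3 := Real.pi_gt_three
  have hpi4 := Real.pi_lt_d2
  have hδπ : 4 / Real.sqrt s ≤ Real.pi := by
    rw [div_le_iff₀ hq0]
    nlinarith
  have hδ1 : 1 / Real.sqrt s ≤ 4 / Real.sqrt s := by
    gcongr
    norm_num
  have hδ0 : 0 ≤ 1 / Real.sqrt s := by positivity
  rw [HsB_eq]
  have hA : 1 / 4 * (1 / Real.sqrt s) ≤ ∫ t in (0 : ℝ)..(1 / Real.sqrt s), HsB_F s m t := by
    have h1 : (∫ _t in (0 : ℝ)..(1 / Real.sqrt s), (1 / 4 : ℝ)) ≤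
        ∫ t in (0 : ℝ)..(1 / Real.sqrt s), HsB_F s m t :=
      intervalIntegral.integral_mono_on hδ0 (by simp) (HsB_int _ _ _ _)
        fun t ht => HsB_small h hm ht.1 ht.2
    rw [intervalIntegral.integral_const, smul_eq_mul, sub_zero] at h1
    linarith
  have hB : 0 ≤ ∫ t in (1 / Real.sqrt s)..(4 / Real.sqrt s), HsB_F s m t :=
    intervalIntegral.integral_nonneg hδ1 fun t ht => HsB_mid h hm (hδ0.trans ht.1) ht.2
  have hC : -(5 / 8 / Real.sqrt s * (25 / 233)) ≤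
      ∫ t in (4 / Real.sqrt s)..Real.pi, HsB_F s m t := by
    have h1 : (∫ t in (4 / Real.sqrt s)..Real.pi,
        -(t * Real.sqrt s / 4 * Real.exp (-s * t ^ 2 / 5))) ≤
        ∫ t in (4 / Real.sqrt s)..Real.pi, HsB_F s m t :=
      intervalIntegral.integral_mono_on hδπ
        (Continuous.intervalIntegrable (by fun_prop) _ _) (HsB_int _ _ _ _)
        fun t ht => HsB_tail h ht.1 ht.2
    have h2 : ∀ t ∈ Set.uIcc (4 / Real.sqrt s) Real.pi,
        HasDerivAt (fun t : ℝ => 5 / 8 / Real.sqrt s * Real.exp (-s * t ^ 2 / 5))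
          (-(t * Real.sqrt s / 4 * Real.exp (-s * t ^ 2 / 5))) t := by
      intro t _
      have h3 : HasDerivAt (fun t : ℝ => -s * t ^ 2 / 5) (-s * ((2 : ℕ) * t ^ (2 - 1)) / 5) t :=
        ((hasDerivAt_pow 2 t).const_mul (-s)).div_const 5
      have h4 := (h3.exp).const_mul (5 / 8 / Real.sqrt s)
      have h5 : 5 / 8 / Real.sqrt s *
          (Real.exp (-s * t ^ 2 / 5) * (-s * ((2 : ℕ) * t ^ (2 - 1)) / 5)) =
          -(t * Real.sqrt s / 4 * Real.exp (-s * t ^ 2 / 5)) := by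
        have h6 : s / Real.sqrt s = Real.sqrt s := by
          rw [div_eq_iff hq0.ne', hqq]
        have h7 : 5 / 8 / Real.sqrt s *
            (Real.exp (-s * t ^ 2 / 5) * (-s * ((2 : ℕ) * t ^ (2 - 1)) / 5)) =
            -(t * (s / Real.sqrt s) / 4 * Real.exp (-s * t ^ 2 / 5)) := by
          push_cast
          ring
        rw [h7, h6]
      rw [h5] at h4
      exact h4
    have h8 := intervalIntegral.integral_eq_sub_of_hasDerivAt h2
      (Continuous.intervalIntegrable (by fun_prop) _ _)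
    rw [h8] at h1
    have h9 : -s * (4 / Real.sqrt s) ^ 2 / 5 = -(16 / 5) := by
      have h10 : (4 / Real.sqrt s) ^ 2 = 16 / s := by
        rw [div_pow, sq (Real.sqrt s), hqq]
        norm_num
      rw [h10]
      field_simp
    have h11 : Real.exp (-(16 / 5)) ≤ 25 / 233 := by
      rw [Real.exp_neg]
      have h12 := Real.quadratic_le_exp_of_nonneg (x := (16 / 5 : ℝ)) (by norm_num)
      have h13 : (233 / 25 : ℝ) ≤ Real.exp (16 / 5) := by
        refine le_trans (by norm_num) h12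
      have h14 : (Real.exp (16 / 5))⁻¹ ≤ (233 / 25 : ℝ)⁻¹ := by
        gcongr
      refine h14.trans (by norm_num)
    rw [h9] at h1
    have h15 : 0 ≤ 5 / 8 / Real.sqrt s * Real.exp (-s * Real.pi ^ 2 / 5) := by positivity
    have h16 : 5 / 8 / Real.sqrt s * Real.exp (-(16 / 5)) ≤ 5 / 8 / Real.sqrt s * (25 / 233) :=
      mul_le_mul_of_nonneg_left h11 (by positivity)
    linarith
  have hsum : (∫ t in (0 : ℝ)..Real.pi, HsB_F s m t) =
      (∫ t in (0 : ℝ)..(1 / Real.sqrt s), HsB_F s m t) +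
      (∫ t in (1 / Real.sqrt s)..(4 / Real.sqrt s), HsB_F s m t) +
      ∫ t in (4 / Real.sqrt s)..Real.pi, HsB_F s m t := by
    rw [intervalIntegral.integral_add_adjacent_intervals (HsB_int _ _ _ _) (HsB_int _ _ _ _),
      intervalIntegral.integral_add_adjacent_intervals (HsB_int _ _ _ _) (HsB_int _ _ _ _)]
  have hfin : 9 / 50 * (1 / Real.sqrt s) ≤ ∫ t in (0 : ℝ)..Real.pi, HsB_F s m t := by
    rw [hsum]
    have h17 : 5 / 8 / Real.sqrt s * (25 / 233) = 125 / 1864 * (1 / Real.sqrt s) := by ring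
    rw [h17] at hC
    linarith
  have hpi0 : 0 < Real.pi := Real.pi_pos
  have h18 : 1 / 20 / Real.sqrt s = 1 / Real.pi * (Real.pi / 20 * (1 / Real.sqrt s)) := by
    field_simp
  rw [h18]
  refine mul_le_mul_of_nonneg_left (le_trans ?_ hfin) (by positivity)
  refine mul_le_mul_of_nonneg_right ?_ hδ0
  linarith

end IPC.Fo
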