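import Mathlib
import Pool.Agent.Lib.MP_25e40f_pr.E.EKC
import Pool.Agent.Lib.MP_25e40f_pr.E.HsB

/-!
THIS JOB (GsixA): the theorems Gsix_formula.  (The header describes the whole group Gsix; the other theorems are in other jobs and may be imported.)

# Job Gsix: the sixth convolution power of the Green function from below

PROOF of `Gsix_formula`.  Let `E(k) = w + κ ∑ (1 - cos k_i) ≥ w > 0`.  `FT (cvp G 6) k = (E(k)⁻¹)^6` (`FT_cvp`; `FT (EK w κ) k * FT G k = 1`),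
and `(E⁻¹)^6 = ∫_(t>0) (t^5/120) exp(-t E) dt` (Gamma integral: `Real.integral_rpow_mul_exp_neg_mul_Ioi` or `integral_pow_mul_exp_neg...`).
Inversion (`FT_inv`): `cvp G 6 x = ∫_k (E(k)⁻¹)^6 ch k (-x) dmu = ∫_k ∫_t (t^5/120) exp(-t E(k)) ch k (-x)`; Fubini
(`integral_integral_swap`; the integrand is bounded by `(t^5/120) exp(-t w)`, integrable on `(mu d) × (volume on t > 0)`); for fixed `t`,
`exp(-t E(k)) ch k (-x) = exp(-t w) ∏_i exp(-κ t (1 - cos k_i)) exp(-i k_i x_i)` and `∫_k ∏ = ∏ ∫` (`integral_fintype_prod_eq_prod`,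
`ch_eq_prod`), with `hs_complex` for `-x_i` and `hs s (-m) = hs s m` (cosine is even).

PROOF of `Gsix_lower`.  `x ≠ 0`, so `|x| ≥ 1`.  `T = 16 |x|²/κ`.  For `T ≤ t ≤ 2T`: `κ t ≥ 16 |x|² ≥ 2`, `√(κt)/4 ≥ |x| ≥ |x_i|`, so
`hs (κt) (x i) ≥ (1/20)/√(κt) ≥ (1/20)/√(32|x|²) ≥ 1/(120 |x|)`; `exp(-tw) ≥ exp(-2Tw) = exp(-32 w|x|²/κ) ≥ exp(-32/c)`; `t^5/120 ≥ T^5/120`.  All the integrand is
nonnegative (`hs_nonneg`), so the integral is at least
`T * (T^5/120) exp(-32/c) (120|x|)^(-d) ≥ (16/M)^6 (1/120) exp(-32/c) 120^(-d) |x|^(12-d)`.  (Integrability of the integrand on `t > 0`: it is bounded by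
`t^5 exp(-tw)` and continuous by `hs_continuous`.)
-/

set_option autoImplicit false

noncomputable section

open Finset MeasureTheory

namespace IPC.Fo

variable {d : ℕ}

private theorem GsixA_gamma {r : ℝ} (hr : 0 < r) :
    ∫ t in Set.Ioi (0 : ℝ), t ^ 5 / 120 * Real.exp (-(t * r)) = (r⁻¹) ^ 6 := by
  have h := Real.integral_rpow_mul_exp_neg_mul_Ioi (a := 6) (r := r) (by norm_num) hr
  have hG : Real.Gamma 6 = 120 := by
    have h5 := Real.Gamma_nat_eq_factorial 5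
    rw [show ((5 : ℕ) : ℝ) + 1 = 6 by norm_num, show Nat.factorial 5 = 120 by rfl] at h5
    rw [h5]
    norm_num
  rw [hG] at h
  have h2 : ∀ t ∈ Set.Ioi (0 : ℝ), t ^ 5 / 120 * Real.exp (-(t * r)) =
      (1 / 120) * (t ^ ((6 : ℝ) - 1) * Real.exp (-(r * t))) := by
    intro t _
    rw [show (6 : ℝ) - 1 = ((5 : ℕ) : ℝ) by norm_num, Real.rpow_natCast, mul_comm t r]
    ring
  rw [setIntegral_congr_fun measurableSet_Ioi h2, integral_const_mul, h,
    show (6 : ℝ) = ((6 : ℕ) : ℝ) by norm_num, Real.rpow_natCast, one_div]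
  ring

private theorem GsixA_int {w : ℝ} (hw : 0 < w) :
    IntegrableOn (fun t : ℝ => t ^ 5 / 120 * Real.exp (-(t * w))) (Set.Ioi 0) := by
  have h := integrableOn_rpow_mul_exp_neg_mul_rpow (p := 1) (s := 5) (b := w) (by norm_num) one_pos hw
  have h3 : IntegrableOn (fun t : ℝ => (1 / 120) * (t ^ (5 : ℝ) * Real.exp (-w * t ^ (1 : ℝ)))) (Set.Ioi 0) :=
    Integrable.const_mul h (1 / 120)
  refine h3.congr_fun ?_ measurableSet_Ioi
  intro t _
  show (1 / 120) * (t ^ (5 : ℝ) * Real.exp (-w * t ^ (1 : ℝ))) = t ^ 5 / 120 * Real.exp (-(t * w))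
  rw [Real.rpow_one, show (5 : ℝ) = ((5 : ℕ) : ℝ) by norm_num, Real.rpow_natCast,
    show -w * t = -(t * w) by ring]
  ring

private theorem GsixA_hs_neg (s : ℝ) (m : ℤ) : hs s (-m) = hs s m := by
  unfold hs
  refine integral_congr_ae (Filter.Eventually.of_forall fun t => ?_)
  show Real.exp (-s * (1 - Real.cos t)) * Real.cos (t * ((-m : ℤ) : ℝ)) =
    Real.exp (-s * (1 - Real.cos t)) * Real.cos (t * (m : ℝ))
  rw [show t * ((-m : ℤ) : ℝ) = -(t * m) by push_cast; ring, Real.cos_neg]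

private theorem GsixA_inner (w κ t : ℝ) (x : Fin d → ℤ) :
    ∫ k, ((t ^ 5 / 120 * Real.exp (-(t * (w + κ * ∑ i, (1 - Real.cos (k i))))) : ℝ) : ℂ) * ch k (-x) ∂(mu d) =
      ((t ^ 5 / 120 * Real.exp (-(t * w)) * ∏ i, hs (κ * t) (x i) : ℝ) : ℂ) := by
  have h1 : ∀ k : Fin d → ℝ,
      ((t ^ 5 / 120 * Real.exp (-(t * (w + κ * ∑ i, (1 - Real.cos (k i))))) : ℝ) : ℂ) * ch k (-x) =
      ((t ^ 5 / 120 * Real.exp (-(t * w)) : ℝ) : ℂ) *
        ∏ i, ((Real.exp (-(κ * t) * (1 - Real.cos (k i))) : ℂ) *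
          Complex.exp ((k i * ((-x) i : ℤ) : ℝ) * Complex.I)) := by
    intro k
    rw [Finset.prod_mul_distrib, ← ch_eq_prod]
    have h2 : -(t * (w + κ * ∑ i, (1 - Real.cos (k i)))) =
        -(t * w) + ∑ i, (-(κ * t) * (1 - Real.cos (k i))) := by
      rw [← Finset.mul_sum]
      ring
    rw [h2, Real.exp_add, Real.exp_sum]
    push_cast
    ring
  simp only [h1]
  rw [integral_const_mul]
  unfold mu
  rw [integral_fintype_prod_eq_prod (f := fun i s =>
    ((Real.exp (-(κ * t) * (1 - Real.cos s)) : ℂ) * Complex.exp ((s * ((-x) i : ℤ) : ℝ) * Complex.I)))]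
  simp only [← hs_complex, Pi.neg_apply, GsixA_hs_neg]
  push_cast
  ring

theorem Gsix_formula {w κ : ℝ} (hw : 0 < w) (hκ : 0 ≤ κ) {G : (Fin d → ℤ) → ℝ} (hG : S1 G)
    (h : cv (EK w κ) G = del d) (x : Fin d → ℤ) :
    cvp G 6 x = ∫ t in Set.Ioi (0 : ℝ), t ^ 5 / 120 * Real.exp (-(t * w)) * ∏ i, hs (κ * t) (x i) := by
  have hEw : ∀ k : Fin d → ℝ, w ≤ w + κ * ∑ i, (1 - Real.cos (k i)) := by
    intro k
    have h1 : 0 ≤ ∑ i, (1 - Real.cos (k i)) :=
      Finset.sum_nonneg fun i _ => by linarith [Real.cos_le_one (k i)]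
    nlinarith [mul_nonneg hκ h1]
  have hES : S1 (EK w κ : (Fin d → ℤ) → ℝ) := (Mo_EK 0 w κ).s1
  have hFG : ∀ k, FT G k = (((w + κ * ∑ i, (1 - Real.cos (k i)))⁻¹ : ℝ) : ℂ) := by
    intro k
    have h1 := FT_cv hES hG k
    rw [h, FT_del, FT_EK] at h1
    rw [Complex.ofReal_inv]
    exact eq_inv_of_mul_eq_one_right h1.symm
  have hinv := FT_inv (S1_cvp hG 6) x
  have hk : ∀ k, FT (cvp G 6) k * ch k (-x) = ∫ t in Set.Ioi (0 : ℝ),
      ((t ^ 5 / 120 * Real.exp (-(t * (w + κ * ∑ i, (1 - Real.cos (k i))))) : ℝ) : ℂ) * ch k (-x) := by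
    intro k
    rw [FT_cvp hG, hFG, integral_mul_const, integral_complex_ofReal,
      GsixA_gamma (lt_of_lt_of_le hw (hEw k))]
    push_cast
    rfl
  simp only [hk] at hinv
  have hint : Integrable (Function.uncurry fun (k : Fin d → ℝ) (t : ℝ) =>
      ((t ^ 5 / 120 * Real.exp (-(t * (w + κ * ∑ i, (1 - Real.cos (k i))))) : ℝ) : ℂ) * ch k (-x))
      ((mu d).prod (volume.restrict (Set.Ioi (0 : ℝ)))) := by
    have hb : Integrable (fun z : (Fin d → ℝ) × ℝ => z.2 ^ 5 / 120 * Real.exp (-(z.2 * w)))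
        ((mu d).prod (volume.restrict (Set.Ioi (0 : ℝ)))) :=
      Integrable.comp_snd (f := fun t : ℝ => t ^ 5 / 120 * Real.exp (-(t * w))) (GsixA_int hw) (mu d)
    refine Integrable.mono' hb ?_ ?_
    · refine Continuous.aestronglyMeasurable ?_
      have hc : Continuous fun z : (Fin d → ℝ) × ℝ => ch z.1 (-x) := (ch_continuous (-x)).comp continuous_fst
      refine Continuous.mul ?_ hc
      refine Complex.continuous_ofReal.comp ?_
      fun_prop
    · have hae : ∀ᵐ z : (Fin d → ℝ) × ℝ ∂((mu d).prod (volume.restrict (Set.Ioi (0 : ℝ)))), 0 < z.2 := by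
        have h0 : ∀ᵐ t : ℝ ∂(volume.restrict (Set.Ioi (0 : ℝ))), 0 < t :=
          (ae_restrict_iff' measurableSet_Ioi).2 (Filter.Eventually.of_forall fun t ht => ht)
        exact Measure.quasiMeasurePreserving_snd.ae h0
      filter_upwards [hae] with z hz
      show ‖((z.2 ^ 5 / 120 * Real.exp (-(z.2 * (w + κ * ∑ i, (1 - Real.cos (z.1 i))))) : ℝ) : ℂ) * ch z.1 (-x)‖ ≤ _
      rw [norm_mul, norm_ch, mul_one, Complex.norm_real, Real.norm_eq_abs, abs_of_nonneg (by positivity)]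
      refine mul_le_mul_of_nonneg_left ?_ (by positivity)
      refine Real.exp_le_exp.2 (neg_le_neg ?_)
      exact mul_le_mul_of_nonneg_left (hEw z.1) hz.le
  rw [integral_integral_swap hint] at hinv
  simp only [GsixA_inner] at hinv
  rw [integral_complex_ofReal] at hinv
  exact_mod_cast hinv

end IPC.Fo
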