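import Mathlib
import Pool.Agent.Lib.MP_25e40f_pr.E.EKC
import Pool.Agent.Lib.MP_25e40f_pr.E.HsB
import Pool.Agent.Lib.MP_25e40f_pr.E.GsixA

/-!
THIS JOB (GsixB): the theorems Gsix_lower.  (The header describes the whole group Gsix; the other theorems are in other jobs and may be imported.)

# Job Gsix: the sixth convolution power of the Green function from below

PROOF of `Gsix_formula`.  Let `E(k) = w + κ ∑ (1 - cos k_i) ≥ w > 0`.  `FT (cvp G 6) k = (E(k)⁻¹)^6` (`FT_cvp`; `FT (EK w κ) k * FT G k = 1`),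
and `(E⁻¹)^6 = ∫_(t>0) (t^5/120) exp(-t E) dt` (Gamma integral: `Real.integral_rpow_mul_exp_neg_mul_Ioi` or `integral_pow_mul_exp_neg...`).
Inversion (`FT_inv`): `cvp G 6 x = ∫_k (E(k)⁻¹)^6 ch k (-x) dmu = ∫_k ∫_t (t^5/120) exp(-t E(k)) ch k (-x)`; Fubini
(`integral_integral_swap`; the integrand is bounded by `(t^5/120) exp(-t w)`, integrable on `(mu d) × (volume on t > 0)`); for fixed `t`,
`exp(-t E(k)) ch k (-x) = exp(-t w) ∏_i exp(-κ t (1 - cos k_i)) exp(-i k_i x_i)` and `∫_k ∏ = ∏ ∫` (`integral_fintype_prod_eq_prod`,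
`ch_eq_prod`), with `hs_complex` for `-x_i` and `hs s (-m) = hs s m` (cosine is even).

PROOF of `Gsix_lower`.  `x ≠ 0`, so `|x| ≥ 1`.  `T = 16 |x|²/κ`.  For `T ≤ t ≤ 2T`: `κ t ≥ 16 |x|² ≥ 2`, `√(κt)/4 ≥ |x| ≥ |x_i|`, so
`hs (κt) (x i) ≥ (1/20)/√(κt) ≥ (1/20)/√(32|x|²) ≥ 1/(120 |x|)`; `exp(-tw) ≥ exp(-2Tw) = exp(-32 w|x|²/κ) ≥ exp(-32/c)`; `t^5/120 ≥ T^5/120`.  All the integrand is
nonnegative (`hs_nonneg`), so the integral is at least
`T * (T^5/120) exp(-32/c) (120|x|)^(-d) ≥ (16/M)^6 (1/120) exp(-32/c) 120^(-d) |x|^(12-d)`.  (Integrability of the integrand on `t > 0`: it is bounded by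
`t^5 exp(-tw)` and continuous by `hs_continuous`.)
-/

set_option autoImplicit false

noncomputable section

open Finset MeasureTheory

namespace IPC.Fo

variable {d : ℕ}

theorem Gsix_lower (d : ℕ) (hd : 12 < d) (c M : ℝ) (hc : 0 < c) : ∃ c' > 0, ∀ κ w : ℝ, c ≤ κ → κ ≤ M → 0 < w →
    ∀ G : (Fin d → ℤ) → ℝ, S1 G → cv (EK w κ) G = del d → ∀ x : Fin d → ℤ, x ≠ 0 → w * ‖x‖ ^ 2 ≤ 1 →
      c' ≤ ‖x‖ ^ (d - 12) * cvp G 6 x := by
  refine ⟨(16 / (|M| + 1)) ^ 6 / 120 * Real.exp (-(32 / c)) * (1 / 120) ^ d, by positivity, ?_⟩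
  intro κ w hκ hκM hw G hG hEG x hx hwx
  have hκ0 : 0 < κ := lt_of_lt_of_le hc hκ
  have hx1 : 1 ≤ ‖x‖ := by
    obtain ⟨i, hi⟩ : ∃ i, x i ≠ 0 := by
      by_contra h
      push Not at h
      exact hx (funext h)
    refine le_trans ?_ (norm_le_pi_norm x i)
    rw [Int.norm_eq_abs]
    exact_mod_cast Int.one_le_abs hi
  obtain ⟨N, hN⟩ : ∃ N : ℝ, N = ‖x‖ := ⟨_, rfl⟩
  rw [← hN] at hx1 hwx ⊢
  have hN0 : 0 < N := by linarith
  obtain ⟨T, hT⟩ : ∃ T : ℝ, T = 16 * N ^ 2 / κ := ⟨_, rfl⟩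
  have hT0 : 0 < T := by rw [hT]; positivity
  have hκT : κ * T = 16 * N ^ 2 := by
    rw [hT]
    field_simp
  rw [Gsix_formula hw hκ0.le hG hEG x]
  -- the integrand
  have hF0 : ∀ t ∈ Set.Ioi (0 : ℝ), 0 ≤ t ^ 5 / 120 * Real.exp (-(t * w)) * ∏ i, hs (κ * t) (x i) := by
    intro t ht
    have ht' : 0 < t := ht
    refine mul_nonneg (by positivity) (Finset.prod_nonneg fun i _ => hs_nonneg (by positivity) _)
  have hcont : Continuous fun t : ℝ => t ^ 5 / 120 * Real.exp (-(t * w)) * ∏ i, hs (κ * t) (x i) := by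
    refine Continuous.mul (by fun_prop) (continuous_finset_prod _ fun i _ => ?_)
    exact (hs_continuous (x i)).comp (continuous_const.mul continuous_id)
  have hdom : IntegrableOn (fun t : ℝ => t ^ (5 : ℝ) * Real.exp (-w * t)) (Set.Ioi 0) := by
    have h2 := integrableOn_rpow_mul_exp_neg_mul_rpow (p := 1) (s := 5) (by norm_num) one_pos hw
    simp only [Real.rpow_one] at h2
    exact h2
  have hint : IntegrableOn (fun t : ℝ => t ^ 5 / 120 * Real.exp (-(t * w)) * ∏ i, hs (κ * t) (x i)) (Set.Ioi 0) := by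
    refine Integrable.mono' hdom hcont.aestronglyMeasurable.restrict ?_
    rw [ae_restrict_iff' measurableSet_Ioi]
    refine Filter.Eventually.of_forall fun t ht => ?_
    have ht' : 0 < t := ht
    rw [Real.norm_eq_abs, abs_of_nonneg (hF0 t ht)]
    have h1 : ∏ i, hs (κ * t) (x i) ≤ 1 :=
      Finset.prod_le_one (fun i _ => hs_nonneg (by positivity) _) (fun i _ => hs_le_one (by positivity) _)
    have h2 : t ^ (5 : ℝ) = t ^ 5 := by
      rw [← Real.rpow_natCast]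
      norm_num
    rw [h2]
    have h3 : -w * t = -(t * w) := by ring
    rw [h3]
    have h4 : 0 ≤ t ^ 5 / 120 * Real.exp (-(t * w)) := by positivity
    calc t ^ 5 / 120 * Real.exp (-(t * w)) * ∏ i, hs (κ * t) (x i)
        ≤ t ^ 5 / 120 * Real.exp (-(t * w)) * 1 := mul_le_mul_of_nonneg_left h1 h4
      _ ≤ t ^ 5 * Real.exp (-(t * w)) := by
          rw [mul_one]
          refine mul_le_mul_of_nonneg_right ?_ (Real.exp_pos _).le
          have : 0 ≤ t ^ 5 := by positivity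
          linarith
  -- restriction to [T, 2T]
  have hsub : Set.Icc T (2 * T) ⊆ Set.Ioi (0 : ℝ) := fun t ht => lt_of_lt_of_le hT0 ht.1
  have h1 : ∫ t in Set.Icc T (2 * T), t ^ 5 / 120 * Real.exp (-(t * w)) * ∏ i, hs (κ * t) (x i) ≤
      ∫ t in Set.Ioi (0 : ℝ), t ^ 5 / 120 * Real.exp (-(t * w)) * ∏ i, hs (κ * t) (x i) := by
    refine setIntegral_mono_set hint ?_ (Filter.Eventually.of_forall hsub)
    rw [Filter.EventuallyLE, ae_restrict_iff' measurableSet_Ioi]
    exact Filter.Eventually.of_forall fun t ht => hF0 t ht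
  have hlow : ∀ t ∈ Set.Icc T (2 * T), T ^ 5 / 120 * Real.exp (-(32 / c)) * (1 / (120 * N)) ^ d ≤
      t ^ 5 / 120 * Real.exp (-(t * w)) * ∏ i, hs (κ * t) (x i) := by
    intro t ht
    have ht0 : 0 < t := lt_of_lt_of_le hT0 ht.1
    have hκt1 : 16 * N ^ 2 ≤ κ * t := by
      rw [← hκT]
      exact mul_le_mul_of_nonneg_left ht.1 hκ0.le
    have hκt2 : κ * t ≤ 32 * N ^ 2 := by
      have : κ * t ≤ κ * (2 * T) := mul_le_mul_of_nonneg_left ht.2 hκ0.le
      linarith
    have hN2 : 1 ≤ N ^ 2 := one_le_pow₀ hx1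
    have hs1 : 4 * N ≤ Real.sqrt (κ * t) := by
      refine Real.le_sqrt_of_sq_le ?_
      nlinarith
    have hs2 : Real.sqrt (κ * t) ≤ 6 * N := by
      rw [Real.sqrt_le_left (by positivity)]
      nlinarith
    have hsp : 0 < Real.sqrt (κ * t) := by linarith
    have hterm : ∀ i, 1 / (120 * N) ≤ hs (κ * t) (x i) := by
      intro i
      have h2 : |((x i : ℤ) : ℝ)| ≤ Real.sqrt (κ * t) / 4 := by
        have h3 : |((x i : ℤ) : ℝ)| ≤ N := by
          rw [hN]
          exact abs_coord_le x i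
        linarith
      refine le_trans ?_ (hs_lower (by nlinarith) h2)
      rw [div_div, div_le_div_iff₀ (by positivity) (by positivity)]
      nlinarith
    have hprod : (1 / (120 * N)) ^ d ≤ ∏ i, hs (κ * t) (x i) := by
      have h2 : (1 / (120 * N)) ^ d = ∏ _i : Fin d, (1 / (120 * N)) := by
        rw [Finset.prod_const, Finset.card_univ, Fintype.card_fin]
      rw [h2]
      exact Finset.prod_le_prod (fun i _ => by positivity) (fun i _ => hterm i)
    have hexp : Real.exp (-(32 / c)) ≤ Real.exp (-(t * w)) := by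
      rw [Real.exp_le_exp, neg_le_neg_iff]
      have h2 : t * w ≤ 2 * T * w := mul_le_mul_of_nonneg_right ht.2 hw.le
      have h3 : 2 * T * w = 32 * (w * N ^ 2) / κ := by
        rw [hT]
        ring
      have h4 : 32 * (w * N ^ 2) / κ ≤ 32 / κ := by
        rw [div_le_div_iff_of_pos_right hκ0]
        linarith
      have h5 : 32 / κ ≤ 32 / c := div_le_div_of_nonneg_left (by norm_num) hc hκ
      linarith
    have ht5 : T ^ 5 / 120 ≤ t ^ 5 / 120 := by
      have : T ^ 5 ≤ t ^ 5 := pow_le_pow_left₀ hT0.le ht.1 5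
      linarith
    refine mul_le_mul (mul_le_mul ht5 hexp (Real.exp_pos _).le (by positivity)) hprod (by positivity) (by positivity)
  have h2 : T * (T ^ 5 / 120 * Real.exp (-(32 / c)) * (1 / (120 * N)) ^ d) ≤
      ∫ t in Set.Icc T (2 * T), t ^ 5 / 120 * Real.exp (-(t * w)) * ∏ i, hs (κ * t) (x i) := by
    have h3 : ∫ t in Set.Icc T (2 * T), (T ^ 5 / 120 * Real.exp (-(32 / c)) * (1 / (120 * N)) ^ d) =
        T * (T ^ 5 / 120 * Real.exp (-(32 / c)) * (1 / (120 * N)) ^ d) := by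
      rw [setIntegral_const, smul_eq_mul, measureReal_def, Real.volume_Icc, ENNReal.toReal_ofReal (by linarith)]
      congr 1
      ring
    rw [← h3]
    refine setIntegral_mono_on ?_ (hint.mono_set hsub) measurableSet_Icc hlow
    exact integrableOn_const (by rw [Real.volume_Icc]; exact ENNReal.ofReal_ne_top)
  have h4 := le_trans h2 h1
  have hTM : 16 * N ^ 2 / (|M| + 1) ≤ T := by
    rw [hT]
    refine div_le_div_of_nonneg_left (by positivity) hκ0 ?_
    have := le_abs_self M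
    linarith
  have h5 : (16 / (|M| + 1)) ^ 6 * N ^ 12 ≤ T ^ 6 := by
    have h6 : (16 * N ^ 2 / (|M| + 1)) ^ 6 ≤ T ^ 6 := pow_le_pow_left₀ (by positivity) hTM 6
    have h7 : (16 * N ^ 2 / (|M| + 1)) ^ 6 = (16 / (|M| + 1)) ^ 6 * N ^ 12 := by
      rw [div_pow, div_pow, mul_pow]
      ring
    rw [h7] at h6
    exact h6
  have hNd : N ^ (d - 12) * (N ^ 12 * (1 / (120 * N)) ^ d) = (1 / 120) ^ d := by
    have h6 : (1 / (120 * N)) ^ d = (1 / 120) ^ d * (1 / N ^ d) := by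
      rw [div_pow, div_pow, one_pow, mul_pow, one_div_mul_one_div]
    have h7 : N ^ (d - 12) * N ^ 12 = N ^ d := by
      rw [← pow_add]
      congr 1
      omega
    rw [h6, ← mul_assoc, ← mul_assoc, mul_comm _ ((1 / 120 : ℝ) ^ d), mul_assoc, h7, mul_one_div_cancel (by positivity),
      mul_one]
  calc (16 / (|M| + 1)) ^ 6 / 120 * Real.exp (-(32 / c)) * (1 / 120) ^ d
      = N ^ (d - 12) * (((16 / (|M| + 1)) ^ 6 * N ^ 12) * (1 / 120 * Real.exp (-(32 / c)) * (1 / (120 * N)) ^ d)) := by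
        rw [← hNd]
        ring
    _ ≤ N ^ (d - 12) * (T ^ 6 * (1 / 120 * Real.exp (-(32 / c)) * (1 / (120 * N)) ^ d)) := by
        refine mul_le_mul_of_nonneg_left (mul_le_mul_of_nonneg_right h5 (by positivity)) (by positivity)
    _ = N ^ (d - 12) * (T * (T ^ 5 / 120 * Real.exp (-(32 / c)) * (1 / (120 * N)) ^ d)) := by ring
    _ ≤ N ^ (d - 12) * ∫ t in Set.Ioi (0 : ℝ), t ^ 5 / 120 * Real.exp (-(t * w)) * ∏ i, hs (κ * t) (x i) :=
        mul_le_mul_of_nonneg_left h4 (by positivity)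

end IPC.Fo
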