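import Mathlib
import Pool.Agent.Lib.MP_25e40f_pr.E.Sg
import Pool.Agent.Lib.MP_25e40f_pr.E.MmtA
import Pool.Agent.Lib.MP_25e40f_pr.E.MmtB
import Pool.Agent.Lib.MP_25e40f_pr.E.MmtC

/-!
THIS JOB (RemA): the theorems exp_taylor abs_dot_le.  (The header describes the whole group Rem; the other theorems are in other jobs and may be imported.)

# Job Rem: even functions with vanishing moments of order 0 and 2 have a zero of order 4

PROOF of `exp_taylor`.  `|θ| ≤ 1`: `Complex.exp_bound` (`‖x‖ ≤ 1`, `0 < m`): the error is at most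
`|θ|^m * (m.succ * (m! * m)⁻¹) ≤ 5 |θ|^m`, for `m = 0` trivially `‖exp‖ = 1`.  `|θ| > 1`: `‖exp(iθ)‖ = 1 ≤ |θ|^m` and every one of the
`m ≤ 4` terms is at most `|θ|^j ≤ |θ|^m`.

PROOF of `Rem_Sg`.  Let `a ≤ n`.  For `a ≥ 4`: `‖FT (mo e a R) k‖ ≤ M` (`norm_FT_mo_le`) and `M ≤ M π^n |k|^(4-a)` (`|k| ≤ π`).
For `a < 4` put `m = 4 - a`, `θ = dot k x`, `|θ| ≤ d |k| |x|`.  Then
`FT (mo e a R) k = ∑ x_e^a R(x) (exp(iθ) - ∑_(j<m) (iθ)^j/j!) + ∑_(j<m) (i^j/j!) ∑ x_e^a θ^j R(x)`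
and all the moments `∑ x_e^a θ^j R(x)`, `a + j ≤ 3`, vanish: for `a + j` odd because the summand is odd under `x ↦ -x`
(`tsum_neg_odd`, `Ev.neg`); `a = j = 0`: hypothesis; `a + j = 2`: expand `θ = ∑ k_i x_i`: the mixed terms `x_i x_l R`, `i ≠ l`, have sum `0`
(`tsum_odd`), the terms `x_i^2 R` have sum `0` (hypothesis).  The first sum is at most
`5 ∑ |x|^a (d |k| |x|)^(4-a) |R x| ≤ 5 d^4 |k|^(4-a) ∑ |x|^4 |R x| ≤ 5 d^4 |k|^(4-a) d M` (`tsum_norm_le`, hypothesis with `a = 4`; if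
`d = 0` there is no `e`).  So `C = 5 d^5 M + M π^n`.
-/

set_option autoImplicit false

noncomputable section

open Finset MeasureTheory

namespace IPC.Fo

variable {d : ℕ}

theorem exp_taylor (θ : ℝ) {m : ℕ} (hm : m ≤ 4) :
    ‖Complex.exp (θ * Complex.I) - ∑ j ∈ range m, (θ * Complex.I) ^ j / (j.factorial : ℂ)‖ ≤ 5 * |θ| ^ m := by
  have hn : ‖(θ : ℂ) * Complex.I‖ = |θ| := by
    rw [norm_mul, Complex.norm_I, mul_one, Complex.norm_real, Real.norm_eq_abs]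
  have he : ‖Complex.exp (θ * Complex.I)‖ = 1 := Complex.norm_exp_ofReal_mul_I θ
  by_cases h1 : |θ| ≤ 1
  · rcases Nat.eq_zero_or_pos m with h0 | h0
    · subst h0
      simp only [range_zero, sum_empty, sub_zero, he, pow_zero]
      norm_num
    · have hb := Complex.exp_bound (x := (θ : ℂ) * Complex.I) (by rw [hn]; exact h1) h0
      rw [hn] at hb
      refine hb.trans ?_
      rw [mul_comm]
      apply mul_le_mul_of_nonneg_right _ (pow_nonneg (abs_nonneg θ) m)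
      have hm1 : (1:ℝ) ≤ (m:ℝ) := by exact_mod_cast h0
      have hm4 : (m:ℝ) ≤ 4 := by exact_mod_cast hm
      have hf : (1:ℝ) ≤ (m.factorial : ℝ) := by exact_mod_cast Nat.one_le_iff_ne_zero.mpr (Nat.factorial_ne_zero m)
      have hfm : (1:ℝ) ≤ (m.factorial * m : ℝ) := by nlinarith
      have hinv : (m.factorial * m : ℝ)⁻¹ ≤ 1 := inv_le_one_of_one_le₀ hfm
      have hs : ((m.succ : ℕ) : ℝ) ≤ 5 := by push_cast; linarith
      have hs0 : (0:ℝ) ≤ ((m.succ : ℕ) : ℝ) := Nat.cast_nonneg _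
      calc ((m.succ : ℕ) : ℝ) * (m.factorial * m : ℝ)⁻¹ ≤ ((m.succ : ℕ) : ℝ) * 1 :=
            mul_le_mul_of_nonneg_left hinv hs0
        _ ≤ 5 := by linarith
  · have h2 : 1 ≤ |θ| := (not_le.mp h1).le
    have hpow : ∀ j ≤ m, |θ| ^ j ≤ |θ| ^ m := fun j hj => pow_le_pow_right₀ h2 hj
    have hsum : ‖∑ j ∈ range m, (θ * Complex.I) ^ j / (j.factorial : ℂ)‖ ≤ ∑ _j ∈ range m, |θ| ^ m := by
      refine (norm_sum_le _ _).trans (Finset.sum_le_sum fun j hj => ?_)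
      have hj' : j ≤ m := (Finset.mem_range.mp hj).le
      rw [norm_div, norm_pow, hn, Complex.norm_natCast]
      have hf : (1:ℝ) ≤ (j.factorial : ℝ) := by exact_mod_cast Nat.one_le_iff_ne_zero.mpr (Nat.factorial_ne_zero j)
      exact (div_le_self (pow_nonneg (abs_nonneg θ) j) hf).trans (hpow j hj')
    rw [Finset.sum_const, card_range, nsmul_eq_mul] at hsum
    have hm4 : (m:ℝ) ≤ 4 := by exact_mod_cast hm
    have h0 : (0:ℝ) ≤ |θ| ^ m := pow_nonneg (abs_nonneg θ) m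
    have h1' : (1:ℝ) ≤ |θ| ^ m := one_le_pow₀ h2
    calc ‖Complex.exp (θ * Complex.I) - ∑ j ∈ range m, (θ * Complex.I) ^ j / (j.factorial : ℂ)‖
        ≤ ‖Complex.exp (θ * Complex.I)‖ + ‖∑ j ∈ range m, (θ * Complex.I) ^ j / (j.factorial : ℂ)‖ := norm_sub_le _ _
      _ ≤ 1 + m * |θ| ^ m := by rw [he]; linarith
      _ ≤ 5 * |θ| ^ m := by nlinarith

theorem abs_dot_le (k : Fin d → ℝ) (x : Fin d → ℤ) : |dot k x| ≤ d * ‖k‖ * ‖x‖ := by
  unfold dot
  refine (Finset.abs_sum_le_sum_abs _ _).trans ?_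
  have h : ∀ i ∈ (Finset.univ : Finset (Fin d)), |k i * (x i : ℝ)| ≤ ‖k‖ * ‖x‖ := by
    intro i _
    rw [abs_mul]
    have h1 : |k i| ≤ ‖k‖ := norm_le_pi_norm k i
    have h2 : |(x i : ℝ)| ≤ ‖x‖ := by
      have := norm_le_pi_norm x i
      rwa [Int.norm_eq_abs] at this
    exact mul_le_mul h1 h2 (abs_nonneg _) (norm_nonneg _)
  refine (Finset.sum_le_sum h).trans ?_
  rw [Finset.sum_const, Finset.card_univ, Fintype.card_fin, nsmul_eq_mul]
  exact le_of_eq (by ring)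

end IPC.Fo
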