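import Mathlib
import Pool.Agent.Lib.MP_25e40f_pr.E.Sg
import Pool.Agent.Lib.MP_25e40f_pr.E.MmtA
import Pool.Agent.Lib.MP_25e40f_pr.E.MmtB
import Pool.Agent.Lib.MP_25e40f_pr.E.MmtC
import Pool.Agent.Lib.MP_25e40f_pr.E.RemA

/-!
THIS JOB (RemB): the theorems Rem_Sg.  (The header describes the whole group Rem; the other theorems are in other jobs and may be imported.)

# Job Rem: even functions with vanishing moments of order 0 and 2 have a zero of order 4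

PROOF of `exp_taylor`.  `|θ| ≤ 1`: `Complex.exp_bound` (`‖x‖ ≤ 1`, `0 < m`): the error is at most
`|θ|^m * (m.succ * (m! * m)⁻¹) ≤ 5 |θ|^m`, for `m = 0` trivially `‖exp‖ = 1`.  `|θ| > 1`: `‖exp(iθ)‖ = 1 ≤ |θ|^m` and every one of the
`m ≤ 4` terms is at most `|θ|^j ≤ |θ|^m`.

PROOF of `Rem_Sg`.  Let `a ≤ n`.  For `a ≥ 4`: `‖FT (mo e a R) k‖ ≤ M` (`norm_FT_mo_le`) and `M ≤ M π^n |k|^(4-a)` (`|k| ≤ π`).
For `a < 4` put `m = 4 - a`, `θ = dot k x`, `|θ| ≤ d |k| |x|`.  Then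
`FT (mo e a R) k = ∑ x_e^a R(x) (exp(iθ) - ∑_(j<m) (iθ)^j/j!) + ∑_(j<m) (i^j/j!) ∑ x_e^a θ^j R(x)`
and all the moments `∑ x_e^a θ^j R(x)`, `a + j ≤ 3`, vanish: for `a + j` odd because the summand is odd under `x ↦ -x`
(`tsum_neg_odd`, `Ev.neg`); `a = j = 0`: hypothesis; `a + j = 2`: expand `θ = ∑ k_i x_i`: the mixed terms `x_i x_l R`, `i ≠ l`, have sum `0`
(`tsum_odd`), the terms `x_i^2 R` have sum `0` (hypothesis).  The first sum is at most
`5 ∑ |x|^a (d |k| |x|)^(4-a) |R x| ≤ 5 d^4 |k|^(4-a) ∑ |x|^4 |R x| ≤ 5 d^4 |k|^(4-a) d M` (`tsum_norm_le`, hypothesis with `a = 4`; if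
`d = 0` there is no `e`).  So `C = 5 d^5 M + M π^n`.
-/

set_option autoImplicit false

noncomputable section

open Finset MeasureTheory

namespace IPC.Fo

variable {d : ℕ}

private theorem RemB_sum {R : (Fin d → ℤ) → ℝ} {a j : ℕ} (h : Mo (a + j) R) (e : Fin d) (k : Fin d → ℝ) :
    Summable fun x : Fin d → ℤ => (x e : ℝ) ^ a * dot k x ^ j * R x := by
  have h1 := (h.norm_pow).mul_left ((d * ‖k‖) ^ j)
  refine Summable.of_norm_bounded h1 fun x => ?_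
  rw [Real.norm_eq_abs, abs_mul, abs_mul, abs_pow, abs_pow]
  have h2 := abs_dot_le k x
  have h3 := abs_coord_le x e
  calc |(x e : ℝ)| ^ a * |dot k x| ^ j * |R x| ≤ ‖x‖ ^ a * (d * ‖k‖ * ‖x‖) ^ j * |R x| := by gcongr
    _ = (d * ‖k‖) ^ j * (‖x‖ ^ (a + j) * |R x|) := by
        rw [mul_pow, pow_add]
        ring

private theorem RemB_two {R : (Fin d → ℤ) → ℝ} (he : Ev R)
    (h2 : ∀ e : Fin d, ∑' x, (x e : ℝ) ^ 2 * R x = 0) (i l : Fin d) :
    ∑' x : Fin d → ℤ, (x i : ℝ) * (x l : ℝ) * R x = 0 := by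
  by_cases h : i = l
  · subst h
    rw [← h2 i]
    exact tsum_congr fun x => by ring
  · apply tsum_odd i
    intro x
    rw [refl_self, refl_other (Ne.symm h), he]
    push_cast
    ring

private theorem RemB_one {R : (Fin d → ℤ) → ℝ} (hMo : Mo 2 R) (he : Ev R)
    (h2 : ∀ e : Fin d, ∑' x, (x e : ℝ) ^ 2 * R x = 0) (k : Fin d → ℝ) (i : Fin d) :
    ∑' x : Fin d → ℤ, (x i : ℝ) * dot k x * R x = 0 := by
  have h1 : ∀ l ∈ (univ : Finset (Fin d)),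
      Summable fun x : Fin d → ℤ => k l * ((x i : ℝ) * (x l : ℝ) * R x) := by
    intro l _
    apply Summable.mul_left
    refine Summable.of_norm_bounded hMo.norm_pow fun x => ?_
    rw [Real.norm_eq_abs, abs_mul, abs_mul, sq]
    have h3 := abs_coord_le x i
    have h4 := abs_coord_le x l
    gcongr
  calc ∑' x : Fin d → ℤ, (x i : ℝ) * dot k x * R x
      = ∑' x : Fin d → ℤ, ∑ l, k l * ((x i : ℝ) * (x l : ℝ) * R x) := by
        refine tsum_congr fun x => ?_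
        unfold dot
        rw [Finset.mul_sum, Finset.sum_mul]
        refine Finset.sum_congr rfl fun l _ => ?_
        ring
    _ = ∑ l, ∑' x : Fin d → ℤ, k l * ((x i : ℝ) * (x l : ℝ) * R x) := Summable.tsum_finsetSum h1
    _ = 0 := Finset.sum_eq_zero fun l _ => by rw [tsum_mul_left, RemB_two he h2, mul_zero]

private theorem RemB_sq {R : (Fin d → ℤ) → ℝ} (hMo : Mo 2 R) (he : Ev R)
    (h2 : ∀ e : Fin d, ∑' x, (x e : ℝ) ^ 2 * R x = 0) (k : Fin d → ℝ) :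
    ∑' x : Fin d → ℤ, dot k x ^ 2 * R x = 0 := by
  have h1 : ∀ l ∈ (univ : Finset (Fin d)),
      Summable fun x : Fin d → ℤ => k l * ((x l : ℝ) * dot k x * R x) := by
    intro l _
    apply Summable.mul_left
    have h3 := RemB_sum (a := 1) (j := 1) hMo l k
    simpa only [pow_one] using h3
  calc ∑' x : Fin d → ℤ, dot k x ^ 2 * R x
      = ∑' x : Fin d → ℤ, ∑ l, k l * ((x l : ℝ) * dot k x * R x) := by
        refine tsum_congr fun x => ?_
        have h4 : dot k x ^ 2 = ∑ l, k l * (x l : ℝ) * dot k x := by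
          rw [← Finset.sum_mul, sq]
          rfl
        rw [h4, Finset.sum_mul]
        refine Finset.sum_congr rfl fun l _ => ?_
        ring
    _ = ∑ l, ∑' x : Fin d → ℤ, k l * ((x l : ℝ) * dot k x * R x) := Summable.tsum_finsetSum h1
    _ = 0 := Finset.sum_eq_zero fun l _ => by rw [tsum_mul_left, RemB_one hMo he h2, mul_zero]

private theorem RemB_zero {R : (Fin d → ℤ) → ℝ} (hMo : Mo 2 R) (he : Ev R) (h0 : ∑' x, R x = 0)
    (h2 : ∀ e : Fin d, ∑' x, (x e : ℝ) ^ 2 * R x = 0) (k : Fin d → ℝ) (e : Fin d) {a j : ℕ}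
    (haj : a + j ≤ 3) : ∑' x : Fin d → ℤ, (x e : ℝ) ^ a * dot k x ^ j * R x = 0 := by
  rcases Nat.even_or_odd (a + j) with hev | hodd
  · have h3 : (a = 0 ∧ j = 0) ∨ (a = 2 ∧ j = 0) ∨ (a = 1 ∧ j = 1) ∨ (a = 0 ∧ j = 2) := by
      obtain ⟨c, hc⟩ := hev
      omega
    rcases h3 with ⟨rfl, rfl⟩ | ⟨rfl, rfl⟩ | ⟨rfl, rfl⟩ | ⟨rfl, rfl⟩
    · simpa only [pow_zero, one_mul] using h0
    · simpa only [pow_zero, mul_one] using h2 e
    · simpa only [pow_one] using RemB_one hMo he h2 k e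
    · simpa only [pow_zero, one_mul] using RemB_sq hMo he h2 k
  · apply tsum_neg_odd
    intro x
    rw [dot_neg, he.neg, Pi.neg_apply]
    push_cast
    rw [neg_pow (x e : ℝ) a, neg_pow (dot k x) j]
    have h4 : (-1 : ℝ) ^ a * (-1) ^ j = -1 := by
      rw [← pow_add]
      exact hodd.neg_one_pow
    linear_combination ((x e : ℝ) ^ a * dot k x ^ j * R x) * h4

private theorem RemB_term (θ r : ℝ) (xa : ℝ) (j : ℕ) :
    ((xa * r : ℝ) : ℂ) * ((θ * Complex.I) ^ j / (j.factorial : ℂ)) =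
      (Complex.I ^ j / (j.factorial : ℂ)) * ((xa * θ ^ j * r : ℝ) : ℂ) := by
  push_cast
  rw [mul_pow]
  ring

private theorem RemB_small {R : (Fin d → ℤ) → ℝ} {M : ℝ} (hM : 0 ≤ M) (hMo : Mo 4 R) (he : Ev R)
    (h0 : ∑' x, R x = 0) (h2 : ∀ e : Fin d, ∑' x, (x e : ℝ) ^ 2 * R x = 0)
    (h4 : ∀ e : Fin d, ∑' x, |(x e : ℝ)| ^ 4 * |R x| ≤ M) (k : Fin d → ℝ) (e : Fin d) {a : ℕ} (ha : a < 4) :
    ‖FT (mo e a R) k‖ ≤ 5 * (d : ℝ) ^ 5 * M * ‖k‖ ^ (4 - a) := by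
  have hd : 1 ≤ d := by
    have := e.2
    omega
  have hd1 : (1 : ℝ) ≤ (d : ℝ) := by exact_mod_cast hd
  set m : ℕ := 4 - a with hm
  have ham : a + m = 4 := by omega
  -- the Taylor polynomial
  have hT : ∀ j ∈ range m, Summable fun x : Fin d → ℤ =>
      ((mo e a R x : ℝ) : ℂ) * ((dot k x * Complex.I) ^ j / (j.factorial : ℂ)) := by
    intro j hj
    rw [mem_range] at hj
    have h5 := RemB_sum (a := a) (j := j) (hMo.mono (by omega)) e k
    have h6 : Summable fun x : Fin d → ℤ => (((x e : ℝ) ^ a * dot k x ^ j * R x : ℝ) : ℂ) :=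
      Complex.ofRealCLM.summable h5
    refine (h6.mul_left (Complex.I ^ j / (j.factorial : ℂ))).congr fun x => ?_
    exact (RemB_term (dot k x) (R x) ((x e : ℝ) ^ a) j).symm
  have hT0 : ∀ j ∈ range m, ∑' x : Fin d → ℤ,
      ((mo e a R x : ℝ) : ℂ) * ((dot k x * Complex.I) ^ j / (j.factorial : ℂ)) = 0 := by
    intro j hj
    rw [mem_range] at hj
    have h5 : ∀ x : Fin d → ℤ, ((mo e a R x : ℝ) : ℂ) * ((dot k x * Complex.I) ^ j / (j.factorial : ℂ)) =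
        (Complex.I ^ j / (j.factorial : ℂ)) * (((x e : ℝ) ^ a * dot k x ^ j * R x : ℝ) : ℂ) :=
      fun x => RemB_term (dot k x) (R x) ((x e : ℝ) ^ a) j
    rw [tsum_congr h5, tsum_mul_left, ← Complex.ofReal_tsum,
      RemB_zero (hMo.mono (by norm_num)) he h0 h2 k e (by omega), Complex.ofReal_zero, mul_zero]
  have hS1 : S1 (mo e a R) := (Mo.mo (m := 0) (a := a) (hMo.mono (by omega)) e).s1
  have hS : Summable fun x : Fin d → ℤ => ∑ j ∈ range m,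
      ((mo e a R x : ℝ) : ℂ) * ((dot k x * Complex.I) ^ j / (j.factorial : ℂ)) := summable_sum hT
  have hS0 : ∑' x : Fin d → ℤ, ∑ j ∈ range m,
      ((mo e a R x : ℝ) : ℂ) * ((dot k x * Complex.I) ^ j / (j.factorial : ℂ)) = 0 := by
    rw [Summable.tsum_finsetSum hT]
    exact Finset.sum_eq_zero hT0
  have hFT : FT (mo e a R) k = ∑' x : Fin d → ℤ, (((mo e a R x : ℝ) : ℂ) * ch k x - ∑ j ∈ range m,
      ((mo e a R x : ℝ) : ℂ) * ((dot k x * Complex.I) ^ j / (j.factorial : ℂ))) := by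
    rw [(hS1.ft k).tsum_sub hS, hS0, sub_zero]
    rfl
  have hb : ∀ x : Fin d → ℤ, ‖((mo e a R x : ℝ) : ℂ) * ch k x - ∑ j ∈ range m,
      ((mo e a R x : ℝ) : ℂ) * ((dot k x * Complex.I) ^ j / (j.factorial : ℂ))‖ ≤
      5 * (d * ‖k‖) ^ m * (‖x‖ ^ 4 * |R x|) := by
    intro x
    rw [← Finset.mul_sum, ← mul_sub, norm_mul, Complex.norm_real, Real.norm_eq_abs]
    have h5 := exp_taylor (dot k x) (m := m) (by omega)
    have h6 := abs_dot_le k x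
    have h7 := abs_coord_le x e
    have h8 : |mo e a R x| = |(x e : ℝ)| ^ a * |R x| := by
      unfold mo
      rw [abs_mul, abs_pow]
    rw [h8]
    calc |(x e : ℝ)| ^ a * |R x| * ‖ch k x - ∑ j ∈ range m, (dot k x * Complex.I) ^ j / (j.factorial : ℂ)‖
        ≤ ‖x‖ ^ a * |R x| * (5 * (d * ‖k‖ * ‖x‖) ^ m) := by
          apply mul_le_mul
          · gcongr
          · refine h5.trans ?_
            gcongr
          · exact norm_nonneg _
          · positivity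
      _ = 5 * (d * ‖k‖) ^ m * (‖x‖ ^ 4 * |R x|) := by
          have h11 : ‖x‖ ^ 4 = ‖x‖ ^ a * ‖x‖ ^ m := by rw [← pow_add, ham]
          rw [h11, mul_pow (d * ‖k‖) ‖x‖ m]
          ring
  have hsum : Summable fun x : Fin d → ℤ => 5 * (d * ‖k‖) ^ m * (‖x‖ ^ 4 * |R x|) :=
    hMo.norm_pow.mul_left _
  rw [hFT]
  refine (tsum_of_norm_bounded hsum.hasSum hb).trans ?_
  rw [tsum_mul_left]
  have h9 : ∑' x : Fin d → ℤ, ‖x‖ ^ 4 * |R x| ≤ d * M := by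
    refine (tsum_norm_le (by norm_num) hMo).trans ?_
    refine (Finset.sum_le_sum fun e _ => h4 e).trans (le_of_eq ?_)
    rw [Finset.sum_const, Finset.card_univ, Fintype.card_fin, nsmul_eq_mul]
  have h10 : (d : ℝ) ^ m ≤ (d : ℝ) ^ 4 := pow_le_pow_right₀ hd1 (by omega)
  calc 5 * (d * ‖k‖) ^ m * ∑' x : Fin d → ℤ, ‖x‖ ^ 4 * |R x|
      ≤ 5 * (d * ‖k‖) ^ m * (d * M) := mul_le_mul_of_nonneg_left h9 (by positivity)
    _ = 5 * (d : ℝ) ^ m * (‖k‖ ^ m * (d * M)) := by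
        rw [mul_pow]
        ring
    _ ≤ 5 * (d : ℝ) ^ 4 * (‖k‖ ^ m * (d * M)) := by gcongr
    _ = 5 * (d : ℝ) ^ 5 * M * ‖k‖ ^ m := by ring

theorem Rem_Sg (d n : ℕ) (M : ℝ) (hn : 4 ≤ n) (hM : 0 ≤ M) : ∃ C, 0 ≤ C ∧
    ∀ R : (Fin d → ℤ) → ℝ, Mo n R → Ev R → ∑' x, R x = 0 → (∀ e : Fin d, ∑' x, (x e : ℝ) ^ 2 * R x = 0) →
      (∀ (e : Fin d) (a : ℕ), 4 ≤ a → a ≤ n → ∑' x, |(x e : ℝ)| ^ a * |R x| ≤ M) → Sg n (-4) C R := by
  have hpi1 : (1 : ℝ) ≤ Real.pi := by linarith [Real.pi_gt_three]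
  refine ⟨5 * (d : ℝ) ^ 5 * M + M * Real.pi ^ n, by positivity, ?_⟩
  intro R hMo he h0 h2 h4 e a ha k hk hk0
  have hk1 : 0 < ‖k‖ := norm_pos_iff.2 hk0
  have hkpi : ‖k‖ ≤ Real.pi := hk.norm_le
  rcases lt_or_ge a 4 with ha4 | ha4
  · have h5 := RemB_small hM (hMo.mono hn) he h0 h2 (fun e => h4 e 4 le_rfl hn) k e ha4
    have h6 : (-((-4 : ℤ) + (a : ℤ)) : ℤ) = ((4 - a : ℕ) : ℤ) := by omega
    rw [h6, zpow_natCast]
    refine h5.trans ?_
    have h7 : 0 ≤ M * Real.pi ^ n * ‖k‖ ^ (4 - a) := by positivity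
    linarith
  · have h5 := (norm_FT_mo_le e a (hMo.mono ha) k).trans (h4 e a ha4 ha)
    have h6 : (-((-4 : ℤ) + (a : ℤ)) : ℤ) = -((a - 4 : ℕ) : ℤ) := by omega
    rw [h6, zpow_neg, zpow_natCast]
    have h7 : ‖k‖ ^ (a - 4) ≤ Real.pi ^ n :=
      (pow_le_pow_left₀ hk1.le hkpi _).trans (pow_le_pow_right₀ hpi1 (by omega))
    have h8 : M ≤ M * Real.pi ^ n * (‖k‖ ^ (a - 4))⁻¹ := by
      have h9 : 1 ≤ Real.pi ^ n * (‖k‖ ^ (a - 4))⁻¹ := by
        rw [← div_eq_mul_inv, le_div_iff₀ (by positivity), one_mul]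
        exact h7
      calc M = M * 1 := (mul_one M).symm
        _ ≤ M * (Real.pi ^ n * (‖k‖ ^ (a - 4))⁻¹) := mul_le_mul_of_nonneg_left h9 hM
        _ = _ := by ring
    have h10 : 0 ≤ 5 * (d : ℝ) ^ 5 * M * (‖k‖ ^ (a - 4))⁻¹ := by positivity
    linarith

end IPC.Fo
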