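import Mathlib
import Pool.Agent.Lib.MP_25e40f_pr.E.ItgB
import Pool.Agent.Lib.MP_25e40f_pr.E.RemB
import Pool.Agent.Lib.MP_25e40f_pr.E.GsixB

/-!
THIS JOB (LowA): the theorems kappa_low.  (The header describes the whole group Low; the other theorems are in other jobs and may be imported.)

# Job Low: the lower bound for the sixth power

PROOF of `kappa_low`.  Put `κ = -∑ x_e² W`, `w = ∑ W`.  For `0 < t ≤ 1` and `k = t e` (`|k| = t`): `c t² ≤ re FT W k = ∑ W(x) cos(t x_e)` (`FT_re_eq`)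
`= w + (κ/2) t² + ∑ W(x) (cos(t x_e) - 1 + (t x_e)²/2) ≤ w + (κ/2) t² + t⁴ ∑ x_e⁴ |W x|/24` (`Real.cos` bounds: `|cos u - 1 + u²/2| ≤ u⁴/24`; any
constant instead of `1/24` is fine, e.g. from `Real.cos_bound` for `|u| ≤ 1` and trivially for `|u| > 1`: constant `2`).
So `κ ≥ 2c - 2w/t² - 4 M t²` (with constant 2).  Choose `t` with `4 M t² ≤ c/2`, `t ≤ 1`, then `w0 = c t²/4`: `κ ≥ c`.

PROOF of `cmp6`.  `E = EK w κ`, `R = E - W`: even, `∑ R = 0`, `∑ x_e² R = -κ + κ = 0`, moments of order `4 ≤ a ≤ n` at most `2M`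
(`mom_EK`, `Good.mom`), so `Sg n (-4) C R` (`Rem_Sg`).  `V - G = R * V * G` (`cv`; by `FT_injective`: `V^ - G^ = (E^ - W^) V^ G^`).  `Sg n 2` for `V` and
`G` (`Sg_inverse` with `Good_EK`), `cvp V i`, `cvp G i` (`Sg_cvp`).  `cvp_sub` with `j = 5`: every summand has order `(-4+2+2) + 2i + 2(5-i) = 10`
(`Sg.cv`), the sum of six terms by `Sg.add` (induction over a finset, or `Sg` of a finset sum).

PROOF of `low6`.  `κ` does not depend on `e` by `Sy W` (permutation of two coordinates; `Equiv.swap`).  `c ≤ κ` by `kappa_low`, `κ ≤ M` by `Good.mom` with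
`a = 2`.  `G` from `exists_green`.  `Gsix_lower` gives `c6 ≤ |x|^(d-12) cvp G 6 x`, `cmp6` and `Sg.decay` (`s = 10`, `a = d - 11 ≤ n`, `10 + a < d`) give
`|x|^(d-11) |cvp V 6 x - cvp G 6 x| ≤ C`.  So `|x|^(d-12) cvp V 6 x ≥ c6 - C/|x| ≥ c6/2` for `|x| ≥ R0 = 2C/c6 + 1`.
-/

set_option autoImplicit false

noncomputable section

open Finset MeasureTheory

namespace IPC.Fo

variable {d : ℕ}

private theorem LowA_cos (u : ℝ) : Real.cos u - 1 + u ^ 2 / 2 ≤ u ^ 4 := by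
  rcases le_or_gt |u| 1 with h | h
  · have h1 := Real.cos_bound h
    have h2 := (abs_le.1 h1).2
    have h3 : |u| ^ 4 = u ^ 4 := by rw [← abs_pow, abs_of_nonneg (by positivity)]
    rw [h3] at h2
    have h4 : 0 ≤ u ^ 4 := by positivity
    linarith
  · have h1 := Real.cos_le_one u
    have h2 : 1 < u ^ 2 := by
      rw [← sq_abs]
      nlinarith
    nlinarith

private theorem LowA_pt (w t y : ℝ) : w * Real.cos (t * y) ≤
    w - t ^ 2 / 2 * (y ^ 2 * w) + (t ^ 2) ^ 2 * (|y| ^ 4 * |w|) := by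
  have h1 := LowA_cos (t * y)
  have h2 := Real.one_sub_sq_div_two_le_cos (x := t * y)
  have h3 : |y| ^ 4 = y ^ 4 := by rw [← abs_pow, abs_of_nonneg (by positivity)]
  rw [h3]
  have h4 : w * (Real.cos (t * y) - 1 + (t * y) ^ 2 / 2) ≤ |w| * (Real.cos (t * y) - 1 + (t * y) ^ 2 / 2) :=
    mul_le_mul_of_nonneg_right (le_abs_self w) (by linarith)
  have h5 : |w| * (Real.cos (t * y) - 1 + (t * y) ^ 2 / 2) ≤ |w| * (t * y) ^ 4 :=
    mul_le_mul_of_nonneg_left h1 (abs_nonneg w)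
  nlinarith

theorem kappa_low (d : ℕ) (c M : ℝ) (hc : 0 < c) (hM : 0 ≤ M) : ∃ w0 > 0, ∀ (W : (Fin d → ℤ) → ℝ) (e : Fin d),
    Good 4 c M W → ∑' x, W x ≤ w0 → c ≤ -∑' x, (x e : ℝ) ^ 2 * W x := by
  obtain ⟨T, hT0, hT1, hT2⟩ : ∃ T : ℝ, 0 < T ∧ T ≤ 1 ∧ M * T ≤ c / 4 := by
    refine ⟨min 1 (c / (4 * (M + 1))), lt_min one_pos (by positivity), min_le_left _ _, ?_⟩
    have h1 : min 1 (c / (4 * (M + 1))) ≤ c / (4 * (M + 1)) := min_le_right _ _
    have h0 : 0 ≤ min 1 (c / (4 * (M + 1))) := le_min zero_le_one (by positivity)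
    rw [le_div_iff₀ (by positivity)] at h1
    nlinarith
  obtain ⟨t, ht0, htT⟩ : ∃ t : ℝ, 0 ≤ t ∧ t ^ 2 = T := ⟨Real.sqrt T, Real.sqrt_nonneg _, Real.sq_sqrt hT0.le⟩
  have ht1 : t ≤ 1 := by nlinarith
  refine ⟨c * T / 4, by positivity, fun W e hW hw => ?_⟩
  have hs0 : Summable W := hW.mo.s1.sum
  have hs2 : Summable fun x : Fin d → ℤ => (x e : ℝ) ^ 2 * W x :=
    (Mo.mo (m := 2) (a := 2) hW.mo e).s1.sum
  have hs4 : Summable fun x : Fin d → ℤ => |(x e : ℝ)| ^ 4 * |W x| := by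
    have h := (Mo.mo (m := 0) (a := 4) hW.mo e).s1
    refine h.congr fun x => ?_
    rw [mo, abs_mul, abs_pow]
  have hM4 := hW.mom e 4 (by norm_num) le_rfl
  obtain ⟨k, hk⟩ : ∃ k : Fin d → ℝ, k = Pi.single e t := ⟨_, rfl⟩
  have hke : k e = t := by rw [hk, Pi.single_eq_same]
  have hki : ∀ i, i ≠ e → k i = 0 := fun i hi => by rw [hk, Pi.single_eq_of_ne hi]
  have hdot : ∀ x : Fin d → ℤ, dot k x = t * x e := by
    intro x
    unfold dot
    rw [Finset.sum_eq_single e]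
    · rw [hke]
    · intro i _ hi
      rw [hki i hi, zero_mul]
    · intro h
      exact absurd (Finset.mem_univ e) h
  have hCu : Cu k := by
    intro i
    by_cases hi : i = e
    · rw [hi, hke, abs_of_nonneg ht0]
      linarith [Real.pi_gt_three]
    · rw [hki i hi, abs_zero]
      exact Real.pi_pos.le
  have hnorm : t ≤ ‖k‖ := by
    have h := norm_le_pi_norm k e
    rw [hke, Real.norm_eq_abs, abs_of_nonneg ht0] at h
    exact h
  have hlow := hW.low k hCu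
  rw [FT_re_eq hW.mo.s1] at hlow
  have hcos : Summable fun x => W x * Real.cos (dot k x) := by
    refine Summable.of_norm_bounded (g := fun x => |W x|) hW.mo.s1 fun x => ?_
    rw [Real.norm_eq_abs, abs_mul]
    exact mul_le_of_le_one_right (abs_nonneg _) (Real.abs_cos_le_one _)
  have hup : ∑' x, W x * Real.cos (dot k x) ≤
      ∑' x, (W x - T / 2 * ((x e : ℝ) ^ 2 * W x) + T ^ 2 * (|(x e : ℝ)| ^ 4 * |W x|)) := by
    refine Summable.tsum_le_tsum (fun x => ?_) hcos ((hs0.sub (hs2.mul_left _)).add (hs4.mul_left _))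
    rw [hdot, ← htT]
    exact LowA_pt (W x) t (x e)
  rw [Summable.tsum_add (hs0.sub (hs2.mul_left _)) (hs4.mul_left _), Summable.tsum_sub hs0 (hs2.mul_left _),
    tsum_mul_left, tsum_mul_left] at hup
  have h1 : c * T ≤ c * ‖k‖ ^ 2 := by
    rw [← htT]
    exact mul_le_mul_of_nonneg_left (pow_le_pow_left₀ ht0 hnorm 2) hc.le
  have h2 : T ^ 2 * ∑' x : Fin d → ℤ, |(x e : ℝ)| ^ 4 * |W x| ≤ T ^ 2 * M :=
    mul_le_mul_of_nonneg_left hM4 (by positivity)
  have h3 : T ^ 2 * M ≤ T * (c / 4) := by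
    have := mul_le_mul_of_nonneg_left hT2 hT0.le
    nlinarith
  have h4 : T * c ≤ T * (-∑' x : Fin d → ℤ, (x e : ℝ) ^ 2 * W x) := by nlinarith
  exact le_of_mul_le_mul_left h4 hT0

end IPC.Fo
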