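import Mathlib
import Pool.Agent.Lib.MP_25e40f_pr.E.ItgB
import Pool.Agent.Lib.MP_25e40f_pr.E.RemB
import Pool.Agent.Lib.MP_25e40f_pr.E.GsixB

/-!
THIS JOB (LowB): the theorems cmp6.  (The header describes the whole group Low; the other theorems are in other jobs and may be imported.)

# Job Low: the lower bound for the sixth power

PROOF of `kappa_low`.  Put `κ = -∑ x_e² W`, `w = ∑ W`.  For `0 < t ≤ 1` and `k = t e` (`|k| = t`): `c t² ≤ re FT W k = ∑ W(x) cos(t x_e)` (`FT_re_eq`)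
`= w + (κ/2) t² + ∑ W(x) (cos(t x_e) - 1 + (t x_e)²/2) ≤ w + (κ/2) t² + t⁴ ∑ x_e⁴ |W x|/24` (`Real.cos` bounds: `|cos u - 1 + u²/2| ≤ u⁴/24`; any
constant instead of `1/24` is fine, e.g. from `Real.cos_bound` for `|u| ≤ 1` and trivially for `|u| > 1`: constant `2`).
So `κ ≥ 2c - 2w/t² - 4 M t²` (with constant 2).  Choose `t` with `4 M t² ≤ c/2`, `t ≤ 1`, then `w0 = c t²/4`: `κ ≥ c`.

PROOF of `cmp6`.  `E = EK w κ`, `R = E - W`: even, `∑ R = 0`, `∑ x_e² R = -κ + κ = 0`, moments of order `4 ≤ a ≤ n` at most `2M`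
(`mom_EK`, `Good.mom`), so `Sg n (-4) C R` (`Rem_Sg`).  `V - G = R * V * G` (`cv`; by `FT_injective`: `V^ - G^ = (E^ - W^) V^ G^`).  `Sg n 2` for `V` and
`G` (`Sg_inverse` with `Good_EK`), `cvp V i`, `cvp G i` (`Sg_cvp`).  `cvp_sub` with `j = 5`: every summand has order `(-4+2+2) + 2i + 2(5-i) = 10`
(`Sg.cv`), the sum of six terms by `Sg.add` (induction over a finset, or `Sg` of a finset sum).

PROOF of `low6`.  `κ` does not depend on `e` by `Sy W` (permutation of two coordinates; `Equiv.swap`).  `c ≤ κ` by `kappa_low`, `κ ≤ M` by `Good.mom` with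
`a = 2`.  `G` from `exists_green`.  `Gsix_lower` gives `c6 ≤ |x|^(d-12) cvp G 6 x`, `cmp6` and `Sg.decay` (`s = 10`, `a = d - 11 ≤ n`, `10 + a < d`) give
`|x|^(d-11) |cvp V 6 x - cvp G 6 x| ≤ C`.  So `|x|^(d-12) cvp V 6 x ≥ c6 - C/|x| ≥ c6/2` for `|x| ≥ R0 = 2C/c6 + 1`.
-/

set_option autoImplicit false

noncomputable section

open Finset MeasureTheory

namespace IPC.Fo

variable {d : ℕ}

private theorem LowB_sum {n : ℕ} {s : ℤ} {C : ℝ} (f : ℕ → (Fin d → ℤ) → ℝ) (N : ℕ)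
    (h1 : ∀ i < N, Sg n s C (f i)) (h2 : ∀ i < N, Mo n (f i)) :
    Sg n s (N * C) (fun x => ∑ i ∈ range N, f i x) ∧ Mo n (fun x => ∑ i ∈ range N, f i x) := by
  induction N with
  | zero =>
    simp only [Finset.range_zero, Finset.sum_empty]
    constructor
    · intro e a _ k _ _
      have h3 : mo e a (fun _ : Fin d → ℤ => (0 : ℝ)) = fun _ => 0 := by
        funext x
        unfold mo
        rw [mul_zero]
      rw [h3, FT_zero]
      simp
    · have h3 : Mo n (fun x : Fin d → ℤ => (0 : ℝ) * del d x) := Mo.const_mul (Mo_del n) 0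
      simp only [zero_mul] at h3
      exact h3
  | succ N ih =>
    obtain ⟨i1, i2⟩ := ih (fun i hi => h1 i (by omega)) (fun i hi => h2 i (by omega))
    simp only [Finset.sum_range_succ]
    constructor
    · have h3 := Sg.add i1 (h1 N (by omega)) i2 (h2 N (by omega))
      have h4 : ((N + 1 : ℕ) : ℝ) * C = N * C + C := by push_cast; ring
      rw [h4]
      exact h3
    · exact Mo.add i2 (h2 N (by omega))

theorem cmp6 (d n : ℕ) (c M : ℝ) (hn : 4 ≤ n) (hc : 0 < c) (hM : 0 ≤ M) : ∃ C, 0 ≤ C ∧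
    ∀ (κ w : ℝ) (W V G : (Fin d → ℤ) → ℝ), c ≤ κ → κ ≤ M → 0 < w → Good n c M W → Mo n V → Mo n G →
      cv W V = del d → cv (EK w κ) G = del d → ∑' x, W x = w → (∀ e : Fin d, ∑' x, (x e : ℝ) ^ 2 * W x = -κ) →
      Sg n 10 C (fun x => cvp V 6 x - cvp G 6 x) := by
  obtain ⟨c1, hc1, hEK⟩ := Good_EK d n c M hc
  obtain ⟨CV, hCV0, hCV⟩ := Sg_inverse d n c M (by omega) hc hM
  obtain ⟨CG, hCG0, hCG⟩ := Sg_inverse d n c1 M (by omega) hc1 hM
  obtain ⟨CR, hCR0, hCR⟩ := Rem_Sg d n (2 * M) hn (by linarith)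
  obtain ⟨PV, hPV0, hPV⟩ := Sg_cvp d n 5 CV hCV0
  obtain ⟨PG, hPG0, hPG⟩ := Sg_cvp d n 5 CG hCG0
  refine ⟨((6 : ℕ) : ℝ) * (2 ^ n * (2 ^ n * CR * (2 ^ n * CV * CG)) * (2 ^ n * PV * PG)), by positivity, ?_⟩
  intro κ w W V G hκ hκM hw hW mV mG hWV hEG hsum hsq
  have gE := hEK κ w hκ hκM hw.le
  have sV := hCV W V hW mV hWV
  have sG := hCG (EK w κ) G gE mG hEG
  have mE : Mo n (EK w κ : (Fin d → ℤ) → ℝ) := Mo_EK n w κ
  have mW := hW.mo
  have sV1 := mV.s1
  have sG1 := mG.s1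
  have mR : Mo n (fun x => EK w κ x - W x) := Mo.sub mE mW
  have mR2 : Mo 2 (fun x => EK w κ x - W x) := Mo.mono (by omega) mR
  -- the remainder
  have sR : Sg n (-4) CR (fun x => EK w κ x - W x) := by
    refine hCR _ mR (Ev.sub (Ev_EK w κ) hW.ev) ?_ ?_ ?_
    · rw [mE.s1.sum.tsum_sub mW.s1.sum, tsum_EK, hsum, sub_self]
    · intro e
      have hE2 : Summable fun x : Fin d → ℤ => (x e : ℝ) ^ 2 * EK w κ x :=
        (Mo.mo (m := 0) (a := 2) (Mo.mono (by omega) (Mo_EK n w κ)) e).s1.sum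
      have hW2 : Summable fun x : Fin d → ℤ => (x e : ℝ) ^ 2 * W x :=
        (Mo.mo (m := 0) (a := 2) (Mo.mono (by omega) mW) e).s1.sum
      have h1 : ∀ x : Fin d → ℤ, (x e : ℝ) ^ 2 * (EK w κ x - W x) =
          (x e : ℝ) ^ 2 * EK w κ x - (x e : ℝ) ^ 2 * W x := fun x => by ring
      simp only [h1]
      rw [hE2.tsum_sub hW2, tsum_sq_EK, hsq e, sub_self]
    · intro e a ha han
      have hE2 : Summable fun x : Fin d → ℤ => |(x e : ℝ)| ^ a * |EK w κ x| := by
        have h1 := (Mo.mo (m := 0) (a := a) (Mo.mono (by omega) (Mo_EK n w κ)) e).s1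
        unfold S1 mo at h1
        simp only [abs_mul, abs_pow] at h1
        exact h1
      have hW2 : Summable fun x : Fin d → ℤ => |(x e : ℝ)| ^ a * |W x| := by
        have h1 := (Mo.mo (m := 0) (a := a) (Mo.mono (by omega) mW) e).s1
        unfold S1 mo at h1
        simp only [abs_mul, abs_pow] at h1
        exact h1
      have h2 : ∑' x : Fin d → ℤ, |(x e : ℝ)| ^ a * |EK w κ x - W x| ≤
          ∑' x : Fin d → ℤ, (|(x e : ℝ)| ^ a * |EK w κ x| + |(x e : ℝ)| ^ a * |W x|) := by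
        refine Summable.tsum_le_tsum ?_ ?_ (hE2.add hW2)
        · intro x
          rw [← mul_add]
          exact mul_le_mul_of_nonneg_left (abs_sub _ _) (by positivity)
        · refine Summable.of_nonneg_of_le (fun x => by positivity) (fun x => ?_) (hE2.add hW2)
          rw [← mul_add]
          exact mul_le_mul_of_nonneg_left (abs_sub _ _) (by positivity)
      rw [hE2.tsum_add hW2] at h2
      have h3 := mom_EK (d := d) (w := w) (κ := κ) (by linarith) e (a := a) (by omega)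
      have h4 := hW.mom e a (by omega) han
      linarith
  -- V - G = R * V * G
  have hVG : (fun x => V x - G x) = cv (fun x => EK w κ x - W x) (cv V G) := by
    refine FT_injective (sV1.sub sG1) (S1.cv mR.s1 (S1.cv sV1 sG1)) fun k => ?_
    rw [FT_sub sV1 sG1, FT_cv mR.s1 (S1.cv sV1 sG1), FT_cv sV1 sG1, FT_sub mE.s1 mW.s1]
    have e1 : FT W k * FT V k = 1 := by rw [← FT_cv mW.s1 sV1, hWV, FT_del]
    have e2 : FT (EK w κ) k * FT G k = 1 := by rw [← FT_cv mE.s1 sG1, hEG, FT_del]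
    linear_combination FT G k * e1 - FT V k * e2
  have mVG : Mo n (cv V G) := Mo.cv mV mG
  have sVG : Sg n 0 (2 ^ n * CR * (2 ^ n * CV * CG)) (fun x => V x - G x) := by
    rw [hVG]
    have h1 := Sg.cv sV sG hCV0 hCG0 mV mG
    have h2 := Sg.cv sR h1 hCR0 (by positivity) mR mVG
    have h3 : (-4 : ℤ) + (2 + 2) = 0 := by norm_num
    rw [h3] at h2
    exact h2
  have mD : Mo n (fun x => V x - G x) := Mo.sub mV mG
  have key : (fun x => cvp V 6 x - cvp G 6 x) = fun x => ∑ i ∈ range 6,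
      cv (fun y => V y - G y) (cv (cvp V i) (cvp G (5 - i))) x := by
    funext x
    exact cvp_sub sV1 sG1 5 x
  rw [key]
  refine (LowB_sum (fun i => cv (fun y => V y - G y) (cv (cvp V i) (cvp G (5 - i)))) 6 ?_ ?_).1
  · intro i hi
    have h1 := hPV V mV sV i (by omega)
    have h2 := hPG G mG sG (5 - i) (by omega)
    have m1 : Mo n (cvp V i) := Mo_cvp mV i
    have m2 : Mo n (cvp G (5 - i)) := Mo_cvp mG (5 - i)
    have h3 := Sg.cv h1 h2 hPV0 hPG0 m1 m2
    have h4 := Sg.cv sVG h3 (by positivity) (by positivity) mD (Mo.cv m1 m2)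
    have h5 : (0 : ℤ) + (((2 * i : ℕ) : ℤ) + ((2 * (5 - i) : ℕ) : ℤ)) = 10 := by omega
    rw [h5] at h4
    exact h4
  · intro i hi
    exact Mo.cv mD (Mo.cv (Mo_cvp mV i) (Mo_cvp mG (5 - i)))

end IPC.Fo
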