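import Mathlib
import Pool.Agent.Lib.MP_25e40f_pr.E.ItgB
import Pool.Agent.Lib.MP_25e40f_pr.E.RemB
import Pool.Agent.Lib.MP_25e40f_pr.E.GsixB
import Pool.Agent.Lib.MP_25e40f_pr.E.LowA
import Pool.Agent.Lib.MP_25e40f_pr.E.LowB

/-!
THIS JOB (LowC): the theorems low6.  (The header describes the whole group Low; the other theorems are in other jobs and may be imported.)

# Job Low: the lower bound for the sixth power

PROOF of `kappa_low`.  Put `κ = -∑ x_e² W`, `w = ∑ W`.  For `0 < t ≤ 1` and `k = t e` (`|k| = t`): `c t² ≤ re FT W k = ∑ W(x) cos(t x_e)` (`FT_re_eq`)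
`= w + (κ/2) t² + ∑ W(x) (cos(t x_e) - 1 + (t x_e)²/2) ≤ w + (κ/2) t² + t⁴ ∑ x_e⁴ |W x|/24` (`Real.cos` bounds: `|cos u - 1 + u²/2| ≤ u⁴/24`; any
constant instead of `1/24` is fine, e.g. from `Real.cos_bound` for `|u| ≤ 1` and trivially for `|u| > 1`: constant `2`).
So `κ ≥ 2c - 2w/t² - 4 M t²` (with constant 2).  Choose `t` with `4 M t² ≤ c/2`, `t ≤ 1`, then `w0 = c t²/4`: `κ ≥ c`.

PROOF of `cmp6`.  `E = EK w κ`, `R = E - W`: even, `∑ R = 0`, `∑ x_e² R = -κ + κ = 0`, moments of order `4 ≤ a ≤ n` at most `2M`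
(`mom_EK`, `Good.mom`), so `Sg n (-4) C R` (`Rem_Sg`).  `V - G = R * V * G` (`cv`; by `FT_injective`: `V^ - G^ = (E^ - W^) V^ G^`).  `Sg n 2` for `V` and
`G` (`Sg_inverse` with `Good_EK`), `cvp V i`, `cvp G i` (`Sg_cvp`).  `cvp_sub` with `j = 5`: every summand has order `(-4+2+2) + 2i + 2(5-i) = 10`
(`Sg.cv`), the sum of six terms by `Sg.add` (induction over a finset, or `Sg` of a finset sum).

PROOF of `low6`.  `κ` does not depend on `e` by `Sy W` (permutation of two coordinates; `Equiv.swap`).  `c ≤ κ` by `kappa_low`, `κ ≤ M` by `Good.mom` with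
`a = 2`.  `G` from `exists_green`.  `Gsix_lower` gives `c6 ≤ |x|^(d-12) cvp G 6 x`, `cmp6` and `Sg.decay` (`s = 10`, `a = d - 11 ≤ n`, `10 + a < d`) give
`|x|^(d-11) |cvp V 6 x - cvp G 6 x| ≤ C`.  So `|x|^(d-12) cvp V 6 x ≥ c6 - C/|x| ≥ c6/2` for `|x| ≥ R0 = 2C/c6 + 1`.
-/

set_option autoImplicit false

noncomputable section

open Finset MeasureTheory

namespace IPC.Fo

variable {d : ℕ}

theorem low6 (d n : ℕ) (c M : ℝ) (hd : 15 < d) (hn : d - 11 ≤ n) (hn4 : 4 ≤ n) (hc : 0 < c) (hM : 0 ≤ M) :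
    ∃ c' > 0, ∃ R0 : ℝ, ∃ w0 > 0, ∀ W V : (Fin d → ℤ) → ℝ, Good n c M W → Sy W → Mo n V → cv W V = del d →
      0 < ∑' x, W x → ∑' x, W x ≤ w0 → ∀ x : Fin d → ℤ, R0 ≤ ‖x‖ → (∑' y, W y) * ‖x‖ ^ 2 ≤ 1 →
      c' ≤ ‖x‖ ^ (d - 12) * cvp V 6 x := by
  obtain ⟨w0, hw0, hkap⟩ := kappa_low d c M hc hM
  obtain ⟨C, hC0, hC⟩ := cmp6 d n c M hn4 hc hM
  obtain ⟨c6, hc6, hG6⟩ := Gsix_lower d (by omega) c M hc
  have hI : 0 ≤ C * Ic d (10 + (d - 11)) := mul_nonneg hC0 (Ic_nonneg d _)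
  refine ⟨c6 / 2, by positivity, 2 * (C * Ic d (10 + (d - 11))) / c6 + 1, w0, hw0, ?_⟩
  intro W V hW hSy mV hWV hpos hle x hx hwx
  have e0 : Fin d := ⟨0, by omega⟩
  have hW4 : Good 4 c M W := ⟨Mo.mono hn4 hW.mo, hW.ev, fun e a ha ha4 => hW.mom e a ha (by omega), hW.low⟩
  have hsq : ∀ e : Fin d, ∑' x, (x e : ℝ) ^ 2 * W x = -(-∑' x, (x e0 : ℝ) ^ 2 * W x) := by
    intro e
    rw [neg_neg]
    have h1 : ∑' x : Fin d → ℤ, (x e0 : ℝ) ^ 2 * W x =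
        ∑' x : Fin d → ℤ, ((x ∘ (Equiv.swap e0 e)) e0 : ℝ) ^ 2 * W (x ∘ (Equiv.swap e0 e)) := by
      rw [← (Equiv.arrowCongr (Equiv.swap e0 e) (Equiv.refl ℤ)).tsum_eq]
      refine tsum_congr fun x => ?_
      rfl
    rw [h1]
    refine tsum_congr fun x => ?_
    have h2 : (x ∘ (Equiv.swap e0 e)) e0 = x e := by
      show x (Equiv.swap e0 e e0) = x e
      rw [Equiv.swap_apply_left]
    have h3 : W (x ∘ (Equiv.swap e0 e)) = W x := hSy (Equiv.swap e0 e) x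
    rw [h2, h3]
  have hκ := hkap W e0 hW4 hle
  have hκM : -∑' x, (x e0 : ℝ) ^ 2 * W x ≤ M := by
    have h1 := hW.mom e0 2 le_rfl (by omega)
    have hW2 : Summable fun x : Fin d → ℤ => |(x e0 : ℝ)| ^ 2 * |W x| := by
      have h1 := (Mo.mo (m := 0) (a := 2) (Mo.mono (by omega) hW.mo) e0).s1
      unfold S1 mo at h1
      simp only [abs_mul, abs_pow] at h1
      exact h1
    have hW3 : Summable fun x : Fin d → ℤ => (x e0 : ℝ) ^ 2 * W x :=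
      (Mo.mo (m := 0) (a := 2) (Mo.mono (by omega) hW.mo) e0).s1.sum
    rw [← tsum_neg]
    refine le_trans (Summable.tsum_le_tsum (fun x => ?_) hW3.neg hW2) h1
    rw [sq_abs, ← mul_neg]
    exact mul_le_mul_of_nonneg_left (neg_le_abs _) (sq_nonneg _)
  obtain ⟨G, mG, hG⟩ := exists_green d hpos (le_trans hc.le hκ)
  have hx1 : 1 ≤ ‖x‖ := by
    have : 0 ≤ 2 * (C * Ic d (10 + (d - 11))) / c6 := by positivity
    linarith
  have hx0 : x ≠ 0 := by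
    intro h
    rw [h, norm_zero] at hx1
    linarith
  have h1 := hG6 (-∑' x, (x e0 : ℝ) ^ 2 * W x) (∑' x, W x) hκ hκM hpos G (mG 0).s1 hG x hx0 hwx
  have h2 := hC (-∑' x, (x e0 : ℝ) ^ 2 * W x) (∑' x, W x) W V G hκ hκM hpos hW mV (mG n) hWV hG rfl hsq
  have mD : Mo n (fun x => cvp V 6 x - cvp G 6 x) := Mo.sub (Mo_cvp mV 6) (Mo_cvp (mG n) 6)
  have h3 : Sg n ((10 : ℕ) : ℤ) C (fun x => cvp V 6 x - cvp G 6 x) := h2
  have h4 := Sg.decay h3 mD hn (by omega) x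
  have h5 : ‖x‖ ^ (d - 11) = ‖x‖ ^ (d - 12) * ‖x‖ := by
    rw [← pow_succ]
    congr 1
    omega
  rw [h5] at h4
  have hxp : 0 < ‖x‖ ^ (d - 12) := by positivity
  have h6 : ‖x‖ ^ (d - 12) * |cvp V 6 x - cvp G 6 x| ≤ c6 / 2 := by
    have h7 : ‖x‖ * (‖x‖ ^ (d - 12) * |cvp V 6 x - cvp G 6 x|) ≤ ‖x‖ * (c6 / 2) := by
      have h8 : 2 * (C * Ic d (10 + (d - 11))) ≤ ‖x‖ * c6 := by
        have h9 : 2 * (C * Ic d (10 + (d - 11))) / c6 ≤ ‖x‖ := by linarith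
        rwa [div_le_iff₀ hc6] at h9
      nlinarith
    exact le_of_mul_le_mul_left h7 (by linarith)
  have h7 : ‖x‖ ^ (d - 12) * (cvp G 6 x - cvp V 6 x) ≤ ‖x‖ ^ (d - 12) * |cvp V 6 x - cvp G 6 x| := by
    refine mul_le_mul_of_nonneg_left ?_ hxp.le
    rw [abs_sub_comm]
    exact le_abs_self _
  have h8 : ‖x‖ ^ (d - 12) * (cvp G 6 x - cvp V 6 x) = ‖x‖ ^ (d - 12) * cvp G 6 x - ‖x‖ ^ (d - 12) * cvp V 6 x := by
    ring
  linarith

end IPC.Fo
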