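import Mathlib
import Pool.Agent.Lib.MP_25e40f_pr.E.ChnB
import Pool.Agent.Lib.MP_25e40f_pr.E.DcyB
import Pool.Agent.Lib.MP_25e40f_pr.E.LowC

/-!
THIS JOB (BoxS): the theorems mem_bx box_six.  (The header describes the whole group BoxB; the other theorems are in other jobs and may be imported.)

# Job BoxB: the lower bound for chains in a box

PROOF.  Constants: `C` from `Sg_inverse` (so `Sg n 2 C V`), `K` from `decay_cvp` with `a = d - 13`: `(1+|x|)^(d-13) cvp V i x ≤ K` for `i ≤ 6`;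
`c6, R0, w0` from `low6`; `Z = ∑ (1+|x|)^(-(d+1))` (`summable_inv`).  Also `cvp T i ≤ cvp V i` (`cvp_mono`) and `V ≤ K0 T` gives `cvp V 6 ≤ K0^6 cvp T 6`.
`w1 = min w0 (1/(R+1)^2)`.
(1) Full chain from below: for `y ∈ bx d R`, if `R0 ≤ |y|`: `|y| ≤ R`, `(∑W) |y|² ≤ 1`, so `cvp T 6 y ≥ K0^(-6) c6 |y|^(-(d-12))` and `R^(d-12) cvp T 6 y ≥ K0^(-6) c6`;
if `|y| < R0`: `cvp T 6 y ≥ cvp T 1 y = T y` (`cvp_le_succ`) `≥ θ^(∑ |y i|) ≥ θ^(d ⌈R0⌉)`, and `R^(d-12) ≥ 1`.  Let `c'' = min` of the two; `c' = c''/2`.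
(2) Missing part: `box_one` and `box_two` with `j = 5`, `x = 0`, `B = bx d R'` (`0, y ∈ B` since `R ≤ R'`): all terms of the two error sums are of the form
`cvp T i (z) cvp T l (y - z)` with `1 ≤ i, l ≤ 6` and `|z| ≥ R'`; there `|y - z| ≥ |z| - R ≥ |z|/2` (`2R ≤ R'`: from `R'^25 ≥ R^26 ≥ 2^25 R^25` for `R ≥ 2^25`), so each
is at most `K² (1+|z|)^(-(d-13)) (1+|z|/2)^(-(d-13)) ≤ K² 2^(d-13) (1+|z|)^(-2(d-13))`; sum over `z` with `lattice_tail` (`s = 2(d-13) ≥ d+1`):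
`≤ K² 2^(d-13) Z / R'^(2(d-13)-d-1) = K² 2^(d-13) Z / R'^(d-27)`.  There are `5 + 6 = 11` terms (for the finite sum over `S` compare with the `tsum` over `|z| ≥ R'`:
`Summable.sum_le_tsum`).
(3) `R'^(d-27) ≥ R * R^(d-12)`: the 25th powers satisfy `R'^(25(d-27)) ≥ R^(26(d-27)) ≥ R^(25(d-12)+25)` because `26(d-27) ≥ 25(d-11)` for `d ≥ 427`
(`pow_le_pow_left` inverse: `lt_of_pow_lt_pow_left₀` / `pow_le_pow_iff_left₀`).  Hence `R^(d-12) * missing ≤ 11 K² 2^(d-13) Z / R ≤ c''/2` for `R ≥ R1`.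
-/

set_option autoImplicit false

noncomputable section

open Finset MeasureTheory

namespace IPC.Fo

variable {d : ℕ}

/-- the box `[-r, r]ᵈ` -/
def bx (d r : ℕ) : Finset (Fin d → ℤ) := Fintype.piFinset fun _ : Fin d => Finset.Icc (-(r : ℤ)) r

theorem mem_bx {d r : ℕ} {x : Fin d → ℤ} : x ∈ bx d r ↔ ‖x‖ ≤ r := by
  unfold bx
  rw [Fintype.mem_piFinset, pi_norm_le_iff_of_nonneg (Nat.cast_nonneg r)]
  refine forall_congr' fun i => ?_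
  rw [Finset.mem_Icc, Int.norm_eq_abs, abs_le]
  constructor
  · rintro ⟨h1, h2⟩
    exact ⟨by exact_mod_cast h1, by exact_mod_cast h2⟩
  · rintro ⟨h1, h2⟩
    exact ⟨by exact_mod_cast h1, by exact_mod_cast h2⟩

theorem BoxS_cvp_const (f : (Fin d → ℤ) → ℝ) (c : ℝ) (j : ℕ) :
    cvp (fun x => c * f x) j = fun x => c ^ j * cvp f j x := by
  induction j with
  | zero => funext x; simp [cvp_zero]
  | succ j ih =>
    rw [cvp_succ, ih, cv_const_left, cv_comm f, cv_const_left, cv_comm (cvp f j), ← cvp_succ]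
    funext x
    rw [pow_succ]
    ring

/-- the arithmetic of step (3) -/
theorem BoxS_pow {d R R' : ℕ} (hd : 450 ≤ d) (hR : 1 ≤ R) (h : R ^ 26 ≤ R' ^ 25) :
    (R : ℝ) * (R : ℝ) ^ (d - 12) ≤ (R' : ℝ) ^ (d - 27) := by
  have h1 : R * R ^ (d - 12) ≤ R' ^ (d - 27) := by
    rw [← Nat.pow_le_pow_iff_left (n := 25) (by norm_num)]
    have e1 : (R * R ^ (d - 12)) ^ 25 = R ^ (25 * (d - 11)) := by
      have : R * R ^ (d - 12) = R ^ (d - 11) := by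
        rw [← pow_succ']
        congr 1
        omega
      rw [this, ← pow_mul]
      congr 1
      omega
    have e2 : (R' ^ (d - 27)) ^ 25 = (R' ^ 25) ^ (d - 27) := by
      rw [← pow_mul, ← pow_mul, mul_comm]
    rw [e1, e2]
    calc R ^ (25 * (d - 11)) ≤ R ^ (26 * (d - 27)) := Nat.pow_le_pow_right hR (by omega)
      _ = (R ^ 26) ^ (d - 27) := by rw [← pow_mul]
      _ ≤ (R' ^ 25) ^ (d - 27) := Nat.pow_le_pow_left h _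
  exact_mod_cast h1

theorem BoxS_two {R R' : ℕ} (hR : 2 ^ 25 ≤ R) (h : R ^ 26 ≤ R' ^ 25) : 2 * R ≤ R' := by
  rw [← Nat.pow_le_pow_iff_left (n := 25) (by norm_num)]
  calc (2 * R) ^ 25 = 2 ^ 25 * R ^ 25 := by rw [mul_pow]
    _ ≤ R * R ^ 25 := Nat.mul_le_mul_right _ hR
    _ = R ^ 26 := by rw [← pow_succ']
    _ ≤ R' ^ 25 := h

/-- one product in the missing part -/
theorem BoxS_term {f g : (Fin d → ℤ) → ℝ} {K : ℝ} {a : ℕ} (hf0 : ∀ x, 0 ≤ f x) (hg0 : ∀ x, 0 ≤ g x)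
    (hf : ∀ x, (1 + ‖x‖) ^ a * f x ≤ K) (hg : ∀ x, (1 + ‖x‖) ^ a * g x ≤ K) {y z : Fin d → ℤ}
    (h : 2 * ‖y‖ ≤ ‖z‖) : f z * g (y - z) ≤ K ^ 2 * 2 ^ a * ((1 + ‖z‖) ^ (2 * a))⁻¹ := by
  have hz : 0 < 1 + ‖z‖ := by linarith [norm_nonneg z]
  have hK : 0 ≤ K := le_trans (mul_nonneg (pow_nonneg (by linarith [norm_nonneg z]) _) (hf0 z)) (hf z)
  have h1 : ‖z‖ ≤ ‖y - z‖ + ‖y‖ := by
    have e : z = y - (y - z) := by abel
    calc ‖z‖ = ‖y - (y - z)‖ := by rw [← e]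
      _ ≤ ‖y‖ + ‖y - z‖ := norm_sub_le _ _
      _ = ‖y - z‖ + ‖y‖ := add_comm _ _
  have h2 : 1 + ‖z‖ ≤ 2 * (1 + ‖y - z‖) := by linarith
  have h3 : (1 + ‖z‖) ^ a * g (y - z) ≤ 2 ^ a * K := by
    calc (1 + ‖z‖) ^ a * g (y - z) ≤ (2 * (1 + ‖y - z‖)) ^ a * g (y - z) :=
          mul_le_mul_of_nonneg_right (pow_le_pow_left₀ hz.le h2 a) (hg0 _)
      _ = 2 ^ a * ((1 + ‖y - z‖) ^ a * g (y - z)) := by rw [mul_pow]; ring
      _ ≤ 2 ^ a * K := mul_le_mul_of_nonneg_left (hg _) (by positivity)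
  rw [← div_eq_mul_inv, le_div_iff₀ (pow_pos hz _)]
  calc f z * g (y - z) * (1 + ‖z‖) ^ (2 * a)
      = ((1 + ‖z‖) ^ a * f z) * ((1 + ‖z‖) ^ a * g (y - z)) := by rw [two_mul, pow_add]; ring
    _ ≤ K * (2 ^ a * K) := mul_le_mul (hf z) h3 (mul_nonneg (pow_nonneg hz.le _) (hg0 _)) hK
    _ = K ^ 2 * 2 ^ a := by ring

theorem BoxS_tsum {F : (Fin d → ℤ) → ℝ} {B : Finset (Fin d → ℤ)} {D r : ℝ} {s : ℕ} (hs : d + 1 ≤ s) (hr : 0 < r)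
    (hD : 0 ≤ D) (hF0 : ∀ z, 0 ≤ F z) (hB : ∀ z, z ∉ B → r ≤ ‖z‖)
    (hF : ∀ z, r ≤ ‖z‖ → F z ≤ D * ((1 + ‖z‖) ^ s)⁻¹) :
    ∑' z, (if z ∈ B then 0 else F z) ≤ D * ((∑' x : Fin d → ℤ, ((1 + ‖x‖) ^ (d + 1))⁻¹) / r ^ (s - d - 1)) := by
  obtain ⟨h1, h2⟩ := lattice_tail (d := d) hs hr
  refine le_trans ?_ (mul_le_mul_of_nonneg_left h2 hD)
  rw [← tsum_mul_left]
  have hle : ∀ z : Fin d → ℤ, (if z ∈ B then 0 else F z) ≤ D * (if r ≤ ‖z‖ then ((1 + ‖z‖) ^ s)⁻¹ else 0) := by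
    intro z
    have hz : 0 < 1 + ‖z‖ := by linarith [norm_nonneg z]
    by_cases hz1 : z ∈ B
    · rw [if_pos hz1]
      refine mul_nonneg hD ?_
      split_ifs
      · exact inv_nonneg.mpr (pow_nonneg hz.le _)
      · exact le_refl _
    · rw [if_neg hz1, if_pos (hB z hz1)]
      exact hF z (hB z hz1)
  have h3 : Summable fun z : Fin d → ℤ => D * (if r ≤ ‖z‖ then ((1 + ‖z‖) ^ s)⁻¹ else 0) := h1.mul_left D
  refine Summable.tsum_le_tsum hle ?_ h3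
  refine Summable.of_nonneg_of_le (fun z => ?_) hle h3
  split_ifs
  · exact le_refl _
  · exact hF0 z

theorem BoxS_sum {F : (Fin d → ℤ) → ℝ} {S : Finset (Fin d → ℤ)} {D r : ℝ} {s : ℕ} (hs : d + 1 ≤ s) (hr : 0 < r)
    (hD : 0 ≤ D) (hS : ∀ z ∈ S, r ≤ ‖z‖)
    (hF : ∀ z, r ≤ ‖z‖ → F z ≤ D * ((1 + ‖z‖) ^ s)⁻¹) :
    ∑ z ∈ S, F z ≤ D * ((∑' x : Fin d → ℤ, ((1 + ‖x‖) ^ (d + 1))⁻¹) / r ^ (s - d - 1)) := by
  obtain ⟨h1, h2⟩ := lattice_tail (d := d) hs hr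
  refine le_trans ?_ (mul_le_mul_of_nonneg_left h2 hD)
  rw [← tsum_mul_left]
  have h3 : Summable fun z : Fin d → ℤ => D * (if r ≤ ‖z‖ then ((1 + ‖z‖) ^ s)⁻¹ else 0) := h1.mul_left D
  refine le_trans (Finset.sum_le_sum fun z hz => ?_) (h3.sum_le_tsum S fun z _ => ?_)
  · show F z ≤ D * (if r ≤ ‖z‖ then ((1 + ‖z‖) ^ s)⁻¹ else 0)
    rw [if_pos (hS z hz)]
    exact hF z (hS z hz)
  · have hz : 0 < 1 + ‖z‖ := by linarith [norm_nonneg z]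
    refine mul_nonneg hD ?_
    split_ifs
    · exact inv_nonneg.mpr (pow_nonneg hz.le _)
    · exact le_refl _

theorem BoxS_S1 {V T : (Fin d → ℤ) → ℝ} (hV : S1 V) (h0 : ∀ x, 0 ≤ T x) (h1 : ∀ x, T x ≤ V x) : S1 T := by
  refine Summable.of_nonneg_of_le (fun _ => abs_nonneg _) (fun x => ?_) hV
  rw [abs_of_nonneg (h0 x)]
  exact le_trans (h1 x) (le_abs_self _)

/-- step (1): the full chain from below -/
theorem BoxS_full {R : ℕ} {K0 c6 R0 θ : ℝ} {V T : (Fin d → ℤ) → ℝ} {y : Fin d → ℤ} (hR : 1 ≤ R) (hK : 0 < K0)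
    (hθ : 0 < θ) (hθ1 : θ ≤ 1) (hV : S1 V)
    (h0 : ∀ x, 0 ≤ T x) (h1 : ∀ x, T x ≤ V x) (h2 : ∀ x, V x ≤ K0 * T x) (h3 : 1 ≤ T 0)
    (h4 : ∀ x : Fin d → ℤ, θ ^ (∑ i, (x i).natAbs) ≤ T x) (hy : ‖y‖ ≤ R)
    (hlow : R0 ≤ ‖y‖ → c6 ≤ ‖y‖ ^ (d - 12) * cvp V 6 y) :
    min (c6 / K0 ^ 6) (θ ^ (d * ⌈R0⌉₊)) ≤ (R : ℝ) ^ (d - 12) * cvp T 6 y := by
  have hT : S1 T := BoxS_S1 hV h0 h1
  have hR1 : (1 : ℝ) ≤ R := by exact_mod_cast hR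
  have hR2 : (1 : ℝ) ≤ (R : ℝ) ^ (d - 12) := one_le_pow₀ hR1
  have hpos : 0 ≤ cvp T 6 y := cvp_nonneg h0 6 y
  by_cases hy0 : R0 ≤ ‖y‖
  · refine le_trans (min_le_left _ _) ?_
    rw [div_le_iff₀ (pow_pos hK 6)]
    have h5 : cvp V 6 y ≤ K0 ^ 6 * cvp T 6 y := by
      have hVnn : ∀ x, 0 ≤ V x := fun x => le_trans (h0 x) (h1 x)
      have h6 := cvp_mono (hT.const_mul K0) hVnn h2 6 y
      rw [BoxS_cvp_const] at h6
      exact h6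
    calc c6 ≤ ‖y‖ ^ (d - 12) * cvp V 6 y := hlow hy0
      _ ≤ ‖y‖ ^ (d - 12) * (K0 ^ 6 * cvp T 6 y) :=
          mul_le_mul_of_nonneg_left h5 (pow_nonneg (norm_nonneg _) _)
      _ ≤ (R : ℝ) ^ (d - 12) * (K0 ^ 6 * cvp T 6 y) :=
          mul_le_mul_of_nonneg_right (pow_le_pow_left₀ (norm_nonneg _) hy _) (by positivity)
      _ = (R : ℝ) ^ (d - 12) * cvp T 6 y * K0 ^ 6 := by ring
  · refine le_trans (min_le_right _ _) ?_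
    have hy1 : ‖y‖ < R0 := not_le.mp hy0
    have h5 : T y ≤ cvp T 6 y := by
      have e1 : cvp T 1 y = T y := by rw [cvp_one]
      calc T y = cvp T 1 y := e1.symm
        _ ≤ cvp T 2 y := cvp_le_succ hT h0 h3 1 y
        _ ≤ cvp T 3 y := cvp_le_succ hT h0 h3 2 y
        _ ≤ cvp T 4 y := cvp_le_succ hT h0 h3 3 y
        _ ≤ cvp T 5 y := cvp_le_succ hT h0 h3 4 y
        _ ≤ cvp T 6 y := cvp_le_succ hT h0 h3 5 y
    have h6 : ∑ i, (y i).natAbs ≤ d * ⌈R0⌉₊ := by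
      have h7 : ∀ i ∈ (Finset.univ : Finset (Fin d)), (y i).natAbs ≤ ⌈R0⌉₊ := by
        intro i _
        have h8 : |(y i : ℝ)| ≤ ‖y‖ := abs_coord_le y i
        have h9 : (((y i).natAbs : ℕ) : ℝ) ≤ (⌈R0⌉₊ : ℝ) := by
          rw [Nat.cast_natAbs, Int.cast_abs]
          exact le_trans h8 (le_trans hy1.le (Nat.le_ceil _))
        exact_mod_cast h9
      have h10 := Finset.sum_le_card_nsmul _ _ _ h7
      simpa using h10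
    calc θ ^ (d * ⌈R0⌉₊) ≤ θ ^ (∑ i, (y i).natAbs) := pow_le_pow_of_le_one hθ.le hθ1 h6
      _ ≤ T y := h4 y
      _ ≤ cvp T 6 y := h5
      _ = 1 * cvp T 6 y := (one_mul _).symm
      _ ≤ (R : ℝ) ^ (d - 12) * cvp T 6 y := mul_le_mul_of_nonneg_right hR2 hpos

/-- step (2): the missing part -/
theorem BoxS_miss {R R' : ℕ} {K : ℝ} {V T : (Fin d → ℤ) → ℝ} {TB : (Fin d → ℤ) → (Fin d → ℤ) → ℝ}
    {S : Finset (Fin d → ℤ)} (hd : 450 ≤ d) (hR' : 2 * R ≤ R') (hR : 1 ≤ R) (hV : S1 V)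
    (h0 : ∀ x, 0 ≤ T x) (h1 : ∀ x, T x ≤ V x)
    (hKV : ∀ i ≤ 6, ∀ x, (1 + ‖x‖) ^ (d - 13) * |cvp V i x| ≤ K)
    (hS : ∀ w ∈ S, (R' : ℝ) ≤ ‖w‖)
    (hB : ∀ u ∈ bx d R', ∀ v ∈ bx d R', 0 ≤ TB u v ∧ TB u v ≤ T (v - u) ∧
          T (v - u) ≤ TB u v + ∑ w ∈ S, T (w - u) * T (v - w)) {y : Fin d → ℤ} (hy : ‖y‖ ≤ R) :
    cvp T 6 y ≤ chn TB (bx d R') 5 0 y +
      11 * (K ^ 2 * 2 ^ (d - 13) * ((∑' x : Fin d → ℤ, ((1 + ‖x‖) ^ (d + 1))⁻¹) / (R' : ℝ) ^ (d - 27))) := by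
  have hT : S1 T := BoxS_S1 hV h0 h1
  have hRR : (2 : ℝ) * R ≤ R' := by exact_mod_cast hR'
  have hR1 : (1 : ℝ) ≤ R := by exact_mod_cast hR
  have hR'0 : (0 : ℝ) < R' := by linarith
  set D : ℝ := K ^ 2 * 2 ^ (d - 13) with hD
  have hD0 : 0 ≤ D := by positivity
  have hyB : y ∈ bx d R' := mem_bx.mpr (by linarith)
  have h0B : (0 : Fin d → ℤ) ∈ bx d R' := mem_bx.mpr (by simp)
  have hKT : ∀ i ≤ 6, ∀ x, (1 + ‖x‖) ^ (d - 13) * cvp T i x ≤ K := by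
    intro i hi x
    refine le_trans (mul_le_mul_of_nonneg_left ?_ (pow_nonneg (by linarith [norm_nonneg x]) _)) (hKV i hi x)
    exact le_trans (cvp_mono hV h0 h1 i x) (le_abs_self _)
  have hterm : ∀ i ≤ 6, ∀ l ≤ 6, ∀ z : Fin d → ℤ, (R' : ℝ) ≤ ‖z‖ →
      cvp T i (z - 0) * cvp T l (y - z) ≤ D * ((1 + ‖z‖) ^ (2 * (d - 13)))⁻¹ := by
    intro i hi l hl z hz
    rw [sub_zero]
    exact BoxS_term (fun x => cvp_nonneg h0 i x) (fun x => cvp_nonneg h0 l x) (hKT i hi) (hKT l hl) (by linarith)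
  have hs : d + 1 ≤ 2 * (d - 13) := by omega
  have he : 2 * (d - 13) - d - 1 = d - 27 := by omega
  set E : ℝ := D * ((∑' x : Fin d → ℤ, ((1 + ‖x‖) ^ (d + 1))⁻¹) / (R' : ℝ) ^ (d - 27)) with hE
  have hone : ∀ i ∈ range 5, ∑' z, (if z ∈ bx d R' then 0 else cvp T (i + 1) (z - 0) * cvp T (5 - i) (y - z)) ≤ E := by
    intro i hi
    have hi5 : i < 5 := Finset.mem_range.mp hi
    have h5 := BoxS_tsum (F := fun z => cvp T (i + 1) (z - 0) * cvp T (5 - i) (y - z)) (B := bx d R') (D := D)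
      (r := (R' : ℝ)) (s := 2 * (d - 13)) hs hR'0 hD0
      (fun z => mul_nonneg (cvp_nonneg h0 _ _) (cvp_nonneg h0 _ _))
      (fun z hz => by
        rw [mem_bx] at hz
        exact (not_le.mp hz).le)
      (fun z hz => hterm (i + 1) (by omega) (5 - i) (by omega) z hz)
    rw [he] at h5
    exact h5
  have htwo : ∀ i ∈ range 6, ∑ w ∈ S, cvp T (i + 1) (w - 0) * cvp T (6 - i) (y - w) ≤ E := by
    intro i hi
    have hi6 : i < 6 := Finset.mem_range.mp hi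
    have h5 := BoxS_sum (F := fun z => cvp T (i + 1) (z - 0) * cvp T (6 - i) (y - z)) (S := S) (D := D)
      (r := (R' : ℝ)) (s := 2 * (d - 13)) hs hR'0 hD0 hS
      (fun z hz => hterm (i + 1) (by omega) (6 - i) (by omega) z hz)
    rw [he] at h5
    exact h5
  have b1 := box_one hT h0 (bx d R') 5 0 y
  have b2 := box_two hT h0 hB 5 h0B hyB
  have s1 := Finset.sum_le_card_nsmul _ _ _ hone
  have s2 := Finset.sum_le_card_nsmul _ _ _ htwo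
  rw [Finset.card_range, nsmul_eq_mul] at s1 s2
  rw [sub_zero] at b1
  have b1' : cvp T 6 y ≤ chn (fun u v => T (v - u)) (bx d R') 5 0 y +
      ∑ i ∈ range 5, ∑' z, (if z ∈ bx d R' then 0 else cvp T (i + 1) (z - 0) * cvp T (5 - i) (y - z)) := b1
  have b2' : chn (fun u v => T (v - u)) (bx d R') 5 0 y ≤ chn TB (bx d R') 5 0 y +
      ∑ i ∈ range 6, ∑ w ∈ S, cvp T (i + 1) (w - 0) * cvp T (6 - i) (y - w) := b2
  push_cast at s1 s2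
  linarith

theorem box_six (d n : ℕ) (c M K0 θ : ℝ) (hd : 450 ≤ d) (hn : d - 11 ≤ n) (hc : 0 < c) (hM : 0 ≤ M)
    (hK : 0 < K0) (hθ : 0 < θ) (hθ1 : θ ≤ 1) :
    ∃ c' > 0, ∃ R1 : ℕ, ∀ R : ℕ, R1 ≤ R → ∃ w1 > 0, ∀ R' : ℕ, R ^ 26 ≤ R' ^ 25 →
      ∀ (W V T : (Fin d → ℤ) → ℝ) (TB : (Fin d → ℤ) → (Fin d → ℤ) → ℝ) (S : Finset (Fin d → ℤ)),
        Good n c M W → Sy W → Mo n V → cv W V = del d → 0 < ∑' x, W x → ∑' x, W x ≤ w1 →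
        (∀ x, 0 ≤ T x) → (∀ x, T x ≤ V x) → (∀ x, V x ≤ K0 * T x) → 1 ≤ T 0 →
        (∀ x : Fin d → ℤ, θ ^ (∑ i, (x i).natAbs) ≤ T x) → (∀ w ∈ S, (R' : ℝ) ≤ ‖w‖) →
        (∀ u ∈ bx d R', ∀ v ∈ bx d R', 0 ≤ TB u v ∧ TB u v ≤ T (v - u) ∧
          T (v - u) ≤ TB u v + ∑ w ∈ S, T (w - u) * T (v - w)) →
        ∀ y ∈ bx d R, c' ≤ (R : ℝ) ^ (d - 12) * chn TB (bx d R') 5 0 y := by
  obtain ⟨C, hC, hSg⟩ := Sg_inverse d n c M (by omega) hc hM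
  obtain ⟨K, hK', hdec⟩ := decay_cvp d n C hC
  obtain ⟨c6, hc6, R0, w0, hw0, hlow⟩ := low6 d n c M (by omega) hn (by omega) hc hM
  set c2 : ℝ := min (c6 / K0 ^ 6) (θ ^ (d * ⌈R0⌉₊)) with hc2
  have hc2' : 0 < c2 := lt_min (div_pos hc6 (pow_pos hK 6)) (pow_pos hθ _)
  set Z : ℝ := ∑' x : Fin d → ℤ, ((1 + ‖x‖) ^ (d + 1))⁻¹ with hZ
  have hZ0 : 0 ≤ Z := tsum_nonneg fun x => inv_nonneg.mpr (pow_nonneg (by linarith [norm_nonneg x]) _)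
  set Q : ℝ := 11 * (K ^ 2 * 2 ^ (d - 13) * Z) with hQ
  have hQ0 : 0 ≤ Q := by positivity
  refine ⟨c2 / 2, by positivity, max (2 ^ 25) ⌈2 * Q / c2⌉₊, ?_⟩
  intro R hR
  have hRa : 2 ^ 25 ≤ R := le_trans (le_max_left _ _) hR
  have hRb : ⌈2 * Q / c2⌉₊ ≤ R := le_trans (le_max_right _ _) hR
  have hR1 : 1 ≤ R := le_trans (by norm_num) hRa
  have hR1' : (1 : ℝ) ≤ R := by exact_mod_cast hR1
  have hRc : 2 * Q / c2 ≤ R := Nat.ceil_le.mp hRb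
  refine ⟨min w0 (1 / ((R : ℝ) + 1) ^ 2), lt_min hw0 (by positivity), ?_⟩
  intro R' hR' W V T TB S hW hSy hV hWV hw hw1 h0 h1 h2 h3 h4 hS hB y hy
  have hyR : ‖y‖ ≤ R := mem_bx.mp hy
  have hV1 : S1 V := hV.s1
  have hfull := BoxS_full (R0 := R0) (c6 := c6) hR1 hK hθ hθ1 hV1 h0 h1 h2 h3 h4 hyR (fun hy0 => by
    refine hlow W V hW hSy hV hWV hw (le_trans hw1 (min_le_left _ _)) y hy0 ?_
    have h5 : ∑' x, W x ≤ 1 / ((R : ℝ) + 1) ^ 2 := le_trans hw1 (min_le_right _ _)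
    have h6 : ‖y‖ ^ 2 ≤ ((R : ℝ) + 1) ^ 2 := pow_le_pow_left₀ (norm_nonneg _) (by linarith) 2
    calc (∑' x, W x) * ‖y‖ ^ 2 ≤ 1 / ((R : ℝ) + 1) ^ 2 * ((R : ℝ) + 1) ^ 2 :=
          mul_le_mul h5 h6 (by positivity) (by positivity)
      _ = 1 := by
          rw [one_div, inv_mul_cancel₀]
          positivity)
  have hmiss := BoxS_miss (K := K) hd (BoxS_two hRa hR') hR1 hV1 h0 h1 (fun i hi x =>
    hdec V hV (hSg W V hW hV hWV) i (d - 13) (by omega) (by omega) (by omega) x) hS hB hyR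
  have hp := BoxS_pow hd hR1 hR'
  have hRp : (0 : ℝ) < (R : ℝ) ^ (d - 12) := by positivity
  have hR'p : (0 : ℝ) < (R' : ℝ) ^ (d - 27) := lt_of_lt_of_le (by positivity) hp
  have hm2 : (R : ℝ) ^ (d - 12) * (11 * (K ^ 2 * 2 ^ (d - 13) * (Z / (R' : ℝ) ^ (d - 27)))) ≤ c2 / 2 := by
    have e1 : (R : ℝ) ^ (d - 12) * (11 * (K ^ 2 * 2 ^ (d - 13) * (Z / (R' : ℝ) ^ (d - 27)))) =
        Q * ((R : ℝ) ^ (d - 12) / (R' : ℝ) ^ (d - 27)) := by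
      rw [hQ]
      ring
    have h7 : (R : ℝ) ^ (d - 12) / (R' : ℝ) ^ (d - 27) ≤ 1 / R := by
      rw [div_le_div_iff₀ hR'p (by linarith)]
      linarith
    have h8 : Q ≤ c2 / 2 * R := by
      rw [div_le_iff₀ hc2'] at hRc
      linarith
    rw [e1]
    calc Q * ((R : ℝ) ^ (d - 12) / (R' : ℝ) ^ (d - 27)) ≤ Q * (1 / R) := mul_le_mul_of_nonneg_left h7 hQ0
      _ = Q / R := by ring
      _ ≤ c2 / 2 := by
          rw [div_le_iff₀ (by linarith)]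
          exact h8
  have hm3 := mul_le_mul_of_nonneg_left hmiss hRp.le
  rw [mul_add] at hm3
  have hf2 : c2 ≤ (R : ℝ) ^ (d - 12) * cvp T 6 y := hfull
  linarith

end IPC.Fo
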