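import Mathlib
import Pool.Agent.Lib.MP_25e40f_pr.E.DcyB

/-!
THIS JOB (LimA): the theorems W_V Sys.glim.  (The header describes the whole group Lim; the other theorems are in other jobs and may be imported.)

# Job Lim: passage to the critical point

A sequence `p j → pl`, two point functions `τ j ↑ τl`, `g j` with `τ = g + g * P * τ` and uniformly bounded `n`-th moments, `gl ∈ l¹` with the same
equation at `pl`.  Then `g j → gl`.

Notation: `V j = del + cv (Pn (p j)) (τ j)`, `J j = cv (Pn (p j)) (g j)`, `W j = del - J j`, `V`, `J` the same at `pl`.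
PROOF of `Sys.glim`.  (1) `τ j = cv (g j) (V j)`, `cv (W j) (V j) = del` (`τ = g + g*P*τ = g * V`, `W * V = V - P * (g * V) = V - P * τ = del`), so `g j = cv (τ j) (W j)`
(`cv (τ j) (W j) = g j * V j * W j`).
(2) TIGHTNESS LEMMA: if `a j → 0` pointwise, `|a j| ≤ A`, and `∑ (1+|x|) |h j x| ≤ B` for all `j`, then `cv (a j) (h j) → 0` pointwise, and
`|cv (a j) (h j)| ≤ A B`: split `|y| ≤ r` (finite sum, each term tends to `0` as `h j` is bounded by `B`) and `|y| > r` (at most `A B / r`); here `cv a h x = ∑ a (x-y) h y`.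
The functions `W j` satisfy this (`∑ (1+|x|) |W j| ≤ 1 + 2d·2·K`).
(3) `cv Vl (W j) = del + cv (Vl - V j) (W j) → del` pointwise, bounded (`Vl - V j → 0` pointwise: finite sums; bounded by `1 + 2d`).  Associativity with one bounded
factor: `cv (cv gl Vl) (W j) = cv gl (cv Vl (W j))` (absolutely convergent double sum: `∑∑ |gl| |Vl| |W j| ≤ ‖gl‖₁ (1+2d) ‖W j‖₁`); so `cv τl (W j) = cv gl (cv Vl (W j)) → gl`
pointwise by dominated convergence (`tendsto_tsum_of_dominated_convergence`, bound `|gl| · const`).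
(4) `g j = cv (τ j) (W j) = cv τl (W j) - cv (τl - τ j) (W j) → gl`.
PROOF of `Sys.glmo`: Fatou: for every finite set of `x` the finite sum is the limit of finite sums `≤ K` (`summable_of_sum_le`, `le_of_tendsto`).
PROOF of `Sys.glim1`: split `|x| < r` (finite) and `|x| ≥ r` (`tail_le`: `≤ 2K/r^(n-k) ≤ 2K/r`).
PROOF of `Sys.Jlim`: `J j - J = (p j - pl) nn * g j + pl nn * (g j - gl)` and `∑ (1+|x|)^k |nn * f| ≤ 2d 2^k ∑ (1+|x|)^k |f|`.
-/

set_option autoImplicit false

noncomputable section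

open Finset MeasureTheory Filter

namespace IPC.Fo

variable {d : ℕ}

/-- a system converging to the critical point -/
structure Sys (n : ℕ) (K : ℝ) (p : ℕ → ℝ) (pl : ℝ) (τ g : ℕ → (Fin d → ℤ) → ℝ) (τl gl : (Fin d → ℤ) → ℝ) :
    Prop where
  plim : Tendsto p atTop (nhds pl)
  p0 : ∀ j, 0 ≤ p j
  p1 : ∀ j, p j ≤ 1
  τ0 : ∀ j x, 0 ≤ τ j x
  τle : ∀ j x, τ j x ≤ τl x
  τl1 : ∀ x, τl x ≤ 1
  τlim : ∀ x, Tendsto (fun j => τ j x) atTop (nhds (τl x))
  moτ : ∀ j, Mo n (τ j)
  mog : ∀ j, Mo n (g j)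
  eq : ∀ j x, τ j x = g j x + cv (g j) (cv (Pn (p j)) (τ j)) x
  bd : ∀ j, ∑' x, (1 + ‖x‖) ^ n * |g j x| ≤ K
  gl1 : S1 gl
  eql : ∀ x, τl x = gl x + cv gl (cv (Pn pl) τl) x

theorem limA_sd (d : ℕ) : Summable fun x : Fin d → ℤ => (1 + ‖x‖) ^ 1 * |del d x| := Mo_del 1

theorem limA_tsum_cv {f g : (Fin d → ℤ) → ℝ} (hf : S1 f) (hg : S1 g) :
    ∑' x, cv f g x = (∑' x, f x) * ∑' x, g x := by
  have h0 : ∀ h : (Fin d → ℤ) → ℝ, FT h 0 = ((∑' x, h x : ℝ) : ℂ) := by
    intro h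
    unfold FT
    rw [Complex.ofReal_tsum]
    refine tsum_congr fun x => ?_
    have h2 : ch (0 : Fin d → ℝ) x = 1 := by simp [ch, dot]
    rw [h2, mul_one]
  have h1 := FT_cv hf hg 0
  rw [h0, h0, h0] at h1
  exact_mod_cast h1

theorem limA_nn (k : ℕ) {f : (Fin d → ℤ) → ℝ} (hf : Mo k f) : Mo k (cv (nn d) f) ∧
    ∑' x, (1 + ‖x‖) ^ k * |cv (nn d) f x| ≤ 2 * d * 2 ^ k * ∑' x, (1 + ‖x‖) ^ k * |f x| := by
  have hM : Mo k (cv (nn d) f) := (Mo_nn k).cv hf
  have hnn : S1 (nn d) := (Mo_nn 0).s1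
  refine ⟨hM, ?_⟩
  set F : (Fin d → ℤ) → ℝ := fun x => (1 + ‖x‖) ^ k * |f x| with hFdef
  have hF : S1 F := Summable.abs hf
  have hF0 : ∀ x, 0 ≤ F x := fun x => mul_nonneg (pow_nonneg (by linarith [norm_nonneg x]) _) (abs_nonneg _)
  have hb : ∀ x, (1 + ‖x‖) ^ k * |cv (nn d) f x| ≤ 2 ^ k * cv (nn d) F x := by
    intro x
    have h1 := abs_cv_le hnn hf.s1 x
    have h2 : (1 + ‖x‖) ^ k * |cv (nn d) f x| ≤ ∑' y, (1 + ‖x‖) ^ k * |nn d y * f (x - y)| := by
      rw [tsum_mul_left]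
      exact mul_le_mul_of_nonneg_left h1 (pow_nonneg (by linarith [norm_nonneg x]) _)
    have h3 : ∑' y, (1 + ‖x‖) ^ k * |nn d y * f (x - y)| ≤ ∑' y, 2 ^ k * (nn d y * F (x - y)) := by
      refine Summable.tsum_le_tsum (fun y => ?_) ((cv_summable_inner hnn hf.s1 x).mul_left _)
        ((cv_summable_inner hnn hF x).of_abs.mul_left _)
      by_cases hy : nn d y = 0
      · rw [hy]
        simp
      · have h4 : ‖y‖ ≤ 1 := nn_norm hy
        have h5 : (1 + ‖y‖) ^ k ≤ 2 ^ k := pow_le_pow_left₀ (by linarith [norm_nonneg y]) (by linarith) k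
        have h6 := w_mul_le k x y
        have h7 : 0 ≤ (1 + ‖x - y‖) ^ k := pow_nonneg (by linarith [norm_nonneg (x - y)]) _
        rw [abs_mul, abs_of_nonneg (nn_nonneg y)]
        calc (1 + ‖x‖) ^ k * (nn d y * |f (x - y)|) ≤ (2 ^ k * (1 + ‖x - y‖) ^ k) * (nn d y * |f (x - y)|) :=
              mul_le_mul_of_nonneg_right (h6.trans (mul_le_mul_of_nonneg_right h5 h7))
                (mul_nonneg (nn_nonneg y) (abs_nonneg _))
          _ = 2 ^ k * (nn d y * ((1 + ‖x - y‖) ^ k * |f (x - y)|)) := by ring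
    refine (h2.trans h3).trans (le_of_eq ?_)
    rw [tsum_mul_left]
    rfl
  have h8 : ∑' x, (1 + ‖x‖) ^ k * |cv (nn d) f x| ≤ ∑' x, 2 ^ k * cv (nn d) F x :=
    Summable.tsum_le_tsum hb hM ((hnn.cv hF).sum.mul_left _)
  refine h8.trans (le_of_eq ?_)
  rw [tsum_mul_left, limA_tsum_cv hnn hF, tsum_nn]
  ring

theorem limA_ball (d : ℕ) (r : ℝ) : {x : Fin d → ℤ | ‖x‖ < r}.Finite := by
  refine ((isCompact_closedBall (0 : Fin d → ℤ) r).finite_of_discrete).subset fun x hx => ?_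
  rw [Metric.mem_closedBall, dist_zero_right]
  exact le_of_lt hx

/-- a convolution of a bounded and a summable function -/
theorem limA_bdd {h a : (Fin d → ℤ) → ℝ} {A : ℝ} (hh : S1 h) (ha : ∀ x, |a x| ≤ A) (x : Fin d → ℤ) :
    (Summable fun y => |h y * a (x - y)|) ∧ |cv h a x| ≤ A * ∑' y, |h y| := by
  have h1 : ∀ y, |h y * a (x - y)| ≤ A * |h y| := fun y => by
    rw [abs_mul, mul_comm]
    exact mul_le_mul_of_nonneg_right (ha _) (abs_nonneg _)
  have h2 : Summable fun y => |h y * a (x - y)| :=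
    Summable.of_nonneg_of_le (fun _ => abs_nonneg _) h1 (Summable.mul_left A hh)
  refine ⟨h2, ?_⟩
  have h3 : |cv h a x| ≤ ∑' y, |h y * a (x - y)| := by
    have h := norm_tsum_le_tsum_norm (f := fun y => h y * a (x - y)) (by simpa only [Real.norm_eq_abs] using h2)
    simp only [Real.norm_eq_abs] at h
    exact h
  refine (h3.trans (Summable.tsum_le_tsum h1 h2 (Summable.mul_left A hh))).trans (le_of_eq ?_)
  rw [tsum_mul_left]

/-- the tightness lemma -/
theorem limA_tight {a h : ℕ → (Fin d → ℤ) → ℝ} {A B : ℝ} (ha0 : ∀ x, Tendsto (fun j => a j x) atTop (nhds 0))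
    (haA : ∀ j x, |a j x| ≤ A) (hh : ∀ j, Mo 1 (h j)) (hB : ∀ j, ∑' x, (1 + ‖x‖) ^ 1 * |h j x| ≤ B)
    (x : Fin d → ℤ) : Tendsto (fun j => cv (a j) (h j) x) atTop (nhds 0) := by
  have hA : 0 ≤ A := (abs_nonneg _).trans (haA 0 0)
  have hterm : ∀ j y, |h j y| ≤ B := by
    intro j y
    have h1 : (1 + ‖y‖) ^ 1 * |h j y| ≤ ∑' x, (1 + ‖x‖) ^ 1 * |h j x| :=
      (hh j).le_tsum y fun z _ => mul_nonneg (pow_nonneg (by linarith [norm_nonneg z]) _) (abs_nonneg _)
    have h2 : |h j y| ≤ (1 + ‖y‖) ^ 1 * |h j y| := by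
      rw [pow_one]
      nlinarith [norm_nonneg y, abs_nonneg (h j y), mul_nonneg (norm_nonneg y) (abs_nonneg (h j y))]
    exact (h2.trans h1).trans (hB j)
  have hB0 : 0 ≤ B := (abs_nonneg _).trans (hterm 0 0)
  have h2 : ∀ r : ℝ, 0 < r → ∀ j, |cv (a j) (h j) x| ≤
      B * ∑ y ∈ (limA_ball d r).toFinset, |a j (x - y)| + A * (B / r) := by
    intro r hr j
    set S := (limA_ball d r).toFinset with hS
    have hmem : ∀ y, y ∈ S ↔ ‖y‖ < r := fun y => by rw [hS, Set.Finite.mem_toFinset]; rfl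
    obtain ⟨h3, -⟩ := limA_bdd (hh j).s1 (haA j) x
    have h4 : |cv (a j) (h j) x| ≤ ∑' y, |h j y * a j (x - y)| := by
      rw [cv_comm]
      have h := norm_tsum_le_tsum_norm (f := fun y => h j y * a j (x - y)) (by
        simpa only [Real.norm_eq_abs] using h3)
      simp only [Real.norm_eq_abs] at h
      exact h
    have h5 : Summable fun y => if y ∈ S then B * |a j (x - y)| else 0 :=
      summable_of_ne_finset_zero (s := S) fun z hz => if_neg hz
    have h6 : Summable fun y : Fin d → ℤ => if r ≤ ‖y‖ then (1 + ‖y‖) ^ 0 * |h j y| else 0 := by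
      refine Summable.of_nonneg_of_le (fun y => ?_) (fun y => ?_) (hh j).s1
      · split_ifs
        · positivity
        · exact le_rfl
      · split_ifs
        · rw [pow_zero, one_mul]
        · exact abs_nonneg _
    have h7 : ∑' y, |h j y * a j (x - y)| ≤ ∑' y, ((if y ∈ S then B * |a j (x - y)| else 0) +
        A * (if r ≤ ‖y‖ then (1 + ‖y‖) ^ 0 * |h j y| else 0)) := by
      refine Summable.tsum_le_tsum (fun y => ?_) h3 (h5.add (h6.mul_left A))
      rw [abs_mul]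
      by_cases hy : ‖y‖ < r
      · rw [if_pos ((hmem y).2 hy), if_neg (not_le.2 hy), mul_zero, add_zero]
        exact mul_le_mul_of_nonneg_right (hterm j y) (abs_nonneg _)
      · rw [if_neg (fun hc => hy ((hmem y).1 hc)), if_pos (not_lt.1 hy), zero_add, pow_zero, one_mul, mul_comm]
        exact mul_le_mul_of_nonneg_right (haA j _) (abs_nonneg _)
    refine (h4.trans h7).trans ?_
    rw [h5.tsum_add (h6.mul_left A), tsum_mul_left]
    refine add_le_add (le_of_eq ?_) (mul_le_mul_of_nonneg_left ?_ hA)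
    · rw [tsum_eq_sum (s := S) fun z hz => if_neg hz, Finset.mul_sum]
      exact Finset.sum_congr rfl fun z hz => if_pos hz
    · have h8 := tail_le (n := 1) (k := 0) (Nat.zero_le 1) (hh j) (hB j) hr
      rwa [Nat.sub_zero, pow_one] at h8
  rw [Metric.tendsto_atTop]
  intro ε hε
  obtain ⟨r, hr0, hr⟩ : ∃ r : ℝ, 0 < r ∧ A * (B / r) < ε / 2 := by
    refine ⟨2 * (A * B) / ε + 1, by positivity, ?_⟩
    have h9 : 0 < 2 * (A * B) / ε + 1 := by positivity
    rw [← mul_div_assoc, div_lt_iff₀ h9]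
    have h10 : ε / 2 * (2 * (A * B) / ε + 1) = A * B + ε / 2 := by
      field_simp
    rw [h10]
    linarith
  have h1 : Tendsto (fun j => B * ∑ y ∈ (limA_ball d r).toFinset, |a j (x - y)|) atTop (nhds 0) := by
    have h11 : Tendsto (fun j => ∑ y ∈ (limA_ball d r).toFinset, |a j (x - y)|) atTop
        (nhds (∑ y ∈ (limA_ball d r).toFinset, |(0 : ℝ)|)) := tendsto_finsetSum _ fun y _ => (ha0 (x - y)).abs
    have h12 := h11.const_mul B
    simpa using h12
  obtain ⟨N, hN⟩ := (Metric.tendsto_atTop.1 h1) (ε / 2) (by linarith)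
  refine ⟨N, fun j hj => ?_⟩
  have h13 := hN j hj
  rw [Real.dist_eq, sub_zero] at h13 ⊢
  have h14 := (le_abs_self _).trans_lt h13
  linarith [h2 r hr0 j]

/-- associativity with one bounded factor -/
theorem limA_assoc {f v h : (Fin d → ℤ) → ℝ} {C : ℝ} (hf : S1 f) (hh : S1 h) (hv : ∀ x, |v x| ≤ C) (x : Fin d → ℤ) :
    cv (cv f v) h x = ∑' z, f z * cv v h (x - z) := by
  have hC : 0 ≤ C := (abs_nonneg _).trans (hv 0)
  have hh' : Summable fun y => |h (x - y)| := (Equiv.subLeft x).summable_iff.2 hh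
  have h1 : Summable (Function.uncurry fun (z y : Fin d → ℤ) => f z * v (y - z) * h (x - y)) := by
    have h2 : Summable fun q : (Fin d → ℤ) × (Fin d → ℤ) => C * (|f q.1| * |h (x - q.2)|) :=
      Summable.mul_left C (Summable.mul_of_nonneg hf hh' (fun _ => abs_nonneg _) (fun _ => abs_nonneg _))
    refine Summable.of_norm_bounded h2 fun q => ?_
    rw [Function.uncurry_def, Real.norm_eq_abs, abs_mul, abs_mul]
    calc |f q.1| * |v (q.2 - q.1)| * |h (x - q.2)| ≤ |f q.1| * C * |h (x - q.2)| :=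
          mul_le_mul_of_nonneg_right (mul_le_mul_of_nonneg_left (hv _) (abs_nonneg _)) (abs_nonneg _)
      _ = C * (|f q.1| * |h (x - q.2)|) := by ring
  have h3 : cv (cv f v) h x = ∑' y, ∑' z, f z * v (y - z) * h (x - y) := by
    conv_lhs => unfold cv
    refine tsum_congr fun y => ?_
    rw [← tsum_mul_right]
  rw [h3, h1.tsum_comm]
  refine tsum_congr fun z => ?_
  have h4 : cv v h (x - z) = ∑' y, v (y - z) * h (x - y) := by
    unfold cv
    rw [← (Equiv.subRight z).tsum_eq]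
    refine tsum_congr fun y => ?_
    change v (y - z) * h (x - z - (y - z)) = _
    rw [show x - z - (y - z) = x - y by abel]
  rw [h4, ← tsum_mul_left]
  exact tsum_congr fun y => mul_assoc _ _ _

theorem limA_Pn_mo (m : ℕ) (p : ℝ) : Mo m (Pn (d := d) p) := (Mo_nn m).const_mul p

theorem limA_cv_Pn (p : ℝ) (f : (Fin d → ℤ) → ℝ) : cv (Pn p) f = fun x => p * cv (nn d) f x :=
  cv_const_left (nn d) f p

theorem limA_FT {p : ℝ} {τ g : (Fin d → ℤ) → ℝ} (hτ : S1 τ) (hg : S1 g)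
    (h : ∀ x, τ x = g x + cv g (cv (Pn p) τ) x) (k : Fin d → ℝ) :
    FT τ k = FT g k + FT g k * (FT (Pn p) k * FT τ k) := by
  have hP : S1 (Pn (d := d) p) := (limA_Pn_mo 0 p).s1
  have h1 : τ = fun x => g x + cv g (cv (Pn p) τ) x := funext h
  have h2 : FT τ k = FT (fun x => g x + cv g (cv (Pn p) τ) x) k := congrArg (fun f => FT f k) h1
  rw [FT_add hg (hg.cv (hP.cv hτ)), FT_cv hg (hP.cv hτ), FT_cv hP hτ] at h2
  exact h2

/-- the relations between `V` and `W` -/
theorem W_V {p : ℝ} {τ g : (Fin d → ℤ) → ℝ} (hτ : S1 τ) (hg : S1 g)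
    (h : ∀ x, τ x = g x + cv g (cv (Pn p) τ) x) :
    cv (fun x => del d x - cv (Pn p) g x) (fun x => del d x + cv (Pn p) τ x) = del d := by
  have hP : S1 (Pn (d := d) p) := (limA_Pn_mo 0 p).s1
  have h1 : S1 (fun x => del d x - cv (Pn p) g x) := S1_del.sub (hP.cv hg)
  have h2 : S1 (fun x => del d x + cv (Pn p) τ x) := S1_del.add (hP.cv hτ)
  refine FT_injective (h1.cv h2) S1_del fun k => ?_
  rw [FT_cv h1 h2, FT_sub S1_del (hP.cv hg), FT_add S1_del (hP.cv hτ), FT_del, FT_cv hP hg, FT_cv hP hτ]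
  have h3 := limA_FT hτ hg h k
  linear_combination (FT (Pn p) k) * h3

theorem limA_τW {p : ℝ} {τ g : (Fin d → ℤ) → ℝ} (hτ : S1 τ) (hg : S1 g)
    (h : ∀ x, τ x = g x + cv g (cv (Pn p) τ) x) :
    cv τ (fun x => del d x - cv (Pn p) g x) = g := by
  have hP : S1 (Pn (d := d) p) := (limA_Pn_mo 0 p).s1
  have h1 : S1 (fun x => del d x - cv (Pn p) g x) := S1_del.sub (hP.cv hg)
  refine FT_injective (hτ.cv h1) hg fun k => ?_
  rw [FT_cv hτ h1, FT_sub S1_del (hP.cv hg), FT_del, FT_cv hP hg]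
  have h3 := limA_FT hτ hg h k
  linear_combination h3

theorem Sys.glim {n : ℕ} (hn : 1 ≤ n) {K : ℝ} {p : ℕ → ℝ} {pl : ℝ} {τ g : ℕ → (Fin d → ℤ) → ℝ}
    {τl gl : (Fin d → ℤ) → ℝ} (H : Sys n K p pl τ g τl gl) (x : Fin d → ℤ) :
    Tendsto (fun j => g j x) atTop (nhds (gl x)) := by
  have hnn : S1 (nn d) := (Mo_nn 0).s1
  have hnn0 : ∑' y, |nn d y| = 2 * d := by
    rw [← tsum_nn]
    exact tsum_congr fun y => abs_of_nonneg (nn_nonneg y)
  have hpl0 : 0 ≤ pl := ge_of_tendsto' H.plim H.p0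
  have hpl1 : pl ≤ 1 := le_of_tendsto' H.plim H.p1
  have hτj : ∀ j x, |τ j x| ≤ 1 := fun j x => by
    rw [abs_of_nonneg (H.τ0 j x)]
    exact (H.τle j x).trans (H.τl1 x)
  have hτl0 : ∀ x, 0 ≤ τl x := fun x => (H.τ0 0 x).trans (H.τle 0 x)
  have hτl : ∀ x, |τl x| ≤ 1 := fun x => by
    rw [abs_of_nonneg (hτl0 x)]
    exact H.τl1 x
  -- the functions `W j`
  set W : ℕ → (Fin d → ℤ) → ℝ := fun j x => del d x - cv (Pn (p j)) (g j) x with hW
  have hWm : ∀ j, Mo 1 (W j) := fun j => (Mo_del 1).sub ((limA_Pn_mo 1 (p j)).cv ((H.mog j).mono hn))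
  have hdel : ∑' x : Fin d → ℤ, (1 + ‖x‖) ^ 1 * |del d x| = 1 := by
    rw [tsum_eq_single 0 (fun y hy => by simp [del, hy])]
    simp [del]
  have hWB : ∀ j, ∑' x, (1 + ‖x‖) ^ 1 * |W j x| ≤ 1 + 2 * d * 2 ^ 1 * K := by
    intro j
    obtain ⟨h1, h2⟩ := limA_nn 1 ((H.mog j).mono hn)
    have h3 : ∑' x, (1 + ‖x‖) ^ 1 * |g j x| ≤ K := by
      refine (Summable.tsum_le_tsum (fun y => ?_) ((H.mog j).mono hn) (H.mog j)).trans (H.bd j)
      exact mul_le_mul_of_nonneg_right (pow_le_pow_right₀ (one_le_w y) hn) (abs_nonneg _)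
    have h4 : ∑' x, (1 + ‖x‖) ^ 1 * |W j x| ≤ ∑' x, ((1 + ‖x‖) ^ 1 * |del d x| +
        (1 + ‖x‖) ^ 1 * |cv (nn d) (g j) x|) := by
      refine Summable.tsum_le_tsum (fun y => ?_) (hWm j) ((limA_sd d).add h1)
      rw [← mul_add]
      refine mul_le_mul_of_nonneg_left ?_ (pow_nonneg (by linarith [norm_nonneg y]) _)
      rw [hW]
      simp only
      rw [limA_cv_Pn]
      refine (abs_sub _ _).trans (add_le_add le_rfl ?_)
      rw [abs_mul, abs_of_nonneg (H.p0 j)]
      exact mul_le_of_le_one_left (abs_nonneg _) (H.p1 j)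
    refine h4.trans ?_
    rw [(limA_sd d).tsum_add h1, hdel]
    refine add_le_add le_rfl (h2.trans (mul_le_mul_of_nonneg_left h3 (by positivity)))
  -- `V`
  set Vl : (Fin d → ℤ) → ℝ := fun x => del d x + cv (Pn pl) τl x with hVl
  set V : ℕ → (Fin d → ℤ) → ℝ := fun j x => del d x + cv (Pn (p j)) (τ j) x with hV
  have hcvb : ∀ (q : ℝ) (f : (Fin d → ℤ) → ℝ), 0 ≤ q → q ≤ 1 → (∀ x, |f x| ≤ 1) → ∀ x, |cv (Pn q) f x| ≤ 2 * d := by
    intro q f hq0 hq1 hf x
    have h1 := (limA_bdd hnn hf x).2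
    rw [hnn0, one_mul] at h1
    rw [limA_cv_Pn, abs_mul, abs_of_nonneg hq0]
    exact (mul_le_of_le_one_left (abs_nonneg _) hq1).trans h1
  have hdelb : ∀ x, |del d x| ≤ 1 := by
    intro x
    unfold del
    split_ifs <;> simp
  have hVlb : ∀ x, |Vl x| ≤ 1 + 2 * d := fun x =>
    (abs_add_le _ _).trans (add_le_add (hdelb x) (hcvb pl τl hpl0 hpl1 hτl x))
  have hdiff0 : ∀ x, Tendsto (fun j => Vl x - V j x) atTop (nhds 0) := by
    intro x
    have h1 : Tendsto (fun j => cv (nn d) (τ j) x) atTop (nhds (cv (nn d) τl x)) := by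
      unfold cv
      refine tendsto_tsum_of_dominated_convergence (bound := fun y => |nn d y|) hnn (fun y => ?_)
        (Filter.Eventually.of_forall fun j y => ?_)
      · exact (H.τlim (x - y)).const_mul _
      · rw [Real.norm_eq_abs, abs_mul]
        exact mul_le_of_le_one_right (abs_nonneg _) (hτj j _)
    have h2 : Tendsto (fun j => cv (Pn (p j)) (τ j) x) atTop (nhds (cv (Pn pl) τl x)) := by
      simp only [limA_cv_Pn]
      exact H.plim.mul h1
    have h3 : Tendsto (fun j => (del d x + cv (Pn pl) τl x) - (del d x + cv (Pn (p j)) (τ j) x)) atTop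
        (nhds ((del d x + cv (Pn pl) τl x) - (del d x + cv (Pn pl) τl x))) :=
      tendsto_const_nhds.sub (tendsto_const_nhds.add h2)
    rwa [sub_self] at h3
  have hdiffb : ∀ j x, |Vl x - V j x| ≤ 4 * d := by
    intro j x
    have h1 : Vl x - V j x = cv (Pn pl) τl x - cv (Pn (p j)) (τ j) x := by
      rw [hVl, hV]
      ring
    rw [h1]
    refine (abs_sub _ _).trans ?_
    linarith [hcvb pl τl hpl0 hpl1 hτl x, hcvb (p j) (τ j) (H.p0 j) (H.p1 j) (hτj j) x]
  have hVW : ∀ j, cv (V j) (W j) = del d := by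
    intro j
    rw [cv_comm]
    exact W_V (H.moτ j).s1 (H.mog j).s1 (H.eq j)
  have hlimVW : ∀ u, Tendsto (fun j => cv Vl (W j) u) atTop (nhds (del d u)) := by
    intro u
    have h1 := limA_tight hdiff0 hdiffb hWm hWB u
    have h2 : ∀ j, cv Vl (W j) u = del d u + cv (fun x => Vl x - V j x) (W j) u := by
      intro j
      have hVj : ∀ x, |V j x| ≤ 1 + 2 * d := fun x =>
        (abs_add_le _ _).trans (add_le_add (hdelb x) (hcvb (p j) (τ j) (H.p0 j) (H.p1 j) (hτj j) x))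
      rw [← hVW j, cv_comm Vl, cv_comm (V j), cv_comm (fun x => Vl x - V j x)]
      unfold cv
      rw [← (limA_bdd (hWm j).s1 hVj u).1.of_abs.tsum_add (limA_bdd (hWm j).s1 (hdiffb j) u).1.of_abs]
      refine tsum_congr fun y => ?_
      ring
    have h3 := (tendsto_const_nhds (x := del d u)).add h1
    rw [add_zero] at h3
    refine h3.congr fun j => ?_
    rw [h2 j]
  set B : ℝ := 1 + 2 * d * 2 ^ 1 * K with hB
  have hWs : ∀ j, ∑' y, |W j y| ≤ B := by
    intro j
    refine (Summable.tsum_le_tsum (fun y => ?_) (hWm j).s1 (hWm j)).trans (hWB j)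
    rw [pow_one]
    nlinarith [norm_nonneg y, abs_nonneg (W j y), mul_nonneg (norm_nonneg y) (abs_nonneg (W j y))]
  have hτlW : Tendsto (fun j => cv τl (W j) x) atTop (nhds (gl x)) := by
    have h1 : τl = cv gl Vl := by
      funext u
      rw [H.eql u]
      have h2 : cv gl Vl u = ∑' y, (gl y * del d (u - y) + gl y * cv (Pn pl) τl (u - y)) := by
        unfold cv
        refine tsum_congr fun y => ?_
        rw [hVl]
        simp only
        rw [mul_add]
        rfl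
      rw [h2, Summable.tsum_add ((limA_bdd H.gl1 hdelb u).1.of_abs)
        ((limA_bdd H.gl1 (hcvb pl τl hpl0 hpl1 hτl) u).1.of_abs)]
      have h3 : ∑' y, gl y * del d (u - y) = gl u := congrFun (cv_del_right gl) u
      rw [h3]
      rfl
    have h4 : ∀ j, cv τl (W j) x = ∑' z, gl z * cv Vl (W j) (x - z) := by
      intro j
      rw [h1]
      exact limA_assoc H.gl1 (hWm j).s1 hVlb x
    have h5 : Tendsto (fun j => ∑' z, gl z * cv Vl (W j) (x - z)) atTop (nhds (∑' z, gl z * del d (x - z))) := by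
      refine tendsto_tsum_of_dominated_convergence (bound := fun z => |gl z| * ((1 + 2 * d) * B))
        (Summable.mul_right _ H.gl1) (fun z => (hlimVW (x - z)).const_mul _)
        (Filter.Eventually.of_forall fun j z => ?_)
      rw [Real.norm_eq_abs, abs_mul]
      refine mul_le_mul_of_nonneg_left ?_ (abs_nonneg _)
      rw [cv_comm]
      exact ((limA_bdd (hWm j).s1 hVlb _).2).trans (mul_le_mul_of_nonneg_left (hWs j) (by positivity))
    have h6 : ∑' z, gl z * del d (x - z) = gl x := congrFun (cv_del_right gl) x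
    rw [h6] at h5
    exact h5.congr fun j => (h4 j).symm
  have hdiffτ0 : ∀ x, Tendsto (fun j => τl x - τ j x) atTop (nhds 0) := by
    intro x
    have h1 := (tendsto_const_nhds (x := τl x)).sub (H.τlim x)
    rwa [sub_self] at h1
  have hdiffτb : ∀ j x, |τl x - τ j x| ≤ 1 := by
    intro j x
    rw [abs_of_nonneg (by linarith [H.τle j x])]
    linarith [H.τ0 j x, H.τl1 x]
  have h7 := limA_tight hdiffτ0 hdiffτb hWm hWB x
  have h8 : ∀ j, g j x = cv τl (W j) x - cv (fun x => τl x - τ j x) (W j) x := by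
    intro j
    have h9 : cv (τ j) (W j) x = g j x := congrFun (limA_τW (H.moτ j).s1 (H.mog j).s1 (H.eq j)) x
    rw [← h9, cv_comm (τ j), cv_comm τl, cv_comm (fun x => τl x - τ j x)]
    unfold cv
    rw [← (limA_bdd (hWm j).s1 hτl x).1.of_abs.tsum_sub (limA_bdd (hWm j).s1 (hdiffτb j) x).1.of_abs]
    refine tsum_congr fun y => ?_
    ring
  have h10 := hτlW.sub h7
  rw [sub_zero] at h10
  exact h10.congr fun j => (h8 j).symm

end IPC.Fo
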