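import Mathlib
import Pool.Agent.Lib.MP_25e40f_pr.E.DcyB
import Pool.Agent.Lib.MP_25e40f_pr.E.LimA

/-!
THIS JOB (LimB): the theorems Sys.glmo Sys.glim1 Sys.Jlim.  (The header describes the whole group Lim; the other theorems are in other jobs and may be imported.)

# Job Lim: passage to the critical point

A sequence `p j → pl`, two point functions `τ j ↑ τl`, `g j` with `τ = g + g * P * τ` and uniformly bounded `n`-th moments, `gl ∈ l¹` with the same
equation at `pl`.  Then `g j → gl`.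

Notation: `V j = del + cv (Pn (p j)) (τ j)`, `J j = cv (Pn (p j)) (g j)`, `W j = del - J j`, `V`, `J` the same at `pl`.
PROOF of `Sys.glim`.  (1) `τ j = cv (g j) (V j)`, `cv (W j) (V j) = del` (`τ = g + g*P*τ = g * V`, `W * V = V - P * (g * V) = V - P * τ = del`), so `g j = cv (τ j) (W j)`
(`cv (τ j) (W j) = g j * V j * W j`).
(2) TIGHTNESS LEMMA: if `a j → 0` pointwise, `|a j| ≤ A`, and `∑ (1+|x|) |h j x| ≤ B` for all `j`, then `cv (a j) (h j) → 0` pointwise, and
`|cv (a j) (h j)| ≤ A B`: split `|y| ≤ r` (finite sum, each term tends to `0` as `h j` is bounded by `B`) and `|y| > r` (at most `A B / r`); here `cv a h x = ∑ a (x-y) h y`.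
The functions `W j` satisfy this (`∑ (1+|x|) |W j| ≤ 1 + 2d·2·K`).
(3) `cv Vl (W j) = del + cv (Vl - V j) (W j) → del` pointwise, bounded (`Vl - V j → 0` pointwise: finite sums; bounded by `1 + 2d`).  Associativity with one bounded
factor: `cv (cv gl Vl) (W j) = cv gl (cv Vl (W j))` (absolutely convergent double sum: `∑∑ |gl| |Vl| |W j| ≤ ‖gl‖₁ (1+2d) ‖W j‖₁`); so `cv τl (W j) = cv gl (cv Vl (W j)) → gl`
pointwise by dominated convergence (`tendsto_tsum_of_dominated_convergence`, bound `|gl| · const`).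
(4) `g j = cv (τ j) (W j) = cv τl (W j) - cv (τl - τ j) (W j) → gl`.
PROOF of `Sys.glmo`: Fatou: for every finite set of `x` the finite sum is the limit of finite sums `≤ K` (`summable_of_sum_le`, `le_of_tendsto`).
PROOF of `Sys.glim1`: split `|x| < r` (finite) and `|x| ≥ r` (`tail_le`: `≤ 2K/r^(n-k) ≤ 2K/r`).
PROOF of `Sys.Jlim`: `J j - J = (p j - pl) nn * g j + pl nn * (g j - gl)` and `∑ (1+|x|)^k |nn * f| ≤ 2d 2^k ∑ (1+|x|)^k |f|`.
-/

set_option autoImplicit false

noncomputable section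

open Finset MeasureTheory Filter

namespace IPC.Fo

variable {d : ℕ}

theorem Sys.glmo {n : ℕ} (hn : 1 ≤ n) {K : ℝ} {p : ℕ → ℝ} {pl : ℝ} {τ g : ℕ → (Fin d → ℤ) → ℝ}
    {τl gl : (Fin d → ℤ) → ℝ} (H : Sys n K p pl τ g τl gl) :
    Mo n gl ∧ ∑' x, (1 + ‖x‖) ^ n * |gl x| ≤ K := by
  have h0 : ∀ x, 0 ≤ (1 + ‖x‖) ^ n * |gl x| := fun x =>
    mul_nonneg (pow_nonneg (by linarith [norm_nonneg x]) _) (abs_nonneg _)
  have h1 : ∀ s : Finset (Fin d → ℤ), ∑ x ∈ s, (1 + ‖x‖) ^ n * |gl x| ≤ K := by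
    intro s
    have h2 : Tendsto (fun j => ∑ x ∈ s, (1 + ‖x‖) ^ n * |g j x|) atTop
        (nhds (∑ x ∈ s, (1 + ‖x‖) ^ n * |gl x|)) :=
      tendsto_finsetSum _ fun x _ => (H.glim hn x).abs.const_mul _
    refine le_of_tendsto' h2 fun j => ?_
    refine ((H.mog j).sum_le_tsum s fun x _ => ?_).trans (H.bd j)
    exact mul_nonneg (pow_nonneg (by linarith [norm_nonneg x]) _) (abs_nonneg _)
  have h3 : Mo n gl := summable_of_sum_le h0 h1
  exact ⟨h3, Summable.tsum_le_of_sum_le h3 h1⟩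

theorem Sys.glim1 {n k : ℕ} (hk : k < n) {K : ℝ} {p : ℕ → ℝ} {pl : ℝ} {τ g : ℕ → (Fin d → ℤ) → ℝ}
    {τl gl : (Fin d → ℤ) → ℝ} (H : Sys n K p pl τ g τl gl) :
    Tendsto (fun j => ∑' x, (1 + ‖x‖) ^ k * |g j x - gl x|) atTop (nhds 0) := by
  have hn : 1 ≤ n := by omega
  obtain ⟨hgl, hglK⟩ := H.glmo hn
  set h : ℕ → (Fin d → ℤ) → ℝ := fun j x => g j x - gl x with hh
  have hm : ∀ j, Mo n (h j) := fun j => (H.mog j).sub hgl
  have hK : ∀ j, ∑' x, (1 + ‖x‖) ^ n * |h j x| ≤ 2 * K := by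
    intro j
    have h1 : ∑' x, (1 + ‖x‖) ^ n * |h j x| ≤
        ∑' x, ((1 + ‖x‖) ^ n * |g j x| + (1 + ‖x‖) ^ n * |gl x|) := by
      refine Summable.tsum_le_tsum (fun x => ?_) (hm j) (Summable.add (H.mog j) hgl)
      rw [← mul_add]
      exact mul_le_mul_of_nonneg_left (abs_sub _ _) (pow_nonneg (by linarith [norm_nonneg x]) _)
    rw [Summable.tsum_add (H.mog j) hgl] at h1
    linarith [H.bd j]
  have hK0 : 0 ≤ K := (tsum_nonneg fun x =>
    mul_nonneg (pow_nonneg (by linarith [norm_nonneg x]) _) (abs_nonneg _)).trans hglK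
  have hlim : ∀ x, Tendsto (fun j => |h j x|) atTop (nhds 0) := by
    intro x
    have h1 := ((H.glim hn x).sub (tendsto_const_nhds (x := gl x))).abs
    rwa [sub_self, abs_zero] at h1
  have h2 : ∀ r : ℝ, 1 ≤ r → ∀ j, ∑' x, (1 + ‖x‖) ^ k * |h j x| ≤
      ∑ x ∈ (limA_ball d r).toFinset, (1 + ‖x‖) ^ k * |h j x| + 2 * K / r := by
    intro r hr j
    have hr0 : 0 < r := by linarith
    set S := (limA_ball d r).toFinset with hS
    have hmem : ∀ y, y ∈ S ↔ ‖y‖ < r := fun y => by rw [hS, Set.Finite.mem_toFinset]; rfl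
    have h3 : Summable fun x : Fin d → ℤ => (1 + ‖x‖) ^ k * |h j x| := (hm j).mono hk.le
    have h5 : Summable fun y => if y ∈ S then (1 + ‖y‖) ^ k * |h j y| else 0 :=
      summable_of_ne_finset_zero (s := S) fun z hz => if_neg hz
    have h6 : Summable fun y : Fin d → ℤ => if r ≤ ‖y‖ then (1 + ‖y‖) ^ k * |h j y| else 0 := by
      refine Summable.of_nonneg_of_le (fun y => ?_) (fun y => ?_) h3
      · split_ifs
        · exact mul_nonneg (pow_nonneg (by linarith [norm_nonneg y]) _) (abs_nonneg _)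
        · exact le_rfl
      · split_ifs
        · exact le_rfl
        · exact mul_nonneg (pow_nonneg (by linarith [norm_nonneg y]) _) (abs_nonneg _)
    have h7 : ∑' x, (1 + ‖x‖) ^ k * |h j x| = ∑' y, ((if y ∈ S then (1 + ‖y‖) ^ k * |h j y| else 0) +
        (if r ≤ ‖y‖ then (1 + ‖y‖) ^ k * |h j y| else 0)) := by
      refine tsum_congr fun y => ?_
      by_cases hy : ‖y‖ < r
      · rw [if_pos ((hmem y).2 hy), if_neg (not_le.2 hy), add_zero]
      · rw [if_neg (fun hc => hy ((hmem y).1 hc)), if_pos (not_lt.1 hy), zero_add]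
    rw [h7, h5.tsum_add h6]
    refine add_le_add (le_of_eq ?_) ?_
    · rw [tsum_eq_sum (s := S) fun z hz => if_neg hz]
      exact Finset.sum_congr rfl fun z hz => if_pos hz
    · refine (tail_le hk.le (hm j) (hK j) hr0).trans ?_
      refine div_le_div_of_nonneg_left (by linarith) hr0 ?_
      calc r = r ^ 1 := (pow_one r).symm
        _ ≤ r ^ (n - k) := pow_le_pow_right₀ hr (by omega)
  rw [Metric.tendsto_atTop]
  intro ε hε
  obtain ⟨r, hr1, hr⟩ : ∃ r : ℝ, 1 ≤ r ∧ 2 * K / r < ε / 2 := by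
    refine ⟨4 * K / ε + 1, by linarith [show 0 ≤ 4 * K / ε by positivity], ?_⟩
    have h9 : 0 < 4 * K / ε + 1 := by positivity
    rw [div_lt_iff₀ h9]
    have h10 : ε / 2 * (4 * K / ε + 1) = 2 * K + ε / 2 := by
      field_simp
      ring
    rw [h10]
    linarith
  have h1 : Tendsto (fun j => ∑ x ∈ (limA_ball d r).toFinset, (1 + ‖x‖) ^ k * |h j x|) atTop (nhds 0) := by
    have h11 : Tendsto (fun j => ∑ x ∈ (limA_ball d r).toFinset, (1 + ‖x‖) ^ k * |h j x|) atTop
        (nhds (∑ x ∈ (limA_ball d r).toFinset, (1 + ‖x‖) ^ k * (0 : ℝ))) :=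
      tendsto_finsetSum _ fun x _ => (hlim x).const_mul _
    simpa using h11
  obtain ⟨N, hN⟩ := (Metric.tendsto_atTop.1 h1) (ε / 2) (by linarith)
  refine ⟨N, fun j hj => ?_⟩
  have h13 := hN j hj
  rw [Real.dist_eq, sub_zero] at h13 ⊢
  have h14 := (le_abs_self _).trans_lt h13
  have h15 : 0 ≤ ∑' x, (1 + ‖x‖) ^ k * |h j x| := tsum_nonneg fun x =>
    mul_nonneg (pow_nonneg (by linarith [norm_nonneg x]) _) (abs_nonneg _)
  rw [abs_of_nonneg h15]
  linarith [h2 r hr1 j]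

theorem Sys.Jlim {n k : ℕ} (hk : k < n) {K : ℝ} {p : ℕ → ℝ} {pl : ℝ} {τ g : ℕ → (Fin d → ℤ) → ℝ}
    {τl gl : (Fin d → ℤ) → ℝ} (H : Sys n K p pl τ g τl gl) :
    Tendsto (fun j => ∑' x, (1 + ‖x‖) ^ k * |cv (Pn (p j)) (g j) x - cv (Pn pl) gl x|) atTop (nhds 0) := by
  have hn : 1 ≤ n := by omega
  obtain ⟨hgl, hglK⟩ := H.glmo hn
  have hnn : S1 (nn d) := (Mo_nn 0).s1
  have h1 := H.glim1 hk
  set C : ℝ := 2 * d * 2 ^ k with hC
  have hb : ∀ j, ∑' x, (1 + ‖x‖) ^ k * |cv (Pn (p j)) (g j) x - cv (Pn pl) gl x| ≤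
      |p j - pl| * (C * K) + |pl| * (C * ∑' x, (1 + ‖x‖) ^ k * |g j x - gl x|) := by
    intro j
    obtain ⟨h2, h3⟩ := limA_nn k ((H.mog j).mono hk.le)
    obtain ⟨h4, h5⟩ := limA_nn k (((H.mog j).sub hgl).mono hk.le)
    have h6 : ∀ x, cv (Pn (p j)) (g j) x - cv (Pn pl) gl x =
        (p j - pl) * cv (nn d) (g j) x + pl * cv (nn d) (fun x => g j x - gl x) x := by
      intro x
      have h7 : cv (nn d) (fun x => g j x - gl x) x = cv (nn d) (g j) x - cv (nn d) gl x := by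
        unfold cv
        rw [← (cv_summable_inner hnn (H.mog j).s1 x).of_abs.tsum_sub
          (cv_summable_inner hnn hgl.s1 x).of_abs]
        refine tsum_congr fun y => ?_
        ring
      rw [limA_cv_Pn, limA_cv_Pn, h7]
      ring
    have h8 : Summable fun x : Fin d → ℤ => |p j - pl| * ((1 + ‖x‖) ^ k * |cv (nn d) (g j) x|) +
        |pl| * ((1 + ‖x‖) ^ k * |cv (nn d) (fun x => g j x - gl x) x|) :=
      (Summable.mul_left _ h2).add (Summable.mul_left _ h4)
    have h9 : ∀ x : Fin d → ℤ, (1 + ‖x‖) ^ k * |cv (Pn (p j)) (g j) x - cv (Pn pl) gl x| ≤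
        |p j - pl| * ((1 + ‖x‖) ^ k * |cv (nn d) (g j) x|) +
        |pl| * ((1 + ‖x‖) ^ k * |cv (nn d) (fun x => g j x - gl x) x|) := by
      intro x
      have h10 : |cv (Pn (p j)) (g j) x - cv (Pn pl) gl x| ≤ |p j - pl| * |cv (nn d) (g j) x| +
          |pl| * |cv (nn d) (fun x => g j x - gl x) x| := by
        rw [h6]
        refine (abs_add_le _ _).trans ?_
        rw [abs_mul, abs_mul]
      refine (mul_le_mul_of_nonneg_left h10 (pow_nonneg (by linarith [norm_nonneg x]) _)).trans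
        (le_of_eq ?_)
      ring
    have h11 : Summable fun x : Fin d → ℤ => (1 + ‖x‖) ^ k * |cv (Pn (p j)) (g j) x - cv (Pn pl) gl x| :=
      Summable.of_nonneg_of_le (fun x => mul_nonneg (pow_nonneg (by linarith [norm_nonneg x]) _) (abs_nonneg _))
        h9 h8
    refine (Summable.tsum_le_tsum h9 h11 h8).trans ?_
    rw [(Summable.mul_left _ h2).tsum_add (Summable.mul_left _ h4), tsum_mul_left, tsum_mul_left]
    have h12 : ∑' x, (1 + ‖x‖) ^ k * |g j x| ≤ K := by
      refine (Summable.tsum_le_tsum (fun y => ?_) ((H.mog j).mono hk.le) (H.mog j)).trans (H.bd j)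
      exact mul_le_mul_of_nonneg_right (pow_le_pow_right₀ (one_le_w y) hk.le) (abs_nonneg _)
    refine add_le_add (mul_le_mul_of_nonneg_left (h3.trans ?_) (abs_nonneg _))
      (mul_le_mul_of_nonneg_left h5 (abs_nonneg _))
    exact mul_le_mul_of_nonneg_left h12 (by positivity)
  have h13 : Tendsto (fun j => |p j - pl| * (C * K) +
      |pl| * (C * ∑' x, (1 + ‖x‖) ^ k * |g j x - gl x|)) atTop (nhds 0) := by
    have h14 : Tendsto (fun j => |p j - pl|) atTop (nhds 0) := by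
      have h15 := (H.plim.sub (tendsto_const_nhds (x := pl))).abs
      rwa [sub_self, abs_zero] at h15
    have h16 := (h14.mul_const (C * K)).add ((h1.const_mul C).const_mul |pl|)
    simpa using h16
  refine squeeze_zero (fun j => tsum_nonneg fun x => ?_) hb h13
  exact mul_nonneg (pow_nonneg (by linarith [norm_nonneg x]) _) (abs_nonneg _)

end IPC.Fo
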