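import Mathlib
import Pool.Agent.Lib.MP_25e40f_pr.E.DcyB
import Pool.Agent.Lib.MP_25e40f_pr.E.LimB

/-!
THIS JOB (LimC): the theorems Ev_lim Sy_lim Sys.mass.  (The header describes the whole group Lim; the other theorems are in other jobs and may be imported.)

# Job Lim: passage to the critical point

A sequence `p j → pl`, two point functions `τ j ↑ τl`, `g j` with `τ = g + g * P * τ` and uniformly bounded `n`-th moments, `gl ∈ l¹` with the same
equation at `pl`.  Then `g j → gl`.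

Notation: `V j = del + cv (Pn (p j)) (τ j)`, `J j = cv (Pn (p j)) (g j)`, `W j = del - J j`, `V`, `J` the same at `pl`.
PROOF of `Sys.glim`.  (1) `τ j = cv (g j) (V j)`, `cv (W j) (V j) = del` (`τ = g + g*P*τ = g * V`, `W * V = V - P * (g * V) = V - P * τ = del`), so `g j = cv (τ j) (W j)`
(`cv (τ j) (W j) = g j * V j * W j`).
(2) TIGHTNESS LEMMA: if `a j → 0` pointwise, `|a j| ≤ A`, and `∑ (1+|x|) |h j x| ≤ B` for all `j`, then `cv (a j) (h j) → 0` pointwise, and
`|cv (a j) (h j)| ≤ A B`: split `|y| ≤ r` (finite sum, each term tends to `0` as `h j` is bounded by `B`) and `|y| > r` (at most `A B / r`); here `cv a h x = ∑ a (x-y) h y`.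
The functions `W j` satisfy this (`∑ (1+|x|) |W j| ≤ 1 + 2d·2·K`).
(3) `cv Vl (W j) = del + cv (Vl - V j) (W j) → del` pointwise, bounded (`Vl - V j → 0` pointwise: finite sums; bounded by `1 + 2d`).  Associativity with one bounded
factor: `cv (cv gl Vl) (W j) = cv gl (cv Vl (W j))` (absolutely convergent double sum: `∑∑ |gl| |Vl| |W j| ≤ ‖gl‖₁ (1+2d) ‖W j‖₁`); so `cv τl (W j) = cv gl (cv Vl (W j)) → gl`
pointwise by dominated convergence (`tendsto_tsum_of_dominated_convergence`, bound `|gl| · const`).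
(4) `g j = cv (τ j) (W j) = cv τl (W j) - cv (τl - τ j) (W j) → gl`.
PROOF of `Sys.glmo`: Fatou: for every finite set of `x` the finite sum is the limit of finite sums `≤ K` (`summable_of_sum_le`, `le_of_tendsto`).
PROOF of `Sys.glim1`: split `|x| < r` (finite) and `|x| ≥ r` (`tail_le`: `≤ 2K/r^(n-k) ≤ 2K/r`).
PROOF of `Sys.Jlim`: `J j - J = (p j - pl) nn * g j + pl nn * (g j - gl)` and `∑ (1+|x|)^k |nn * f| ≤ 2d 2^k ∑ (1+|x|)^k |f|`.
-/

set_option autoImplicit false

noncomputable section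

open Finset MeasureTheory Filter

namespace IPC.Fo

variable {d : ℕ}

theorem Ev_lim {f : ℕ → (Fin d → ℤ) → ℝ} {f0 : (Fin d → ℤ) → ℝ} (h : ∀ x, Tendsto (fun j => f j x) atTop (nhds (f0 x)))
    (hf : ∀ j, Ev (f j)) : Ev f0 := by
  intro e x
  refine tendsto_nhds_unique (h (refl e x)) ((h x).congr fun j => ?_)
  exact (hf j e x).symm

theorem Sy_lim {f : ℕ → (Fin d → ℤ) → ℝ} {f0 : (Fin d → ℤ) → ℝ} (h : ∀ x, Tendsto (fun j => f j x) atTop (nhds (f0 x)))
    (hf : ∀ j, Sy (f j)) : Sy f0 := by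
  intro σ x
  refine tendsto_nhds_unique (h fun i => x (σ i)) ((h x).congr fun j => ?_)
  exact (hf j σ x).symm

/-- critical mass and second moment -/
theorem Sys.mass {n : ℕ} (hn : 3 ≤ n) {K c : ℝ} {p : ℕ → ℝ} {pl : ℝ} {τ g : ℕ → (Fin d → ℤ) → ℝ}
    {τl gl : (Fin d → ℤ) → ℝ} (H : Sys n K p pl τ g τl gl)
    (hw : Tendsto (fun j => ∑' x, (del d x - cv (Pn (p j)) (g j) x)) atTop (nhds 0))
    (hκ : ∀ᶠ j in atTop, ∀ e : Fin d, c ≤ -∑' x, (x e : ℝ) ^ 2 * (del d x - cv (Pn (p j)) (g j) x)) :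
    ∑' x, cv (Pn pl) gl x = 1 ∧ ∀ e : Fin d, c ≤ ∑' x, (x e : ℝ) ^ 2 * cv (Pn pl) gl x := by
  obtain ⟨hgl, -⟩ := H.glmo (by omega : 1 ≤ n)
  set J : ℕ → (Fin d → ℤ) → ℝ := fun j => cv (Pn (p j)) (g j) with hJ
  set J0 : (Fin d → ℤ) → ℝ := cv (Pn pl) gl with hJ0
  have hJm : ∀ j, Mo n (J j) := fun j => Mo.cv ((Mo_nn n).const_mul (p j)) (H.mog j)
  have hJ0m : Mo n J0 := Mo.cv ((Mo_nn n).const_mul pl) hgl
  have l0 : Tendsto (fun j => ∑' x, (1 + ‖x‖) ^ 0 * |J j x - J0 x|) atTop (nhds 0) :=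
    H.Jlim (k := 0) (by omega)
  have l2 : Tendsto (fun j => ∑' x, (1 + ‖x‖) ^ 2 * |J j x - J0 x|) atTop (nhds 0) :=
    H.Jlim (k := 2) (by omega)
  have hdel : ∑' x, del d x = 1 := by
    rw [tsum_eq_single 0 (fun y hy => by simp [del, hy])]
    simp [del]
  constructor
  · -- the mass
    have h1 : Tendsto (fun j => ∑' x, J j x) atTop (nhds 1) := by
      have h2 : ∀ j, ∑' x, J j x = 1 - ∑' x, (del d x - J j x) := by
        intro j
        rw [S1_del.sum.tsum_sub (hJm j).s1.sum, hdel]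
        ring
      have h3 := (tendsto_const_nhds (x := (1 : ℝ))).sub hw
      rw [sub_zero] at h3
      exact h3.congr fun j => (h2 j).symm
    have h4 : Tendsto (fun j => ∑' x, J j x) atTop (nhds (∑' x, J0 x)) := by
      rw [tendsto_iff_norm_sub_tendsto_zero]
      refine squeeze_zero (fun j => norm_nonneg _) (fun j => ?_) l0
      rw [← (hJm j).s1.sum.tsum_sub hJ0m.s1.sum]
      have h5 : Summable fun x : Fin d → ℤ => (1 + ‖x‖) ^ 0 * |J j x - J0 x| := ((hJm j).sub hJ0m).mono (Nat.zero_le n)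
      have h6 : Summable fun x : Fin d → ℤ => |J j x - J0 x| := ((hJm j).sub hJ0m).s1
      refine (norm_tsum_le_tsum_norm (f := fun x => J j x - J0 x) (by
        simpa only [Real.norm_eq_abs] using h6)).trans (le_of_eq ?_)
      refine tsum_congr fun x => ?_
      rw [pow_zero, one_mul, Real.norm_eq_abs]
    exact tendsto_nhds_unique h4 h1
  · intro e
    have hs : ∀ {f : (Fin d → ℤ) → ℝ}, Mo n f → Summable fun x : Fin d → ℤ => (x e : ℝ) ^ 2 * f x := by
      intro f hf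
      exact (Mo.mo (m := 0) (a := 2) (hf.mono (by omega)) e).s1.sum
    have hd0 : ∀ x : Fin d → ℤ, (x e : ℝ) ^ 2 * del d x = 0 := by
      intro x
      unfold del
      split_ifs with hx
      · rw [hx]
        simp
      · rw [mul_zero]
    have h1 : ∀ᶠ j in atTop, c ≤ ∑' x, (x e : ℝ) ^ 2 * J j x := by
      filter_upwards [hκ] with j hj
      refine (hj e).trans (le_of_eq ?_)
      rw [← tsum_neg]
      refine tsum_congr fun x => ?_
      have := hd0 x
      change -((x e : ℝ) ^ 2 * (del d x - J j x)) = (x e : ℝ) ^ 2 * J j x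
      linarith
    have h2 : Tendsto (fun j => ∑' x, (x e : ℝ) ^ 2 * J j x) atTop (nhds (∑' x, (x e : ℝ) ^ 2 * J0 x)) := by
      rw [tendsto_iff_norm_sub_tendsto_zero]
      refine squeeze_zero (fun j => norm_nonneg _) (fun j => ?_) l2
      rw [← (hs (hJm j)).tsum_sub (hs hJ0m)]
      have h5 : Summable fun x : Fin d → ℤ => (1 + ‖x‖) ^ 2 * |J j x - J0 x| :=
        ((hJm j).sub hJ0m).mono (by omega)
      have h7 : ∀ x : Fin d → ℤ, ‖(x e : ℝ) ^ 2 * J j x - (x e : ℝ) ^ 2 * J0 x‖ ≤ (1 + ‖x‖) ^ 2 * |J j x - J0 x| := by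
        intro x
        rw [← mul_sub, Real.norm_eq_abs, abs_mul, abs_pow]
        refine mul_le_mul_of_nonneg_right (pow_le_pow_left₀ (abs_nonneg _) ?_ 2) (abs_nonneg _)
        linarith [abs_coord_le x e, norm_nonneg x]
      have h8 : Summable fun x : Fin d → ℤ => ‖(x e : ℝ) ^ 2 * J j x - (x e : ℝ) ^ 2 * J0 x‖ :=
        Summable.of_nonneg_of_le (fun _ => norm_nonneg _) h7 h5
      exact (norm_tsum_le_tsum_norm h8).trans (Summable.tsum_le_tsum h7 h8 h5)
    exact ge_of_tendsto h2 h1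

end IPC.Fo
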