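import Mathlib
import Pool.Agent.Lib.MP_25e40f_pr.E.DcyB
import Pool.Agent.Lib.MP_25e40f_pr.T.Iso
import Pool.Agent.Lib.MP_25e40f_pr.T.Tau
import Pool.Agent.Lib.MP_25e40f_pr.B.Syb

/-!
# Job ZSym: the two point function and the coefficients `g` of `ℤᵈ` are translation invariant, even, symmetric

PROOFS.
* `nb_add`, `nb_refl`, `nb_perm`: `mem_nbZ` (Defs.lean): `y ∈ nbZ d x` iff `y = update x i (x i ± 1)`.  Translation, reflection of a coordinate and
  permutation of the coordinates map neighbours to neighbours, and so do their inverses (for the inclusion of the left side in the right side apply the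
  inverse; the inverse of `permE σ` is `permE σ⁻¹`).
* `tau_tr`: `T.tau_iso` with `φ = Equiv.addLeft x` (maps `0` to `x`, `y - x` to `y`); the hypothesis `b ∈ nb a ↔ φ b ∈ nb (φ a)` from `nb_add` (`Finset.mem_image`, `φ`
  injective).  `gg_tr`: `gg_auto`.
* `Ev_tz`, `Sy_tz`, `Ev_gz`, `Sy_gz`: `T.tau_iso`, `gg_auto` with `reflE e` and `permE σ` (they fix `0`).
-/

set_option autoImplicit false

noncomputable section

open Finset

namespace IPC.Fo

variable {d : ℕ}

/-- the two point function of `ℤᵈ` -/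
def tz (d : ℕ) (p : ℝ) : (Fin d → ℤ) → ℝ := fun x => (Zg d).tau p 0 x

/-- the coefficients of the expansion -/
def gz (d : ℕ) (p : ℝ) : (Fin d → ℤ) → ℝ := fun x => gg (Zg d) p 0 x

/-- `δ + P τ` -/
def Vz (d : ℕ) (p : ℝ) : (Fin d → ℤ) → ℝ := fun x => del d x + cv (Pn p) (tz d p) x

/-- `δ - P g` -/
def Wz (d : ℕ) (p : ℝ) : (Fin d → ℤ) → ℝ := fun x => del d x - cv (Pn p) (gz d p) x

/-- permutation of the coordinates -/
def permE (σ : Equiv.Perm (Fin d)) : (Fin d → ℤ) ≃ (Fin d → ℤ) where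
  toFun x := fun i => x (σ i)
  invFun x := fun i => x (σ⁻¹ i)
  left_inv x := by funext i; simp
  right_inv x := by funext i; simp

private theorem ZSym_im (φ : (Fin d → ℤ) ≃ (Fin d → ℤ))
    (h : ∀ x y, y ∈ nbZ d x → φ y ∈ nbZ d (φ x))
    (h' : ∀ x y, y ∈ nbZ d x → φ.symm y ∈ nbZ d (φ.symm x)) (x : Fin d → ℤ) :
    (Zg d).nb (φ x) = ((Zg d).nb x).image φ := by
  show nbZ d (φ x) = (nbZ d x).image φ
  ext y
  rw [Finset.mem_image]
  constructor
  · intro hy
    refine ⟨φ.symm y, ?_, φ.apply_symm_apply y⟩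
    have h1 := h' _ _ hy
    rwa [φ.symm_apply_apply] at h1
  · rintro ⟨a, ha, rfl⟩
    exact h _ _ ha

private theorem ZSym_add (z x y : Fin d → ℤ) (h : y ∈ nbZ d x) : z + y ∈ nbZ d (z + x) := by
  rw [mem_nbZ] at h ⊢
  obtain ⟨i, s, hs, rfl⟩ := h
  refine ⟨i, s, hs, ?_⟩
  funext j
  by_cases hj : j = i
  · subst hj
    rw [Pi.add_apply, Function.update_self, Function.update_self, Pi.add_apply, add_assoc]
  · rw [Pi.add_apply, Function.update_of_ne hj, Function.update_of_ne hj, Pi.add_apply]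

theorem nb_add (z x : Fin d → ℤ) :
    (Zg d).nb (Equiv.addLeft z x) = ((Zg d).nb x).image (Equiv.addLeft z) := by
  refine ZSym_im (Equiv.addLeft z) (fun x y h => ZSym_add z x y h) (fun x y h => ?_) x
  rw [Equiv.addLeft_symm]
  exact ZSym_add (-z) x y h

private theorem ZSym_refl (e : Fin d) (x y : Fin d → ℤ) (h : y ∈ nbZ d x) :
    refl e y ∈ nbZ d (refl e x) := by
  rw [mem_nbZ] at h ⊢
  obtain ⟨i, s, hs, rfl⟩ := h
  by_cases hi : i = e
  · subst hi
    refine ⟨i, -s, ?_, ?_⟩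
    · rcases hs with rfl | rfl
      · exact Or.inr rfl
      · exact Or.inl (neg_neg 1)
    · funext j
      by_cases hj : j = i
      · subst hj
        rw [refl_self, refl_self, Function.update_self, Function.update_self]
        ring
      · rw [Function.update_of_ne hj, refl_other hj, refl_other hj, Function.update_of_ne hj]
  · refine ⟨i, s, hs, ?_⟩
    funext j
    by_cases hj : j = i
    · subst hj
      rw [Function.update_self, refl_other hi, refl_other hi, Function.update_self]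
    · rw [Function.update_of_ne hj]
      by_cases hje : j = e
      · subst hje
        rw [refl_self, refl_self, Function.update_of_ne hj]
      · rw [refl_other hje, refl_other hje, Function.update_of_ne hj]

theorem nb_refl (e : Fin d) (x : Fin d → ℤ) : (Zg d).nb (reflE e x) = ((Zg d).nb x).image (reflE e) :=
  ZSym_im (reflE e) (fun x y h => ZSym_refl e x y h) (fun x y h => ZSym_refl e x y h) x

private theorem ZSym_perm (σ : Equiv.Perm (Fin d)) (x y : Fin d → ℤ) (h : y ∈ nbZ d x) :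
    (fun j => y (σ j)) ∈ nbZ d (fun j => x (σ j)) := by
  rw [mem_nbZ] at h ⊢
  obtain ⟨i, s, hs, rfl⟩ := h
  refine ⟨σ.symm i, s, hs, ?_⟩
  funext j
  by_cases hj : j = σ.symm i
  · subst hj
    rw [Function.update_self, σ.apply_symm_apply, Function.update_self]
  · have h1 : σ j ≠ i := fun h1 => hj (by rw [← h1, σ.symm_apply_apply])
    rw [Function.update_of_ne hj, Function.update_of_ne h1]

theorem nb_perm (σ : Equiv.Perm (Fin d)) (x : Fin d → ℤ) :
    (Zg d).nb (permE σ x) = ((Zg d).nb x).image (permE σ) :=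
  ZSym_im (permE σ) (fun x y h => ZSym_perm σ x y h) (fun x y h => ZSym_perm σ⁻¹ x y h) x

private theorem ZSym_iff (φ : (Fin d → ℤ) ≃ (Fin d → ℤ))
    (hφ : ∀ x, (Zg d).nb (φ x) = ((Zg d).nb x).image φ) (a b : Fin d → ℤ) :
    b ∈ (Zg d).nb a ↔ φ b ∈ (Zg d).nb (φ a) := by
  rw [hφ, Finset.mem_image]
  constructor
  · intro h
    exact ⟨b, h, rfl⟩
  · rintro ⟨c, hc, h⟩
    rwa [← φ.injective h]

theorem tau_tr {p : ℝ} (h0 : 0 ≤ p) (h1 : p ≤ 1) (x y : Fin d → ℤ) : (Zg d).tau p x y = tz d p (y - x) := by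
  have h2 := T.tau_iso (Zg d) (Zg d) h0 h1 (Equiv.addLeft x) (ZSym_iff _ (nb_add x)) 0 (y - x)
  have h3 : Equiv.addLeft x (0 : Fin d → ℤ) = x := add_zero x
  have h4 : Equiv.addLeft x (y - x) = y := add_sub_cancel x y
  rw [h3, h4] at h2
  exact h2

theorem gg_tr (p : ℝ) (x y : Fin d → ℤ) : gg (Zg d) p x y = gz d p (y - x) := by
  have h2 := gg_auto (Zg d) p (Equiv.addLeft x) (nb_add x) 0 (y - x)
  have h3 : Equiv.addLeft x (0 : Fin d → ℤ) = x := add_zero x
  have h4 : Equiv.addLeft x (y - x) = y := add_sub_cancel x y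
  rw [h3, h4] at h2
  exact h2

private theorem ZSym_refl0 (e : Fin d) : reflE e 0 = 0 := by
  funext j
  show refl e 0 j = 0
  by_cases hj : j = e
  · subst hj
    rw [refl_self]
    rfl
  · rw [refl_other hj]
    rfl

theorem Ev_tz {p : ℝ} (h0 : 0 ≤ p) (h1 : p ≤ 1) : Ev (tz d p) := by
  intro e x
  have h2 := T.tau_iso (Zg d) (Zg d) h0 h1 (reflE e) (ZSym_iff _ (nb_refl e)) 0 x
  rw [ZSym_refl0] at h2
  exact h2

theorem Sy_tz {p : ℝ} (h0 : 0 ≤ p) (h1 : p ≤ 1) : Sy (tz d p) := by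
  intro σ x
  exact T.tau_iso (Zg d) (Zg d) h0 h1 (permE σ) (ZSym_iff _ (nb_perm σ)) 0 x

theorem Ev_gz (p : ℝ) : Ev (gz d p) := by
  intro e x
  have h2 := gg_auto (Zg d) p (reflE e) (nb_refl e) 0 x
  rw [ZSym_refl0] at h2
  exact h2

theorem Sy_gz (p : ℝ) : Sy (gz d p) := by
  intro σ x
  exact gg_auto (Zg d) p (permE σ) (nb_perm σ) 0 x

/-- translation invariance of the two point function in a domain -/
theorem tauD_tr (p : ℝ) (z : Fin d → ℤ) (D : Finset (Fin d → ℤ)) (x y : Fin d → ℤ) :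
    (Zg d).tauD p (D.image (Equiv.addLeft z)) (z + x) (z + y) = (Zg d).tauD p D x y := by
  exact T.tauD_iso (Zg d) (Zg d) p (Equiv.addLeft z) (ZSym_iff _ (nb_add z)) D x y

end IPC.Fo
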