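import Mathlib
import Pool.Agent.Lib.MP_25e40f_pr.E.ZSym
import Pool.Agent.Lib.MP_25e40f_pr.B.Tau

/-!
THIS JOB (ZConA): the theorems nn_eq card_nb cv_Pn Vz_eq tz_nonneg tz_le_one tz_zero Vz_nonneg tz_le_Vz Vz_le.  (The header describes the whole group ZCon; the other theorems are in other jobs and may be imported.)

# Job ZCon: elementary facts on `tz`, `Vz`, `Pn`

PROOFS.
* `nn_eq`: `nn d z = ∑_i (del (z - e_i) + del (z + e_i))` is `1` if `z = ± e_i` for some `i` (exactly one of the `2d` vectors `± e_i` equals `z`) and `0` otherwise;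
  `y ∈ nbZ d x ↔ ∃ i s, (s = 1 ∨ s = -1) ∧ y = update x i (x i + s)` (`mem_nbZ`), i.e. `y - x = s e_i`.
* `cv_Pn`: `cv (Pn p) f x = ∑'_y p nn(y) f(x-y)`, finite support `nb 0` (`tsum_eq_sum`).
* `Vz_eq`: `cv_Pn` at `y - u`, the bijection `nb 0 ≃ nb u`, `v ↦ u + v` (`nb_add`), `tau_tr`.  `del d (y - u) = if u = y then 1 else 0`.
* `tz_le_Vz`: `T.tau_step` with `x = 0` and `Vz_eq`.
* `Vz_le`: `del ≤ tz` (`tz 0 = 1`); `p tau v y ≤ tau 0 v * tau v y ≤ tau 0 y` for `v ∈ nb 0` (`T.tau_nb`, `T.tau_trans`), `card (nb 0) ≤ 2 d`.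
* `tz_low`: induction on `∑ |x i|`: if `x ≠ 0` choose `i` with `x i ≠ 0` and let `x'` be `x` moved by one step towards `0` in the coordinate `i`; then
  `tau 0 x ≥ tau 0 x' * tau x' x ≥ p^(n-1) * p`.
* `card_nb`: `Finset.card_image_le`.
* `Mo_tz`: hypothesis `tau 0 x ≤ C exp(-c |x|)`; `(1+t)^m exp(-c t) ≤ C' (1+t)^(-(d+1))` for `t ≥ 0` (for instance `exp(c(1+t)) ≥ (c (1+t))^N / N!`, `N = m + d + 1`:
  `Real.pow_div_factorial_le_exp`) and `summable_inv` (E/MmtC.lean).  `nrm x` (natural number) is the sup norm: `norm_eq_nrm`.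
* `tz_eq`: `IPC.tau_exp` (B/Tau.lean) with `x = 0`: `tau 0 y = ∑'_u gg 0 u * (δ + ∑ ...)`, `Vz_eq`, so it is `∑'_u gz u * Vz (y - u) = cv gz Vz y = gz y + cv gz (cv (Pn p) tz) y`
  (`S1 gz`: then both parts are summable; `cv gz (del) = gz`).
-/

set_option autoImplicit false

noncomputable section

open Finset

namespace IPC.Fo

variable {d : ℕ}

private theorem ZConA_upd (x : Fin d → ℤ) (i : Fin d) (s : ℤ) :
    Function.update x i (x i + s) = x + Pi.single i s := by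
  funext j
  by_cases h : j = i
  · subst h
    simp
  · simp [h]

private theorem ZConA_sub (i j : Fin d) (s : ℤ) :
    (Pi.single i s - Pi.single j 1 : Fin d → ℤ) = 0 ↔ (j = i ∧ s = 1) := by
  constructor
  · intro h
    have h1 := congrFun h j
    by_cases hj : j = i
    · subst hj
      rw [Pi.sub_apply, Pi.single_eq_same, Pi.single_eq_same, Pi.zero_apply] at h1
      exact ⟨rfl, by omega⟩
    · rw [Pi.sub_apply, Pi.single_eq_same, Pi.single_eq_of_ne hj, Pi.zero_apply] at h1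
      omega
  · rintro ⟨rfl, rfl⟩
    exact sub_self _

private theorem ZConA_add (i j : Fin d) (s : ℤ) :
    (Pi.single i s + Pi.single j 1 : Fin d → ℤ) = 0 ↔ (j = i ∧ s = -1) := by
  constructor
  · intro h
    have h1 := congrFun h j
    by_cases hj : j = i
    · subst hj
      rw [Pi.add_apply, Pi.single_eq_same, Pi.single_eq_same, Pi.zero_apply] at h1
      exact ⟨rfl, by omega⟩
    · rw [Pi.add_apply, Pi.single_eq_same, Pi.single_eq_of_ne hj, Pi.zero_apply] at h1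
      omega
  · rintro ⟨rfl, rfl⟩
    rw [← Pi.single_add]
    simp

private theorem ZConA_mem (x y : Fin d → ℤ) : y ∈ (Zg d).nb x ↔
    ∃ i : Fin d, ∃ s : ℤ, (s = 1 ∨ s = -1) ∧ y - x = Pi.single i s := by
  have h0 : y ∈ (Zg d).nb x ↔ y ∈ nbZ d x := Iff.rfl
  rw [h0, mem_nbZ]
  constructor
  · rintro ⟨i, s, hs, h⟩
    refine ⟨i, s, hs, ?_⟩
    rw [h, ZConA_upd, add_sub_cancel_left]
  · rintro ⟨i, s, hs, h⟩
    refine ⟨i, s, hs, ?_⟩
    rw [ZConA_upd, ← h, add_sub_cancel]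

theorem nn_eq (x y : Fin d → ℤ) : nn d (y - x) = if y ∈ (Zg d).nb x then 1 else 0 := by
  by_cases h : y ∈ (Zg d).nb x
  · rw [if_pos h]
    obtain ⟨i, s, hs, h1⟩ := (ZConA_mem x y).1 h
    unfold nn del
    rw [h1]
    simp only [ZConA_sub, ZConA_add]
    rw [Finset.sum_eq_single i]
    · rcases hs with rfl | rfl <;> norm_num
    · intro j _ hj
      rw [if_neg (fun h2 => hj h2.1), if_neg (fun h2 => hj h2.1), add_zero]
    · intro h2
      exact absurd (Finset.mem_univ _) h2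
  · rw [if_neg h]
    unfold nn del
    refine Finset.sum_eq_zero fun i _ => ?_
    rw [if_neg, if_neg, add_zero]
    · intro h1
      refine h ((ZConA_mem x y).2 ⟨i, -1, Or.inr rfl, ?_⟩)
      rw [Pi.single_neg]
      exact eq_neg_of_add_eq_zero_left h1
    · intro h1
      exact h ((ZConA_mem x y).2 ⟨i, 1, Or.inl rfl, sub_eq_zero.1 h1⟩)

theorem card_nb (x : Fin d → ℤ) : ((Zg d).nb x).card ≤ 2 * d := by
  have h : (nbZ d x).card ≤ 2 * d := by
    unfold nbZ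
    refine Finset.card_image_le.trans (le_of_eq ?_)
    rw [Finset.card_univ, Fintype.card_prod, Fintype.card_fin, Fintype.card_bool, mul_comm]
  exact h

theorem cv_Pn (p : ℝ) (f : (Fin d → ℤ) → ℝ) (x : Fin d → ℤ) :
    cv (Pn p) f x = ∑ v ∈ (Zg d).nb 0, p * f (x - v) := by
  have h1 : ∀ y : Fin d → ℤ, nn d y = if y ∈ (Zg d).nb 0 then 1 else 0 := by
    intro y
    have h := nn_eq (0 : Fin d → ℤ) y
    rwa [sub_zero] at h
  unfold cv Pn
  rw [tsum_eq_sum (s := (Zg d).nb 0)]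
  · refine Finset.sum_congr rfl fun v hv => ?_
    rw [h1, if_pos hv, mul_one]
  · intro v hv
    rw [h1, if_neg hv, mul_zero, zero_mul]

theorem Vz_eq {p : ℝ} (h0 : 0 ≤ p) (h1 : p ≤ 1) (u y : Fin d → ℤ) :
    Vz d p (y - u) = (if u = y then 1 else 0) + ∑ v ∈ (Zg d).nb u, p * (Zg d).tau p v y := by
  unfold Vz
  rw [cv_Pn]
  have e1 : del d (y - u) = if u = y then 1 else 0 := by
    unfold del
    by_cases h : u = y
    · rw [if_pos h, if_pos (by rw [h, sub_self])]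
    · rw [if_neg h, if_neg (fun h2 => h (sub_eq_zero.1 h2).symm)]
  have e2 : (Zg d).nb u = ((Zg d).nb 0).image (Equiv.addLeft u) := by
    have h := nb_add u (0 : Fin d → ℤ)
    have h2 : (Equiv.addLeft u) (0 : Fin d → ℤ) = u := add_zero u
    rwa [h2] at h
  rw [e1, e2, Finset.sum_image fun a _ b _ hab => (Equiv.addLeft u).injective hab]
  congr 1
  refine Finset.sum_congr rfl fun v _ => ?_
  have h3 : y - u - v = y - (Equiv.addLeft u) v := sub_sub y u v
  rw [tau_tr h0 h1, h3]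

theorem tz_nonneg {p : ℝ} (h0 : 0 ≤ p) (h1 : p ≤ 1) (x : Fin d → ℤ) : 0 ≤ tz d p x := by
  exact T.tau_nonneg (Zg d) h0 h1 0 x

theorem tz_le_one {p : ℝ} (h0 : 0 ≤ p) (h1 : p ≤ 1) (x : Fin d → ℤ) : tz d p x ≤ 1 := by
  exact T.tau_le_one (Zg d) h0 h1 0 x

theorem tz_zero (p : ℝ) : tz d p 0 = 1 := by
  exact T.tau_self (Zg d) p 0

theorem Vz_nonneg {p : ℝ} (h0 : 0 ≤ p) (h1 : p ≤ 1) (x : Fin d → ℤ) : 0 ≤ Vz d p x := by
  unfold Vz
  refine add_nonneg ?_ ?_
  · unfold del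
    split_ifs <;> norm_num
  · rw [cv_Pn]
    exact Finset.sum_nonneg fun v _ => mul_nonneg h0 (tz_nonneg h0 h1 _)

theorem tz_le_Vz {p : ℝ} (h0 : 0 ≤ p) (h1 : p ≤ 1 / 2) (x : Fin d → ℤ) : tz d p x ≤ Vz d p x := by
  have h := Vz_eq h0 (by linarith) (0 : Fin d → ℤ) x
  rw [sub_zero] at h
  rw [h]
  exact T.tau_step (Zg d) h0 h1 0 x

theorem Vz_le {p : ℝ} (h0 : 0 ≤ p) (h1 : p ≤ 1) (x : Fin d → ℤ) : Vz d p x ≤ (1 + 2 * d) * tz d p x := by
  have h := Vz_eq h0 h1 (0 : Fin d → ℤ) x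
  rw [sub_zero] at h
  rw [h, add_mul, one_mul]
  refine add_le_add ?_ ?_
  · by_cases hx : (0 : Fin d → ℤ) = x
    · rw [if_pos hx, ← hx, tz_zero]
    · rw [if_neg hx]
      exact tz_nonneg h0 h1 x
  · have h2 : ∀ v ∈ (Zg d).nb 0, p * (Zg d).tau p v x ≤ tz d p x := by
      intro v hv
      refine (mul_le_mul_of_nonneg_right (T.tau_nb (Zg d) h0 h1 hv)
        (T.tau_nonneg (Zg d) h0 h1 v x)).trans ?_
      exact T.tau_trans (Zg d) h0 h1 0 v x
    refine (Finset.sum_le_card_nsmul _ _ _ h2).trans ?_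
    rw [nsmul_eq_mul]
    refine mul_le_mul_of_nonneg_right ?_ (tz_nonneg h0 h1 x)
    exact_mod_cast card_nb (0 : Fin d → ℤ)

end IPC.Fo
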