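import Mathlib
import Pool.Agent.Lib.MP_25e40f_pr.E.ZSym
import Pool.Agent.Lib.MP_25e40f_pr.B.Tau
import Pool.Agent.Lib.MP_25e40f_pr.E.ZConA
import Pool.Agent.Lib.MP_25e40f_pr.E.MmtC

/-!
THIS JOB (ZConB): the theorems tz_low norm_eq_nrm Mo_tz.  (The header describes the whole group ZCon; the other theorems are in other jobs and may be imported.)

# Job ZCon: elementary facts on `tz`, `Vz`, `Pn`

PROOFS.
* `nn_eq`: `nn d z = ∑_i (del (z - e_i) + del (z + e_i))` is `1` if `z = ± e_i` for some `i` (exactly one of the `2d` vectors `± e_i` equals `z`) and `0` otherwise;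
  `y ∈ nbZ d x ↔ ∃ i s, (s = 1 ∨ s = -1) ∧ y = update x i (x i + s)` (`mem_nbZ`), i.e. `y - x = s e_i`.
* `cv_Pn`: `cv (Pn p) f x = ∑'_y p nn(y) f(x-y)`, finite support `nb 0` (`tsum_eq_sum`).
* `Vz_eq`: `cv_Pn` at `y - u`, the bijection `nb 0 ≃ nb u`, `v ↦ u + v` (`nb_add`), `tau_tr`.  `del d (y - u) = if u = y then 1 else 0`.
* `tz_le_Vz`: `T.tau_step` with `x = 0` and `Vz_eq`.
* `Vz_le`: `del ≤ tz` (`tz 0 = 1`); `p tau v y ≤ tau 0 v * tau v y ≤ tau 0 y` for `v ∈ nb 0` (`T.tau_nb`, `T.tau_trans`), `card (nb 0) ≤ 2 d`.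
* `tz_low`: induction on `∑ |x i|`: if `x ≠ 0` choose `i` with `x i ≠ 0` and let `x'` be `x` moved by one step towards `0` in the coordinate `i`; then
  `tau 0 x ≥ tau 0 x' * tau x' x ≥ p^(n-1) * p`.
* `card_nb`: `Finset.card_image_le`.
* `Mo_tz`: hypothesis `tau 0 x ≤ C exp(-c |x|)`; `(1+t)^m exp(-c t) ≤ C' (1+t)^(-(d+1))` for `t ≥ 0` (for instance `exp(c(1+t)) ≥ (c (1+t))^N / N!`, `N = m + d + 1`:
  `Real.pow_div_factorial_le_exp`) and `summable_inv` (E/MmtC.lean).  `nrm x` (natural number) is the sup norm: `norm_eq_nrm`.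
* `tz_eq`: `IPC.tau_exp` (B/Tau.lean) with `x = 0`: `tau 0 y = ∑'_u gg 0 u * (δ + ∑ ...)`, `Vz_eq`, so it is `∑'_u gz u * Vz (y - u) = cv gz Vz y = gz y + cv gz (cv (Pn p) tz) y`
  (`S1 gz`: then both parts are summable; `cv gz (del) = gz`).
-/

set_option autoImplicit false

noncomputable section

open Finset

namespace IPC.Fo

variable {d : ℕ}

private theorem ZConB_step {n : ℕ} {x : Fin d → ℤ} (h : ∑ i, (x i).natAbs = n + 1) :
    ∃ x' : Fin d → ℤ, x ∈ (Zg d).nb x' ∧ ∑ i, (x' i).natAbs = n := by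
  have h1 : ∃ i, x i ≠ 0 := by
    by_contra h2
    have h3 : ∀ i, x i = 0 := fun i => not_not.1 fun h4 => h2 ⟨i, h4⟩
    have h4 : ∑ i, (x i).natAbs = 0 := Finset.sum_eq_zero fun i _ => by rw [h3 i]; rfl
    omega
  obtain ⟨i, hi⟩ := h1
  obtain ⟨s, hs, hs1⟩ : ∃ s : ℤ, (s = 1 ∨ s = -1) ∧ (x i - s).natAbs + 1 = (x i).natAbs := by
    rcases lt_or_gt_of_ne hi with h2 | h2
    · exact ⟨-1, Or.inr rfl, by omega⟩
    · exact ⟨1, Or.inl rfl, by omega⟩
  refine ⟨Function.update x i (x i - s), ?_, ?_⟩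
  · show x ∈ nbZ d (Function.update x i (x i - s))
    refine (mem_nbZ d _ _).2 ⟨i, s, hs, ?_⟩
    rw [Function.update_self, Function.update_idem, sub_add_cancel, Function.update_eq_self]
  · have h3 := Finset.add_sum_erase Finset.univ (fun j => (x j).natAbs) (Finset.mem_univ i)
    have h4 := Finset.add_sum_erase Finset.univ
      (fun j => (Function.update x i (x i - s) j).natAbs) (Finset.mem_univ i)
    have h5 : ∑ j ∈ Finset.univ.erase i, (Function.update x i (x i - s) j).natAbs =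
        ∑ j ∈ Finset.univ.erase i, (x j).natAbs :=
      Finset.sum_congr rfl fun j hj => by
        rw [Function.update_of_ne (Finset.ne_of_mem_erase hj)]
    beta_reduce at h3 h4
    rw [Function.update_self, h5] at h4
    omega

private theorem ZConB_low {p : ℝ} (h0 : 0 ≤ p) (h1 : p ≤ 1) (n : ℕ) :
    ∀ x : Fin d → ℤ, ∑ i, (x i).natAbs = n → p ^ n ≤ tz d p x := by
  induction n with
  | zero =>
    intro x hx
    have h2 : x = 0 := by
      funext i
      have h3 := (Finset.sum_eq_zero_iff.1 hx) i (Finset.mem_univ i)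
      exact Int.natAbs_eq_zero.1 h3
    rw [h2, tz_zero, pow_zero]
  | succ n ih =>
    intro x hx
    obtain ⟨x', h2, h3⟩ := ZConB_step hx
    have h4 := ih x' h3
    have h5 := T.tau_nb (Zg d) h0 h1 h2
    rw [pow_succ]
    refine (mul_le_mul h4 h5 h0 (tz_nonneg h0 h1 x')).trans ?_
    exact T.tau_trans (Zg d) h0 h1 0 x' x

theorem tz_low {p : ℝ} (h0 : 0 ≤ p) (h1 : p ≤ 1) (x : Fin d → ℤ) : p ^ (∑ i, (x i).natAbs) ≤ tz d p x := by
  exact ZConB_low h0 h1 _ x rfl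

theorem norm_eq_nrm (x : Fin d → ℤ) : ‖x‖ = ((Finset.univ.sup fun i => (x i).natAbs : ℕ) : ℝ) := by
  have h1 : ∀ i, ‖x i‖ = ((x i).natAbs : ℝ) := fun i => by
    rw [Int.norm_eq_abs, Nat.cast_natAbs, Int.cast_abs]
  refine le_antisymm ?_ ?_
  · refine (pi_norm_le_iff_of_nonneg (Nat.cast_nonneg _)).2 fun i => ?_
    rw [h1]
    exact_mod_cast Finset.le_sup (f := fun i => (x i).natAbs) (Finset.mem_univ i)
  · have h2 : (Finset.univ.sup fun i => (x i).natAbs) ≤ ⌊‖x‖⌋₊ := by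
      refine Finset.sup_le fun i _ => Nat.le_floor ?_
      rw [← h1]
      exact norm_le_pi_norm x i
    exact (Nat.cast_le.2 h2).trans (Nat.floor_le (norm_nonneg x))

theorem Mo_tz {p C c : ℝ} (hc : 0 < c) (h0 : 0 ≤ p) (h1 : p ≤ 1) (h : ∀ x, tz d p x ≤ C * Real.exp (-c * ‖x‖)) (m : ℕ) :
    Mo m (tz d p) := by
  have hC : 0 ≤ C := by
    have h2 := h 0
    rw [tz_zero, norm_zero, mul_zero, Real.exp_zero, mul_one] at h2
    linarith
  refine Summable.of_nonneg_of_le (fun x => mul_nonneg (pow_nonneg (by linarith [norm_nonneg x]) _)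
    (abs_nonneg _)) (fun x => ?_) ((summable_inv d).mul_left
      (C * (Real.exp c * ((m + (d + 1)).factorial / c ^ (m + (d + 1))))))
  rw [abs_of_nonneg (tz_nonneg h0 h1 x)]
  have ht : 0 < 1 + ‖x‖ := by linarith [norm_nonneg x]
  have h2 : (c * (1 + ‖x‖)) ^ (m + (d + 1)) / (m + (d + 1)).factorial ≤ Real.exp (c * (1 + ‖x‖)) :=
    Real.pow_div_factorial_le_exp _ (mul_pos hc ht).le _
  have hf : (0 : ℝ) < (m + (d + 1)).factorial := by exact_mod_cast Nat.factorial_pos _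
  have hcp : 0 < c ^ (m + (d + 1)) := pow_pos hc _
  have h3 : (1 + ‖x‖) ^ (m + (d + 1)) * Real.exp (-c * ‖x‖) ≤
      Real.exp c * ((m + (d + 1)).factorial / c ^ (m + (d + 1))) := by
    rw [div_le_iff₀ hf, mul_pow] at h2
    have h4 : Real.exp (c * (1 + ‖x‖)) * Real.exp (-c * ‖x‖) = Real.exp c := by
      rw [← Real.exp_add]
      ring_nf
    have h5 := mul_le_mul_of_nonneg_right h2 (Real.exp_pos (-c * ‖x‖)).le
    rw [mul_div_assoc', le_div_iff₀ hcp]
    calc (1 + ‖x‖) ^ (m + (d + 1)) * Real.exp (-c * ‖x‖) * c ^ (m + (d + 1))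
        = c ^ (m + (d + 1)) * (1 + ‖x‖) ^ (m + (d + 1)) * Real.exp (-c * ‖x‖) := by ring
      _ ≤ Real.exp (c * (1 + ‖x‖)) * (m + (d + 1)).factorial * Real.exp (-c * ‖x‖) := h5
      _ = Real.exp (c * (1 + ‖x‖)) * Real.exp (-c * ‖x‖) * (m + (d + 1)).factorial := by ring
      _ = Real.exp c * (m + (d + 1)).factorial := by rw [h4]
  have h6 : (1 + ‖x‖) ^ m * Real.exp (-c * ‖x‖) ≤
      Real.exp c * ((m + (d + 1)).factorial / c ^ (m + (d + 1))) * ((1 + ‖x‖) ^ (d + 1))⁻¹ := by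
    rw [← div_eq_mul_inv, le_div_iff₀ (pow_pos ht _)]
    calc (1 + ‖x‖) ^ m * Real.exp (-c * ‖x‖) * (1 + ‖x‖) ^ (d + 1)
        = (1 + ‖x‖) ^ (m + (d + 1)) * Real.exp (-c * ‖x‖) := by rw [pow_add]; ring
      _ ≤ _ := h3
  calc (1 + ‖x‖) ^ m * tz d p x ≤ (1 + ‖x‖) ^ m * (C * Real.exp (-c * ‖x‖)) :=
        mul_le_mul_of_nonneg_left (h x) (pow_nonneg ht.le _)
    _ = C * ((1 + ‖x‖) ^ m * Real.exp (-c * ‖x‖)) := by ring
    _ ≤ C * (Real.exp c * ((m + (d + 1)).factorial / c ^ (m + (d + 1))) *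
          ((1 + ‖x‖) ^ (d + 1))⁻¹) := mul_le_mul_of_nonneg_left h6 hC
    _ = C * (Real.exp c * ((m + (d + 1)).factorial / c ^ (m + (d + 1)))) *
          ((1 + ‖x‖) ^ (d + 1))⁻¹ := by ring

end IPC.Fo
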