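import Mathlib
import Pool.Agent.Lib.MP_25e40f_pr.E.ZSym
import Pool.Agent.Lib.MP_25e40f_pr.B.Tau
import Pool.Agent.Lib.MP_25e40f_pr.E.ZConA

/-!
THIS JOB (ZConC): the theorems tz_eq.  (The header describes the whole group ZCon; the other theorems are in other jobs and may be imported.)

# Job ZCon: elementary facts on `tz`, `Vz`, `Pn`

PROOFS.
* `nn_eq`: `nn d z = ∑_i (del (z - e_i) + del (z + e_i))` is `1` if `z = ± e_i` for some `i` (exactly one of the `2d` vectors `± e_i` equals `z`) and `0` otherwise;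
  `y ∈ nbZ d x ↔ ∃ i s, (s = 1 ∨ s = -1) ∧ y = update x i (x i + s)` (`mem_nbZ`), i.e. `y - x = s e_i`.
* `cv_Pn`: `cv (Pn p) f x = ∑'_y p nn(y) f(x-y)`, finite support `nb 0` (`tsum_eq_sum`).
* `Vz_eq`: `cv_Pn` at `y - u`, the bijection `nb 0 ≃ nb u`, `v ↦ u + v` (`nb_add`), `tau_tr`.  `del d (y - u) = if u = y then 1 else 0`.
* `tz_le_Vz`: `T.tau_step` with `x = 0` and `Vz_eq`.
* `Vz_le`: `del ≤ tz` (`tz 0 = 1`); `p tau v y ≤ tau 0 v * tau v y ≤ tau 0 y` for `v ∈ nb 0` (`T.tau_nb`, `T.tau_trans`), `card (nb 0) ≤ 2 d`.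
* `tz_low`: induction on `∑ |x i|`: if `x ≠ 0` choose `i` with `x i ≠ 0` and let `x'` be `x` moved by one step towards `0` in the coordinate `i`; then
  `tau 0 x ≥ tau 0 x' * tau x' x ≥ p^(n-1) * p`.
* `card_nb`: `Finset.card_image_le`.
* `Mo_tz`: hypothesis `tau 0 x ≤ C exp(-c |x|)`; `(1+t)^m exp(-c t) ≤ C' (1+t)^(-(d+1))` for `t ≥ 0` (for instance `exp(c(1+t)) ≥ (c (1+t))^N / N!`, `N = m + d + 1`:
  `Real.pow_div_factorial_le_exp`) and `summable_inv` (E/MmtC.lean).  `nrm x` (natural number) is the sup norm: `norm_eq_nrm`.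
* `tz_eq`: `IPC.tau_exp` (B/Tau.lean) with `x = 0`: `tau 0 y = ∑'_u gg 0 u * (δ + ∑ ...)`, `Vz_eq`, so it is `∑'_u gz u * Vz (y - u) = cv gz Vz y = gz y + cv gz (cv (Pn p) tz) y`
  (`S1 gz`: then both parts are summable; `cv gz (del) = gz`).
-/

set_option autoImplicit false

noncomputable section

open Finset

namespace IPC.Fo

variable {d : ℕ}

theorem tz_eq {p : ℝ} (h0 : 0 ≤ p) (h1 : p ≤ 1) (hN : (Zg d).NoPerc p)
    (hfin : ∑' n, ∑' u, ZZ (Zg d) p n {0} Set.univ u ≠ ⊤) (hg : S1 (gz d p)) (x : Fin d → ℤ) :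
    tz d p x = gz d p x + cv (gz d p) (cv (Pn p) (tz d p)) x := by
  obtain ⟨hs, he⟩ := tau_exp (Zg d) h0 h1 hN (2 * d) card_nb 0 x hfin
  have h2 : ∀ u, gg (Zg d) p 0 u * ((if u = x then 1 else 0) +
      ∑ v ∈ (Zg d).nb u, p * (Zg d).tau p v x) =
      gz d p u * del d (x - u) + gz d p u * cv (Pn p) (tz d p) (x - u) := by
    intro u
    rw [← mul_add, ← Vz_eq h0 h1 u x]
    rfl
  rw [summable_congr h2] at hs
  rw [tsum_congr h2] at he
  have hd : Summable fun u => gz d p u * del d (x - u) := (cv_summable_inner hg S1_del x).of_abs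
  have hc : Summable fun u => gz d p u * cv (Pn p) (tz d p) (x - u) :=
    (hs.sub hd).congr fun u => add_sub_cancel_left _ _
  rw [hd.tsum_add hc] at he
  have h3 : ∑' u, gz d p u * del d (x - u) = gz d p x := congrFun (cv_del_right (gz d p)) x
  rw [h3] at he
  exact he

end IPC.Fo
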