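import Mathlib
import Pool.Agent.Lib.MP_25e40f_pr.E.ZConC
import Pool.Agent.Lib.MP_25e40f_pr.E.ZConB
import Pool.Agent.Lib.MP_25e40f_pr.E.BoxS
import Pool.Agent.Lib.MP_25e40f_pr.T.Cross
import Pool.Agent.Lib.MP_25e40f_pr.A.Att

/-!
# Job ZBox: the two point function in a box compared with the full one

PROOF of `box_diff_fin` (general graph `G`, finite `B ⊆ D`, `S` contains all vertices of `D` outside `B` adjacent to `B`).  Let `u, v ∈ B`.
`tauD p B u v = Pr p (ein D) (fun ω => Conn (ω ∩ ein B) u v)` (`T.tauD_Ln`).  So the difference is (increasing event minus smaller event, `Pr` additive: Pr of `A ∧ ¬ A'` with `A' → A`)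
`Pr p (ein D) (fun ω => Conn ω u v ∧ ¬ Conn (ω ∩ ein B) u v)`.  On this event there is `w ∈ S` with disjoint connections `u ↔ w` and `w ↔ v`: take a trail `Trail ω' u v`, `ω' ⊆ ω` (A/Trl.lean); if no vertex of the trail
is in `S`, then the trail starting at `u ∈ B` never leaves `B` (the first vertex outside `B` is adjacent to a vertex of `B`, in `D`, hence in `S`), so all its edges are in `ein B`: contradiction; so some vertex
`w ∈ S` is an endpoint of an edge of `ω'` and `Trail` splits at `w` (SPLIT lemma of A/Trl.lean) into edge disjoint trails.  Hence the event is contained in the union over `w ∈ S` of `Occ [Conn · u w, Conn · w v]`, BK (A/BK.lean, A/Occ.lean; `p ≤ 1/2`) and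
the union bound.  (See the proof of `T.crossing_vertex` in T/Cross.lean for the same argument.)
PROOF of `box_diff`: `box_diff_fin` with `D = Lam r ⊇ B ∪ S`, all terms of the right side are at most the full ones (`T.tauD_le_tau`), `r → ∞` (`T.tau_tendsto`).
PROOF of `box_diff_Z`: `B = bx d (2 R')`, `S = bx d (2 R' + 1) \ bx d (2 R')` (neighbours of points of the box are in the box of radius `2R'+1`: `nbZ_step`), `tau_tr`.
-/

set_option autoImplicit false

noncomputable section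

open Finset

namespace IPC.Fo

private theorem ZBox_trail {V : Type} [DecidableEq V] (G : PG V) {D B S : Finset V}
    (hS : ∀ y ∈ B, ∀ z ∈ G.nb y, z ∉ B → z ∈ D → z ∈ S) {u v : V} (hu : u ∈ B) {ω : Finset (Sym2 V)}
    (hω : ω ⊆ G.ein D) (h1 : Conn ω u v) (h2 : ¬ Conn (ω ∩ G.ein B) u v) :
    ∃ z ∈ S, ∃ ω₁ ω₂, ω₁ ⊆ ω ∧ ω₂ ⊆ ω ∧ Disjoint ω₁ ω₂ ∧ Conn ω₁ u z ∧ Conn ω₂ z v := by
  obtain ⟨ω', hω', ht⟩ := exists_trail h1
  obtain ⟨t, ht1, ht2⟩ : ∃ t ∈ VV ω', t ∉ B := by
    by_contra hc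
    push Not at hc
    apply h2
    refine Conn_mono (Finset.subset_inter hω' ?_) (Trail_conn ht)
    intro e he
    induction e using Sym2.ind with
    | _ a b =>
      have h3 := (T.mem_ein G).1 (hω (hω' he))
      refine (T.mem_ein G).2 ⟨h3.1, hc a ((mem_VV _ _).2 ⟨b, he⟩), hc b ((mem_VV _ _).2 ⟨a, ?_⟩)⟩
      rw [Sym2.eq_swap]
      exact he
  obtain ⟨ω₁, ω₂, hd, hun, t1, t2⟩ := Trail_split ht (Or.inr (Or.inr ht1))
  obtain ⟨y, hy, z, hz, ω₃, ω₄, g1, g2, g3, g4, g5, g6, -, g8, g9⟩ :=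
    T.Trail_exit t1 (S := (B : Set V)) (Finset.mem_coe.2 hu) (fun h => ht2 (Finset.mem_coe.1 h))
  have s1 : ω₁ ⊆ ω := (hun ▸ Finset.subset_union_left).trans hω'
  have s2 : ω₂ ⊆ ω := (hun ▸ Finset.subset_union_right).trans hω'
  have hyz := (T.mem_ein G).1 (hω (s1 g1))
  refine ⟨z, hS y (Finset.mem_coe.1 hy) z hyz.1 (fun h => hz (Finset.mem_coe.2 h)) hyz.2.2,
    insert s(y, z) ω₃, ω₄ ∪ ω₂, ?_, ?_, ?_, ?_, ?_⟩
  · exact Finset.insert_subset (s1 g1) (g2.trans s1)
  · exact Finset.union_subset (g3.trans s1) s2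
  · rw [Finset.disjoint_insert_left, Finset.disjoint_union_right]
    refine ⟨fun h => ?_, g4, (Finset.disjoint_of_subset_left g2 hd)⟩
    rcases Finset.mem_union.1 h with h | h
    · exact g6 h
    · exact Finset.disjoint_left.1 hd g1 h
  · exact Conn_trans (Conn_mono (Finset.subset_insert _ _) (Trail_conn g8))
      (Conn_edge (Finset.mem_insert_self _ _))
  · exact Conn_trans (Conn_mono Finset.subset_union_left (Trail_conn g9))
      (Conn_mono Finset.subset_union_right (Trail_conn t2))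

theorem box_diff_fin {V : Type} [DecidableEq V] (G : PG V) {p : ℝ} (h0 : 0 ≤ p) (h1 : p ≤ 1 / 2) {D B S : Finset V}
    (hB : B ⊆ D) (hS : ∀ y ∈ B, ∀ z ∈ G.nb y, z ∉ B → z ∈ D → z ∈ S) {u v : V} (hu : u ∈ B) (hv : v ∈ B) :
    G.tauD p D u v ≤ G.tauD p B u v + ∑ w ∈ S, G.tauD p D u w * G.tauD p D w v := by
  have hp1 : p ≤ 1 := by linarith
  have hsp := Pr_split p (G.ein D) (fun ω => Conn ω u v) (Ln (G.ein B) u v)
  have e0 : Pr p (G.ein D) (fun ω => Conn ω u v ∧ Ln (G.ein B) u v ω) ≤ G.tauD p B u v := by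
    rw [← T.tauD_Ln G p hB u v]
    exact Pr_mono h0 hp1 _ fun ω _ h => h.2
  have e1 : Pr p (G.ein D) (fun ω => Conn ω u v ∧ ¬ Ln (G.ein B) u v ω) ≤
      Pr p (G.ein D) (fun ω => ∃ z ∈ S, Occ [fun ω => Conn ω u z, fun ω => Conn ω z v] ω) := by
    refine Pr_mono h0 hp1 _ ?_
    rintro ω hω ⟨hc, hc'⟩
    obtain ⟨z, hz, ω₁, ω₂, g1, g2, g3, g4, g5⟩ := ZBox_trail G hS hu hω hc hc'
    refine ⟨z, hz, ?_⟩
    refine Occ_of_witness _ ω [ω₁, ω₂] rfl ?_ ?_ ?_
    · intro w hw
      simp only [List.mem_cons, List.not_mem_nil, or_false] at hw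
      rcases hw with rfl | rfl
      · exact g1
      · exact g2
    · refine List.Pairwise.cons ?_ (List.Pairwise.cons ?_ List.Pairwise.nil)
      · intro w hw
        simp only [List.mem_cons, List.not_mem_nil, or_false] at hw
        rcases hw with rfl
        exact g3
      · intro w hw
        exact absurd hw List.not_mem_nil
    · exact List.Forall₂.cons g4 (List.Forall₂.cons g5 List.Forall₂.nil)
  have e2 : Pr p (G.ein D) (fun ω => ∃ z ∈ S, Occ [fun ω => Conn ω u z, fun ω => Conn ω z v] ω) ≤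
      ∑ w ∈ S, G.tauD p D u w * G.tauD p D w v := by
    refine (Pr_exists_le h0 hp1 _ _ _).trans ?_
    refine Finset.sum_le_sum fun z _ => ?_
    refine (bk_list h0 h1 (G.ein D) _ ?_).trans (le_of_eq ?_)
    · intro A hA
      simp only [List.mem_cons, List.not_mem_nil, or_false] at hA
      rcases hA with rfl | rfl
      · exact Conn_inc _ _
      · exact Conn_inc _ _
    · rw [List.map_cons, List.map_cons, List.map_nil, List.prod_cons, List.prod_cons, List.prod_nil,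
        mul_one]
      rfl
  have e3 : G.tauD p D u v = Pr p (G.ein D) (fun ω => Conn ω u v) := rfl
  rw [e3, hsp]
  exact add_le_add e0 (e1.trans e2)

theorem box_diff {V : Type} [DecidableEq V] (G : PG V) {p : ℝ} (h0 : 0 ≤ p) (h1 : p ≤ 1 / 2) {B S : Finset V}
    (hS : ∀ y ∈ B, ∀ z ∈ G.nb y, z ∉ B → z ∈ S) {u v : V} (hu : u ∈ B) (hv : v ∈ B) :
    G.tau p u v ≤ G.tauD p B u v + ∑ w ∈ S, G.tau p u w * G.tau p w v := by
  have hp1 : p ≤ 1 := by linarith
  apply T.tau_le_of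
  intro D
  refine (T.tauD_mono_D G h0 hp1 (Finset.subset_union_left (s₁ := D) (s₂ := B)) u v).trans ?_
  refine (box_diff_fin G h0 h1 (Finset.subset_union_right (s₁ := D) (s₂ := B))
    (fun y hy z hz hzB _ => hS y hy z hz hzB) hu hv).trans ?_
  refine add_le_add le_rfl (Finset.sum_le_sum fun w _ => ?_)
  exact mul_le_mul (T.tauD_le_tau G h0 hp1 _ _ _) (T.tauD_le_tau G h0 hp1 _ _ _)
    (T.tauD_nonneg G h0 hp1 _ _ _) (T.tau_nonneg G h0 hp1 _ _)

theorem box_diff_Z (d : ℕ) {p : ℝ} (h0 : 0 ≤ p) (h1 : p ≤ 1 / 2) (r : ℕ) {u v : Fin d → ℤ} (hu : u ∈ bx d r)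
    (hv : v ∈ bx d r) : tz d p (v - u) ≤ (Zg d).tauD p (bx d r) u v +
      ∑ w ∈ bx d (r + 1) \ bx d r, tz d p (w - u) * tz d p (v - w) := by
  have hp1 : p ≤ 1 := by linarith
  have h2 := box_diff (Zg d) h0 h1 (B := bx d r) (S := bx d (r + 1) \ bx d r) (u := u) (v := v) ?_ hu hv
  · rw [tau_tr h0 hp1] at h2
    refine h2.trans (le_of_eq ?_)
    congr 1
    refine Finset.sum_congr rfl fun w _ => ?_
    rw [tau_tr h0 hp1, tau_tr h0 hp1]
  · intro y hy z hz hzB
    rw [Finset.mem_sdiff]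
    exact ⟨nbZ_step d r y hy hz, hzB⟩

end IPC.Fo
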