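import Mathlib
import Pool.Agent.Lib.MP_25e40f_pr.E.ZConC
import Pool.Agent.Lib.MP_25e40f_pr.E.ZConB
import Pool.Agent.Lib.MP_25e40f_pr.C.EDef
import Pool.Agent.Lib.MP_25e40f_pr.C.Kconv

/-!
THIS JOB (ZKtA): the theorems kt_oR_mono mm_oR tK_kt pK_kt rho_P row_P wt_rho.  (The header describes the whole group ZKt; the other theorems are in other jobs and may be imported.)

# Job ZKt: kernels with values in `[0, ∞]` and convolutions

`oR f x = ENNReal.ofReal (f x)`; `kt K x y = K (y - x)` (C/Kconv.lean), `mm` = product of kernels, `wt` = pointwise product, `ch4` = product of four kernels.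

PROOFS.
* `mm_oR`: `mm_kt`; `∑' z, ofReal (f z) * ofReal (g (w - z)) = ofReal (∑' z, f z * g (w - z))`: `ENNReal.ofReal_mul`, `ENNReal.ofReal_tsum_of_nonneg` (summable: `cv_summable_inner`, `of_abs`).
* `tK_kt`: `tau_tr`.  `pK_kt`: `nn_eq`.
* `rho_wgt`: symmetric: `|(y-x) e| = |(x-y) e|`.  Quasi triangle inequality with `a ↦ 2` and `c = (2a+1)^a`: for `s, t ≥ 0`: `(s+t)^a ≤ 2 s^a + (2a+1)^a t^a`: if `2 a t ≤ s` (a ≥ 1) then `(s+t)^a ≤ s^a (1 + 1/(2a))^a ≤ 2 s^a`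
  (`(1+1/(2a))^a ≤ exp(1/2) ≤ 2`: `Real.add_one_le_exp`, `Real.exp_one_lt_d9`...), otherwise `s < 2 a t` and `(s+t)^a ≤ ((2a+1) t)^a`.  `a = 0`: `1 ≤ 2 + 1`.
* `rho_P`: if `nn (z - x) ≠ 0` then `|(z-x) e| ≤ 1`.
* `row_P`: `∑' y, ofReal (p nn (y-x)) = ofReal (2 d p)`.
* `wt_rho`: `a` even: `|x e|^a f x = (x e)^a f x` (`Even.pow_abs`), `ENNReal.ofReal_mul`.
* `EB_dia`: `EB_of_kt` (C/Kconv.lean) with `W = oR V`, `F x = ofReal (|x e|^a)`, `G`: the four chains are `kt (oR (cv .. ))` by `mm_oR` (`ch4` unfold), bounded by the hypothesis (`mo e 0 V = V`,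
  `ENNReal.ofReal_le_ofReal`); order of factors: `cv (mo e a V) (cv (mo e b V) (cv V V))`.
* `Ker_z`: `symm`: `tau_symm`; `one`: `tau_self`; `le_one`; `step`: `T.tau_step` for `x ≠ y` and `mm P ta x y = ∑'_z P x z ta z y = ∑_(z ∈ nb x) ...`; `q4`: hypothesis.
-/

set_option autoImplicit false

noncomputable section

open Finset
open scoped ENNReal

namespace IPC.Fo

variable {d : ℕ}

/-- values in `[0, ∞]` -/
def oR (f : (Fin d → ℤ) → ℝ) : (Fin d → ℤ) → ENNReal := fun x => ENNReal.ofReal (f x)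

theorem kt_oR_mono {f g : (Fin d → ℤ) → ℝ} (h : ∀ x, f x ≤ g x) (x y : Fin d → ℤ) :
    kt (oR f) x y ≤ kt (oR g) x y := by
  rw [kt_apply, kt_apply]
  exact ENNReal.ofReal_le_ofReal (h _)

theorem mm_oR {f g : (Fin d → ℤ) → ℝ} (hf : S1 f) (hg : S1 g) (f0 : ∀ x, 0 ≤ f x) (g0 : ∀ x, 0 ≤ g x) :
    mm (kt (oR f)) (kt (oR g)) = kt (oR (cv f g)) := by
  rw [mm_kt]
  refine congrArg kt ?_
  funext w
  have hs : Summable fun z => f z * g (w - z) := (cv_summable_inner hf hg w).of_abs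
  have h2 : oR (cv f g) w = ENNReal.ofReal (∑' z, f z * g (w - z)) := rfl
  rw [h2, ENNReal.ofReal_tsum_of_nonneg (fun z => mul_nonneg (f0 z) (g0 (w - z))) hs]
  refine tsum_congr fun z => ?_
  have h3 : oR f z = ENNReal.ofReal (f z) := rfl
  have h4 : oR g (w - z) = ENNReal.ofReal (g (w - z)) := rfl
  rw [h3, h4, ENNReal.ofReal_mul (f0 z)]

theorem tK_kt {p : ℝ} (h0 : 0 ≤ p) (h1 : p ≤ 1) : CE.tK (Zg d) p = kt (oR (tz d p)) := by
  funext x y
  have h2 : kt (oR (tz d p)) x y = ENNReal.ofReal (tz d p (y - x)) := rfl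
  have h3 : CE.tK (Zg d) p x y = ENNReal.ofReal ((Zg d).tau p x y) := rfl
  rw [h2, h3, tau_tr h0 h1]

theorem pK_kt (p : ℝ) : CE.pK (Zg d) p = kt (oR (Pn p)) := by
  funext x y
  have h2 : kt (oR (Pn p)) x y = ENNReal.ofReal (p * nn d (y - x)) := rfl
  have h3 : CE.pK (Zg d) p x y = if y ∈ (Zg d).nb x then ENNReal.ofReal p else 0 := rfl
  rw [h2, h3, nn_eq]
  by_cases h : y ∈ (Zg d).nb x
  · rw [if_pos h, if_pos h, mul_one]
  · rw [if_neg h, if_neg h, mul_zero, ENNReal.ofReal_zero]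

/-- the weight `|x_e - y_e|^a` -/
def rho (e : Fin d) (a : ℕ) : (Fin d → ℤ) → (Fin d → ℤ) → ENNReal := kt fun x => ENNReal.ofReal (|(x e : ℝ)| ^ a)

theorem rho_P (e : Fin d) (a : ℕ) (p : ℝ) (x z : Fin d → ℤ) :
    CE.pK (Zg d) p x z * rho e a x z ≤ 1 * CE.pK (Zg d) p x z := by
  have h3 : CE.pK (Zg d) p x z = if z ∈ (Zg d).nb x then ENNReal.ofReal p else 0 := rfl
  rw [h3]
  by_cases h : z ∈ (Zg d).nb x
  · rw [if_pos h, one_mul]
    have h4 : rho e a x z ≤ 1 := by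
      have h5 : rho e a x z = ENNReal.ofReal (|((z - x) e : ℝ)| ^ a) := rfl
      have h6 : |(((z - x) e : ℤ) : ℝ)| ≤ 1 := by
        have h7 : z ∈ nbZ d x := h
        rw [mem_nbZ] at h7
        obtain ⟨i, s, hs, hz⟩ := h7
        have h8 : |(z - x) e| ≤ 1 := by
          rw [hz, Pi.sub_apply]
          by_cases hi : e = i
          · subst hi
            rw [Function.update_self, add_sub_cancel_left]
            rcases hs with hs | hs <;> rw [hs] <;> decide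
          · rw [Function.update_of_ne hi, sub_self, abs_zero]
            exact zero_le_one
        have h9 : ((|(z - x) e| : ℤ) : ℝ) ≤ ((1 : ℤ) : ℝ) := Int.cast_le.mpr h8
        rw [Int.cast_abs, Int.cast_one] at h9
        exact h9
      rw [h5]
      refine ENNReal.ofReal_le_one.mpr ?_
      exact pow_le_one₀ (abs_nonneg _) h6
    calc ENNReal.ofReal p * rho e a x z ≤ ENNReal.ofReal p * 1 := by gcongr
      _ = ENNReal.ofReal p := mul_one _
  · rw [if_neg h, zero_mul, mul_zero]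

theorem row_P {p : ℝ} (x : Fin d → ℤ) : ∑' y, CE.pK (Zg d) p x y ≤ ENNReal.ofReal (2 * d * p) := by
  have h1 : ∑' y, CE.pK (Zg d) p x y = ∑ y ∈ (Zg d).nb x, CE.pK (Zg d) p x y := by
    refine tsum_eq_sum fun y hy => ?_
    exact if_neg hy
  have h2 : ∑ y ∈ (Zg d).nb x, CE.pK (Zg d) p x y = ∑ y ∈ (Zg d).nb x, ENNReal.ofReal p := by
    refine Finset.sum_congr rfl fun y hy => ?_
    exact if_pos hy
  rw [h1, h2, Finset.sum_const, nsmul_eq_mul]
  have h3 : (((Zg d).nb x).card : ENNReal) ≤ ((2 * d : ℕ) : ENNReal) := Nat.cast_le.mpr (card_nb x)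
  have h4 : ENNReal.ofReal (2 * d * p) = ((2 * d : ℕ) : ENNReal) * ENNReal.ofReal p := by
    rw [ENNReal.ofReal_mul (by positivity)]
    congr 1
    rw [← ENNReal.ofReal_natCast, Nat.cast_mul, Nat.cast_ofNat]
  rw [h4]
  gcongr

theorem wt_rho (e : Fin d) {a : ℕ} (ha : Even a) {f : (Fin d → ℤ) → ℝ} (f0 : ∀ x, 0 ≤ f x) :
    wt (rho e a) (kt (oR f)) = kt (oR (mo e a f)) := by
  have h1 : wt (rho e a) (kt (oR f)) =
      kt (fun z => ENNReal.ofReal (|(z e : ℝ)| ^ a) * oR f z) := rfl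
  rw [h1]
  refine congrArg kt ?_
  funext z
  have h2 : oR f z = ENNReal.ofReal (f z) := rfl
  have h3 : oR (mo e a f) z = ENNReal.ofReal ((z e : ℝ) ^ a * f z) := rfl
  rw [h2, h3, ← ENNReal.ofReal_mul (by positivity), Even.pow_abs ha]

end IPC.Fo
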