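import Mathlib
import Pool.Agent.Lib.MP_25e40f_pr.E.ZConC
import Pool.Agent.Lib.MP_25e40f_pr.E.ZConB
import Pool.Agent.Lib.MP_25e40f_pr.C.EDef
import Pool.Agent.Lib.MP_25e40f_pr.C.Kconv
import Pool.Agent.Lib.MP_25e40f_pr.E.ZKtA

/-!
THIS JOB (ZKtB): the theorems rho_wgt.  (The header describes the whole group ZKt; the other theorems are in other jobs and may be imported.)

# Job ZKt: kernels with values in `[0, ∞]` and convolutions

`oR f x = ENNReal.ofReal (f x)`; `kt K x y = K (y - x)` (C/Kconv.lean), `mm` = product of kernels, `wt` = pointwise product, `ch4` = product of four kernels.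

PROOFS.
* `mm_oR`: `mm_kt`; `∑' z, ofReal (f z) * ofReal (g (w - z)) = ofReal (∑' z, f z * g (w - z))`: `ENNReal.ofReal_mul`, `ENNReal.ofReal_tsum_of_nonneg` (summable: `cv_summable_inner`, `of_abs`).
* `tK_kt`: `tau_tr`.  `pK_kt`: `nn_eq`.
* `rho_wgt`: symmetric: `|(y-x) e| = |(x-y) e|`.  Quasi triangle inequality with `a ↦ 2` and `c = (2a+1)^a`: for `s, t ≥ 0`: `(s+t)^a ≤ 2 s^a + (2a+1)^a t^a`: if `2 a t ≤ s` (a ≥ 1) then `(s+t)^a ≤ s^a (1 + 1/(2a))^a ≤ 2 s^a`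
  (`(1+1/(2a))^a ≤ exp(1/2) ≤ 2`: `Real.add_one_le_exp`, `Real.exp_one_lt_d9`...), otherwise `s < 2 a t` and `(s+t)^a ≤ ((2a+1) t)^a`.  `a = 0`: `1 ≤ 2 + 1`.
* `rho_P`: if `nn (z - x) ≠ 0` then `|(z-x) e| ≤ 1`.
* `row_P`: `∑' y, ofReal (p nn (y-x)) = ofReal (2 d p)`.
* `wt_rho`: `a` even: `|x e|^a f x = (x e)^a f x` (`Even.pow_abs`), `ENNReal.ofReal_mul`.
* `EB_dia`: `EB_of_kt` (C/Kconv.lean) with `W = oR V`, `F x = ofReal (|x e|^a)`, `G`: the four chains are `kt (oR (cv .. ))` by `mm_oR` (`ch4` unfold), bounded by the hypothesis (`mo e 0 V = V`,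
  `ENNReal.ofReal_le_ofReal`); order of factors: `cv (mo e a V) (cv (mo e b V) (cv V V))`.
* `Ker_z`: `symm`: `tau_symm`; `one`: `tau_self`; `le_one`; `step`: `T.tau_step` for `x ≠ y` and `mm P ta x y = ∑'_z P x z ta z y = ∑_(z ∈ nb x) ...`; `q4`: hypothesis.
-/

set_option autoImplicit false

noncomputable section

open Finset
open scoped ENNReal

namespace IPC.Fo

variable {d : ℕ}

/-- the quasi triangle inequality for powers of real numbers -/
private theorem zktb_real (a : ℕ) {s t : ℝ} (hs : 0 ≤ s) (ht : 0 ≤ t) :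
    (s + t) ^ a ≤ 2 * s ^ a + (2 * (a : ℝ) + 1) ^ a * t ^ a := by
  rcases Nat.eq_zero_or_pos a with ha | ha
  · subst ha
    norm_num
  have ha0 : (0 : ℝ) < a := by exact_mod_cast ha
  by_cases h : 2 * (a : ℝ) * t ≤ s
  · have h1 : s + t ≤ s * (1 + 1 / (2 * a)) := by
      have h2 : t ≤ s * (1 / (2 * a)) := by
        rw [mul_one_div, le_div_iff₀ (by positivity)]
        linarith
      linarith
    have h3 : (1 + 1 / (2 * (a : ℝ))) ^ a ≤ 2 := by
      have h4 : 1 + 1 / (2 * (a : ℝ)) ≤ Real.exp (1 / (2 * a)) := by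
        have := Real.add_one_le_exp (1 / (2 * (a : ℝ)))
        linarith
      have h5 : (1 + 1 / (2 * (a : ℝ))) ^ a ≤ Real.exp (1 / (2 * a)) ^ a :=
        pow_le_pow_left₀ (by positivity) h4 a
      have h6 : Real.exp (1 / (2 * (a : ℝ))) ^ a = Real.exp (1 / 2) := by
        rw [← Real.exp_nat_mul]
        congr 1
        field_simp
      have h7 : Real.exp (1 / 2 : ℝ) ≤ 2 := by
        have h8 : Real.exp (1 / 2 : ℝ) ^ 2 = Real.exp 1 := by
          rw [← Real.exp_nat_mul]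
          norm_num
        have h9 : Real.exp (1 / 2 : ℝ) ^ 2 ≤ 2 ^ 2 := by
          rw [h8]
          have := Real.exp_one_lt_d9
          linarith
        exact (pow_le_pow_iff_left₀ (Real.exp_pos _).le (by norm_num) (by norm_num)).1 h9
      rw [h6] at h5
      exact h5.trans h7
    have h10 : 0 ≤ (2 * (a : ℝ) + 1) ^ a * t ^ a := by positivity
    calc (s + t) ^ a ≤ (s * (1 + 1 / (2 * a))) ^ a := pow_le_pow_left₀ (by positivity) h1 a
      _ = s ^ a * (1 + 1 / (2 * (a : ℝ))) ^ a := mul_pow _ _ _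
      _ ≤ s ^ a * 2 := mul_le_mul_of_nonneg_left h3 (by positivity)
      _ ≤ 2 * s ^ a + (2 * (a : ℝ) + 1) ^ a * t ^ a := by linarith
  · have h1 : s + t ≤ (2 * a + 1) * t := by
      have := not_le.1 h
      linarith
    have h10 : 0 ≤ 2 * s ^ a := by positivity
    calc (s + t) ^ a ≤ ((2 * a + 1) * t) ^ a := pow_le_pow_left₀ (by positivity) h1 a
      _ = (2 * (a : ℝ) + 1) ^ a * t ^ a := mul_pow _ _ _
      _ ≤ 2 * s ^ a + (2 * (a : ℝ) + 1) ^ a * t ^ a := by linarith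

theorem rho_wgt (e : Fin d) (a : ℕ) : Wgt (rho e a) 2 ((2 * (a : ℝ≥0∞) + 1) ^ a) := by
  refine ⟨fun x y => ?_, fun x y z => ?_, by norm_num⟩
  · unfold rho
    rw [kt_apply, kt_apply]
    have h1 : |(((y - x) e : ℤ) : ℝ)| = |(((x - y) e : ℤ) : ℝ)| := by
      rw [Pi.sub_apply, Pi.sub_apply]
      push_cast
      exact abs_sub_comm _ _
    rw [h1]
  · unfold rho
    rw [kt_apply, kt_apply, kt_apply]
    have h1 : |(((z - x) e : ℤ) : ℝ)| ≤ |(((z - y) e : ℤ) : ℝ)| + |(((y - x) e : ℤ) : ℝ)| := by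
      rw [Pi.sub_apply, Pi.sub_apply, Pi.sub_apply]
      push_cast
      exact abs_sub_le _ _ _
    have h2 : |(((z - x) e : ℤ) : ℝ)| ^ a ≤ 2 * |(((z - y) e : ℤ) : ℝ)| ^ a +
        (2 * (a : ℝ) + 1) ^ a * |(((y - x) e : ℤ) : ℝ)| ^ a :=
      (pow_le_pow_left₀ (abs_nonneg _) h1 a).trans
        (zktb_real a (abs_nonneg _) (abs_nonneg _))
    have h3 : ENNReal.ofReal ((2 * (a : ℝ) + 1) ^ a) = (2 * (a : ℝ≥0∞) + 1) ^ a := by
      rw [ENNReal.ofReal_pow (by positivity), ENNReal.ofReal_add (by positivity) (by norm_num),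
        ENNReal.ofReal_mul (by norm_num), ENNReal.ofReal_natCast, ENNReal.ofReal_one,
        ENNReal.ofReal_ofNat]
    calc ENNReal.ofReal (|(((z - x) e : ℤ) : ℝ)| ^ a)
        ≤ ENNReal.ofReal (2 * |(((z - y) e : ℤ) : ℝ)| ^ a +
          (2 * (a : ℝ) + 1) ^ a * |(((y - x) e : ℤ) : ℝ)| ^ a) := ENNReal.ofReal_le_ofReal h2
      _ = 2 * ENNReal.ofReal (|(((z - y) e : ℤ) : ℝ)| ^ a) +
          (2 * (a : ℝ≥0∞) + 1) ^ a * ENNReal.ofReal (|(((y - x) e : ℤ) : ℝ)| ^ a) := by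
        rw [ENNReal.ofReal_add (by positivity) (by positivity), ENNReal.ofReal_mul (by norm_num),
          ENNReal.ofReal_mul (by positivity), h3, ENNReal.ofReal_ofNat]

end IPC.Fo
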