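import Mathlib
import Pool.Agent.Lib.MP_25e40f_pr.E.ZConC
import Pool.Agent.Lib.MP_25e40f_pr.E.ZConB
import Pool.Agent.Lib.MP_25e40f_pr.C.EDef
import Pool.Agent.Lib.MP_25e40f_pr.C.Kconv
import Pool.Agent.Lib.MP_25e40f_pr.E.ZKtA
import Pool.Agent.Lib.MP_25e40f_pr.E.ZKtB

/-!
THIS JOB (ZKtC): the theorems EB_dia Ker_z.  (The header describes the whole group ZKt; the other theorems are in other jobs and may be imported.)

# Job ZKt: kernels with values in `[0, ∞]` and convolutions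

`oR f x = ENNReal.ofReal (f x)`; `kt K x y = K (y - x)` (C/Kconv.lean), `mm` = product of kernels, `wt` = pointwise product, `ch4` = product of four kernels.

PROOFS.
* `mm_oR`: `mm_kt`; `∑' z, ofReal (f z) * ofReal (g (w - z)) = ofReal (∑' z, f z * g (w - z))`: `ENNReal.ofReal_mul`, `ENNReal.ofReal_tsum_of_nonneg` (summable: `cv_summable_inner`, `of_abs`).
* `tK_kt`: `tau_tr`.  `pK_kt`: `nn_eq`.
* `rho_wgt`: symmetric: `|(y-x) e| = |(x-y) e|`.  Quasi triangle inequality with `a ↦ 2` and `c = (2a+1)^a`: for `s, t ≥ 0`: `(s+t)^a ≤ 2 s^a + (2a+1)^a t^a`: if `2 a t ≤ s` (a ≥ 1) then `(s+t)^a ≤ s^a (1 + 1/(2a))^a ≤ 2 s^a`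
  (`(1+1/(2a))^a ≤ exp(1/2) ≤ 2`: `Real.add_one_le_exp`, `Real.exp_one_lt_d9`...), otherwise `s < 2 a t` and `(s+t)^a ≤ ((2a+1) t)^a`.  `a = 0`: `1 ≤ 2 + 1`.
* `rho_P`: if `nn (z - x) ≠ 0` then `|(z-x) e| ≤ 1`.
* `row_P`: `∑' y, ofReal (p nn (y-x)) = ofReal (2 d p)`.
* `wt_rho`: `a` even: `|x e|^a f x = (x e)^a f x` (`Even.pow_abs`), `ENNReal.ofReal_mul`.
* `EB_dia`: `EB_of_kt` (C/Kconv.lean) with `W = oR V`, `F x = ofReal (|x e|^a)`, `G`: the four chains are `kt (oR (cv .. ))` by `mm_oR` (`ch4` unfold), bounded by the hypothesis (`mo e 0 V = V`,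
  `ENNReal.ofReal_le_ofReal`); order of factors: `cv (mo e a V) (cv (mo e b V) (cv V V))`.
* `Ker_z`: `symm`: `tau_symm`; `one`: `tau_self`; `le_one`; `step`: `T.tau_step` for `x ≠ y` and `mm P ta x y = ∑'_z P x z ta z y = ∑_(z ∈ nb x) ...`; `q4`: hypothesis.
-/

set_option autoImplicit false

noncomputable section

open Finset
open scoped ENNReal

namespace IPC.Fo

variable {d : ℕ}

private theorem ZKtC_ch4 {f g V : (Fin d → ℤ) → ℝ} (hf : S1 f) (hg : S1 g) (hV : S1 V) (f0 : ∀ x, 0 ≤ f x)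
    (g0 : ∀ x, 0 ≤ g x) (V0 : ∀ x, 0 ≤ V x) (x y : Fin d → ℤ) :
    ch4 (kt (oR f)) (kt (oR g)) (kt (oR V)) (kt (oR V)) x y = ENNReal.ofReal (cv f (cv g (cv V V)) (y - x)) := by
  unfold ch4
  rw [mm_oR hV hV V0 V0, mm_oR hg (hV.cv hV) g0 (cv_nonneg V0 V0),
    mm_oR hf (hg.cv (hV.cv hV)) f0 (cv_nonneg g0 (cv_nonneg V0 V0))]
  rfl

theorem EB_dia {p : ℝ} (h0 : 0 ≤ p) (h1 : p ≤ 1) {V : (Fin d → ℤ) → ℝ} (V0 : ∀ x, 0 ≤ V x)
    (hV : ∀ x, tz d p x ≤ V x) {m : ℕ} (mV : Mo m V) (e : Fin d) {a b : ℕ} (ha : Even a) (hb : Even b) (ham : a ≤ m)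
    (hbm : b ≤ m) {K : ℝ}
    (hK : ∀ a' b', (a' = 0 ∨ a' = a) → (b' = 0 ∨ b' = b) → ∀ x,
      |cv (mo e a' V) (cv (mo e b' V) (cv V V)) x| ≤ K) :
    EB (CE.tK (Zg d) p) (rho e a) (rho e b) (ENNReal.ofReal K) := by
  have sV : S1 V := mV.s1
  have sa : S1 (mo e a V) := (Mo.mo (m := 0) (a := a) (mV.mono (by omega)) e).s1
  have sb : S1 (mo e b V) := (Mo.mo (m := 0) (a := b) (mV.mono (by omega)) e).s1
  have na : ∀ x, 0 ≤ mo e a V x := fun x => mul_nonneg (ha.pow_nonneg _) (V0 x)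
  have nb : ∀ x, 0 ≤ mo e b V x := fun x => mul_nonneg (hb.pow_nonneg _) (V0 x)
  have wa : wt (rho e a) (kt (oR V)) = kt (oR (mo e a V)) := wt_rho e ha V0
  have wb : wt (rho e b) (kt (oR V)) = kt (oR (mo e b V)) := wt_rho e hb V0
  have fin : ∀ {t : ℝ}, |t| ≤ K → ENNReal.ofReal t ≤ ENNReal.ofReal K := fun h =>
    ENNReal.ofReal_le_ofReal ((le_abs_self _).trans h)
  have key : EB (CE.tK (Zg d) p) (kt fun x => ENNReal.ofReal (|(x e : ℝ)| ^ a))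
      (kt fun x => ENNReal.ofReal (|(x e : ℝ)| ^ b)) (ENNReal.ofReal K) := by
    refine EB_of_kt (W := oR V) (fun x y => ?_) (fun x y => ?_) (fun x y => ?_) (fun x y => ?_) (fun x y => ?_)
    · rw [tK_kt h0 h1]
      exact kt_oR_mono hV x y
    · rw [ZKtC_ch4 sV sV sV V0 V0 V0]
      refine fin ?_
      have h := hK 0 0 (Or.inl rfl) (Or.inl rfl) (y - x)
      rwa [mo_zero] at h
    · change ch4 (wt (rho e a) (kt (oR V))) (kt (oR V)) (kt (oR V)) (kt (oR V)) x y ≤ _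
      rw [wa, ZKtC_ch4 sa sV sV na V0 V0]
      refine fin ?_
      have h := hK a 0 (Or.inr rfl) (Or.inl rfl) (y - x)
      rwa [mo_zero] at h
    · change ch4 (wt (rho e b) (kt (oR V))) (kt (oR V)) (kt (oR V)) (kt (oR V)) x y ≤ _
      rw [wb, ZKtC_ch4 sb sV sV nb V0 V0]
      refine fin ?_
      have h := hK 0 b (Or.inl rfl) (Or.inr rfl) (y - x)
      rw [mo_zero] at h
      have h2 : cv (mo e b V) (cv V (cv V V)) = cv V (cv (mo e b V) (cv V V)) := by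
        rw [← cv_assoc sb sV (sV.cv sV), cv_comm (mo e b V) V, cv_assoc sV sb (sV.cv sV)]
      rwa [h2]
    · change ch4 (wt (rho e a) (kt (oR V))) (wt (rho e b) (kt (oR V))) (kt (oR V)) (kt (oR V)) x y ≤ _
      rw [wa, wb, ZKtC_ch4 sa sb sV na nb V0]
      exact fin (hK a b (Or.inr rfl) (Or.inr rfl) (y - x))
  exact key

theorem Ker_z {p : ℝ} (h0 : 0 ≤ p) (h1 : p ≤ 1 / 2) {q : ℝ≥0∞}
    (h : ∀ x y, ch4 (mm (CE.pK (Zg d) p) (CE.tK (Zg d) p)) (CE.tK (Zg d) p) (CE.tK (Zg d) p) (CE.tK (Zg d) p) x y ≤ q) :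
    Ker (CE.tK (Zg d) p) (CE.pK (Zg d) p) q := by
  have h1' : p ≤ 1 := by linarith
  refine ⟨fun x y => ?_, fun x => ?_, fun x y => ?_, fun x y hxy => ?_, h⟩
  · unfold CE.tK
    rw [T.tau_symm]
  · unfold CE.tK
    rw [T.tau_self, ENNReal.ofReal_one]
  · unfold CE.tK
    exact ENNReal.ofReal_le_one.2 (T.tau_le_one _ h0 h1' x y)
  · have h2 := T.tau_step (Zg d) h0 h1 x y
    rw [if_neg hxy, zero_add] at h2
    rw [mm_apply]
    have h3 : ∑' z, CE.pK (Zg d) p x z * CE.tK (Zg d) p z y =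
        ∑ z ∈ (Zg d).nb x, ENNReal.ofReal (p * (Zg d).tau p z y) := by
      rw [tsum_eq_sum (s := (Zg d).nb x)]
      · refine Finset.sum_congr rfl fun z hz => ?_
        unfold CE.pK CE.tK
        rw [if_pos hz, ENNReal.ofReal_mul h0]
      · intro z hz
        unfold CE.pK
        rw [if_neg hz, zero_mul]
    rw [h3, ← ENNReal.ofReal_sum_of_nonneg fun z _ => mul_nonneg h0 (T.tau_nonneg _ h0 h1' z y)]
    exact ENNReal.ofReal_le_ofReal h2

end IPC.Fo
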