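import Mathlib
import Pool.Agent.Lib.MP_25e40f_pr.E.ZKtC
import Pool.Agent.Lib.MP_25e40f_pr.C.EInd
import Pool.Agent.Lib.MP_25e40f_pr.C.Kbd

/-!
THIS JOB (ZMomA): the theorems gz_le gz_one.  (The header describes the whole group ZMom; the other theorems are in other jobs and may be imported.)

# Job ZMom: moments of the coefficients `g`

PROOFS.  Notation `ta = tK`, `P = pK`, `w : V → [0, ∞]`.
* `gz_le`: `gF_weight` (B/Tau.lean): `∑' u, w u * ofReal |gz u| ≤ ∑' n, ∑' u, w u * ZZ n {0} univ u`; the term `n = 0` is at most `∑' u, w u * (ta 0 u * ta 0 u)` (`CE.ZZs_zero` with `F = {0}`), the terms `n + 1` are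
  at most `KS ta P w n 0 0` (`CE.ZZs_le`), and `∑' n, KS ta P w n 0 0 ≤ ∑' n, 2^(-n) B = 2 B` if `2^n * KS ta P w n 0 0 ≤ B` (`ENNReal.tsum_mul_right`, geometric series `ENNReal.tsum_geometric`).
  (`tsum_eq_zero_add'`-type splitting in `ENNReal`: `ENNReal.summable.tsum_eq_zero_add`.)
* `ZZ_fin`, `gz_one`: `w = 1`: `Ker.KS_one` gives `B = 48 q`; `∑' u, ta 0 u * ta 0 u ≤ 1 + q` (`Ker.bub` or `Ker.zero_one`); total `≤ 1 + q + 96 q ≤ 2`.  In real numbers: `ENNReal.tsum ofReal ≤ 2` gives summability and the bound.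
* `gz_two`: `w u = rho e a 0 u * rho e b 0 u = ofReal (|u e|^(a+b))`, `B = C` from `Ker.KS_EB_unif` with `q` (fixed), `a1 = a2 = 2`, `c1, c2` from `rho_wgt`, `k = 1`, `CP = ofReal (2 d)`, `X = ofReal K`; the term `n = 0` is at most `X` by
  `zero_fg`.  `1000 * (2 * 2 * q) ≤ 1` is the hypothesis.
* `gz_D2`: the same with `Ker.KS_D2` (explicit constant) and `f = rho e 2` (zero on the diagonal; `rho_wgt e 2`: `a = 2`, `c = 25`), and the chain `ch4 ta (wt f (mm P ta)) ta ta` is equal to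
  `ch4 (wt f (mm P ta)) ta ta ta` since translation invariant kernels commute (`mm_kt_comm`); `CP = ofReal (2 d) + 1`; term `n = 0`: `Ker.zero_f`.
-/

set_option autoImplicit false

noncomputable section

open Finset
open scoped ENNReal

namespace IPC.Fo

variable {d : ℕ}

private theorem ZMomA_geo (B : ℝ≥0∞) : ∑' n : ℕ, B * (2⁻¹ : ℝ≥0∞) ^ n = 2 * B := by
  rw [ENNReal.tsum_mul_left, ENNReal.tsum_geometric, ENNReal.one_sub_inv_two, inv_inv, mul_comm]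

private theorem ZMomA_le {B K : ℝ≥0∞} {n : ℕ} (h : 2 ^ n * K ≤ B) : K ≤ B * (2⁻¹ : ℝ≥0∞) ^ n := by
  have h2 : (2 : ℝ≥0∞) ^ n ≠ 0 := pow_ne_zero n (by norm_num)
  have h3 : (2 : ℝ≥0∞) ^ n ≠ ⊤ := ENNReal.pow_ne_top (by norm_num)
  have h4 : K ≤ B / 2 ^ n := by
    rw [ENNReal.le_div_iff_mul_le (Or.inl h2) (Or.inl h3), mul_comm]
    exact h
  rw [ENNReal.div_eq_inv_mul, ENNReal.inv_pow, mul_comm] at h4
  exact h4

theorem gz_le {p : ℝ} (h0 : 0 ≤ p) (h1 : p ≤ 1 / 2) (w : (Fin d → ℤ) → ℝ≥0∞) {A B : ℝ≥0∞}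
    (hA : ∑' u, w u * (CE.tK (Zg d) p 0 u * CE.tK (Zg d) p 0 u) ≤ A)
    (hB : ∀ n, 2 ^ n * KS (CE.tK (Zg d) p) (CE.pK (Zg d) p) w n 0 0 ≤ B) :
    ∑' u, w u * ENNReal.ofReal |gz d p u| ≤ A + 2 * B ∧
      ∑' n, ∑' u, w u * ZZ (Zg d) p n {0} Set.univ u ≤ A + 2 * B := by
  have hsum : ∑' n, ∑' u, w u * ZZ (Zg d) p n {0} Set.univ u ≤ A + 2 * B := by
    rw [tsum_eq_zero_add' ENNReal.summable]
    refine add_le_add ?_ ?_
    · refine le_trans (ENNReal.tsum_le_tsum fun u => ?_) hA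
      refine mul_le_mul' le_rfl ?_
      have h2 := CE.ZZs_zero (Zg d) h0 h1 (Finset.singleton_nonempty (0 : Fin d → ℤ)) u
      rw [Finset.sum_singleton, Finset.sum_singleton] at h2
      exact h2
    · rw [← ZMomA_geo B]
      refine ENNReal.tsum_le_tsum fun n => ?_
      have h2 := CE.ZZs_le (Zg d) h0 h1 w n {(0 : Fin d → ℤ)}
      rw [Finset.sum_singleton, Finset.sum_singleton] at h2
      exact h2.trans (ZMomA_le (hB n))
  refine ⟨le_trans ?_ hsum, hsum⟩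
  exact gF_weight (Zg d) p {0} w

theorem gz_one {p : ℝ} (h0 : 0 ≤ p) (h1 : p ≤ 1 / 2) {q : ℝ≥0∞} (hq : 1000 * q ≤ 1)
    (H : Ker (CE.tK (Zg d) p) (CE.pK (Zg d) p) q) :
    S1 (gz d p) ∧ ∑' x, |gz d p x| ≤ 2 ∧ ∑' n, ∑' u, ZZ (Zg d) p n {0} Set.univ u ≠ ⊤ := by
  have hA : ∑' u, (fun _ : Fin d → ℤ => (1 : ℝ≥0∞)) u * (CE.tK (Zg d) p 0 u * CE.tK (Zg d) p 0 u) ≤
      1 + q := by
    refine le_trans (le_of_eq ?_) (H.bub 0 0)
    rw [mm_apply]
    refine tsum_congr fun u => ?_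
    rw [one_mul, H.symm u 0]
  obtain ⟨e1, e2⟩ := gz_le h0 h1 (fun _ : Fin d → ℤ => (1 : ℝ≥0∞)) hA (H.KS_one hq · 0 0)
  have hle : 1 + q + 2 * (48 * q) ≤ 2 := by
    have h2 : 1 + q + 2 * (48 * q) = 1 + 97 * q := by ring
    rw [h2, show (2 : ℝ≥0∞) = 1 + 1 by norm_num]
    refine add_le_add le_rfl (le_trans ?_ hq)
    exact mul_le_mul' (by norm_num) le_rfl
  have e1' : ∑' u, ENNReal.ofReal |gz d p u| ≤ 2 := by
    refine le_trans (le_of_eq ?_) (e1.trans hle)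
    exact tsum_congr fun u => (one_mul _).symm
  have e2' : ∑' n, ∑' u, ZZ (Zg d) p n {0} Set.univ u ≤ 2 := by
    refine le_trans (le_of_eq ?_) (e2.trans hle)
    exact tsum_congr fun n => tsum_congr fun u => (one_mul _).symm
  have hs : Summable fun x => |gz d p x| := by
    have h2 := ENNReal.summable_toReal (ne_top_of_le_ne_top (by norm_num) e1')
    refine h2.congr fun x => ?_
    exact ENNReal.toReal_ofReal (abs_nonneg _)
  refine ⟨hs, ?_, ne_top_of_le_ne_top (by norm_num) e2'⟩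
  have h3 := ENNReal.ofReal_tsum_of_nonneg (fun x => abs_nonneg (gz d p x)) hs
  rw [← h3] at e1'
  have h4 : ENNReal.ofReal (∑' x, |gz d p x|) ≤ ENNReal.ofReal 2 := by
    rw [ENNReal.ofReal_ofNat]
    exact e1'
  exact (ENNReal.ofReal_le_ofReal_iff (by norm_num)).1 h4

end IPC.Fo
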