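import Mathlib
import Pool.Agent.Lib.MP_25e40f_pr.E.ZKtC
import Pool.Agent.Lib.MP_25e40f_pr.C.EInd
import Pool.Agent.Lib.MP_25e40f_pr.C.Kbd
import Pool.Agent.Lib.MP_25e40f_pr.E.ZMomA

/-!
THIS JOB (ZMomB): the theorems gz_two gz_D2.  (The header describes the whole group ZMom; the other theorems are in other jobs and may be imported.)

# Job ZMom: moments of the coefficients `g`

PROOFS.  Notation `ta = tK`, `P = pK`, `w : V → [0, ∞]`.
* `gz_le`: `gF_weight` (B/Tau.lean): `∑' u, w u * ofReal |gz u| ≤ ∑' n, ∑' u, w u * ZZ n {0} univ u`; the term `n = 0` is at most `∑' u, w u * (ta 0 u * ta 0 u)` (`CE.ZZs_zero` with `F = {0}`), the terms `n + 1` are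
  at most `KS ta P w n 0 0` (`CE.ZZs_le`), and `∑' n, KS ta P w n 0 0 ≤ ∑' n, 2^(-n) B = 2 B` if `2^n * KS ta P w n 0 0 ≤ B` (`ENNReal.tsum_mul_right`, geometric series `ENNReal.tsum_geometric`).
  (`tsum_eq_zero_add'`-type splitting in `ENNReal`: `ENNReal.summable.tsum_eq_zero_add`.)
* `ZZ_fin`, `gz_one`: `w = 1`: `Ker.KS_one` gives `B = 48 q`; `∑' u, ta 0 u * ta 0 u ≤ 1 + q` (`Ker.bub` or `Ker.zero_one`); total `≤ 1 + q + 96 q ≤ 2`.  In real numbers: `ENNReal.tsum ofReal ≤ 2` gives summability and the bound.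
* `gz_two`: `w u = rho e a 0 u * rho e b 0 u = ofReal (|u e|^(a+b))`, `B = C` from `Ker.KS_EB_unif` with `q` (fixed), `a1 = a2 = 2`, `c1, c2` from `rho_wgt`, `k = 1`, `CP = ofReal (2 d)`, `X = ofReal K`; the term `n = 0` is at most `X` by
  `zero_fg`.  `1000 * (2 * 2 * q) ≤ 1` is the hypothesis.
* `gz_D2`: the same with `Ker.KS_D2` (explicit constant) and `f = rho e 2` (zero on the diagonal; `rho_wgt e 2`: `a = 2`, `c = 25`), and the chain `ch4 ta (wt f (mm P ta)) ta ta` is equal to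
  `ch4 (wt f (mm P ta)) ta ta ta` since translation invariant kernels commute (`mm_kt_comm`); `CP = ofReal (2 d) + 1`; term `n = 0`: `Ker.zero_f`.
-/

set_option autoImplicit false

noncomputable section

open Finset
open scoped ENNReal

namespace IPC.Fo

variable {d : ℕ}

private theorem ZMomB_real {V : Type} {F : V → ℝ} (hF : ∀ u, 0 ≤ F u) {T : ℝ≥0∞} (hT : T ≠ ⊤)
    (h : ∑' u, ENNReal.ofReal (F u) ≤ T) : Summable F ∧ ∑' u, F u ≤ T.toReal := by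
  have h1 : ∑' u, ENNReal.ofReal (F u) ≠ ⊤ := ne_top_of_le_ne_top hT h
  have h2 : ∀ u, (ENNReal.ofReal (F u)).toReal = F u := fun u => ENNReal.toReal_ofReal (hF u)
  have h3 : Summable F := (ENNReal.summable_toReal h1).congr h2
  refine ⟨h3, ?_⟩
  have h4 : ∑' u, F u = (∑' u, ENNReal.ofReal (F u)).toReal := by
    rw [ENNReal.tsum_toReal_eq fun u => ENNReal.ofReal_ne_top]
    exact tsum_congr fun u => (h2 u).symm
  rw [h4]
  exact ENNReal.toReal_mono hT h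

private theorem ZMomB_rho (e : Fin d) (a : ℕ) (u : Fin d → ℤ) :
    rho e a 0 u = ENNReal.ofReal (|(u e : ℝ)| ^ a) := by
  unfold rho
  rw [kt_apply, sub_zero]

theorem gz_two (d : ℕ) {q : ℝ≥0∞} (hq : 4000 * q ≤ 1) (e : Fin d) (a b : ℕ) (K : ℝ) : ∃ M : ℝ, 0 ≤ M ∧
    ∀ p : ℝ, 0 ≤ p → p ≤ 1 / 2 → Ker (CE.tK (Zg d) p) (CE.pK (Zg d) p) q →
      EB (CE.tK (Zg d) p) (rho e a) (rho e b) (ENNReal.ofReal K) →
      Summable (fun x : Fin d → ℤ => |(x e : ℝ)| ^ (a + b) * |gz d p x|) ∧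
        ∑' x : Fin d → ℤ, |(x e : ℝ)| ^ (a + b) * |gz d p x| ≤ M := by
  have hq1 : 1000 * q ≤ 1 := by
    refine le_trans (mul_le_mul' ?_ le_rfl) hq
    norm_num
  have hqa : 1000 * (2 * 2 * q) ≤ 1 := by
    refine le_trans (le_of_eq ?_) hq
    rw [← mul_assoc]
    norm_num
  have hc : ∀ a : ℕ, (2 * (a : ℝ≥0∞) + 1) ^ a ≠ ⊤ := fun a => by finiteness
  obtain ⟨C, hC, hb⟩ := Ker.KS_EB_unif (q := q) (a1 := 2) (c1 := (2 * (a : ℝ≥0∞) + 1) ^ a) (a2 := 2)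
    (c2 := (2 * (b : ℝ≥0∞) + 1) ^ b) (k := 1) (CP := ENNReal.ofReal (2 * d)) (X := ENNReal.ofReal K) hq1 hqa
    (by finiteness) (hc a) (by finiteness) (hc b) (by finiteness) ENNReal.ofReal_ne_top ENNReal.ofReal_ne_top
  refine ⟨(ENNReal.ofReal K + 2 * C).toReal, ENNReal.toReal_nonneg, fun p h0 h1 hK hE => ?_⟩
  have h1' : p ≤ 1 := by linarith
  have hrow : ∀ x, ∑' y, CE.pK (Zg d) p x y ≤ ENNReal.ofReal (2 * d) := by
    intro x
    refine (row_P x).trans (ENNReal.ofReal_le_ofReal ?_)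
    have h2 : (0 : ℝ) ≤ 2 * d := by positivity
    nlinarith
  have hA : ∑' u, rho e a 0 u * rho e b 0 u * (CE.tK (Zg d) p 0 u * CE.tK (Zg d) p 0 u) ≤ ENNReal.ofReal K :=
    zero_fg hK.symm hK.one_le (rho_wgt e b).symm hE 0 0
  have hB : ∀ n, 2 ^ n * KS (CE.tK (Zg d) p) (CE.pK (Zg d) p) (fun u => rho e a 0 u * rho e b 0 u) n 0 0 ≤ C :=
    fun n => hb _ (CE.tK (Zg d) p) (CE.pK (Zg d) p) (rho e a) (rho e b) hK (rho_wgt e a) (rho_wgt e b)
      (rho_P e a p) (rho_P e b p) hrow hE n 0 0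
  have h3 := (gz_le h0 h1 (fun u => rho e a 0 u * rho e b 0 u) hA hB).1
  have h4 : ∑' u, ENNReal.ofReal (|(u e : ℝ)| ^ (a + b) * |gz d p u|) ≤ ENNReal.ofReal K + 2 * C := by
    refine le_trans (le_of_eq ?_) h3
    refine tsum_congr fun u => ?_
    simp only [ZMomB_rho]
    rw [← ENNReal.ofReal_mul (by positivity), ← ENNReal.ofReal_mul (by positivity), ← pow_add]
  exact ZMomB_real (fun u => by positivity) (by finiteness) h4

theorem gz_D2 (d : ℕ) {q : ℝ≥0∞} (hq : 4000 * q ≤ 1) (e : Fin d) (D : ℝ) : ∃ M : ℝ, 0 ≤ M ∧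
    ∀ p : ℝ, 0 ≤ p → p ≤ 1 / 2 → Ker (CE.tK (Zg d) p) (CE.pK (Zg d) p) q →
      (∀ x y, ch4 (wt (rho e 2) (mm (CE.pK (Zg d) p) (CE.tK (Zg d) p))) (CE.tK (Zg d) p) (CE.tK (Zg d) p)
        (CE.tK (Zg d) p) x y ≤ ENNReal.ofReal D) →
      Summable (fun x : Fin d → ℤ => |(x e : ℝ)| ^ 2 * |gz d p x|) ∧
        ∑' x : Fin d → ℤ, |(x e : ℝ)| ^ 2 * |gz d p x| ≤ M := by
  have hq1 : 1000 * q ≤ 1 := by
    refine le_trans (mul_le_mul' ?_ le_rfl) hq
    norm_num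
  have hqa : 1000 * (2 * q) ≤ 1 := by
    refine le_trans ?_ hq
    rw [← mul_assoc]
    exact mul_le_mul' (by norm_num) le_rfl
  set c : ℝ≥0∞ := (2 * ((2 : ℕ) : ℝ≥0∞) + 1) ^ 2 with hcdef
  have hc : c ≠ ⊤ := by rw [hcdef]; finiteness
  set CP : ℝ≥0∞ := ENNReal.ofReal (2 * d) + 1 with hCPdef
  have hCP : CP ≠ ⊤ := by rw [hCPdef]; finiteness
  set C : ℝ≥0∞ := (2 * 2 * (16 + 4 * c) * (2 + c) + c) * (CP * ENNReal.ofReal D) with hCdef
  have hC : C ≠ ⊤ := by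
    rw [hCdef]
    finiteness
  refine ⟨(ENNReal.ofReal D + 2 * C).toReal, ENNReal.toReal_nonneg, fun p h0 h1 hK hD => ?_⟩
  have h1' : p ≤ 1 := by linarith
  have hrow : ∀ x, ∑' y, CE.pK (Zg d) p x y ≤ CP := by
    intro x
    refine (row_P x).trans ((ENNReal.ofReal_le_ofReal ?_).trans le_self_add)
    have h2 : (0 : ℝ) ≤ 2 * d := by positivity
    nlinarith
  have f0 : ∀ x : Fin d → ℤ, rho e 2 x x = 0 := by
    intro x
    unfold rho
    rw [kt_apply, sub_self]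
    simp
  have hcomm : ∀ x y, ch4 (CE.tK (Zg d) p) (wt (rho e 2) (mm (CE.pK (Zg d) p) (CE.tK (Zg d) p))) (CE.tK (Zg d) p)
      (CE.tK (Zg d) p) x y ≤ ENNReal.ofReal D := by
    intro x y
    have h2 : mm (CE.tK (Zg d) p) (wt (rho e 2) (mm (CE.pK (Zg d) p) (CE.tK (Zg d) p))) =
        mm (wt (rho e 2) (mm (CE.pK (Zg d) p) (CE.tK (Zg d) p))) (CE.tK (Zg d) p) := by
      rw [tK_kt h0 h1', pK_kt, mm_kt]
      unfold rho
      rw [wt_kt]
      exact mm_kt_comm _ _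
    refine le_trans (le_of_eq ?_) (hD x y)
    unfold ch4
    rw [← mm_assoc (CE.tK (Zg d) p) (wt (rho e 2) (mm (CE.pK (Zg d) p) (CE.tK (Zg d) p))), h2, mm_assoc]
  have hA : ∑' u, rho e 2 0 u * (CE.tK (Zg d) p 0 u * CE.tK (Zg d) p 0 u) ≤ ENNReal.ofReal D :=
    hK.zero_f f0 hD 0 0
  have hB : ∀ n, 2 ^ n * KS (CE.tK (Zg d) p) (CE.pK (Zg d) p) (fun u => rho e 2 0 u) n 0 0 ≤ C :=
    fun n => hK.KS_D2 hq1 (rho_wgt e 2) hqa hrow le_add_self f0 hD hcomm n 0 0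
  have h3 := (gz_le h0 h1 (fun u => rho e 2 0 u) hA hB).1
  have h4 : ∑' u, ENNReal.ofReal (|(u e : ℝ)| ^ 2 * |gz d p u|) ≤ ENNReal.ofReal D + 2 * C := by
    refine le_trans (le_of_eq ?_) h3
    refine tsum_congr fun u => ?_
    simp only [ZMomB_rho]
    rw [← ENNReal.ofReal_mul (by positivity)]
  exact ZMomB_real (fun u => by positivity) (by finiteness) h4

end IPC.Fo
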