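import Mathlib
import Pool.Agent.Lib.MP_25e40f_pr.E.ZMomB

/-!
# What stream E uses from the bootstrap (stream D) and from sharpness (stream S), on `ℤᵈ`
-/

set_option autoImplicit false

noncomputable section

open Finset
open scoped ENNReal

namespace IPC.Fo

/-- inputs of stream E: `q` small, bounds uniform in `p < pc` -/
structure DZ (d : ℕ) (q : ℝ≥0∞) (D : ℝ) : Prop where
  dim : 450 ≤ d
  small : 4000 * q ≤ 1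
  lt : 1 / (4 * (d : ℝ)) < (Zg d).pc
  le : (Zg d).pc ≤ 1 / 4
  noperc : ∀ p, 0 ≤ p → p ≤ (Zg d).pc → (Zg d).NoPerc p
  q4 : ∀ p, 0 ≤ p → p < (Zg d).pc → ∀ x y, ch4 (mm (CE.pK (Zg d) p) (CE.tK (Zg d) p)) (CE.tK (Zg d) p)
    (CE.tK (Zg d) p) (CE.tK (Zg d) p) x y ≤ q
  d2 : ∀ p, 0 ≤ p → p < (Zg d).pc → ∀ (e : Fin d) (x y : Fin d → ℤ),
    ch4 (wt (rho e 2) (mm (CE.pK (Zg d) p) (CE.tK (Zg d) p))) (CE.tK (Zg d) p) (CE.tK (Zg d) p)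
      (CE.tK (Zg d) p) x y ≤ ENNReal.ofReal D
  tpos : ∀ p, 1 / (4 * (d : ℝ)) ≤ p → p < (Zg d).pc → ∀ k, 0 < (FT (tz d p) k).re
  tE : ∀ p, 1 / (4 * (d : ℝ)) ≤ p → p < (Zg d).pc → ∀ k,
    (∑ i, (1 - Real.cos (k i))) * (FT (tz d p) k).re ≤ 5 * d
  gE : ∀ p, 1 / (4 * (d : ℝ)) ≤ p → p < (Zg d).pc → ∀ k, 1 / 2 ≤ (FT (gz d p) k).re
  dec : ∀ p, 0 ≤ p → p < (Zg d).pc → ∃ C c : ℝ, 0 < c ∧ ∀ x, tz d p x ≤ C * Real.exp (-c * ‖x‖)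
  chi : ∑' y, CE.tK (Zg d) (Zg d).pc 0 y = ⊤

theorem DZ.p0 {d : ℕ} {q : ℝ≥0∞} {D : ℝ} (_H : DZ d q D) {p : ℝ} (h : 1 / (4 * (d : ℝ)) ≤ p) : 0 ≤ p := by
  refine le_trans ?_ h
  positivity

theorem DZ.pos {d : ℕ} {q : ℝ≥0∞} {D : ℝ} (H : DZ d q D) {p : ℝ} (h : 1 / (4 * (d : ℝ)) ≤ p) : 0 < p := by
  refine lt_of_lt_of_le ?_ h
  have : (0 : ℝ) < d := by
    have := H.dim
    exact_mod_cast (by omega : 0 < d)
  positivity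

theorem DZ.half {d : ℕ} {q : ℝ≥0∞} {D : ℝ} (H : DZ d q D) {p : ℝ} (h : p ≤ (Zg d).pc) : p ≤ 1 / 2 := by
  have := H.le
  linarith

/-- the order of the moments: the even number in `{d - 10, d - 9}` -/
def nst (d : ℕ) : ℕ := 2 * ((d - 9) / 2)

theorem nst_even (d : ℕ) : Even (nst d) := ⟨(d - 9) / 2, by unfold nst; ring⟩

theorem nst_le (d : ℕ) : nst d ≤ d - 9 := by
  unfold nst
  omega

theorem le_nst (d : ℕ) : d - 10 ≤ nst d := by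
  unfold nst
  omega

end IPC.Fo
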