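import Mathlib
import Pool.Agent.Lib.MP_25e40f_pr.E.ZHyp

/-!
# The bootstrap output on `ℤᵈ` in the form used by stream E
-/

set_option autoImplicit false

noncomputable section

open Finset
open scoped ENNReal

namespace IPC.Fo

/-- the weight `|x - y|²` (Euclidean) on `ℤᵈ` -/
def wz (d : ℕ) : (Fin d → ℤ) → (Fin d → ℤ) → ENNReal := kt fun x => ENNReal.ofReal (∑ i, (x i : ℝ) ^ 2)

/-- the bootstrap output on `ℤᵈ` (stream D), sharpness (stream S), and the location of `pc` -/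
structure DB (d : ℕ) (δ : ℝ≥0∞) : Prop where
  dim : 450 ≤ d
  small : 100000 * δ ≤ 1
  lt : 1 / (4 * (d : ℝ)) < (Zg d).pc
  le : (Zg d).pc ≤ 1 / 4
  noperc : ∀ p, 0 ≤ p → p ≤ (Zg d).pc → (Zg d).NoPerc p
  rw : ∀ p, 0 ≤ p → p < (Zg d).pc → 2 * (d : ℝ) * p ≤ 3
  q4 : ∀ p, 0 ≤ p → p < (Zg d).pc → ∀ x y, ch4 (mm (CE.pK (Zg d) p) (CE.tK (Zg d) p)) (CE.tK (Zg d) p)
    (CE.tK (Zg d) p) (CE.tK (Zg d) p) x y ≤ δ
  d0 : ∀ p, 0 ≤ p → p < (Zg d).pc → ∀ x y,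
    ch4 (wt (wz d) (mm (CE.pK (Zg d) p) (CE.tK (Zg d) p))) (CE.tK (Zg d) p) (CE.tK (Zg d) p)
      (CE.tK (Zg d) p) x y ≤ δ
  dec : ∀ p, 0 ≤ p → p < (Zg d).pc → ∃ C c : ℝ, 0 < c ∧ ∀ x, tz d p x ≤ C * Real.exp (-c * ‖x‖)
  chi : ∑' y, CE.tK (Zg d) (Zg d).pc 0 y = ⊤

end IPC.Fo
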