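import Mathlib
import Pool.Agent.Lib.MP_25e40f_pr.E.ZHyp
import Pool.Agent.Lib.MP_25e40f_pr.E.MmtA
import Pool.Agent.Lib.MP_25e40f_pr.E.LimA

/-!
THIS JOB (ZIndA): the theorems Mo_Vz Ker_p gz_s1 tz_conv Wz_Vz Ev_Wz Sy_Wz FT_rel.  (The header describes the whole group ZInd; the other theorems are in other jobs and may be imported.)

# Job ZInd: moments of `g` and `W` of all orders up to `n* = nst d`, uniformly in `p < pc`

Throughout `1/(4d) ≤ p < pc`, `H : DZ d q D` (E/ZHyp.lean).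
PROOFS.
* `Mo_Vz`: `Mo m (tz d p)` for all `m` (`H.dec`, `Mo_tz`), `Mo_del`, `Mo_nn`, `Mo.cv`, `Mo.add`.
* `Ker_p`, `gz_s1`: `Ker_z` with `H.q4`; `gz_one` (`1000 q ≤ 1` follows from `H.small`).
* `tz_conv`: `tz_eq` (`H.noperc`, `gz_one`): `tz = gz + cv gz (cv (Pn p) tz)`.
* `Wz_Vz`: `W_V` (E/LimA.lean).
* `FT_rel`: transforms of `tz_conv` and `Wz_Vz`: `FT tz = FT gz * FT Vz`, `FT Wz * FT Vz = 1`, hence `FT Wz * FT tz = FT gz`.
* `low_W`: all three transforms are real (`FT_im_zero`, `Ev_tz`, `Ev_gz`; `Ev` of `Wz`: `Ev_del`, `Ev_nn`, `Ev.cv`, `Ev.sub`), so `re FT Wz * re FT tz = re FT gz ≥ 1/2` and with `E = ∑ (1 - cos k_i)`: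
  `re FT Wz = re FT gz / re FT tz ≥ (1/2) E / (5 d)` (`H.tE`, `H.tpos`, `H.gE`), and `E ≥ (1/5) |k|²` on the cube (`1 - cos t ≥ 2 t²/π² ≥ t²/5`; one coordinate has `|k_i| = |k|`, all the other terms are `≥ 0`; see the
  proof of `Good_EK` in E/EKB.lean for the inequality).  So `re FT Wz ≥ |k|²/(50 d)`.
* `g_to_W`: `mo`: `Mo_del`, `Mo.cv` (`Mo_nn`); `mom`: `mom_W` (E/DcyB.lean) with `K0 = 2`, `K = M`; `low`: `low_W`.
* `ind_base`: `gz_D2` for every `e` (finite maximum over `e : Fin d`), `Mo_of_coord` with `a = 2`.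
* `ind_step`: constants: `g_to_W` gives `Good n (1/(50 d)) M1 (Wz d p)`, `Sg_inverse` gives `C` with `Sg n 2 C (Vz d p)`, `dia d n C` gives `K`, `gz_two d small e n 2 K` gives `M_e`; maximum over `e`.  `EB_dia` with `V = Vz`, `m = n`, `a = n`, `b = 2` (both
  even, `≤ n`); the four pairs `(a', b')` satisfy `8 + (a' + b') ≤ 8 + n + 2 < d`.  `Mo_of_coord` with `a = n + 2`.
* `good_all`: induction on `j` for `n = 2 (j+1) ≤ d - 9`.
-/

set_option autoImplicit false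

noncomputable section

open Finset
open scoped ENNReal

namespace IPC.Fo

variable {d : ℕ}

theorem Mo_Vz {q : ℝ≥0∞} {D : ℝ} (H : DZ d q D) {p : ℝ} (hp : 1 / (4 * (d : ℝ)) ≤ p) (hp1 : p < (Zg d).pc) (m : ℕ) :
    Mo m (tz d p) ∧ Mo m (Vz d p) := by
  have h0 := H.p0 hp
  have h2 := H.half hp1.le
  obtain ⟨C, c, hc, hdec⟩ := H.dec p h0 hp1
  have h3 : Mo m (tz d p) := Mo_tz hc h0 (by linarith) hdec m
  exact ⟨h3, (Mo_del m).add ((limA_Pn_mo m p).cv h3)⟩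

theorem Ker_p {q : ℝ≥0∞} {D : ℝ} (H : DZ d q D) {p : ℝ} (hp : 1 / (4 * (d : ℝ)) ≤ p) (hp1 : p < (Zg d).pc) :
    Ker (CE.tK (Zg d) p) (CE.pK (Zg d) p) q :=
  Ker_z (H.p0 hp) (H.half hp1.le) (H.q4 p (H.p0 hp) hp1)

private theorem ZIndA_one {q : ℝ≥0∞} {D : ℝ} (H : DZ d q D) {p : ℝ} (hp : 1 / (4 * (d : ℝ)) ≤ p)
    (hp1 : p < (Zg d).pc) :
    S1 (gz d p) ∧ ∑' x, |gz d p x| ≤ 2 ∧ ∑' n, ∑' u, ZZ (Zg d) p n {0} Set.univ u ≠ ⊤ := by
  refine gz_one (H.p0 hp) (H.half hp1.le) ?_ (Ker_p H hp hp1)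
  exact le_trans (mul_le_mul' (by norm_num) le_rfl) H.small

theorem gz_s1 {q : ℝ≥0∞} {D : ℝ} (H : DZ d q D) {p : ℝ} (hp : 1 / (4 * (d : ℝ)) ≤ p) (hp1 : p < (Zg d).pc) :
    S1 (gz d p) ∧ ∑' x, |gz d p x| ≤ 2 :=
  ⟨(ZIndA_one H hp hp1).1, (ZIndA_one H hp hp1).2.1⟩

theorem tz_conv {q : ℝ≥0∞} {D : ℝ} (H : DZ d q D) {p : ℝ} (hp : 1 / (4 * (d : ℝ)) ≤ p) (hp1 : p < (Zg d).pc)
    (x : Fin d → ℤ) : tz d p x = gz d p x + cv (gz d p) (cv (Pn p) (tz d p)) x := by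
  have h2 := H.half hp1.le
  exact tz_eq (H.p0 hp) (by linarith) (H.noperc p (H.p0 hp) hp1.le) (ZIndA_one H hp hp1).2.2
    (ZIndA_one H hp hp1).1 x

theorem Wz_Vz {q : ℝ≥0∞} {D : ℝ} (H : DZ d q D) {p : ℝ} (hp : 1 / (4 * (d : ℝ)) ≤ p) (hp1 : p < (Zg d).pc) :
    cv (Wz d p) (Vz d p) = del d :=
  W_V (Mo_Vz H hp hp1 0).1.s1 (gz_s1 H hp hp1).1 (tz_conv H hp hp1)

theorem Ev_Wz (p : ℝ) : Ev (Wz d p) :=
  Ev_del.sub ((Ev_nn.const_mul p).cv (Ev_gz p))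

theorem Sy_Wz (p : ℝ) : Sy (Wz d p) := by
  intro σ x
  have h1 : Sy (Pn (d := d) p) := by
    intro σ x
    show p * nn d (fun i => x (σ i)) = p * nn d x
    rw [Sy_nn σ x]
  have h2 : Sy (del d) := by
    intro σ x
    unfold del
    have h : (fun i => x (σ i)) = 0 ↔ x = 0 := by
      constructor
      · intro h
        funext i
        have h3 := congrFun h (σ.symm i)
        simpa using h3
      · intro h
        funext i
        rw [h]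
        rfl
    simp only [h]
  show del d (fun i => x (σ i)) - cv (Pn p) (gz d p) (fun i => x (σ i)) = del d x - cv (Pn p) (gz d p) x
  rw [h2 σ x, (h1.cv (Sy_gz p)) σ x]

theorem FT_rel {q : ℝ≥0∞} {D : ℝ} (H : DZ d q D) {p : ℝ} (hp : 1 / (4 * (d : ℝ)) ≤ p) (hp1 : p < (Zg d).pc)
    (k : Fin d → ℝ) : FT (Wz d p) k * FT (tz d p) k = FT (gz d p) k := by
  have hτ : S1 (tz d p) := (Mo_Vz H hp hp1 0).1.s1
  have hV : S1 (Vz d p) := (Mo_Vz H hp hp1 0).2.s1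
  have hg : S1 (gz d p) := (gz_s1 H hp hp1).1
  have hP : S1 (Pn (d := d) p) := (limA_Pn_mo 0 p).s1
  have hW : S1 (Wz d p) := S1_del.sub (hP.cv hg)
  have e1 := limA_FT hτ hg (tz_conv H hp hp1) k
  have e2 : FT (Vz d p) k = 1 + FT (Pn p) k * FT (tz d p) k := by
    have h := FT_add (S1_del (d := d)) (hP.cv hτ) k
    rw [FT_del, FT_cv hP hτ] at h
    exact h
  have e3 : FT (Wz d p) k * FT (Vz d p) k = 1 := by
    rw [← FT_cv hW hV, Wz_Vz H hp hp1, FT_del]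
  have e4 : FT (tz d p) k = FT (gz d p) k * FT (Vz d p) k := by
    rw [e2, mul_add, mul_one]
    exact e1
  calc FT (Wz d p) k * FT (tz d p) k = FT (gz d p) k * (FT (Wz d p) k * FT (Vz d p) k) := by
        rw [e4]
        ring
    _ = FT (gz d p) k := by rw [e3, mul_one]

end IPC.Fo
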