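import Mathlib
import Pool.Agent.Lib.MP_25e40f_pr.E.ZDefs
import Pool.Agent.Lib.MP_25e40f_pr.E.ZIndA
import Pool.Agent.Lib.MP_25e40f_pr.E.MmtB

/-!
THIS JOB (ZDa): the theorems ZZ_self gz_del.  (The header describes the whole group ZD; the other theorems are in other jobs and may be imported.)

# Job ZD: from the bootstrap output to the Fourier bounds on `ℤᵈ`

Write `G(k) = re FT gz k`, `T(k) = re FT tz k`, `E(k) = ∑_i (1 - cos k_i)` (sum, not average).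
PROOFS.
* `ZZ_self`: `tendsto_EP` (B/Ela.lean) with `F = {0}`, `A = univ`, `u = 0`: `EP ω univ {0} 0` always holds (`Thru`: `AllConn` is reflexive, `ConnOff ω univ ..` is false as `x ∉ univ` is false; the second part is void because
  `0 ∈ Cl (..) {0}`), so the probabilities are all `1` (`Pr_true` in A/Prb.lean or `Pr` of an event that always holds) and the limit `ZZ .. 0` is `1`.
* `gz_del`: `∑' u, ofReal |gz u - del u| ≤ ∑'_(u ≠ 0) ZZ 0 u + ∑'_n ∑'_u ZZ (n+1) u`: for `u ≠ 0` as in `gF_weight`; for `u = 0`: `gz 0 = ∑_n (-1)^n (ZZ n .. 0).toReal`, the term `n = 0` is `1` (`ZZ_self`), so `gz 0 - 1 = ∑_(n ≥ 1)`.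
  `∑'_(u ≠ 0) ZZ 0 u ≤ ∑'_(u ≠ 0) tK 0 u * tK 0 u ≤ q` (`CE.ZZs_zero`, `Ker.zero_one`), `∑'_n ∑'_u ZZ (n+1) u ≤ 2 * (48 q)` (`CE.ZZs_le`, `Ker.KS_one`).  Total `97 q ≤ 1/4`.
* `gz_sec`: `gz_le` (E/ZMomA.lean) with `w u = wz d 0 u`: `A = δ` (`Ker.zero_f`), `B = (2*2*(16+4*2)*(2+2)+2) * (3 * δ) = 386 * (3 δ)` (`Ker.KS_D2` with `f = wz d`, `a = c = 2`, `CP = 3`; `Wgt (wz d) 2 2`: `|x+y|² ≤ 2|x|² + 2|y|²`; `wz` vanishes on the
  diagonal; `d1` from `d0` by commutativity `mm_kt_comm` of the kernels `kt`: `wz d = kt ..`, `tK = kt (oR tz)`, `pK = kt (oR (Pn p))`).  Total `δ + 2 * 1158 δ = 2317 δ ≤ 1/40`.  Hence `∑' (∑_i x_i²) |gz x| ≤ 1/40` (real), and by `Sy_gz` all the `d` sums `∑' x_e² |gz x|`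
  are equal (a permutation of coordinates), so each is at most `1/(40 d)`.
* `one_sub_cos_int`: `1 - cos(nθ) = 2 sin²(nθ/2)` and `|sin (n φ)| ≤ |n| |sin φ|` (induction on `|n|`: `sin((n+1)φ) = sin(nφ)cos φ + cos(nφ) sin φ`).
* `one_sub_prod`: `1 - ∏ a_i ≤ ∑ (1 - a_i)` for `|a_i| ≤ 1` (induction on the finset: `1 - a b = (1 - a) + a (1 - b)` needs `a ≤ 1`, `1 - b ≥ 0`, and `|∏| ≤ 1`).
* `FT_even_prod`: for `f` even (`Ev`) and `S1`: `FT f k = ∑' f x ∏ cos (k_i x_i)` : replace the factors `exp(i k_j x_j)` one after the other (induction over a finset of coordinates) using `reflE j` (`(e^{iθ} + e^{-iθ})/2 = cos θ`).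
* `FT_diff`: `|FT f 0 - FT f k| ≤ ∑' |f x| (1 - ∏ cos (k_i x_i)) ≤ ∑' |f x| ∑_i x_i² (1 - cos k_i) = ∑_i (1 - cos k_i) ∑' x_i² |f x|`.
* `hat_bounds`: `|G(k) - 1| ≤ 1/4` (`gz_del`, `norm_FT_le`, `FT_sub`, `FT_del`); `|G(0) - G(k)| ≤ E(k)/(40 d)` (`FT_diff`, `gz_sec`).  `tz = cv gz Vz` and `Vz = del + cv (Pn p) tz` (`tz_conv` style, here with the hypotheses of this file): with `P(k) = FT (Pn p) k = 2 d p - 2 p E(k)`
  (`FT_nn`, `FT_const_mul`): `T = G (1 + P T)`, all real (`FT_im_zero`).  `T(0) = ∑ tz ≥ 1`, so `1 - G(0) P(0) = G(0)/T(0) > 0`, `1/G(0) - P(0) > 0`.  For any `k`: `1/G(k) - P(k) = (1/G(0) - P(0)) + (1/G(k) - 1/G(0)) + 2 p E(k) > - (16/9) E(k)/(40 d) + E(k)/(2d) ≥ E(k)/(4 d)`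
  (`p ≥ 1/(4d)`, `G ≥ 3/4`), so `T(k) (1 - G(k) P(k)) = G(k)`, `T(k) = 1/(1/G(k) - P(k)) > 0`, and `E(k) T(k) ≤ 4 d` (if `E(k) = 0` trivial).
* `DZ_of_DB`: `q = δ`, `D = δ.toReal` (`δ ≠ ⊤`), `d2`: `rho e 2 ≤ wz d` pointwise and `ch4_mono`; `tpos`, `tE`, `gE`: `hat_bounds`.
-/

set_option autoImplicit false

noncomputable section

open Finset
open scoped ENNReal

namespace IPC.Fo

variable {d : ℕ}

private theorem ZDa_geo (B : ℝ≥0∞) : ∑' n : ℕ, B * (2⁻¹ : ℝ≥0∞) ^ n = 2 * B := by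
  rw [ENNReal.tsum_mul_left, ENNReal.tsum_geometric, ENNReal.one_sub_inv_two, inv_inv, mul_comm]

private theorem ZDa_le {B K : ℝ≥0∞} {n : ℕ} (h : 2 ^ n * K ≤ B) : K ≤ B * (2⁻¹ : ℝ≥0∞) ^ n := by
  have h2 : (2 : ℝ≥0∞) ^ n ≠ 0 := pow_ne_zero n (by norm_num)
  have h3 : (2 : ℝ≥0∞) ^ n ≠ ⊤ := ENNReal.pow_ne_top (by norm_num)
  have h4 : K ≤ B / 2 ^ n := by
    rw [ENNReal.le_div_iff_mul_le (Or.inl h2) (Or.inl h3), mul_comm]
    exact h
  rw [ENNReal.div_eq_inv_mul, ENNReal.inv_pow, mul_comm] at h4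
  exact h4

theorem ZZ_self {p : ℝ} (h0 : 0 ≤ p) (h1 : p ≤ 1) (hN : (Zg d).NoPerc p) :
    ZZ (Zg d) p 0 {0} Set.univ 0 = 1 := by
  have hEP : ∀ ω : Finset (Sym2 (Fin d → ℤ)), EP ω Set.univ {0} 0 := by
    intro ω
    refine ⟨⟨fun f hf => ?_, fun f _ hc => hc.1 (Set.mem_univ f)⟩, fun y y' _ _ h => ?_⟩
    · rw [Finset.mem_singleton] at hf
      rw [hf]
      exact Relation.ReflTransGen.refl
    · exact absurd ⟨0, Finset.mem_singleton_self _, Relation.ReflTransGen.refl⟩ h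
  have h2 := tendsto_EP (Zg d) h0 h1 hN (Finset.singleton_nonempty (0 : Fin d → ℤ)) Set.univ 0
  have h3 : Filter.Tendsto (fun R => ENNReal.ofReal (Pr p ((Zg d).ein ((Zg d).Lam R))
      (fun ω => EP ω Set.univ {0} 0))) Filter.atTop (nhds 1) := by
    refine tendsto_const_nhds.congr fun R => ?_
    rw [Pr_true p _ fun ω _ => hEP ω, ENNReal.ofReal_one]
  exact tendsto_nhds_unique h2 h3

private theorem ZDa_pt {p : ℝ} (h0 : 0 ≤ p) (h1 : p ≤ 1) (hN : (Zg d).NoPerc p)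
    (hfin : ∑' n, ∑' u, ZZ (Zg d) p n {0} Set.univ u ≠ ⊤) (u : Fin d → ℤ) :
    ENNReal.ofReal |gz d p u - del d u| ≤ (if u = 0 then 0 else ZZ (Zg d) p 0 {0} Set.univ u) +
      ∑' n, ZZ (Zg d) p (n + 1) {0} Set.univ u := by
  have hfu : ∑' n, ZZ (Zg d) p n {0} Set.univ u ≠ ⊤ := by
    rw [ENNReal.tsum_comm] at hfin
    exact ENNReal.ne_top_of_tsum_ne_top hfin u
  set S : ℕ → ℝ := fun n => (ZZ (Zg d) p n {0} Set.univ u).toReal with hS
  have hS0 : ∀ n, 0 ≤ S n := fun n => ENNReal.toReal_nonneg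
  have hs : Summable S := ENNReal.summable_toReal hfu
  have hs1 : Summable fun n => S (n + 1) := (summable_nat_add_iff 1).2 hs
  have hn : ∀ n, ‖(-1 : ℝ) ^ n * S n‖ = S n := by
    intro n
    rw [norm_mul, norm_pow, norm_neg, norm_one, one_pow, one_mul, Real.norm_of_nonneg (hS0 n)]
  have hsn : Summable fun n => (-1 : ℝ) ^ n * S n := by
    refine Summable.of_norm ?_
    simp_rw [hn]
    exact hs
  have hgz : gz d p u = S 0 + ∑' n, (-1 : ℝ) ^ (n + 1) * S (n + 1) := by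
    have h2 : gz d p u = ∑' n, (-1 : ℝ) ^ n * S n := rfl
    rw [h2, hsn.tsum_eq_zero_add, pow_zero, one_mul]
  have hrest : |∑' n, (-1 : ℝ) ^ (n + 1) * S (n + 1)| ≤ ∑' n, S (n + 1) := by
    rw [← Real.norm_eq_abs]
    have h3 : ∀ n, ‖(-1 : ℝ) ^ (n + 1) * S (n + 1)‖ = S (n + 1) := fun n => hn (n + 1)
    refine (norm_tsum_le_tsum_norm ?_).trans (le_of_eq ?_)
    · simp_rw [h3]
      exact hs1
    · simp_rw [h3]
  have hr2 : ENNReal.ofReal (∑' n, S (n + 1)) = ∑' n, ZZ (Zg d) p (n + 1) {0} Set.univ u := by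
    rw [ENNReal.ofReal_tsum_of_nonneg (fun n => hS0 (n + 1)) hs1]
    refine tsum_congr fun n => ?_
    exact ENNReal.ofReal_toReal (ENNReal.ne_top_of_tsum_ne_top hfu (n + 1))
  by_cases hu : u = 0
  · rw [if_pos hu, zero_add, ← hr2]
    refine ENNReal.ofReal_le_ofReal ?_
    have hS1 : S 0 = 1 := by
      show (ZZ (Zg d) p 0 {0} Set.univ u).toReal = 1
      rw [hu, ZZ_self h0 h1 hN]
      rfl
    have hd : del d u = 1 := if_pos hu
    rw [hgz, hS1, hd, add_sub_cancel_left]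
    exact hrest
  · rw [if_neg hu, ← hr2]
    have h4 : ZZ (Zg d) p 0 {0} Set.univ u = ENNReal.ofReal (S 0) :=
      (ENNReal.ofReal_toReal (ENNReal.ne_top_of_tsum_ne_top hfu 0)).symm
    rw [h4, ← ENNReal.ofReal_add (hS0 0) (tsum_nonneg fun n => hS0 (n + 1))]
    refine ENNReal.ofReal_le_ofReal ?_
    have hd : del d u = 0 := if_neg hu
    rw [hgz, hd, sub_zero]
    refine (abs_add_le _ _).trans ?_
    rw [abs_of_nonneg (hS0 0)]
    linarith

theorem gz_del {p : ℝ} (h0 : 0 ≤ p) (h1 : p ≤ 1 / 2) (hN : (Zg d).NoPerc p) {q : ℝ≥0∞} (hq : 1000 * q ≤ 1)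
    (H : Ker (CE.tK (Zg d) p) (CE.pK (Zg d) p) q) :
    Summable (fun x => |gz d p x - del d x|) ∧ ∑' x, |gz d p x - del d x| ≤ 1 / 4 := by
  obtain ⟨_, _, hfin⟩ := gz_one h0 h1 hq H
  have hmain : ∑' u, ENNReal.ofReal |gz d p u - del d u| ≤ q + 2 * (48 * q) := by
    refine (ENNReal.tsum_le_tsum fun u => ZDa_pt h0 (by linarith) hN hfin u).trans ?_
    rw [ENNReal.tsum_add]
    refine add_le_add ?_ ?_
    · refine (ENNReal.tsum_le_tsum fun u => ?_).trans (H.zero_one 0)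
      by_cases hu : u = 0
      · rw [if_pos hu, if_pos hu]
      · rw [if_neg hu, if_neg hu]
        have h2 := CE.ZZs_zero (Zg d) h0 h1 (Finset.singleton_nonempty (0 : Fin d → ℤ)) u
        rw [Finset.sum_singleton, Finset.sum_singleton] at h2
        exact h2
    · rw [ENNReal.tsum_comm, ← ZDa_geo (48 * q)]
      refine ENNReal.tsum_le_tsum fun n => ?_
      have h2 := CE.ZZs_le (Zg d) h0 h1 (fun _ => 1) n {(0 : Fin d → ℤ)}
      rw [Finset.sum_singleton, Finset.sum_singleton] at h2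
      refine le_trans (le_of_eq ?_) (h2.trans (ZDa_le (H.KS_one hq n 0 0)))
      exact tsum_congr fun u => (one_mul _).symm
  have h4 : 4 * ∑' u, ENNReal.ofReal |gz d p u - del d u| ≤ 1 := by
    refine (mul_le_mul' le_rfl hmain).trans (le_trans ?_ hq)
    have e : 4 * (q + 2 * (48 * q)) = 388 * q := by ring
    rw [e]
    exact mul_le_mul' (by norm_num) le_rfl
  have hne : ∑' u, ENNReal.ofReal |gz d p u - del d u| ≠ ⊤ := by
    intro h5
    rw [h5, ENNReal.mul_top (by norm_num)] at h4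
    exact absurd h4 (by simp)
  have hs : Summable fun x => |gz d p x - del d x| := by
    have h2 := ENNReal.summable_toReal hne
    refine h2.congr fun x => ?_
    exact ENNReal.toReal_ofReal (abs_nonneg _)
  refine ⟨hs, ?_⟩
  have h3 := ENNReal.ofReal_tsum_of_nonneg (fun x => abs_nonneg (gz d p x - del d x)) hs
  rw [← h3] at h4
  have h6 : ENNReal.ofReal (4 * ∑' x, |gz d p x - del d x|) ≤ ENNReal.ofReal 1 := by
    rw [ENNReal.ofReal_mul (by norm_num), ENNReal.ofReal_ofNat, ENNReal.ofReal_one]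
    exact h4
  have h7 := (ENNReal.ofReal_le_ofReal_iff (by norm_num)).1 h6
  linarith

end IPC.Fo
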