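import Mathlib
import Pool.Agent.Lib.MP_25e40f_pr.E.ZDefs
import Pool.Agent.Lib.MP_25e40f_pr.E.ZIndA
import Pool.Agent.Lib.MP_25e40f_pr.E.MmtB

/-!
THIS JOB (ZDb): the theorems gz_sec.  (The header describes the whole group ZD; the other theorems are in other jobs and may be imported.)

# Job ZD: from the bootstrap output to the Fourier bounds on `ℤᵈ`

Write `G(k) = re FT gz k`, `T(k) = re FT tz k`, `E(k) = ∑_i (1 - cos k_i)` (sum, not average).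
PROOFS.
* `ZZ_self`: `tendsto_EP` (B/Ela.lean) with `F = {0}`, `A = univ`, `u = 0`: `EP ω univ {0} 0` always holds (`Thru`: `AllConn` is reflexive, `ConnOff ω univ ..` is false as `x ∉ univ` is false; the second part is void because
  `0 ∈ Cl (..) {0}`), so the probabilities are all `1` (`Pr_true` in A/Prb.lean or `Pr` of an event that always holds) and the limit `ZZ .. 0` is `1`.
* `gz_del`: `∑' u, ofReal |gz u - del u| ≤ ∑'_(u ≠ 0) ZZ 0 u + ∑'_n ∑'_u ZZ (n+1) u`: for `u ≠ 0` as in `gF_weight`; for `u = 0`: `gz 0 = ∑_n (-1)^n (ZZ n .. 0).toReal`, the term `n = 0` is `1` (`ZZ_self`), so `gz 0 - 1 = ∑_(n ≥ 1)`.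
  `∑'_(u ≠ 0) ZZ 0 u ≤ ∑'_(u ≠ 0) tK 0 u * tK 0 u ≤ q` (`CE.ZZs_zero`, `Ker.zero_one`), `∑'_n ∑'_u ZZ (n+1) u ≤ 2 * (48 q)` (`CE.ZZs_le`, `Ker.KS_one`).  Total `97 q ≤ 1/4`.
* `gz_sec`: `gz_le` (E/ZMomA.lean) with `w u = wz d 0 u`: `A = δ` (`Ker.zero_f`), `B = (2*2*(16+4*2)*(2+2)+2) * (3 * δ) = 386 * (3 δ)` (`Ker.KS_D2` with `f = wz d`, `a = c = 2`, `CP = 3`; `Wgt (wz d) 2 2`: `|x+y|² ≤ 2|x|² + 2|y|²`; `wz` vanishes on the
  diagonal; `d1` from `d0` by commutativity `mm_kt_comm` of the kernels `kt`: `wz d = kt ..`, `tK = kt (oR tz)`, `pK = kt (oR (Pn p))`).  Total `δ + 2 * 1158 δ = 2317 δ ≤ 1/40`.  Hence `∑' (∑_i x_i²) |gz x| ≤ 1/40` (real), and by `Sy_gz` all the `d` sums `∑' x_e² |gz x|`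
  are equal (a permutation of coordinates), so each is at most `1/(40 d)`.
* `one_sub_cos_int`: `1 - cos(nθ) = 2 sin²(nθ/2)` and `|sin (n φ)| ≤ |n| |sin φ|` (induction on `|n|`: `sin((n+1)φ) = sin(nφ)cos φ + cos(nφ) sin φ`).
* `one_sub_prod`: `1 - ∏ a_i ≤ ∑ (1 - a_i)` for `|a_i| ≤ 1` (induction on the finset: `1 - a b = (1 - a) + a (1 - b)` needs `a ≤ 1`, `1 - b ≥ 0`, and `|∏| ≤ 1`).
* `FT_even_prod`: for `f` even (`Ev`) and `S1`: `FT f k = ∑' f x ∏ cos (k_i x_i)` : replace the factors `exp(i k_j x_j)` one after the other (induction over a finset of coordinates) using `reflE j` (`(e^{iθ} + e^{-iθ})/2 = cos θ`).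
* `FT_diff`: `|FT f 0 - FT f k| ≤ ∑' |f x| (1 - ∏ cos (k_i x_i)) ≤ ∑' |f x| ∑_i x_i² (1 - cos k_i) = ∑_i (1 - cos k_i) ∑' x_i² |f x|`.
* `hat_bounds`: `|G(k) - 1| ≤ 1/4` (`gz_del`, `norm_FT_le`, `FT_sub`, `FT_del`); `|G(0) - G(k)| ≤ E(k)/(40 d)` (`FT_diff`, `gz_sec`).  `tz = cv gz Vz` and `Vz = del + cv (Pn p) tz` (`tz_conv` style, here with the hypotheses of this file): with `P(k) = FT (Pn p) k = 2 d p - 2 p E(k)`
  (`FT_nn`, `FT_const_mul`): `T = G (1 + P T)`, all real (`FT_im_zero`).  `T(0) = ∑ tz ≥ 1`, so `1 - G(0) P(0) = G(0)/T(0) > 0`, `1/G(0) - P(0) > 0`.  For any `k`: `1/G(k) - P(k) = (1/G(0) - P(0)) + (1/G(k) - 1/G(0)) + 2 p E(k) > - (16/9) E(k)/(40 d) + E(k)/(2d) ≥ E(k)/(4 d)`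
  (`p ≥ 1/(4d)`, `G ≥ 3/4`), so `T(k) (1 - G(k) P(k)) = G(k)`, `T(k) = 1/(1/G(k) - P(k)) > 0`, and `E(k) T(k) ≤ 4 d` (if `E(k) = 0` trivial).
* `DZ_of_DB`: `q = δ`, `D = δ.toReal` (`δ ≠ ⊤`), `d2`: `rho e 2 ≤ wz d` pointwise and `ch4_mono`; `tpos`, `tE`, `gE`: `hat_bounds`.
-/

set_option autoImplicit false

noncomputable section

open Finset
open scoped ENNReal

namespace IPC.Fo

variable {d : ℕ}

private theorem ZDb_real {V : Type} {F : V → ℝ} (hF : ∀ u, 0 ≤ F u) {T : ℝ≥0∞} (hT : T ≠ ⊤)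
    (h : ∑' u, ENNReal.ofReal (F u) ≤ T) : Summable F ∧ ∑' u, F u ≤ T.toReal := by
  have h1 : ∑' u, ENNReal.ofReal (F u) ≠ ⊤ := ne_top_of_le_ne_top hT h
  have h2 : ∀ u, (ENNReal.ofReal (F u)).toReal = F u := fun u => ENNReal.toReal_ofReal (hF u)
  have h3 : Summable F := (ENNReal.summable_toReal h1).congr h2
  refine ⟨h3, ?_⟩
  have h4 : ∑' u, F u = (∑' u, ENNReal.ofReal (F u)).toReal := by
    rw [ENNReal.tsum_toReal_eq fun u => ENNReal.ofReal_ne_top]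
    exact tsum_congr fun u => (h2 u).symm
  rw [h4]
  exact ENNReal.toReal_mono hT h

private theorem ZDb_wgt : Wgt (wz d) 2 2 := by
  refine ⟨fun x y => ?_, fun x y z => ?_, by norm_num⟩
  · unfold wz
    rw [kt_apply, kt_apply]
    refine congrArg ENNReal.ofReal (Finset.sum_congr rfl fun i _ => ?_)
    rw [Pi.sub_apply, Pi.sub_apply]
    push_cast
    ring
  · unfold wz
    rw [kt_apply, kt_apply, kt_apply]
    have h0 : ∀ w : Fin d → ℤ, 0 ≤ ∑ i, ((w i : ℤ) : ℝ) ^ 2 := fun w =>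
      Finset.sum_nonneg fun i _ => sq_nonneg _
    have h2 : ENNReal.ofReal 2 = 2 := ENNReal.ofReal_ofNat 2
    rw [← h2, ← ENNReal.ofReal_mul (by norm_num), ← ENNReal.ofReal_mul (by norm_num),
      ← ENNReal.ofReal_add (mul_nonneg (by norm_num) (h0 _)) (mul_nonneg (by norm_num) (h0 _))]
    refine ENNReal.ofReal_le_ofReal ?_
    rw [Finset.mul_sum, Finset.mul_sum, ← Finset.sum_add_distrib]
    refine Finset.sum_le_sum fun i _ => ?_
    rw [Pi.sub_apply, Pi.sub_apply, Pi.sub_apply]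
    push_cast
    nlinarith [sq_nonneg (((z i : ℝ) - y i) - ((y i : ℝ) - x i))]

private theorem ZDb_swap (p : ℝ) (e e' : Fin d) :
    ∑' x : Fin d → ℤ, (x e : ℝ) ^ 2 * |gz d p x| = ∑' x : Fin d → ℤ, (x e' : ℝ) ^ 2 * |gz d p x| := by
  rw [← (permE (Equiv.swap e e')).tsum_eq fun x : Fin d → ℤ => (x e : ℝ) ^ 2 * |gz d p x|]
  refine tsum_congr fun x => ?_
  have h1 : gz d p (permE (Equiv.swap e e') x) = gz d p x := Sy_gz p (Equiv.swap e e') x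
  have h2 : (permE (Equiv.swap e e') x) e = x e' := by
    change x (Equiv.swap e e' e) = x e'
    rw [Equiv.swap_apply_left]
  rw [h1, h2]

theorem gz_sec (hd : 1 ≤ d) {p : ℝ} (h0 : 0 ≤ p) (h1 : p ≤ 1 / 2) (hrw : 2 * (d : ℝ) * p ≤ 3) {δ : ℝ≥0∞}
    (hδ : 100000 * δ ≤ 1) (H : Ker (CE.tK (Zg d) p) (CE.pK (Zg d) p) δ)
    (h2 : ∀ x y, ch4 (wt (wz d) (mm (CE.pK (Zg d) p) (CE.tK (Zg d) p))) (CE.tK (Zg d) p) (CE.tK (Zg d) p)
      (CE.tK (Zg d) p) x y ≤ δ) (e : Fin d) :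
    Summable (fun x : Fin d → ℤ => (x e : ℝ) ^ 2 * |gz d p x|) ∧
      ∑' x : Fin d → ℤ, (x e : ℝ) ^ 2 * |gz d p x| ≤ 1 / (40 * d) := by
  have hq1 : 1000 * δ ≤ 1 := by
    refine le_trans (mul_le_mul' ?_ le_rfl) hδ
    norm_num
  have hqa : 1000 * (2 * δ) ≤ 1 := by
    refine le_trans ?_ hδ
    rw [← mul_assoc]
    exact mul_le_mul' (by norm_num) le_rfl
  have h1' : p ≤ 1 := by linarith
  have hrow : ∀ x, ∑' y, CE.pK (Zg d) p x y ≤ 3 := by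
    intro x
    refine (row_P x).trans ((ENNReal.ofReal_le_ofReal hrw).trans (le_of_eq ?_))
    exact ENNReal.ofReal_ofNat 3
  have f0 : ∀ x : Fin d → ℤ, wz d x x = 0 := by
    intro x
    unfold wz
    rw [kt_apply, sub_self]
    simp
  have hcomm : ∀ x y, ch4 (CE.tK (Zg d) p) (wt (wz d) (mm (CE.pK (Zg d) p) (CE.tK (Zg d) p))) (CE.tK (Zg d) p)
      (CE.tK (Zg d) p) x y ≤ δ := by
    intro x y
    have h3 : mm (CE.tK (Zg d) p) (wt (wz d) (mm (CE.pK (Zg d) p) (CE.tK (Zg d) p))) =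
        mm (wt (wz d) (mm (CE.pK (Zg d) p) (CE.tK (Zg d) p))) (CE.tK (Zg d) p) := by
      rw [tK_kt h0 h1', pK_kt, mm_kt]
      unfold wz
      rw [wt_kt]
      exact mm_kt_comm _ _
    refine le_trans (le_of_eq ?_) (h2 x y)
    unfold ch4
    rw [← mm_assoc (CE.tK (Zg d) p) (wt (wz d) (mm (CE.pK (Zg d) p) (CE.tK (Zg d) p))), h3, mm_assoc]
  have hA : ∑' u, wz d 0 u * (CE.tK (Zg d) p 0 u * CE.tK (Zg d) p 0 u) ≤ δ := H.zero_f f0 h2 0 0
  have hB : ∀ n, 2 ^ n * KS (CE.tK (Zg d) p) (CE.pK (Zg d) p) (fun u => wz d 0 u) n 0 0 ≤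
      (2 * 2 * (16 + 4 * 2) * (2 + 2) + 2) * (3 * δ) :=
    fun n => H.KS_D2 hq1 ZDb_wgt hqa hrow (by norm_num) f0 h2 hcomm n 0 0
  have h3 := (gz_le h0 h1 (fun u => wz d 0 u) hA hB).1
  have h4 : ∑' u, ENNReal.ofReal ((∑ i, (u i : ℝ) ^ 2) * |gz d p u|) ≤ (40 : ℝ≥0∞)⁻¹ := by
    refine le_trans (le_of_eq ?_) (h3.trans ?_)
    · refine tsum_congr fun u => ?_
      unfold wz
      rw [kt_apply, sub_zero, ← ENNReal.ofReal_mul (Finset.sum_nonneg fun i _ => sq_nonneg _)]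
    · rw [ENNReal.le_inv_iff_mul_le]
      have e1 : (δ + 2 * ((2 * 2 * (16 + 4 * 2) * (2 + 2) + 2) * (3 * δ))) * 40 = 92680 * δ := by ring
      rw [e1]
      exact (mul_le_mul' (by norm_num) le_rfl).trans hδ
  obtain ⟨hs, hle⟩ := ZDb_real (F := fun u : Fin d → ℤ => (∑ i, (u i : ℝ) ^ 2) * |gz d p u|)
    (fun u => mul_nonneg (Finset.sum_nonneg fun i _ => sq_nonneg _) (abs_nonneg _)) (by norm_num) h4
  have hsum : ∀ e' : Fin d, Summable (fun x : Fin d → ℤ => (x e' : ℝ) ^ 2 * |gz d p x|) := by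
    intro e'
    refine Summable.of_nonneg_of_le (fun x => mul_nonneg (sq_nonneg _) (abs_nonneg _)) (fun x => ?_) hs
    refine mul_le_mul_of_nonneg_right ?_ (abs_nonneg _)
    exact Finset.single_le_sum (f := fun i => (x i : ℝ) ^ 2) (fun i _ => sq_nonneg _)
      (Finset.mem_univ e')
  refine ⟨hsum e, ?_⟩
  have h5 : (d : ℝ) * ∑' x : Fin d → ℤ, (x e : ℝ) ^ 2 * |gz d p x| =
      ∑' x : Fin d → ℤ, (∑ i, (x i : ℝ) ^ 2) * |gz d p x| := by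
    have h6 : ∑' x : Fin d → ℤ, (∑ i, (x i : ℝ) ^ 2) * |gz d p x| =
        ∑' x : Fin d → ℤ, ∑ i, (x i : ℝ) ^ 2 * |gz d p x| :=
      tsum_congr fun x => Finset.sum_mul _ _ _
    rw [h6, Summable.tsum_finsetSum fun i _ => hsum i,
      Finset.sum_congr rfl fun i _ => ZDb_swap p i e, Finset.sum_const, Finset.card_univ,
      Fintype.card_fin, nsmul_eq_mul]
  have h7 : ((40 : ℝ≥0∞)⁻¹).toReal = 1 / 40 := by
    rw [ENNReal.toReal_inv]
    norm_num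
  rw [h7, ← h5] at hle
  have hd0 : (0 : ℝ) < d := by exact_mod_cast hd
  rw [le_div_iff₀ (by positivity)]
  linarith

end IPC.Fo
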