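import Mathlib
import Pool.Agent.Lib.MP_25e40f_pr.E.ZDefs
import Pool.Agent.Lib.MP_25e40f_pr.E.ZIndA
import Pool.Agent.Lib.MP_25e40f_pr.E.MmtB

/-!
THIS JOB (ZDc): the theorems one_sub_cos_int one_sub_prod FT_even_prod FT_diff.  (The header describes the whole group ZD; the other theorems are in other jobs and may be imported.)

# Job ZD: from the bootstrap output to the Fourier bounds on `ℤᵈ`

Write `G(k) = re FT gz k`, `T(k) = re FT tz k`, `E(k) = ∑_i (1 - cos k_i)` (sum, not average).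
PROOFS.
* `ZZ_self`: `tendsto_EP` (B/Ela.lean) with `F = {0}`, `A = univ`, `u = 0`: `EP ω univ {0} 0` always holds (`Thru`: `AllConn` is reflexive, `ConnOff ω univ ..` is false as `x ∉ univ` is false; the second part is void because
  `0 ∈ Cl (..) {0}`), so the probabilities are all `1` (`Pr_true` in A/Prb.lean or `Pr` of an event that always holds) and the limit `ZZ .. 0` is `1`.
* `gz_del`: `∑' u, ofReal |gz u - del u| ≤ ∑'_(u ≠ 0) ZZ 0 u + ∑'_n ∑'_u ZZ (n+1) u`: for `u ≠ 0` as in `gF_weight`; for `u = 0`: `gz 0 = ∑_n (-1)^n (ZZ n .. 0).toReal`, the term `n = 0` is `1` (`ZZ_self`), so `gz 0 - 1 = ∑_(n ≥ 1)`.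
  `∑'_(u ≠ 0) ZZ 0 u ≤ ∑'_(u ≠ 0) tK 0 u * tK 0 u ≤ q` (`CE.ZZs_zero`, `Ker.zero_one`), `∑'_n ∑'_u ZZ (n+1) u ≤ 2 * (48 q)` (`CE.ZZs_le`, `Ker.KS_one`).  Total `97 q ≤ 1/4`.
* `gz_sec`: `gz_le` (E/ZMomA.lean) with `w u = wz d 0 u`: `A = δ` (`Ker.zero_f`), `B = (2*2*(16+4*2)*(2+2)+2) * (3 * δ) = 386 * (3 δ)` (`Ker.KS_D2` with `f = wz d`, `a = c = 2`, `CP = 3`; `Wgt (wz d) 2 2`: `|x+y|² ≤ 2|x|² + 2|y|²`; `wz` vanishes on the
  diagonal; `d1` from `d0` by commutativity `mm_kt_comm` of the kernels `kt`: `wz d = kt ..`, `tK = kt (oR tz)`, `pK = kt (oR (Pn p))`).  Total `δ + 2 * 1158 δ = 2317 δ ≤ 1/40`.  Hence `∑' (∑_i x_i²) |gz x| ≤ 1/40` (real), and by `Sy_gz` all the `d` sums `∑' x_e² |gz x|`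
  are equal (a permutation of coordinates), so each is at most `1/(40 d)`.
* `one_sub_cos_int`: `1 - cos(nθ) = 2 sin²(nθ/2)` and `|sin (n φ)| ≤ |n| |sin φ|` (induction on `|n|`: `sin((n+1)φ) = sin(nφ)cos φ + cos(nφ) sin φ`).
* `one_sub_prod`: `1 - ∏ a_i ≤ ∑ (1 - a_i)` for `|a_i| ≤ 1` (induction on the finset: `1 - a b = (1 - a) + a (1 - b)` needs `a ≤ 1`, `1 - b ≥ 0`, and `|∏| ≤ 1`).
* `FT_even_prod`: for `f` even (`Ev`) and `S1`: `FT f k = ∑' f x ∏ cos (k_i x_i)` : replace the factors `exp(i k_j x_j)` one after the other (induction over a finset of coordinates) using `reflE j` (`(e^{iθ} + e^{-iθ})/2 = cos θ`).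
* `FT_diff`: `|FT f 0 - FT f k| ≤ ∑' |f x| (1 - ∏ cos (k_i x_i)) ≤ ∑' |f x| ∑_i x_i² (1 - cos k_i) = ∑_i (1 - cos k_i) ∑' x_i² |f x|`.
* `hat_bounds`: `|G(k) - 1| ≤ 1/4` (`gz_del`, `norm_FT_le`, `FT_sub`, `FT_del`); `|G(0) - G(k)| ≤ E(k)/(40 d)` (`FT_diff`, `gz_sec`).  `tz = cv gz Vz` and `Vz = del + cv (Pn p) tz` (`tz_conv` style, here with the hypotheses of this file): with `P(k) = FT (Pn p) k = 2 d p - 2 p E(k)`
  (`FT_nn`, `FT_const_mul`): `T = G (1 + P T)`, all real (`FT_im_zero`).  `T(0) = ∑ tz ≥ 1`, so `1 - G(0) P(0) = G(0)/T(0) > 0`, `1/G(0) - P(0) > 0`.  For any `k`: `1/G(k) - P(k) = (1/G(0) - P(0)) + (1/G(k) - 1/G(0)) + 2 p E(k) > - (16/9) E(k)/(40 d) + E(k)/(2d) ≥ E(k)/(4 d)`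
  (`p ≥ 1/(4d)`, `G ≥ 3/4`), so `T(k) (1 - G(k) P(k)) = G(k)`, `T(k) = 1/(1/G(k) - P(k)) > 0`, and `E(k) T(k) ≤ 4 d` (if `E(k) = 0` trivial).
* `DZ_of_DB`: `q = δ`, `D = δ.toReal` (`δ ≠ ⊤`), `d2`: `rho e 2 ≤ wz d` pointwise and `ch4_mono`; `tpos`, `tE`, `gE`: `hat_bounds`.
-/

set_option autoImplicit false

noncomputable section

open Finset
open scoped ENNReal

namespace IPC.Fo

variable {d : ℕ}

private theorem ZDc_sin_nat (φ : ℝ) (n : ℕ) : |Real.sin (φ * n)| ≤ n * |Real.sin φ| := by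
  induction n with
  | zero => simp
  | succ n ih =>
    have h1 : φ * ((n + 1 : ℕ) : ℝ) = φ * n + φ := by push_cast; ring
    rw [h1, Real.sin_add]
    have h2 := abs_add_le (Real.sin (φ * n) * Real.cos φ) (Real.cos (φ * n) * Real.sin φ)
    rw [abs_mul, abs_mul] at h2
    have h3 : |Real.sin (φ * n)| * |Real.cos φ| ≤ |Real.sin (φ * n)| * 1 :=
      mul_le_mul_of_nonneg_left (Real.abs_cos_le_one _) (abs_nonneg _)
    have h4 : |Real.cos (φ * n)| * |Real.sin φ| ≤ 1 * |Real.sin φ| :=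
      mul_le_mul_of_nonneg_right (Real.abs_cos_le_one _) (abs_nonneg _)
    push_cast
    linarith

private theorem ZDc_sin_int (φ : ℝ) (n : ℤ) : |Real.sin (φ * n)| ≤ |(n : ℝ)| * |Real.sin φ| := by
  obtain ⟨m, rfl | rfl⟩ := Int.eq_nat_or_neg n
  · have h := ZDc_sin_nat φ m
    rw [Int.cast_natCast, Nat.abs_cast]
    exact h
  · have h := ZDc_sin_nat φ m
    rw [Int.cast_neg, Int.cast_natCast, mul_neg, Real.sin_neg, abs_neg, abs_neg, Nat.abs_cast]
    exact h

theorem one_sub_cos_int (n : ℤ) (θ : ℝ) : 1 - Real.cos (θ * n) ≤ (n : ℝ) ^ 2 * (1 - Real.cos θ) := by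
  have h1 : ∀ t : ℝ, 1 - Real.cos t = 2 * Real.sin (t / 2) ^ 2 := fun t => by
    have h := Real.cos_sq' (t / 2)
    have h' := Real.cos_two_mul (t / 2)
    rw [show 2 * (t / 2) = t by ring] at h'
    rw [h', h]
    ring
  rw [h1, h1 θ, show θ * (n : ℝ) / 2 = θ / 2 * n by ring]
  have h2 := ZDc_sin_int (θ / 2) n
  have h3 : Real.sin (θ / 2 * n) ^ 2 ≤ (|(n : ℝ)| * |Real.sin (θ / 2)|) ^ 2 := by
    rw [← sq_abs]
    exact pow_le_pow_left₀ (abs_nonneg _) h2 2
  rw [mul_pow, sq_abs, sq_abs] at h3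
  linarith

theorem one_sub_prod {ι : Type} (s : Finset ι) (a : ι → ℝ) (h : ∀ i ∈ s, |a i| ≤ 1) :
    1 - ∏ i ∈ s, a i ≤ ∑ i ∈ s, (1 - a i) := by
  classical
  induction s using Finset.induction_on with
  | empty => simp
  | insert b s hb ih =>
    rw [Finset.prod_insert hb, Finset.sum_insert hb]
    have h1 := ih fun i hi => h i (Finset.mem_insert_of_mem hi)
    have h2 := abs_le.1 (h b (Finset.mem_insert_self _ _))
    have h3 : |∏ i ∈ s, a i| ≤ 1 := by
      rw [Finset.abs_prod]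
      exact Finset.prod_le_one (fun _ _ => abs_nonneg _) fun i hi => h i (Finset.mem_insert_of_mem hi)
    have h4 := abs_le.1 h3
    nlinarith [mul_nonneg (sub_nonneg.2 h2.2) (sub_nonneg.2 h4.2)]

/-- the character with the factors in `s` replaced by cosines -/
private def ZDc_w (k : Fin d → ℝ) (s : Finset (Fin d)) (x : Fin d → ℤ) : ℂ :=
  ∏ i, (if i ∈ s then ((Real.cos (k i * x i) : ℝ) : ℂ) else Complex.exp (((k i * x i : ℝ) : ℂ) * Complex.I))

private theorem ZDc_w_empty (k : Fin d → ℝ) (x : Fin d → ℤ) : ZDc_w k ∅ x = ch k x := by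
  unfold ZDc_w ch dot
  simp only [Finset.notMem_empty, if_false]
  rw [← Complex.exp_sum, ← Finset.sum_mul, ← Complex.ofReal_sum]

private theorem ZDc_w_univ (k : Fin d → ℝ) (x : Fin d → ℤ) :
    ZDc_w k Finset.univ x = ((∏ i, Real.cos (k i * x i) : ℝ) : ℂ) := by
  unfold ZDc_w
  simp only [Finset.mem_univ, if_true]
  rw [Complex.ofReal_prod]

private theorem ZDc_w_norm (k : Fin d → ℝ) (s : Finset (Fin d)) (x : Fin d → ℤ) : ‖ZDc_w k s x‖ ≤ 1 := by
  unfold ZDc_w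
  rw [norm_prod]
  refine Finset.prod_le_one (fun _ _ => norm_nonneg _) fun i _ => ?_
  split_ifs
  · rw [Complex.norm_real, Real.norm_eq_abs]
    exact Real.abs_cos_le_one _
  · rw [Complex.norm_exp_ofReal_mul_I]

private theorem ZDc_w_step (k : Fin d → ℝ) (s : Finset (Fin d)) (e : Fin d) (he : e ∉ s) (x : Fin d → ℤ) :
    ZDc_w k s x + ZDc_w k s (refl e x) = 2 * ZDc_w k (insert e s) x := by
  unfold ZDc_w
  rw [← Finset.mul_prod_erase Finset.univ _ (Finset.mem_univ e),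
    ← Finset.mul_prod_erase Finset.univ _ (Finset.mem_univ e),
    ← Finset.mul_prod_erase Finset.univ _ (Finset.mem_univ e)]
  rw [if_neg he, if_neg he, if_pos (Finset.mem_insert_self _ _), refl_self]
  have h1 : ∏ i ∈ Finset.univ.erase e, (if i ∈ s then ((Real.cos (k i * (refl e x) i) : ℝ) : ℂ)
      else Complex.exp (((k i * (refl e x) i : ℝ) : ℂ) * Complex.I)) =
      ∏ i ∈ Finset.univ.erase e, (if i ∈ s then ((Real.cos (k i * x i) : ℝ) : ℂ)
      else Complex.exp (((k i * x i : ℝ) : ℂ) * Complex.I)) :=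
    Finset.prod_congr rfl fun i hi => by rw [refl_other (Finset.ne_of_mem_erase hi)]
  have h2 : ∏ i ∈ Finset.univ.erase e, (if i ∈ insert e s then ((Real.cos (k i * x i) : ℝ) : ℂ)
      else Complex.exp (((k i * x i : ℝ) : ℂ) * Complex.I)) =
      ∏ i ∈ Finset.univ.erase e, (if i ∈ s then ((Real.cos (k i * x i) : ℝ) : ℂ)
      else Complex.exp (((k i * x i : ℝ) : ℂ) * Complex.I)) := by
    refine Finset.prod_congr rfl fun i hi => ?_
    have h := Finset.ne_of_mem_erase hi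
    by_cases hs : i ∈ s
    · rw [if_pos (Finset.mem_insert_of_mem hs), if_pos hs]
    · rw [if_neg (fun hh => (Finset.mem_insert.1 hh).elim h hs), if_neg hs]
  rw [h1, h2, ← add_mul, ← mul_assoc]
  congr 1
  rw [Complex.ofReal_cos, Complex.cos, Int.cast_neg, mul_neg, Complex.ofReal_neg, neg_mul]
  ring

private theorem ZDc_w_sum {f : (Fin d → ℤ) → ℝ} (hf : S1 f) (k : Fin d → ℝ) (s : Finset (Fin d)) :
    Summable fun x => (f x : ℂ) * ZDc_w k s x := by
  refine Summable.of_norm (Summable.of_nonneg_of_le (fun _ => norm_nonneg _) (fun x => ?_) hf)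
  rw [norm_mul, Complex.norm_real, Real.norm_eq_abs]
  exact mul_le_of_le_one_right (abs_nonneg _) (ZDc_w_norm k s x)

private theorem ZDc_ind {f : (Fin d → ℤ) → ℝ} (hf : S1 f) (he : Ev f) (k : Fin d → ℝ) (s : Finset (Fin d)) :
    FT f k = ∑' x, (f x : ℂ) * ZDc_w k s x := by
  induction s using Finset.induction_on with
  | empty =>
    unfold FT
    refine tsum_congr fun x => ?_
    rw [ZDc_w_empty]
  | insert e s hes ih =>
    have h0 := ZDc_w_sum hf k s
    have h1 : ∑' x, (f x : ℂ) * ZDc_w k s (refl e x) = FT f k := by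
      rw [ih, ← (reflE e).tsum_eq (fun x => (f x : ℂ) * ZDc_w k s x)]
      refine tsum_congr fun x => ?_
      change _ = (f (refl e x) : ℂ) * ZDc_w k s (refl e x)
      rw [he e x]
    have h2 : Summable fun x => (f x : ℂ) * ZDc_w k s (refl e x) := by
      have h := (reflE e).summable_iff.2 h0
      refine h.congr fun x => ?_
      change (f (refl e x) : ℂ) * ZDc_w k s (refl e x) = _
      rw [he e x]
    have h3 : ∑' x, ((f x : ℂ) * ZDc_w k s x + (f x : ℂ) * ZDc_w k s (refl e x)) =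
        2 * ∑' x, (f x : ℂ) * ZDc_w k (insert e s) x := by
      rw [← tsum_mul_left]
      refine tsum_congr fun x => ?_
      rw [← mul_add, ZDc_w_step k s e hes x]
      ring
    rw [h0.tsum_add h2, h1, ← ih] at h3
    have h4 : (2 : ℂ) * FT f k = 2 * ∑' x, (f x : ℂ) * ZDc_w k (insert e s) x := by
      rw [← h3]
      ring
    exact mul_left_cancel₀ two_ne_zero h4

theorem FT_even_prod {f : (Fin d → ℤ) → ℝ} (hf : S1 f) (he : Ev f) (k : Fin d → ℝ) :
    FT f k = ((∑' x, f x * ∏ i, Real.cos (k i * x i) : ℝ) : ℂ) := by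
  rw [ZDc_ind hf he k Finset.univ, Complex.ofReal_tsum]
  refine tsum_congr fun x => ?_
  rw [ZDc_w_univ, Complex.ofReal_mul]

theorem FT_diff {f : (Fin d → ℤ) → ℝ} (hf : S1 f) (he : Ev f)
    (h2 : ∀ e : Fin d, Summable fun x : Fin d → ℤ => (x e : ℝ) ^ 2 * |f x|) (k : Fin d → ℝ) :
    |(FT f 0).re - (FT f k).re| ≤ ∑ i, (1 - Real.cos (k i)) * ∑' x : Fin d → ℤ, (x i : ℝ) ^ 2 * |f x| := by
  have ha : ∀ x : Fin d → ℤ, |∏ i, Real.cos (k i * x i)| ≤ 1 := fun x => by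
    rw [Finset.abs_prod]
    exact Finset.prod_le_one (fun _ _ => abs_nonneg _) fun i _ => Real.abs_cos_le_one _
  have hs : Summable fun x => f x * ∏ i, Real.cos (k i * x i) := by
    refine Summable.of_abs (Summable.of_nonneg_of_le (fun _ => abs_nonneg _) (fun x => ?_) hf)
    rw [abs_mul]
    exact mul_le_of_le_one_right (abs_nonneg _) (ha x)
  have e0 : (FT f 0).re = ∑' x, f x := by
    rw [FT_even_prod hf he 0, Complex.ofReal_re]
    refine tsum_congr fun x => ?_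
    simp
  have ek : (FT f k).re = ∑' x, f x * ∏ i, Real.cos (k i * x i) := by
    rw [FT_even_prod hf he k, Complex.ofReal_re]
  have hb : ∀ x : Fin d → ℤ, |f x - f x * ∏ i, Real.cos (k i * x i)| ≤
      ∑ i, (1 - Real.cos (k i)) * ((x i : ℝ) ^ 2 * |f x|) := fun x => by
    have h1 := one_sub_prod (ι := Fin d) Finset.univ (fun i => Real.cos (k i * x i))
      fun i _ => Real.abs_cos_le_one _
    have h3 : ∑ i, (1 - Real.cos (k i * x i)) ≤ ∑ i, (x i : ℝ) ^ 2 * (1 - Real.cos (k i)) :=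
      Finset.sum_le_sum fun i _ => one_sub_cos_int (x i) (k i)
    have h4 : 0 ≤ 1 - ∏ i, Real.cos (k i * x i) := by
      have := (abs_le.1 (ha x)).2
      linarith
    have h5 : f x - f x * ∏ i, Real.cos (k i * x i) = f x * (1 - ∏ i, Real.cos (k i * x i)) := by ring
    rw [h5, abs_mul, abs_of_nonneg h4]
    have h6 : |f x| * (1 - ∏ i, Real.cos (k i * x i)) ≤ |f x| * ∑ i, (x i : ℝ) ^ 2 * (1 - Real.cos (k i)) :=
      mul_le_mul_of_nonneg_left (h1.trans h3) (abs_nonneg _)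
    refine h6.trans (le_of_eq ?_)
    rw [Finset.mul_sum]
    refine Finset.sum_congr rfl fun i _ => ?_
    ring
  have hS : ∀ i ∈ (Finset.univ : Finset (Fin d)), Summable fun x : Fin d → ℤ =>
      (1 - Real.cos (k i)) * ((x i : ℝ) ^ 2 * |f x|) := fun i _ => (h2 i).mul_left _
  have hS' : Summable fun x : Fin d → ℤ => ∑ i, (1 - Real.cos (k i)) * ((x i : ℝ) ^ 2 * |f x|) :=
    summable_sum hS
  have hN : Summable fun x => |f x - f x * ∏ i, Real.cos (k i * x i)| :=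
    Summable.of_nonneg_of_le (fun _ => abs_nonneg _) hb hS'
  rw [e0, ek, ← hf.sum.tsum_sub hs]
  have hn := norm_tsum_le_tsum_norm (f := fun x => f x - f x * ∏ i, Real.cos (k i * x i)) (by
    simpa only [Real.norm_eq_abs] using hN)
  simp only [Real.norm_eq_abs] at hn
  refine hn.trans ((hN.tsum_le_tsum hb hS').trans (le_of_eq ?_))
  rw [Summable.tsum_finsetSum hS]
  refine Finset.sum_congr rfl fun i _ => ?_
  rw [tsum_mul_left]

end IPC.Fo
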