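import Mathlib
import Pool.Agent.Lib.MP_25e40f_pr.E.ZDefs
import Pool.Agent.Lib.MP_25e40f_pr.E.ZIndA
import Pool.Agent.Lib.MP_25e40f_pr.E.MmtB
import Pool.Agent.Lib.MP_25e40f_pr.E.ZDa
import Pool.Agent.Lib.MP_25e40f_pr.E.ZDb
import Pool.Agent.Lib.MP_25e40f_pr.E.ZDc

/-!
THIS JOB (ZDd): the theorems hat_bounds DZ_of_DB.  (The header describes the whole group ZD; the other theorems are in other jobs and may be imported.)

# Job ZD: from the bootstrap output to the Fourier bounds on `ℤᵈ`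

Write `G(k) = re FT gz k`, `T(k) = re FT tz k`, `E(k) = ∑_i (1 - cos k_i)` (sum, not average).
PROOFS.
* `ZZ_self`: `tendsto_EP` (B/Ela.lean) with `F = {0}`, `A = univ`, `u = 0`: `EP ω univ {0} 0` always holds (`Thru`: `AllConn` is reflexive, `ConnOff ω univ ..` is false as `x ∉ univ` is false; the second part is void because
  `0 ∈ Cl (..) {0}`), so the probabilities are all `1` (`Pr_true` in A/Prb.lean or `Pr` of an event that always holds) and the limit `ZZ .. 0` is `1`.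
* `gz_del`: `∑' u, ofReal |gz u - del u| ≤ ∑'_(u ≠ 0) ZZ 0 u + ∑'_n ∑'_u ZZ (n+1) u`: for `u ≠ 0` as in `gF_weight`; for `u = 0`: `gz 0 = ∑_n (-1)^n (ZZ n .. 0).toReal`, the term `n = 0` is `1` (`ZZ_self`), so `gz 0 - 1 = ∑_(n ≥ 1)`.
  `∑'_(u ≠ 0) ZZ 0 u ≤ ∑'_(u ≠ 0) tK 0 u * tK 0 u ≤ q` (`CE.ZZs_zero`, `Ker.zero_one`), `∑'_n ∑'_u ZZ (n+1) u ≤ 2 * (48 q)` (`CE.ZZs_le`, `Ker.KS_one`).  Total `97 q ≤ 1/4`.
* `gz_sec`: `gz_le` (E/ZMomA.lean) with `w u = wz d 0 u`: `A = δ` (`Ker.zero_f`), `B = (2*2*(16+4*2)*(2+2)+2) * (3 * δ) = 386 * (3 δ)` (`Ker.KS_D2` with `f = wz d`, `a = c = 2`, `CP = 3`; `Wgt (wz d) 2 2`: `|x+y|² ≤ 2|x|² + 2|y|²`; `wz` vanishes on the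
  diagonal; `d1` from `d0` by commutativity `mm_kt_comm` of the kernels `kt`: `wz d = kt ..`, `tK = kt (oR tz)`, `pK = kt (oR (Pn p))`).  Total `δ + 2 * 1158 δ = 2317 δ ≤ 1/40`.  Hence `∑' (∑_i x_i²) |gz x| ≤ 1/40` (real), and by `Sy_gz` all the `d` sums `∑' x_e² |gz x|`
  are equal (a permutation of coordinates), so each is at most `1/(40 d)`.
* `one_sub_cos_int`: `1 - cos(nθ) = 2 sin²(nθ/2)` and `|sin (n φ)| ≤ |n| |sin φ|` (induction on `|n|`: `sin((n+1)φ) = sin(nφ)cos φ + cos(nφ) sin φ`).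
* `one_sub_prod`: `1 - ∏ a_i ≤ ∑ (1 - a_i)` for `|a_i| ≤ 1` (induction on the finset: `1 - a b = (1 - a) + a (1 - b)` needs `a ≤ 1`, `1 - b ≥ 0`, and `|∏| ≤ 1`).
* `FT_even_prod`: for `f` even (`Ev`) and `S1`: `FT f k = ∑' f x ∏ cos (k_i x_i)` : replace the factors `exp(i k_j x_j)` one after the other (induction over a finset of coordinates) using `reflE j` (`(e^{iθ} + e^{-iθ})/2 = cos θ`).
* `FT_diff`: `|FT f 0 - FT f k| ≤ ∑' |f x| (1 - ∏ cos (k_i x_i)) ≤ ∑' |f x| ∑_i x_i² (1 - cos k_i) = ∑_i (1 - cos k_i) ∑' x_i² |f x|`.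
* `hat_bounds`: `|G(k) - 1| ≤ 1/4` (`gz_del`, `norm_FT_le`, `FT_sub`, `FT_del`); `|G(0) - G(k)| ≤ E(k)/(40 d)` (`FT_diff`, `gz_sec`).  `tz = cv gz Vz` and `Vz = del + cv (Pn p) tz` (`tz_conv` style, here with the hypotheses of this file): with `P(k) = FT (Pn p) k = 2 d p - 2 p E(k)`
  (`FT_nn`, `FT_const_mul`): `T = G (1 + P T)`, all real (`FT_im_zero`).  `T(0) = ∑ tz ≥ 1`, so `1 - G(0) P(0) = G(0)/T(0) > 0`, `1/G(0) - P(0) > 0`.  For any `k`: `1/G(k) - P(k) = (1/G(0) - P(0)) + (1/G(k) - 1/G(0)) + 2 p E(k) > - (16/9) E(k)/(40 d) + E(k)/(2d) ≥ E(k)/(4 d)`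
  (`p ≥ 1/(4d)`, `G ≥ 3/4`), so `T(k) (1 - G(k) P(k)) = G(k)`, `T(k) = 1/(1/G(k) - P(k)) > 0`, and `E(k) T(k) ≤ 4 d` (if `E(k) = 0` trivial).
* `DZ_of_DB`: `q = δ`, `D = δ.toReal` (`δ ≠ ⊤`), `d2`: `rho e 2 ≤ wz d` pointwise and `ch4_mono`; `tpos`, `tE`, `gE`: `hat_bounds`.
-/

set_option autoImplicit false

noncomputable section

open Finset
open scoped ENNReal

namespace IPC.Fo

variable {d : ℕ}

private theorem ZDd_alg {d p E T G T0 G0 P P0 : ℝ} (hd : 0 < d) (hp : 1 / (4 * d) ≤ p) (hE : 0 ≤ E)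
    (hG : 3 / 4 ≤ G) (hG0 : 3 / 4 ≤ G0) (hT0 : 1 ≤ T0) (e0 : T0 = G0 + G0 * (P0 * T0))
    (e1 : T = G + G * (P * T)) (hP : P = P0 - 2 * p * E) (hdiff : |G0 - G| ≤ E / (40 * d)) :
    0 < T ∧ E * T ≤ 5 * d := by
  have hGp : 0 < G := by linarith
  have hG0p : 0 < G0 := by linarith
  obtain ⟨v, hv⟩ : ∃ v : ℝ, v = G⁻¹ := ⟨_, rfl⟩
  obtain ⟨u, hu⟩ : ∃ u : ℝ, u = G0⁻¹ := ⟨_, rfl⟩
  have hvG : v * G = 1 := by rw [hv]; exact inv_mul_cancel₀ hGp.ne'
  have huG : u * G0 = 1 := by rw [hu]; exact inv_mul_cancel₀ hG0p.ne'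
  have hv0 : 0 < v := by rw [hv]; positivity
  have hu0 : 0 < u := by rw [hu]; positivity
  have hv1 : v ≤ 4 / 3 := by nlinarith
  have hu1 : u ≤ 4 / 3 := by nlinarith
  have hA : (u - P0) * T0 = 1 := by
    have h : u * T0 = u * (G0 + G0 * (P0 * T0)) := by rw [← e0]
    linear_combination h + (1 + P0 * T0) * huG
  have hB : (v - P) * T = 1 := by
    have h : v * T = v * (G + G * (P * T)) := by rw [← e1]
    linear_combination h + (1 + P * T) * hvG
  have hA0 : 0 < u - P0 := by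
    by_contra hcon
    push Not at hcon
    nlinarith
  have hvu : v - u = v * u * (G0 - G) := by
    linear_combination (-v) * huG + u * hvG
  have hvu1 : v * u ≤ 16 / 9 := by nlinarith
  have hvu0 : 0 < v * u := mul_pos hv0 hu0
  have hEd : 0 ≤ E / (40 * d) := by positivity
  have h3 : -(16 / 9 * (E / (40 * d))) ≤ v - u := by
    rw [hvu]
    have h4 := (abs_le.mp hdiff).1
    nlinarith
  have h5 : E / (2 * d) ≤ 2 * p * E := by
    have h6 : E / (2 * d) = 2 * (1 / (4 * d)) * E := by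
      field_simp
      ring
    rw [h6]
    nlinarith
  have h7 : E / (2 * d) = 20 * (E / (40 * d)) := by
    field_simp
    ring
  have h8 : E / (4 * d) = 10 * (E / (40 * d)) := by
    field_simp
    ring
  have h9 : E / (4 * d) < v - P := by
    rw [hP, h8]
    rw [h7] at h5
    linarith
  have h10 : 0 ≤ E / (4 * d) := by positivity
  have hvP : 0 < v - P := by linarith
  have hT : 0 < T := by
    by_contra hcon
    push Not at hcon
    nlinarith
  refine ⟨hT, ?_⟩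
  have h11 : E / (4 * d) * T ≤ 1 := by
    rw [← hB]
    exact mul_le_mul_of_nonneg_right h9.le hT.le
  have h12 : E * T = 4 * d * (E / (4 * d) * T) := by
    field_simp
  rw [h12]
  nlinarith

private theorem ZDd_small {δ : ℝ≥0∞} (h : 100000 * δ ≤ 1) (c : ℝ≥0∞) (hc : c ≤ 100000) : c * δ ≤ 1 :=
  (mul_le_mul' hc le_rfl).trans h

private theorem ZDd_real {p : ℝ} {τ g : (Fin d → ℤ) → ℝ} (hτ : S1 τ) (hg : S1 g) (eτ : Ev τ) (eg : Ev g)
    (h : ∀ x, τ x = g x + cv g (cv (Pn p) τ) x) (k : Fin d → ℝ) :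
    (FT τ k).re = (FT g k).re + (FT g k).re * ((p * ∑ i, 2 * Real.cos (k i)) * (FT τ k).re) := by
  have h1 := limA_FT hτ hg h k
  have h2 := FT_im_zero hτ eτ k
  have h3 := FT_im_zero hg eg k
  have h4 : FT (Pn (d := d) p) k = ((p * ∑ i, 2 * Real.cos (k i) : ℝ) : ℂ) := by
    have h5 := FT_const_mul (nn d) p k
    rw [FT_nn] at h5
    rw [Complex.ofReal_mul]
    exact h5
  have h6 : FT τ k = (((FT τ k).re : ℝ) : ℂ) := Complex.ext (by simp) (by simp [h2])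
  have h7 : FT g k = (((FT g k).re : ℝ) : ℂ) := Complex.ext (by simp) (by simp [h3])
  rw [h4, h6, h7] at h1
  have h8 : (((FT τ k).re : ℝ) : ℂ) =
      (((FT g k).re + (FT g k).re * ((p * ∑ i, 2 * Real.cos (k i)) * (FT τ k).re) : ℝ) : ℂ) := by
    rw [Complex.ofReal_add, Complex.ofReal_mul, Complex.ofReal_mul (p * ∑ i, 2 * Real.cos (k i))]
    exact h1
  exact Complex.ofReal_injective h8

theorem hat_bounds {δ : ℝ≥0∞} (H : DB d δ) {p : ℝ} (hp : 1 / (4 * (d : ℝ)) ≤ p) (hp1 : p < (Zg d).pc)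
    (k : Fin d → ℝ) : 0 < (FT (tz d p) k).re ∧ (∑ i, (1 - Real.cos (k i))) * (FT (tz d p) k).re ≤ 5 * d ∧
      1 / 2 ≤ (FT (gz d p) k).re := by
  have hd1 : 1 ≤ d := by
    have := H.dim
    omega
  have hd0 : (0 : ℝ) < d := by exact_mod_cast hd1
  have h0 : 0 ≤ p := le_trans (by positivity) hp
  have h2 : p ≤ 1 / 2 := by
    have := H.le
    linarith
  have h1 : p ≤ 1 := by linarith
  have hK : Ker (CE.tK (Zg d) p) (CE.pK (Zg d) p) δ := Ker_z h0 h2 (H.q4 p h0 hp1)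
  have hN := H.noperc p h0 hp1.le
  have h1000 : 1000 * δ ≤ 1 := ZDd_small H.small 1000 (by norm_num)
  obtain ⟨hg, -, hfin⟩ := gz_one h0 h2 h1000 hK
  obtain ⟨hs, hs1⟩ := gz_del h0 h2 hN h1000 hK
  have hsec := fun e => gz_sec hd1 h0 h2 (H.rw p h0 hp1) H.small hK (H.d0 p h0 hp1) e
  obtain ⟨C, c, hc, hdec⟩ := H.dec p h0 hp1
  have hτ : S1 (tz d p) := (Mo_tz hc h0 h1 hdec 0).s1
  have hconv : ∀ x, tz d p x = gz d p x + cv (gz d p) (cv (Pn p) (tz d p)) x := fun x =>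
    tz_eq h0 h1 hN hfin hg x
  have hreal := fun k => ZDd_real hτ hg (Ev_tz h0 h1) (Ev_gz p) hconv k
  have hGb : ∀ k : Fin d → ℝ, 3 / 4 ≤ (FT (gz d p) k).re := by
    intro k
    have e1 : FT (gz d p) k - 1 = FT (fun x => gz d p x - del d x) k := by
      rw [FT_sub hg S1_del, FT_del]
    have e2 : ‖FT (gz d p) k - 1‖ ≤ 1 / 4 := by
      rw [e1]
      exact (norm_FT_le hs k).trans hs1
    have e3 := (Complex.abs_re_le_norm (FT (gz d p) k - 1)).trans e2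
    rw [Complex.sub_re, Complex.one_re] at e3
    have := (abs_le.mp e3).1
    linarith
  have hT0 : 1 ≤ (FT (tz d p) 0).re := by
    rw [FT_re_eq hτ]
    have e1 : ∀ x : Fin d → ℤ, tz d p x * Real.cos (dot 0 x) = tz d p x := by
      intro x
      have : dot (0 : Fin d → ℝ) x = 0 := by simp [dot]
      rw [this, Real.cos_zero, mul_one]
    rw [tsum_congr e1, ← tz_zero (d := d) p]
    exact hτ.sum.le_tsum 0 fun x _ => tz_nonneg h0 h1 x
  have hdiff : |(FT (gz d p) 0).re - (FT (gz d p) k).re| ≤ (∑ i, (1 - Real.cos (k i))) / (40 * d) := by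
    refine (FT_diff hg (Ev_gz p) (fun e => (hsec e).1) k).trans ?_
    rw [Finset.sum_div]
    refine Finset.sum_le_sum fun i _ => ?_
    have h3 : 0 ≤ 1 - Real.cos (k i) := by linarith [Real.cos_le_one (k i)]
    calc (1 - Real.cos (k i)) * ∑' x : Fin d → ℤ, (x i : ℝ) ^ 2 * |gz d p x| ≤
        (1 - Real.cos (k i)) * (1 / (40 * d)) := mul_le_mul_of_nonneg_left (hsec i).2 h3
      _ = (1 - Real.cos (k i)) / (40 * d) := by rw [mul_one_div]
  have hE : 0 ≤ ∑ i, (1 - Real.cos (k i)) :=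
    Finset.sum_nonneg fun i _ => by linarith [Real.cos_le_one (k i)]
  have hP : p * ∑ i, 2 * Real.cos (k i) =
      p * (∑ i : Fin d, 2 * Real.cos ((0 : Fin d → ℝ) i)) - 2 * p * ∑ i, (1 - Real.cos (k i)) := by
    have e1 : ∑ i, 2 * Real.cos (k i) = 2 * d - 2 * ∑ i, (1 - Real.cos (k i)) := by
      rw [Finset.sum_sub_distrib, Finset.sum_const, Finset.card_univ, Fintype.card_fin, nsmul_eq_mul,
        ← Finset.mul_sum]
      ring
    have e2 : ∑ i : Fin d, 2 * Real.cos ((0 : Fin d → ℝ) i) = 2 * d := by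
      simp [mul_comm]
    rw [e1, e2]
    ring
  have key := ZDd_alg hd0 hp hE (hGb k) (hGb 0) hT0 (hreal 0) (hreal k) hP hdiff
  exact ⟨key.1, key.2, by linarith [hGb k]⟩

theorem DZ_of_DB {δ : ℝ≥0∞} (H : DB d δ) : DZ d δ δ.toReal := by
  have hδ : δ ≠ ⊤ := by
    rintro rfl
    have h := H.small
    rw [ENNReal.mul_top (by norm_num)] at h
    exact absurd h (by simp)
  refine ⟨H.dim, ZDd_small H.small 4000 (by norm_num), H.lt, H.le, H.noperc, H.q4, ?_, ?_, ?_, ?_, H.dec,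
    H.chi⟩
  · intro p h0 hp e x y
    rw [ENNReal.ofReal_toReal hδ]
    refine le_trans ?_ (H.d0 p h0 hp x y)
    refine ch4_mono (fun x y => ?_) (fun _ _ => le_rfl) (fun _ _ => le_rfl) (fun _ _ => le_rfl) x y
    refine mul_le_mul' ?_ le_rfl
    show ENNReal.ofReal (|((y - x) e : ℝ)| ^ 2) ≤ ENNReal.ofReal (∑ i, ((y - x) i : ℝ) ^ 2)
    apply ENNReal.ofReal_le_ofReal
    rw [sq_abs]
    exact Finset.single_le_sum (f := fun i => ((y - x) i : ℝ) ^ 2) (fun _ _ => sq_nonneg _)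
      (Finset.mem_univ e)
  · intro p hp hp1 k
    exact (hat_bounds H hp hp1 k).1
  · intro p hp hp1 k
    exact (hat_bounds H hp hp1 k).2.1
  · intro p hp hp1 k
    exact (hat_bounds H hp hp1 k).2.2

end IPC.Fo
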