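import Mathlib
import Pool.Agent.Lib.MP_25e40f_pr.E.ZDefs
import Pool.Agent.Lib.MP_25e40f_pr.E.ZIndA
import Pool.Agent.Lib.MP_25e40f_pr.E.MmtB
import Pool.Agent.Lib.MP_25e40f_pr.DP.Sml

/-!
THIS JOB (ZDe): the theorems noPerc_third pc_lt.  (The header describes the whole group ZD; the other theorems are in other jobs and may be imported.)

# Job ZD: from the bootstrap output to the Fourier bounds on `ℤᵈ`

Write `G(k) = re FT gz k`, `T(k) = re FT tz k`, `E(k) = ∑_i (1 - cos k_i)` (sum, not average).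
PROOFS.
* `ZZ_self`: `tendsto_EP` (B/Ela.lean) with `F = {0}`, `A = univ`, `u = 0`: `EP ω univ {0} 0` always holds (`Thru`: `AllConn` is reflexive, `ConnOff ω univ ..` is false as `x ∉ univ` is false; the second part is void because
  `0 ∈ Cl (..) {0}`), so the probabilities are all `1` (`Pr_true` in A/Prb.lean or `Pr` of an event that always holds) and the limit `ZZ .. 0` is `1`.
* `gz_del`: `∑' u, ofReal |gz u - del u| ≤ ∑'_(u ≠ 0) ZZ 0 u + ∑'_n ∑'_u ZZ (n+1) u`: for `u ≠ 0` as in `gF_weight`; for `u = 0`: `gz 0 = ∑_n (-1)^n (ZZ n .. 0).toReal`, the term `n = 0` is `1` (`ZZ_self`), so `gz 0 - 1 = ∑_(n ≥ 1)`.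
  `∑'_(u ≠ 0) ZZ 0 u ≤ ∑'_(u ≠ 0) tK 0 u * tK 0 u ≤ q` (`CE.ZZs_zero`, `Ker.zero_one`), `∑'_n ∑'_u ZZ (n+1) u ≤ 2 * (48 q)` (`CE.ZZs_le`, `Ker.KS_one`).  Total `97 q ≤ 1/4`.
* `gz_sec`: `gz_le` (E/ZMomA.lean) with `w u = wz d 0 u`: `A = δ` (`Ker.zero_f`), `B = (2*2*(16+4*2)*(2+2)+2) * (3 * δ) = 386 * (3 δ)` (`Ker.KS_D2` with `f = wz d`, `a = c = 2`, `CP = 3`; `Wgt (wz d) 2 2`: `|x+y|² ≤ 2|x|² + 2|y|²`; `wz` vanishes on the
  diagonal; `d1` from `d0` by commutativity `mm_kt_comm` of the kernels `kt`: `wz d = kt ..`, `tK = kt (oR tz)`, `pK = kt (oR (Pn p))`).  Total `δ + 2 * 1158 δ = 2317 δ ≤ 1/40`.  Hence `∑' (∑_i x_i²) |gz x| ≤ 1/40` (real), and by `Sy_gz` all the `d` sums `∑' x_e² |gz x|`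
  are equal (a permutation of coordinates), so each is at most `1/(40 d)`.
* `one_sub_cos_int`: `1 - cos(nθ) = 2 sin²(nθ/2)` and `|sin (n φ)| ≤ |n| |sin φ|` (induction on `|n|`: `sin((n+1)φ) = sin(nφ)cos φ + cos(nφ) sin φ`).
* `one_sub_prod`: `1 - ∏ a_i ≤ ∑ (1 - a_i)` for `|a_i| ≤ 1` (induction on the finset: `1 - a b = (1 - a) + a (1 - b)` needs `a ≤ 1`, `1 - b ≥ 0`, and `|∏| ≤ 1`).
* `FT_even_prod`: for `f` even (`Ev`) and `S1`: `FT f k = ∑' f x ∏ cos (k_i x_i)` : replace the factors `exp(i k_j x_j)` one after the other (induction over a finset of coordinates) using `reflE j` (`(e^{iθ} + e^{-iθ})/2 = cos θ`).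
* `FT_diff`: `|FT f 0 - FT f k| ≤ ∑' |f x| (1 - ∏ cos (k_i x_i)) ≤ ∑' |f x| ∑_i x_i² (1 - cos k_i) = ∑_i (1 - cos k_i) ∑' x_i² |f x|`.
* `hat_bounds`: `|G(k) - 1| ≤ 1/4` (`gz_del`, `norm_FT_le`, `FT_sub`, `FT_del`); `|G(0) - G(k)| ≤ E(k)/(40 d)` (`FT_diff`, `gz_sec`).  `tz = cv gz Vz` and `Vz = del + cv (Pn p) tz` (`tz_conv` style, here with the hypotheses of this file): with `P(k) = FT (Pn p) k = 2 d p - 2 p E(k)`
  (`FT_nn`, `FT_const_mul`): `T = G (1 + P T)`, all real (`FT_im_zero`).  `T(0) = ∑ tz ≥ 1`, so `1 - G(0) P(0) = G(0)/T(0) > 0`, `1/G(0) - P(0) > 0`.  For any `k`: `1/G(k) - P(k) = (1/G(0) - P(0)) + (1/G(k) - 1/G(0)) + 2 p E(k) > - (16/9) E(k)/(40 d) + E(k)/(2d) ≥ E(k)/(4 d)`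
  (`p ≥ 1/(4d)`, `G ≥ 3/4`), so `T(k) (1 - G(k) P(k)) = G(k)`, `T(k) = 1/(1/G(k) - P(k)) > 0`, and `E(k) T(k) ≤ 4 d` (if `E(k) = 0` trivial).
* `DZ_of_DB`: `q = δ`, `D = δ.toReal` (`δ ≠ ⊤`), `d2`: `rho e 2 ≤ wz d` pointwise and `ch4_mono`; `tpos`, `tE`, `gE`: `hat_bounds`.
* `noPerc_third`: as `DP.noPerc_small` (DP/Sml.lean; same proof with `2 d p = 2/3`), `pc_lt`: `1/(4d) < 1/(3d) ≤ pc` (`le_csSup`).
-/

set_option autoImplicit false

noncomputable section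

open Finset
open scoped ENNReal

namespace IPC.Fo

variable {d : ℕ}

private theorem zde_nrm_zero {d : ℕ} : nrm (0 : Fin d → ℤ) = 0 := by
  unfold nrm
  apply Nat.le_zero.1
  apply Finset.sup_le
  intro i _
  simp

private theorem zde_le_nrm {d : ℕ} (x : Fin d → ℤ) (i : Fin d) : (x i).natAbs ≤ nrm x :=
  Finset.le_sup (f := fun i => (x i).natAbs) (Finset.mem_univ i)

private theorem zde_nrm_nb {d : ℕ} {x z : Fin d → ℤ} (hz : z ∈ nbZ d x) (y : Fin d → ℤ) :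
    nrm (x - y) ≤ nrm (z - y) + 1 := by
  rw [mem_nbZ] at hz
  obtain ⟨i, s, hs, rfl⟩ := hz
  unfold nrm
  apply Finset.sup_le
  intro j _
  have h1 := zde_le_nrm (Function.update x i (x i + s) - y) j
  unfold nrm at h1
  refine le_trans ?_ (Nat.add_le_add_right h1 1)
  rw [Pi.sub_apply, Pi.sub_apply]
  by_cases hj : j = i
  · subst hj
    rw [Function.update_self]
    rcases hs with rfl | rfl <;> omega
  · rw [Function.update_of_ne hj]
    omega

private theorem zde_half {d : ℕ} (hd : 1 ≤ d) : 0 ≤ (1 / (3 * d) : ℝ) ∧ (1 / (3 * d) : ℝ) ≤ 1 / 2 := by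
  have h : (1 : ℝ) ≤ (d : ℝ) := by exact_mod_cast hd
  constructor
  · positivity
  · rw [div_le_div_iff₀ (by linarith) (by norm_num)]
    linarith

private theorem zde_tau {d : ℕ} (hd : 1 ≤ d) (k : ℕ) : ∀ x y : Fin d → ℤ, k ≤ nrm (x - y) →
    (Zg d).tau (1 / (3 * d)) x y ≤ (2 / 3) ^ k := by
  obtain ⟨h0, h1⟩ := zde_half hd
  have h1' : (1 / (3 * d) : ℝ) ≤ 1 := by linarith
  have hd1 : (1 : ℝ) ≤ (d : ℝ) := by exact_mod_cast hd
  induction k with
  | zero =>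
    intro x y _
    rw [pow_zero]
    exact T.tau_le_one (Zg d) h0 h1' x y
  | succ k ih =>
    intro x y h
    have hne : x ≠ y := by
      rintro rfl
      rw [sub_self, zde_nrm_zero] at h
      omega
    have hst := T.tau_step (Zg d) h0 h1 x y
    rw [if_neg hne, zero_add] at hst
    refine hst.trans ?_
    have hb : ∀ z ∈ (Zg d).nb x, (1 / (3 * d) : ℝ) * (Zg d).tau (1 / (3 * d)) z y ≤
        (1 / (3 * d) : ℝ) * (2 / 3) ^ k := by
      intro z hz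
      apply mul_le_mul_of_nonneg_left _ h0
      apply ih
      have := zde_nrm_nb (y := y) (show z ∈ nbZ d x from hz)
      omega
    refine (Finset.sum_le_sum hb).trans ?_
    rw [Finset.sum_const, nsmul_eq_mul]
    have hc : (((Zg d).nb x).card : ℝ) ≤ 2 * d := by
      exact_mod_cast DP.nbZ_card d x
    refine (mul_le_mul_of_nonneg_right hc (by positivity)).trans (le_of_eq ?_)
    have hd0 : (d : ℝ) ≠ 0 := by linarith
    rw [pow_succ]
    field_simp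

private theorem zde_out {d r : ℕ} {y : Fin d → ℤ} (hy : y ∉ (Zg d).Lam r) : r + 1 ≤ nrm y := by
  by_contra hc
  apply hy
  show y ∈ Fintype.piFinset fun _ : Fin d => Finset.Icc (-(r : ℤ)) r
  rw [Fintype.mem_piFinset]
  intro i
  have h1 := zde_le_nrm y i
  rw [Finset.mem_Icc]
  omega

private theorem zde_nrm_tri {d : ℕ} (x y : Fin d → ℤ) : nrm y ≤ nrm (x - y) + nrm x := by
  have h : ∀ i, (y i).natAbs ≤ nrm (x - y) + nrm x := by
    intro i
    have h1 := zde_le_nrm (x - y) i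
    have h2 := zde_le_nrm x i
    rw [Pi.sub_apply] at h1
    omega
  exact Finset.sup_le fun i _ => h i

private theorem zde_card (d r : ℕ) : ((Zg d).Lam (r + 1)).card = (2 * r + 3) ^ d := by
  show (Fintype.piFinset fun _ : Fin d => Finset.Icc (-((r + 1 : ℕ) : ℤ)) ((r + 1 : ℕ) : ℤ)).card = _
  rw [Fintype.card_piFinset_const, Int.card_Icc]
  congr 1
  push_cast
  omega

private theorem zde_pow (m k : ℕ) : (2 / 3 : ℝ) ^ (k - m) ≤ (3 / 2) ^ m * (2 / 3) ^ k := by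
  have h2 : (3 / 2 : ℝ) ^ m * (2 / 3) ^ m = 1 := by
    rw [← mul_pow]
    norm_num
  rcases le_total m k with h | h
  · have e : (2 / 3 : ℝ) ^ k = (2 / 3) ^ m * (2 / 3) ^ (k - m) := by
      rw [← pow_add]
      congr 1
      omega
    rw [e, ← mul_assoc, h2, one_mul]
  · have e : k - m = 0 := by omega
    rw [e, pow_zero]
    have e2 : (2 / 3 : ℝ) ^ m ≤ (2 / 3) ^ k :=
      pow_le_pow_of_le_one (by norm_num) (by norm_num) h
    calc (1 : ℝ) = (3 / 2) ^ m * (2 / 3) ^ m := h2.symm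
      _ ≤ _ := mul_le_mul_of_nonneg_left e2 (by positivity)

private theorem zde_arm {d : ℕ} (hd : 1 ≤ d) (x : Fin d → ℤ) (r : ℕ) :
    (Zg d).arm (1 / (3 * d)) x r ≤
      (3 ^ d * (3 / 2) ^ nrm x) * (((r + 1 : ℕ) : ℝ) ^ d * (2 / 3) ^ (r + 1)) := by
  obtain ⟨h0, h1⟩ := zde_half hd
  have h1' : (1 / (3 * d) : ℝ) ≤ 1 := by linarith
  refine (DP.arm_le_sum (Zg d) h0 h1' x r).trans ?_
  have hb : ∀ y ∈ (Zg d).Lam (r + 1) \ (Zg d).Lam r, (Zg d).tau (1 / (3 * d)) x y ≤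
      (3 / 2) ^ nrm x * (2 / 3) ^ (r + 1) := by
    intro y hy
    rw [Finset.mem_sdiff] at hy
    have hy1 := zde_out hy.2
    have hy2 := zde_nrm_tri x y
    refine (zde_tau hd (r + 1 - nrm x) x y (by omega)).trans (zde_pow _ _)
  refine (Finset.sum_le_sum hb).trans ?_
  rw [Finset.sum_const, nsmul_eq_mul]
  have hc : (((Zg d).Lam (r + 1) \ (Zg d).Lam r).card : ℝ) ≤ (3 * ((r + 1 : ℕ) : ℝ)) ^ d := by
    have hc1 : ((Zg d).Lam (r + 1) \ (Zg d).Lam r).card ≤ (2 * r + 3) ^ d :=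
      (Finset.card_le_card Finset.sdiff_subset).trans (le_of_eq (zde_card d r))
    have hc2 : (2 * r + 3) ^ d ≤ (3 * (r + 1)) ^ d := Nat.pow_le_pow_left (by omega) d
    have := hc1.trans hc2
    exact_mod_cast this
  refine (mul_le_mul_of_nonneg_right hc (by positivity)).trans (le_of_eq ?_)
  rw [mul_pow]
  ring

theorem noPerc_third {d : ℕ} (hd : 1 ≤ d) : (Zg d).NoPerc (1 / (3 * d)) := by
  obtain ⟨h0, h1⟩ := zde_half hd
  have h1' : (1 / (3 * d) : ℝ) ≤ 1 := by linarith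
  intro x
  have ht : Filter.Tendsto (fun r : ℕ => (((r + 1 : ℕ) : ℝ) ^ d * (2 / 3) ^ (r + 1))) Filter.atTop
      (nhds 0) :=
    (tendsto_pow_const_mul_const_pow_of_abs_lt_one d (r := (2 / 3 : ℝ))
      (by rw [abs_of_pos (by norm_num)]; norm_num)).comp (Filter.tendsto_add_atTop_nat 1)
  have ht2 := ht.const_mul ((3 : ℝ) ^ d * (3 / 2) ^ nrm x)
  rw [mul_zero] at ht2
  exact squeeze_zero (fun r => T.arm_nonneg (Zg d) h0 h1' x r) (fun r => zde_arm hd x r) ht2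

theorem pc_lt {d : ℕ} (hd : 1 ≤ d) : 1 / (4 * (d : ℝ)) < (Zg d).pc := by
  obtain ⟨h0, h1⟩ := zde_half hd
  have h1' : (1 / (3 * d) : ℝ) ≤ 1 := by linarith
  have hd1 : (1 : ℝ) ≤ (d : ℝ) := by exact_mod_cast hd
  have hlt : (1 : ℝ) / (4 * d) < 1 / (3 * d) := by
    apply one_div_lt_one_div_of_lt (by linarith)
    linarith
  refine lt_of_lt_of_le hlt ?_
  apply le_csSup
  · exact ⟨1, fun q hq => hq.2.1⟩
  · exact ⟨h0, h1', noPerc_third hd⟩

end IPC.Fo
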