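import Mathlib
import Pool.Agent.Lib.MP_25e40f_pr.E.ZHyp
import Pool.Agent.Lib.MP_25e40f_pr.E.MmtA
import Pool.Agent.Lib.MP_25e40f_pr.E.LimA
import Pool.Agent.Lib.MP_25e40f_pr.E.ZIndA

/-!
THIS JOB (ZIndB): the theorems low_W g_to_W.  (The header describes the whole group ZInd; the other theorems are in other jobs and may be imported.)

# Job ZInd: moments of `g` and `W` of all orders up to `n* = nst d`, uniformly in `p < pc`

Throughout `1/(4d) ≤ p < pc`, `H : DZ d q D` (E/ZHyp.lean).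
PROOFS.
* `Mo_Vz`: `Mo m (tz d p)` for all `m` (`H.dec`, `Mo_tz`), `Mo_del`, `Mo_nn`, `Mo.cv`, `Mo.add`.
* `Ker_p`, `gz_s1`: `Ker_z` with `H.q4`; `gz_one` (`1000 q ≤ 1` follows from `H.small`).
* `tz_conv`: `tz_eq` (`H.noperc`, `gz_one`): `tz = gz + cv gz (cv (Pn p) tz)`.
* `Wz_Vz`: `W_V` (E/LimA.lean).
* `FT_rel`: transforms of `tz_conv` and `Wz_Vz`: `FT tz = FT gz * FT Vz`, `FT Wz * FT Vz = 1`, hence `FT Wz * FT tz = FT gz`.
* `low_W`: all three transforms are real (`FT_im_zero`, `Ev_tz`, `Ev_gz`; `Ev` of `Wz`: `Ev_del`, `Ev_nn`, `Ev.cv`, `Ev.sub`), so `re FT Wz * re FT tz = re FT gz ≥ 1/2` and with `E = ∑ (1 - cos k_i)`: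
  `re FT Wz = re FT gz / re FT tz ≥ (1/2) E / (5 d)` (`H.tE`, `H.tpos`, `H.gE`), and `E ≥ (1/5) |k|²` on the cube (`1 - cos t ≥ 2 t²/π² ≥ t²/5`; one coordinate has `|k_i| = |k|`, all the other terms are `≥ 0`; see the
  proof of `Good_EK` in E/EKB.lean for the inequality).  So `re FT Wz ≥ |k|²/(50 d)`.
* `g_to_W`: `mo`: `Mo_del`, `Mo.cv` (`Mo_nn`); `mom`: `mom_W` (E/DcyB.lean) with `K0 = 2`, `K = M`; `low`: `low_W`.
* `ind_base`: `gz_D2` for every `e` (finite maximum over `e : Fin d`), `Mo_of_coord` with `a = 2`.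
* `ind_step`: constants: `g_to_W` gives `Good n (1/(50 d)) M1 (Wz d p)`, `Sg_inverse` gives `C` with `Sg n 2 C (Vz d p)`, `dia d n C` gives `K`, `gz_two d small e n 2 K` gives `M_e`; maximum over `e`.  `EB_dia` with `V = Vz`, `m = n`, `a = n`, `b = 2` (both
  even, `≤ n`); the four pairs `(a', b')` satisfy `8 + (a' + b') ≤ 8 + n + 2 < d`.  `Mo_of_coord` with `a = n + 2`.
* `good_all`: induction on `j` for `n = 2 (j+1) ≤ d - 9`.
-/

set_option autoImplicit false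

noncomputable section

open Finset
open scoped ENNReal

namespace IPC.Fo

variable {d : ℕ}

private theorem ZIndB_cube (k : Fin d → ℝ) (hk : Cu k) : 1 / 5 * ‖k‖ ^ 2 ≤ ∑ i, (1 - Real.cos (k i)) := by
  have hpi := Real.pi_pos
  have hpi2 : Real.pi ^ 2 ≤ 10 := by
    have h := Real.pi_lt_d2
    have h3 : Real.pi ^ 2 ≤ 3.15 ^ 2 := pow_le_pow_left₀ hpi.le h.le 2
    norm_num at h3 ⊢
    linarith
  have h4 : ∀ i, 2 / Real.pi ^ 2 * k i ^ 2 ≤ 1 - Real.cos (k i) := fun i => by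
    have := Real.cos_le_one_sub_mul_cos_sq (hk i)
    linarith
  have h5 : ‖k‖ ^ 2 ≤ ∑ i, k i ^ 2 := by
    have h6 : 0 ≤ ∑ i, k i ^ 2 := Finset.sum_nonneg fun i _ => sq_nonneg _
    have h7 : ‖k‖ ≤ √(∑ i, k i ^ 2) := by
      rw [pi_norm_le_iff_of_nonneg (Real.sqrt_nonneg _)]
      intro i
      rw [Real.norm_eq_abs]
      refine Real.abs_le_sqrt ?_
      exact Finset.single_le_sum (f := fun i => k i ^ 2) (fun j _ => sq_nonneg _) (Finset.mem_univ i)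
    calc ‖k‖ ^ 2 ≤ (√(∑ i, k i ^ 2)) ^ 2 := pow_le_pow_left₀ (norm_nonneg _) h7 2
      _ = ∑ i, k i ^ 2 := Real.sq_sqrt h6
  have h8 : 2 / Real.pi ^ 2 * ∑ i, k i ^ 2 ≤ ∑ i, (1 - Real.cos (k i)) := by
    rw [Finset.mul_sum]
    exact Finset.sum_le_sum fun i _ => h4 i
  have h9 : 1 / 5 ≤ 2 / Real.pi ^ 2 := by
    rw [div_le_div_iff₀ (by norm_num) (by positivity)]
    linarith
  calc 1 / 5 * ‖k‖ ^ 2 ≤ 2 / Real.pi ^ 2 * ∑ i, k i ^ 2 :=
        mul_le_mul h9 h5 (sq_nonneg _) (by positivity)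
    _ ≤ _ := h8

theorem low_W {q : ℝ≥0∞} {D : ℝ} (H : DZ d q D) {p : ℝ} (hp : 1 / (4 * (d : ℝ)) ≤ p) (hp1 : p < (Zg d).pc)
    (k : Fin d → ℝ) (hk : Cu k) : 1 / (50 * (d : ℝ)) * ‖k‖ ^ 2 ≤ (FT (Wz d p) k).re := by
  have h0 := H.p0 hp
  have h2 := H.half hp1.le
  have hτ : S1 (tz d p) := (Mo_Vz H hp hp1 0).1.s1
  have hg : S1 (gz d p) := (gz_s1 H hp hp1).1
  have hP : S1 (Pn (d := d) p) := (limA_Pn_mo 0 p).s1
  have hW : S1 (Wz d p) := S1_del.sub (hP.cv hg)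
  have iW : (FT (Wz d p) k).im = 0 := FT_im_zero hW (Ev_Wz p) k
  have iτ : (FT (tz d p) k).im = 0 := FT_im_zero hτ (Ev_tz h0 (by linarith)) k
  have e1 := congrArg Complex.re (FT_rel H hp hp1 k)
  rw [Complex.mul_re, iW, iτ, mul_zero, sub_zero] at e1
  have hT := H.tpos p hp hp1 k
  have hE := H.tE p hp hp1 k
  have hG := H.gE p hp hp1 k
  have hC := ZIndB_cube k hk
  have hd : (0 : ℝ) < d := by
    have := H.dim
    exact_mod_cast (by omega : 0 < d)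
  rw [← e1] at hG
  generalize (FT (Wz d p) k).re = w at hG ⊢
  generalize (FT (tz d p) k).re = t at hG hT hE
  generalize ∑ i, (1 - Real.cos (k i)) = E at hC hE
  generalize ‖k‖ ^ 2 = K at hC ⊢
  have h5 : 1 / 5 * K * t ≤ 5 * d := (mul_le_mul_of_nonneg_right hC hT.le).trans hE
  have h6 : K * t ≤ 25 * d := by linarith
  have h7 : K * t / (50 * d) ≤ w * t := by
    have h8 : K * t / (50 * d) ≤ 1 / 2 := by
      rw [div_le_iff₀ (by positivity)]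
      linarith
    linarith
  have h9 : (1 / (50 * (d : ℝ)) * K) * t ≤ w * t := by
    refine le_trans (le_of_eq ?_) h7
    field_simp
  exact le_of_mul_le_mul_right h9 hT

theorem g_to_W {q : ℝ≥0∞} {D : ℝ} (H : DZ d q D) {p : ℝ} (hp : 1 / (4 * (d : ℝ)) ≤ p) (hp1 : p < (Zg d).pc) {n : ℕ}
    (hn : 1 ≤ n) {M : ℝ} (mg : Mo n (gz d p)) (hM : ∀ e : Fin d, ∑' x, |(x e : ℝ)| ^ n * |gz d p x| ≤ M) :
    Good n (1 / (50 * (d : ℝ))) (2 * d * 2 ^ n * (2 + M)) (Wz d p) := by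
  have h0 := H.p0 hp
  have h2 := H.half hp1.le
  refine ⟨(Mo_del n).sub ((limA_Pn_mo n p).cv mg), Ev_Wz p, fun e a ha han => ?_, low_W H hp hp1⟩
  exact mom_W h0 (by linarith) mg (gz_s1 H hp hp1).2 hM e (by omega) han

end IPC.Fo
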