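import Mathlib
import Pool.Agent.Lib.MP_25e40f_pr.E.ZHyp
import Pool.Agent.Lib.MP_25e40f_pr.E.MmtA
import Pool.Agent.Lib.MP_25e40f_pr.E.LimA
import Pool.Agent.Lib.MP_25e40f_pr.E.ZIndB

/-!
THIS JOB (ZIndC): the theorems ind_base ind_step good_all.  (The header describes the whole group ZInd; the other theorems are in other jobs and may be imported.)

# Job ZInd: moments of `g` and `W` of all orders up to `n* = nst d`, uniformly in `p < pc`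

Throughout `1/(4d) ≤ p < pc`, `H : DZ d q D` (E/ZHyp.lean).
PROOFS.
* `Mo_Vz`: `Mo m (tz d p)` for all `m` (`H.dec`, `Mo_tz`), `Mo_del`, `Mo_nn`, `Mo.cv`, `Mo.add`.
* `Ker_p`, `gz_s1`: `Ker_z` with `H.q4`; `gz_one` (`1000 q ≤ 1` follows from `H.small`).
* `tz_conv`: `tz_eq` (`H.noperc`, `gz_one`): `tz = gz + cv gz (cv (Pn p) tz)`.
* `Wz_Vz`: `W_V` (E/LimA.lean).
* `FT_rel`: transforms of `tz_conv` and `Wz_Vz`: `FT tz = FT gz * FT Vz`, `FT Wz * FT Vz = 1`, hence `FT Wz * FT tz = FT gz`.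
* `low_W`: all three transforms are real (`FT_im_zero`, `Ev_tz`, `Ev_gz`; `Ev` of `Wz`: `Ev_del`, `Ev_nn`, `Ev.cv`, `Ev.sub`), so `re FT Wz * re FT tz = re FT gz ≥ 1/2` and with `E = ∑ (1 - cos k_i)`:
  `re FT Wz = re FT gz / re FT tz ≥ (1/2) E / (5 d)` (`H.tE`, `H.tpos`, `H.gE`), and `E ≥ (1/5) |k|²` on the cube (`1 - cos t ≥ 2 t²/π² ≥ t²/5`; one coordinate has `|k_i| = |k|`, all the other terms are `≥ 0`; see the
  proof of `Good_EK` in E/EKB.lean for the inequality).  So `re FT Wz ≥ |k|²/(50 d)`.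
* `g_to_W`: `mo`: `Mo_del`, `Mo.cv` (`Mo_nn`); `mom`: `mom_W` (E/DcyB.lean) with `K0 = 2`, `K = M`; `low`: `low_W`.
* `ind_base`: `gz_D2` for every `e` (finite maximum over `e : Fin d`), `Mo_of_coord` with `a = 2`.
* `ind_step`: constants: `g_to_W` gives `Good n (1/(50 d)) M1 (Wz d p)`, `Sg_inverse` gives `C` with `Sg n 2 C (Vz d p)`, `dia d n C` gives `K`, `gz_two d small e n 2 K` gives `M_e`; maximum over `e`.  `EB_dia` with `V = Vz`, `m = n`, `a = n`, `b = 2` (both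
  even, `≤ n`); the four pairs `(a', b')` satisfy `8 + (a' + b') ≤ 8 + n + 2 < d`.  `Mo_of_coord` with `a = n + 2`.
* `good_all`: induction on `j` for `n = 2 (j+1) ≤ d - 9`.
-/

set_option autoImplicit false

noncomputable section

open Finset
open scoped ENNReal

namespace IPC.Fo

variable {d : ℕ}

theorem ind_base {q : ℝ≥0∞} {D : ℝ} (H : DZ d q D) : ∃ M : ℝ, 0 ≤ M ∧ ∀ p : ℝ, 1 / (4 * (d : ℝ)) ≤ p → p < (Zg d).pc →
    Mo 2 (gz d p) ∧ ∀ e : Fin d, ∑' x, |(x e : ℝ)| ^ 2 * |gz d p x| ≤ M := by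
  choose M hM0 hM using fun e : Fin d => gz_D2 d H.small e D
  refine ⟨∑ e, M e, Finset.sum_nonneg fun e _ => hM0 e, fun p hp hp1 => ?_⟩
  have h0 := H.p0 hp
  have h2 := H.half hp1.le
  have h3 := fun e => hM e p h0 h2 (Ker_p H hp hp1) (H.d2 p h0 hp1 e)
  refine ⟨Mo_of_coord (by norm_num) (gz_s1 H hp hp1).1 fun e => (h3 e).1, fun e => ?_⟩
  exact (h3 e).2.trans (Finset.single_le_sum (f := M) (fun i _ => hM0 i) (Finset.mem_univ e))

theorem ind_step {q : ℝ≥0∞} {D : ℝ} (H : DZ d q D) {n : ℕ} (hn : 2 ≤ n) (he : Even n) (hd : 10 + n < d) {M : ℝ}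
    (hM : 0 ≤ M) (h : ∀ p : ℝ, 1 / (4 * (d : ℝ)) ≤ p → p < (Zg d).pc →
      Mo n (gz d p) ∧ ∀ e : Fin d, ∑' x, |(x e : ℝ)| ^ n * |gz d p x| ≤ M) :
    ∃ M' : ℝ, 0 ≤ M' ∧ ∀ p : ℝ, 1 / (4 * (d : ℝ)) ≤ p → p < (Zg d).pc →
      Mo (n + 2) (gz d p) ∧ ∀ e : Fin d, ∑' x, |(x e : ℝ)| ^ (n + 2) * |gz d p x| ≤ M' := by
  have hd0 : (0 : ℝ) < d := by exact_mod_cast (by omega : 0 < d)
  have hc : (0 : ℝ) < 1 / (50 * (d : ℝ)) := by positivity
  have hM1 : (0 : ℝ) ≤ 2 * d * 2 ^ n * (2 + M) := by positivity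
  obtain ⟨C, hC0, hC⟩ := Sg_inverse d n (1 / (50 * (d : ℝ))) (2 * d * 2 ^ n * (2 + M)) hn hc hM1
  obtain ⟨K, hK0, hK⟩ := dia d n C hC0
  choose M' hM0 hM' using fun e : Fin d => gz_two d H.small e n 2 K
  refine ⟨∑ e, M' e, Finset.sum_nonneg fun e _ => hM0 e, fun p hp hp1 => ?_⟩
  have h0 := H.p0 hp
  have h2 := H.half hp1.le
  obtain ⟨mg, hMe⟩ := h p hp hp1
  have hG := g_to_W H hp hp1 (by omega) mg hMe
  have mV := (Mo_Vz H hp hp1 n).2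
  have hSg : Sg n 2 C (Vz d p) := hC (Wz d p) (Vz d p) hG mV (Wz_Vz H hp hp1)
  have h3 : ∀ e : Fin d, Summable (fun x : Fin d → ℤ => |(x e : ℝ)| ^ (n + 2) * |gz d p x|) ∧
        ∑' x : Fin d → ℤ, |(x e : ℝ)| ^ (n + 2) * |gz d p x| ≤ M' e := by
    intro e
    refine hM' e p h0 h2 (Ker_p H hp hp1) ?_
    refine EB_dia h0 (by linarith) (Vz_nonneg h0 (by linarith)) (tz_le_Vz h0 h2) mV e he even_two le_rfl hn
      fun a' b' ha' hb' x => ?_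
    refine hK (Vz d p) mV hSg e a' b' ?_ ?_ ?_ x
    · omega
    · omega
    · omega
  refine ⟨Mo_of_coord (by omega) (gz_s1 H hp hp1).1 fun e => (h3 e).1, fun e => ?_⟩
  exact (h3 e).2.trans (Finset.single_le_sum (f := M') (fun i _ => hM0 i) (Finset.mem_univ e))

private theorem ZIndC_ind {q : ℝ≥0∞} {D : ℝ} (H : DZ d q D) (j : ℕ) (hj : 2 * (j + 1) ≤ d - 9) :
    ∃ M : ℝ, 0 ≤ M ∧ ∀ p : ℝ, 1 / (4 * (d : ℝ)) ≤ p → p < (Zg d).pc →
    Mo (2 * (j + 1)) (gz d p) ∧ ∀ e : Fin d, ∑' x, |(x e : ℝ)| ^ (2 * (j + 1)) * |gz d p x| ≤ M := by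
  induction j with
  | zero => exact ind_base H
  | succ j ih =>
    obtain ⟨M, hM, h⟩ := ih (by omega)
    have h2 : 2 * (j + 1 + 1) = 2 * (j + 1) + 2 := by ring
    rw [h2]
    exact ind_step H (by omega) (even_two_mul _) (by omega) hM h

theorem good_all {q : ℝ≥0∞} {D : ℝ} (H : DZ d q D) : ∃ M : ℝ, 0 ≤ M ∧ ∀ p : ℝ, 1 / (4 * (d : ℝ)) ≤ p → p < (Zg d).pc →
    Mo (nst d) (gz d p) ∧ ∀ e : Fin d, ∑' x, |(x e : ℝ)| ^ nst d * |gz d p x| ≤ M := by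
  have hd := H.dim
  have h1 : nst d = 2 * (((d - 9) / 2 - 1) + 1) := by
    unfold nst
    omega
  rw [h1]
  exact ZIndC_ind H _ (by omega)

end IPC.Fo
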