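import Mathlib
import Pool.Agent.Lib.MP_25e40f_pr.E.ZIndC
import Pool.Agent.Lib.MP_25e40f_pr.E.ZBox
import Pool.Agent.Lib.MP_25e40f_pr.E.LimC

/-!
THIS JOB (ZFinA): the theorems V_Sg decay_lt decay_pc.  (The header describes the whole group ZFin; the other theorems are in other jobs and may be imported.)

# Job ZFin: the results of stream E

PROOFS.  `n = nst d` (`d - 10 ≤ n ≤ d - 9`).
* `V_Sg`: `good_all`, `g_to_W` (`Good n c M1 (Wz d p)`), `Sg_inverse` (`Mo_Vz`, `Wz_Vz`).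
* `decay_lt`: `decay_cvp` with `i = 1` (`cvp_one`), `a = d - 10 ≤ n`, `2 + (d - 10) < d`; `tz ≤ Vz` (`tz_le_Vz`).
* `decay_pc`: `T.tau_leftcont` at `pc`; `le_of_tendsto` along `nhdsWithin pc (Iio pc)` (eventually `1/(4d) ≤ p < pc`).
* `Wz_sum`: `∑ Wz * ∑ Vz = 1` (transform at `k = 0`: `FT f 0 = ∑ f`, `FT_cv`), `∑ Vz ≥ Vz 0 ≥ tz 0 = 1 > 0`.
* `Wz_lim`: for every `A` there is a finite set `F` with `∑_F tz pc > A` (`H.chi`: the sum of `ENNReal.ofReal (tz d pc y)` is `⊤`), by left continuity `∑_F tz p > A` for `p < pc` close to `pc`, so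
  `∑ Vz ≥ ∑ tz ≥ ∑_F tz > A` and `0 < ∑ Wz = 1/∑ Vz < 1/A`.
* `box_final`: `box_six` with `n = nst d`, `c = 1/(50 d)`, `M = M1`, `K0 = 1 + 2d`, `θ = 1/(4d)`, at `R = 2 m^20`, `R' = m^21` (`R^26 = 2^26 m^520 ≤ m^525` for `m^5 ≥ 2^26`, e.g. `m ≥ 64`), gives `c' ≤ R^(d-12) chn (tauD p (Lam (2 R'))) (bx d R') 5 0 y` for
  `p < pc` with `∑ Wz ≤ w1` (`Wz_lim`: such a `p ≥ 1/(4d)` exists).  Hypotheses of `box_six`: `T = tz d p`, `V = Vz d p`, `W = Wz d p`, `TB u v = tauD p (bx d (2R')) u v`, `S = bx d (2R'+1) \ bx d (2R')` (`‖w‖ > 2R' ≥ R'`: `mem_bx`), `box_diff_Z` with `r = 2R'`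
  (`u, v ∈ bx d R' ⊆ bx d (2R')`), `T.tauD_le_tau`, `tau_tr`, `T.tauD_nonneg`, `Vz_le`, `tz_low` (`θ ≤ p`: `θ^N ≤ p^N`), `Sy_Wz`, `Mo_Vz`.  Then `tauD p ≤ tauD pc` (`T.tauD_mono_p`) and `chn_mono`; `(2 m^20)^(d-12) = 2^(d-12) (m^20)^(d-12)`: the final constant is
  `c' / 2^(d-12)`.  Note `(Zg d).Lam r = bx d r` by `rfl`.
* `sys_pc`: the sequence `p_j = pc - (pc - 1/(4d))/(j+2)`; `Sys (nst d) K p pc (fun j => tz d (p j)) (fun j => gz d (p j)) (tz d pc) (gz d pc)`: fields: `τle`: `T.tau_mono_p`; `τlim`: `T.tau_leftcont`; `bd`: `∑ (1+|x|)^n |g| ≤ 2^n (∑ |g| + ∑_e ∑ |x_e|^n |g|) ≤ 2^n (2 + d M)`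
  (`(1+t)^n ≤ 2^n (1 + t^n)`, `tsum_norm_le`); `gl1`, `eql`: hypothesis `hpc : Ker (tK pc) (pK pc) q` with `gz_one` and `tz_eq` at `pc` (`H.noperc`).
-/

set_option autoImplicit false

noncomputable section

open Finset Filter
open scoped ENNReal

namespace IPC.Fo

variable {d : ℕ}

private theorem ZFinA_pos {q : ℝ≥0∞} {D : ℝ} (H : DZ d q D) : (0 : ℝ) < d := by
  have h := H.dim
  exact_mod_cast (by omega : 0 < d)

theorem V_Sg {q : ℝ≥0∞} {D : ℝ} (H : DZ d q D) : ∃ M C : ℝ, 0 ≤ M ∧ 0 ≤ C ∧ ∀ p : ℝ, 1 / (4 * (d : ℝ)) ≤ p →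
    p < (Zg d).pc → Good (nst d) (1 / (50 * (d : ℝ))) M (Wz d p) ∧ Sg (nst d) 2 C (Vz d p) := by
  have hd := ZFinA_pos H
  have hdim := H.dim
  have hn : 2 ≤ nst d := by
    have := le_nst d
    omega
  obtain ⟨M, hM, hall⟩ := good_all H
  have hM1 : 0 ≤ 2 * d * 2 ^ nst d * (2 + M) := by positivity
  have hc : 0 < 1 / (50 * (d : ℝ)) := by positivity
  obtain ⟨C, hC, hS⟩ := Sg_inverse d (nst d) (1 / (50 * (d : ℝ))) (2 * d * 2 ^ nst d * (2 + M)) hn hc hM1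
  refine ⟨2 * d * 2 ^ nst d * (2 + M), C, hM1, hC, fun p hp hp1 => ?_⟩
  have hG := g_to_W H hp hp1 (by omega : 1 ≤ nst d) (hall p hp hp1).1 (hall p hp hp1).2
  exact ⟨hG, hS _ _ hG (Mo_Vz H hp hp1 _).2 (Wz_Vz H hp hp1)⟩

theorem decay_lt {q : ℝ≥0∞} {D : ℝ} (H : DZ d q D) : ∃ C : ℝ, 0 ≤ C ∧ ∀ p : ℝ, 1 / (4 * (d : ℝ)) ≤ p →
    p < (Zg d).pc → ∀ x : Fin d → ℤ, (1 + ‖x‖) ^ (d - 10) * tz d p x ≤ C := by
  have hdim := H.dim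
  obtain ⟨M, C, _, hC, h⟩ := V_Sg H
  obtain ⟨K, hK, hd⟩ := decay_cvp d (nst d) C hC
  refine ⟨K, hK, fun p hp hp1 x => ?_⟩
  have h1 := hd (Vz d p) (Mo_Vz H hp hp1 _).2 (h p hp hp1).2 1 (d - 10) (by norm_num) (le_nst d)
    (by omega) x
  rw [cvp_one] at h1
  refine le_trans (mul_le_mul_of_nonneg_left ?_ (by positivity)) h1
  exact (tz_le_Vz (H.p0 hp) (H.half hp1.le) x).trans (le_abs_self _)

theorem decay_pc {q : ℝ≥0∞} {D : ℝ} (H : DZ d q D) : ∃ C : ℝ, 0 ≤ C ∧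
    ∀ x : Fin d → ℤ, (1 + ‖x‖) ^ (d - 10) * tz d (Zg d).pc x ≤ C := by
  obtain ⟨C, hC, h⟩ := decay_lt H
  refine ⟨C, hC, fun x => ?_⟩
  have hpos : 0 < (Zg d).pc := H.pos H.lt.le
  have hle : (Zg d).pc ≤ 1 := H.le.trans (by norm_num)
  have ht := (T.tau_leftcont (Zg d) hpos hle 0 x).const_mul ((1 + ‖x‖) ^ (d - 10))
  refine le_of_tendsto ht ?_
  filter_upwards [Ioo_mem_nhdsLT H.lt] with p hp
  exact h p hp.1.le hp.2 x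

end IPC.Fo
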