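import Mathlib
import Pool.Agent.Lib.MP_25e40f_pr.E.ZIndC
import Pool.Agent.Lib.MP_25e40f_pr.E.ZBox
import Pool.Agent.Lib.MP_25e40f_pr.E.LimC
import Pool.Agent.Lib.MP_25e40f_pr.E.ZFinA

/-!
THIS JOB (ZFinB): the theorems Wz_sum Wz_lim.  (The header describes the whole group ZFin; the other theorems are in other jobs and may be imported.)

# Job ZFin: the results of stream E

PROOFS.  `n = nst d` (`d - 10 ≤ n ≤ d - 9`).
* `V_Sg`: `good_all`, `g_to_W` (`Good n c M1 (Wz d p)`), `Sg_inverse` (`Mo_Vz`, `Wz_Vz`).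
* `decay_lt`: `decay_cvp` with `i = 1` (`cvp_one`), `a = d - 10 ≤ n`, `2 + (d - 10) < d`; `tz ≤ Vz` (`tz_le_Vz`).
* `decay_pc`: `T.tau_leftcont` at `pc`; `le_of_tendsto` along `nhdsWithin pc (Iio pc)` (eventually `1/(4d) ≤ p < pc`).
* `Wz_sum`: `∑ Wz * ∑ Vz = 1` (transform at `k = 0`: `FT f 0 = ∑ f`, `FT_cv`), `∑ Vz ≥ Vz 0 ≥ tz 0 = 1 > 0`.
* `Wz_lim`: for every `A` there is a finite set `F` with `∑_F tz pc > A` (`H.chi`: the sum of `ENNReal.ofReal (tz d pc y)` is `⊤`), by left continuity `∑_F tz p > A` for `p < pc` close to `pc`, so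
  `∑ Vz ≥ ∑ tz ≥ ∑_F tz > A` and `0 < ∑ Wz = 1/∑ Vz < 1/A`.
* `box_final`: `box_six` with `n = nst d`, `c = 1/(50 d)`, `M = M1`, `K0 = 1 + 2d`, `θ = 1/(4d)`, at `R = 2 m^20`, `R' = m^21` (`R^26 = 2^26 m^520 ≤ m^525` for `m^5 ≥ 2^26`, e.g. `m ≥ 64`), gives `c' ≤ R^(d-12) chn (tauD p (Lam (2 R'))) (bx d R') 5 0 y` for
  `p < pc` with `∑ Wz ≤ w1` (`Wz_lim`: such a `p ≥ 1/(4d)` exists).  Hypotheses of `box_six`: `T = tz d p`, `V = Vz d p`, `W = Wz d p`, `TB u v = tauD p (bx d (2R')) u v`, `S = bx d (2R'+1) \ bx d (2R')` (`‖w‖ > 2R' ≥ R'`: `mem_bx`), `box_diff_Z` with `r = 2R'`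
  (`u, v ∈ bx d R' ⊆ bx d (2R')`), `T.tauD_le_tau`, `tau_tr`, `T.tauD_nonneg`, `Vz_le`, `tz_low` (`θ ≤ p`: `θ^N ≤ p^N`), `Sy_Wz`, `Mo_Vz`.  Then `tauD p ≤ tauD pc` (`T.tauD_mono_p`) and `chn_mono`; `(2 m^20)^(d-12) = 2^(d-12) (m^20)^(d-12)`: the final constant is
  `c' / 2^(d-12)`.  Note `(Zg d).Lam r = bx d r` by `rfl`.
* `sys_pc`: the sequence `p_j = pc - (pc - 1/(4d))/(j+2)`; `Sys (nst d) K p pc (fun j => tz d (p j)) (fun j => gz d (p j)) (tz d pc) (gz d pc)`: fields: `τle`: `T.tau_mono_p`; `τlim`: `T.tau_leftcont`; `bd`: `∑ (1+|x|)^n |g| ≤ 2^n (∑ |g| + ∑_e ∑ |x_e|^n |g|) ≤ 2^n (2 + d M)`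
  (`(1+t)^n ≤ 2^n (1 + t^n)`, `tsum_norm_le`); `gl1`, `eql`: hypothesis `hpc : Ker (tK pc) (pK pc) q` with `gz_one` and `tz_eq` at `pc` (`H.noperc`).
-/

set_option autoImplicit false

noncomputable section

open Finset Filter
open scoped ENNReal

namespace IPC.Fo

variable {d : ℕ}

private theorem ZFinB_ft (f : (Fin d → ℤ) → ℝ) : FT f 0 = ((∑' x, f x : ℝ) : ℂ) := by
  unfold FT
  rw [Complex.ofReal_tsum]
  refine tsum_congr fun x => ?_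
  unfold ch
  rw [show dot (0 : Fin d → ℝ) x = 0 by simp [dot], Complex.ofReal_zero, zero_mul, Complex.exp_zero, mul_one]

private theorem ZFinB_v {q : ℝ≥0∞} {D : ℝ} (H : DZ d q D) {p : ℝ} (hp : 1 / (4 * (d : ℝ)) ≤ p)
    (hp1 : p < (Zg d).pc) : Summable (Vz d p) := by
  have h := (Mo_Vz H hp hp1 0).2.s1
  unfold S1 at h
  exact summable_abs_iff.1 h

theorem Wz_sum {q : ℝ≥0∞} {D : ℝ} (H : DZ d q D) {p : ℝ} (hp : 1 / (4 * (d : ℝ)) ≤ p) (hp1 : p < (Zg d).pc) :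
    (∑' x, Wz d p x) * (∑' x, Vz d p x) = 1 ∧ 0 < ∑' x, Wz d p x := by
  obtain ⟨M, C, _, _, h⟩ := V_Sg H
  have hW : S1 (Wz d p) := (h p hp hp1).1.mo.s1
  have hV : S1 (Vz d p) := (Mo_Vz H hp hp1 0).2.s1
  have h1 := FT_cv hW hV 0
  rw [Wz_Vz H hp hp1, FT_del, ZFinB_ft, ZFinB_ft] at h1
  have h2 : (∑' x, Wz d p x) * (∑' x, Vz d p x) = 1 := by
    exact_mod_cast h1.symm
  refine ⟨h2, ?_⟩
  have h0 := H.p0 hp
  have h12 := H.half hp1.le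
  have h3 : 0 < ∑' x, Vz d p x := by
    have h4 := (ZFinB_v H hp hp1).le_tsum 0 (fun j _ => Vz_nonneg h0 (by linarith) j)
    have h5 := tz_le_Vz h0 h12 (0 : Fin d → ℤ)
    rw [tz_zero] at h5
    linarith
  by_contra h6
  have h7 := mul_nonpos_of_nonpos_of_nonneg (not_lt.1 h6) h3.le
  linarith

theorem Wz_lim {q : ℝ≥0∞} {D : ℝ} (H : DZ d q D) :
    Tendsto (fun p => ∑' x, Wz d p x) (nhdsWithin (Zg d).pc (Set.Iio (Zg d).pc)) (nhds 0) := by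
  rw [Metric.tendsto_nhds]
  intro ε hε
  have hpos : 0 < (Zg d).pc := H.pos H.lt.le
  have hle : (Zg d).pc ≤ 1 := H.le.trans (by norm_num)
  have hchi := H.chi
  rw [ENNReal.tsum_eq_iSup_sum] at hchi
  have hlt : ENNReal.ofReal (1 / ε) < ⨆ s : Finset (Fin d → ℤ), ∑ a ∈ s, CE.tK (Zg d) (Zg d).pc 0 a := by
    rw [hchi]
    exact ENNReal.ofReal_lt_top
  obtain ⟨F, hF⟩ := lt_iSup_iff.1 hlt
  have hF2 : 1 / ε < ∑ a ∈ F, tz d (Zg d).pc a := by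
    by_contra h
    refine absurd hF (not_lt.2 ?_)
    have h1 : ∑ a ∈ F, CE.tK (Zg d) (Zg d).pc 0 a = ENNReal.ofReal (∑ a ∈ F, tz d (Zg d).pc a) := by
      rw [ENNReal.ofReal_sum_of_nonneg fun a _ => tz_nonneg hpos.le hle a]
      rfl
    rw [h1]
    exact ENNReal.ofReal_le_ofReal (not_lt.1 h)
  have ht : Tendsto (fun p => ∑ a ∈ F, tz d p a) (nhdsWithin (Zg d).pc (Set.Iio (Zg d).pc))
      (nhds (∑ a ∈ F, tz d (Zg d).pc a)) :=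
    tendsto_finsetSum F fun a _ => T.tau_leftcont (Zg d) hpos hle 0 a
  filter_upwards [Ioo_mem_nhdsLT H.lt, ht.eventually (lt_mem_nhds hF2)] with p hp hp2
  have h0 := H.p0 hp.1.le
  have h12 := H.half hp.2.le
  obtain ⟨h1, h2⟩ := Wz_sum H hp.1.le hp.2
  have h3 : ∑ a ∈ F, tz d p a ≤ ∑' x, Vz d p x :=
    (Finset.sum_le_sum fun a _ => tz_le_Vz h0 h12 a).trans
      ((ZFinB_v H hp.1.le hp.2).sum_le_tsum F fun a _ => Vz_nonneg h0 (by linarith) a)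
  have h4 : 1 / ε < ∑' x, Vz d p x := lt_of_lt_of_le hp2 h3
  rw [Real.dist_eq, sub_zero, abs_of_pos h2]
  have h5 : 0 < 1 / ε := by positivity
  have h6 : (∑' x, Wz d p x) * (1 / ε) < 1 := lt_of_lt_of_eq (mul_lt_mul_of_pos_left h4 h2) h1
  rw [mul_one_div, div_lt_one hε] at h6
  exact h6

end IPC.Fo
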