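import Mathlib
import Pool.Agent.Lib.MP_25e40f_pr.E.ZIndC
import Pool.Agent.Lib.MP_25e40f_pr.E.ZBox
import Pool.Agent.Lib.MP_25e40f_pr.E.LimC
import Pool.Agent.Lib.MP_25e40f_pr.E.ZFinB

/-!
THIS JOB (ZFinC): the theorems box_final.  (The header describes the whole group ZFin; the other theorems are in other jobs and may be imported.)

# Job ZFin: the results of stream E

PROOFS.  `n = nst d` (`d - 10 ≤ n ≤ d - 9`).
* `V_Sg`: `good_all`, `g_to_W` (`Good n c M1 (Wz d p)`), `Sg_inverse` (`Mo_Vz`, `Wz_Vz`).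
* `decay_lt`: `decay_cvp` with `i = 1` (`cvp_one`), `a = d - 10 ≤ n`, `2 + (d - 10) < d`; `tz ≤ Vz` (`tz_le_Vz`).
* `decay_pc`: `T.tau_leftcont` at `pc`; `le_of_tendsto` along `nhdsWithin pc (Iio pc)` (eventually `1/(4d) ≤ p < pc`).
* `Wz_sum`: `∑ Wz * ∑ Vz = 1` (transform at `k = 0`: `FT f 0 = ∑ f`, `FT_cv`), `∑ Vz ≥ Vz 0 ≥ tz 0 = 1 > 0`.
* `Wz_lim`: for every `A` there is a finite set `F` with `∑_F tz pc > A` (`H.chi`: the sum of `ENNReal.ofReal (tz d pc y)` is `⊤`), by left continuity `∑_F tz p > A` for `p < pc` close to `pc`, so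
  `∑ Vz ≥ ∑ tz ≥ ∑_F tz > A` and `0 < ∑ Wz = 1/∑ Vz < 1/A`.
* `box_final`: `box_six` with `n = nst d`, `c = 1/(50 d)`, `M = M1`, `K0 = 1 + 2d`, `θ = 1/(4d)`, at `R = 2 m^20`, `R' = m^21` (`R^26 = 2^26 m^520 ≤ m^525` for `m^5 ≥ 2^26`, e.g. `m ≥ 64`), gives `c' ≤ R^(d-12) chn (tauD p (Lam (2 R'))) (bx d R') 5 0 y` for
  `p < pc` with `∑ Wz ≤ w1` (`Wz_lim`: such a `p ≥ 1/(4d)` exists).  Hypotheses of `box_six`: `T = tz d p`, `V = Vz d p`, `W = Wz d p`, `TB u v = tauD p (bx d (2R')) u v`, `S = bx d (2R'+1) \ bx d (2R')` (`‖w‖ > 2R' ≥ R'`: `mem_bx`), `box_diff_Z` with `r = 2R'`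
  (`u, v ∈ bx d R' ⊆ bx d (2R')`), `T.tauD_le_tau`, `tau_tr`, `T.tauD_nonneg`, `Vz_le`, `tz_low` (`θ ≤ p`: `θ^N ≤ p^N`), `Sy_Wz`, `Mo_Vz`.  Then `tauD p ≤ tauD pc` (`T.tauD_mono_p`) and `chn_mono`; `(2 m^20)^(d-12) = 2^(d-12) (m^20)^(d-12)`: the final constant is
  `c' / 2^(d-12)`.  Note `(Zg d).Lam r = bx d r` by `rfl`.
* `sys_pc`: the sequence `p_j = pc - (pc - 1/(4d))/(j+2)`; `Sys (nst d) K p pc (fun j => tz d (p j)) (fun j => gz d (p j)) (tz d pc) (gz d pc)`: fields: `τle`: `T.tau_mono_p`; `τlim`: `T.tau_leftcont`; `bd`: `∑ (1+|x|)^n |g| ≤ 2^n (∑ |g| + ∑_e ∑ |x_e|^n |g|) ≤ 2^n (2 + d M)`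
  (`(1+t)^n ≤ 2^n (1 + t^n)`, `tsum_norm_le`); `gl1`, `eql`: hypothesis `hpc : Ker (tK pc) (pK pc) q` with `gz_one` and `tz_eq` at `pc` (`H.noperc`).
-/

set_option autoImplicit false

noncomputable section

open Finset Filter
open scoped ENNReal

namespace IPC.Fo

variable {d : ℕ}

theorem box_final {q : ℝ≥0∞} {D : ℝ} (H : DZ d q D) : ∃ c > 0, ∃ m₀ : ℕ, ∀ m : ℕ, m₀ ≤ m →
    ∀ y ∈ (Zg d).Lam (2 * m ^ 20), c ≤ ((m : ℝ) ^ 20) ^ (d - 12) *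
      chn ((Zg d).tauD (Zg d).pc ((Zg d).Lam (2 * m ^ 21))) ((Zg d).Lam (m ^ 21)) 5 0 y := by
  obtain ⟨M, hM, hall⟩ := good_all H
  have hdim := H.dim
  have hdR : (450 : ℝ) ≤ d := by exact_mod_cast hdim
  have hd0 : (0 : ℝ) < d := by linarith
  have hn1 : 1 ≤ nst d := by
    have := le_nst d
    omega
  have hn2 : d - 11 ≤ nst d := by
    have := le_nst d
    omega
  have hθ1 : 1 / (4 * (d : ℝ)) ≤ 1 := by
    rw [div_le_one (by positivity)]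
    linarith
  obtain ⟨c', hc', R1, hbox⟩ := box_six d (nst d) (1 / (50 * (d : ℝ))) (2 * d * 2 ^ nst d * (2 + M))
    (1 + 2 * d) (1 / (4 * (d : ℝ))) hdim hn2 (by positivity) (by positivity) (by positivity)
    (by positivity) hθ1
  refine ⟨c' / 2 ^ (d - 12), by positivity, max 64 R1, fun m hm y hy => ?_⟩
  have hm64 : 64 ≤ m := le_trans (le_max_left _ _) hm
  have hmR1 : R1 ≤ m := le_trans (le_max_right _ _) hm
  have hm1 : 1 ≤ m := by omega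
  have hmp : m ≤ m ^ 20 := Nat.le_self_pow (by norm_num) m
  have hR1' : R1 ≤ 2 * m ^ 20 := by omega
  obtain ⟨w1, hw1, hmain⟩ := hbox (2 * m ^ 20) hR1'
  have hRR : (2 * m ^ 20) ^ 26 ≤ (m ^ 21) ^ 25 := by
    have h1 : (2 * m ^ 20) ^ 26 = 2 ^ 26 * m ^ 520 := by
      rw [mul_pow, ← pow_mul]
    have h2 : (m ^ 21) ^ 25 = m ^ 5 * m ^ 520 := by
      rw [← pow_mul, ← pow_add]
    have h3 : 2 ^ 26 ≤ m ^ 5 := by
      calc 2 ^ 26 ≤ 64 ^ 5 := by norm_num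
        _ ≤ m ^ 5 := Nat.pow_le_pow_left hm64 5
    rw [h1, h2]
    exact Nat.mul_le_mul_right _ h3
  have hsub : 2 * m ^ 20 ≤ m ^ 21 := by
    rw [pow_succ, mul_comm]
    exact Nat.mul_le_mul_left _ (by omega)
  obtain ⟨p, ⟨hw, hp⟩, hp1⟩ : ∃ p, ((∑' x, Wz d p x ≤ w1) ∧ 1 / (4 * (d : ℝ)) ≤ p) ∧ p < (Zg d).pc := by
    have e1 := (Wz_lim H).eventually (ge_mem_nhds hw1)
    have e2 : ∀ᶠ p in nhdsWithin (Zg d).pc (Set.Iio (Zg d).pc), 1 / (4 * (d : ℝ)) ≤ p :=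
      eventually_nhdsWithin_of_eventually_nhds (eventually_ge_nhds H.lt)
    have e3 : ∀ᶠ p in nhdsWithin (Zg d).pc (Set.Iio (Zg d).pc), p < (Zg d).pc := self_mem_nhdsWithin
    exact ((e1.and e2).and e3).exists
  have hp0 : 0 ≤ p := H.p0 hp
  have hph : p ≤ 1 / 2 := H.half hp1.le
  have hpo : p ≤ 1 := by linarith
  have hpco : (Zg d).pc ≤ 1 := by
    have := H.le
    linarith
  obtain ⟨mg, hMg⟩ := hall p hp hp1
  have hyb : y ∈ bx d (2 * m ^ 20) := hy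
  have hy0 : ‖y‖ ≤ ((2 * m ^ 20 : ℕ) : ℝ) := mem_bx.mp hyb
  have key := hmain (m ^ 21) hRR (Wz d p) (Vz d p) (tz d p)
    (fun u v => (Zg d).tauD p (bx d (2 * m ^ 21)) u v) (bx d (2 * m ^ 21 + 1) \ bx d (2 * m ^ 21))
    (g_to_W H hp hp1 hn1 mg hMg) (Sy_Wz p) (Mo_Vz H hp hp1 (nst d)).2 (Wz_Vz H hp hp1)
    (Wz_sum H hp hp1).2 hw (tz_nonneg hp0 hpo) (tz_le_Vz hp0 hph) (Vz_le hp0 hpo)
    (tz_zero p).ge
    (fun x => (pow_le_pow_left₀ (by positivity) hp _).trans (tz_low hp0 hpo x))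
    (fun w hw' => by
      have h1 := (Finset.mem_sdiff.mp hw').2
      rw [mem_bx, not_le] at h1
      refine le_trans ?_ h1.le
      exact_mod_cast (by omega : m ^ 21 ≤ 2 * m ^ 21))
    (fun u hu v hv => by
      have hu' : u ∈ bx d (2 * m ^ 21) := by
        rw [mem_bx] at hu ⊢
        exact hu.trans (by exact_mod_cast (by omega : m ^ 21 ≤ 2 * m ^ 21))
      have hv' : v ∈ bx d (2 * m ^ 21) := by
        rw [mem_bx] at hv ⊢
        exact hv.trans (by exact_mod_cast (by omega : m ^ 21 ≤ 2 * m ^ 21))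
      refine ⟨T.tauD_nonneg (Zg d) hp0 hpo _ u v, ?_, box_diff_Z d hp0 hph (2 * m ^ 21) hu' hv'⟩
      rw [← tau_tr hp0 hpo]
      exact T.tauD_le_tau (Zg d) hp0 hpo _ u v)
    y hyb
  have h0B : (0 : Fin d → ℤ) ∈ bx d (m ^ 21) := by
    rw [mem_bx, norm_zero]
    exact Nat.cast_nonneg _
  have hyB : y ∈ bx d (m ^ 21) := by
    rw [mem_bx]
    exact hy0.trans (by exact_mod_cast hsub)
  have hmono : chn (fun u v => (Zg d).tauD p (bx d (2 * m ^ 21)) u v) (bx d (m ^ 21)) 5 0 y ≤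
      chn ((Zg d).tauD (Zg d).pc (bx d (2 * m ^ 21))) (bx d (m ^ 21)) 5 0 y :=
    chn_mono (fun u _ v _ => T.tauD_nonneg (Zg d) hp0 hpo _ u v)
      (fun u _ v _ => T.tauD_mono_p (Zg d) hp0 hp1.le hpco _ u v) 5 h0B hyB
  have hpow : (((2 * m ^ 20 : ℕ) : ℝ)) ^ (d - 12) = 2 ^ (d - 12) * ((m : ℝ) ^ 20) ^ (d - 12) := by
    push_cast
    rw [mul_pow]
  have h2p : (0 : ℝ) < 2 ^ (d - 12) := by positivity
  have hmp0 : (0 : ℝ) ≤ ((m : ℝ) ^ 20) ^ (d - 12) := by positivity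
  rw [div_le_iff₀ h2p]
  rw [hpow] at key
  refine key.trans ?_
  have h3 := mul_le_mul_of_nonneg_left hmono (mul_nonneg h2p.le hmp0)
  refine h3.trans (le_of_eq ?_)
  change _ = ((m : ℝ) ^ 20) ^ (d - 12) *
    chn ((Zg d).tauD (Zg d).pc (bx d (2 * m ^ 21))) (bx d (m ^ 21)) 5 0 y * 2 ^ (d - 12)
  ring

end IPC.Fo
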