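import Mathlib
import Pool.Agent.Lib.MP_25e40f_pr.E.ZIndC
import Pool.Agent.Lib.MP_25e40f_pr.E.ZBox
import Pool.Agent.Lib.MP_25e40f_pr.E.LimC
import Pool.Agent.Lib.MP_25e40f_pr.E.ZFinA

/-!
THIS JOB (ZFinD): the theorems pj_spec sys_pc.  (The header describes the whole group ZFin; the other theorems are in other jobs and may be imported.)

# Job ZFin: the results of stream E

PROOFS.  `n = nst d` (`d - 10 ≤ n ≤ d - 9`).
* `V_Sg`: `good_all`, `g_to_W` (`Good n c M1 (Wz d p)`), `Sg_inverse` (`Mo_Vz`, `Wz_Vz`).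
* `decay_lt`: `decay_cvp` with `i = 1` (`cvp_one`), `a = d - 10 ≤ n`, `2 + (d - 10) < d`; `tz ≤ Vz` (`tz_le_Vz`).
* `decay_pc`: `T.tau_leftcont` at `pc`; `le_of_tendsto` along `nhdsWithin pc (Iio pc)` (eventually `1/(4d) ≤ p < pc`).
* `Wz_sum`: `∑ Wz * ∑ Vz = 1` (transform at `k = 0`: `FT f 0 = ∑ f`, `FT_cv`), `∑ Vz ≥ Vz 0 ≥ tz 0 = 1 > 0`.
* `Wz_lim`: for every `A` there is a finite set `F` with `∑_F tz pc > A` (`H.chi`: the sum of `ENNReal.ofReal (tz d pc y)` is `⊤`), by left continuity `∑_F tz p > A` for `p < pc` close to `pc`, so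
  `∑ Vz ≥ ∑ tz ≥ ∑_F tz > A` and `0 < ∑ Wz = 1/∑ Vz < 1/A`.
* `box_final`: `box_six` with `n = nst d`, `c = 1/(50 d)`, `M = M1`, `K0 = 1 + 2d`, `θ = 1/(4d)`, at `R = 2 m^20`, `R' = m^21` (`R^26 = 2^26 m^520 ≤ m^525` for `m^5 ≥ 2^26`, e.g. `m ≥ 64`), gives `c' ≤ R^(d-12) chn (tauD p (Lam (2 R'))) (bx d R') 5 0 y` for
  `p < pc` with `∑ Wz ≤ w1` (`Wz_lim`: such a `p ≥ 1/(4d)` exists).  Hypotheses of `box_six`: `T = tz d p`, `V = Vz d p`, `W = Wz d p`, `TB u v = tauD p (bx d (2R')) u v`, `S = bx d (2R'+1) \ bx d (2R')` (`‖w‖ > 2R' ≥ R'`: `mem_bx`), `box_diff_Z` with `r = 2R'`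
  (`u, v ∈ bx d R' ⊆ bx d (2R')`), `T.tauD_le_tau`, `tau_tr`, `T.tauD_nonneg`, `Vz_le`, `tz_low` (`θ ≤ p`: `θ^N ≤ p^N`), `Sy_Wz`, `Mo_Vz`.  Then `tauD p ≤ tauD pc` (`T.tauD_mono_p`) and `chn_mono`; `(2 m^20)^(d-12) = 2^(d-12) (m^20)^(d-12)`: the final constant is
  `c' / 2^(d-12)`.  Note `(Zg d).Lam r = bx d r` by `rfl`.
* `sys_pc`: the sequence `p_j = pc - (pc - 1/(4d))/(j+2)`; `Sys (nst d) K p pc (fun j => tz d (p j)) (fun j => gz d (p j)) (tz d pc) (gz d pc)`: fields: `τle`: `T.tau_mono_p`; `τlim`: `T.tau_leftcont`; `bd`: `∑ (1+|x|)^n |g| ≤ 2^n (∑ |g| + ∑_e ∑ |x_e|^n |g|) ≤ 2^n (2 + d M)`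
  (`(1+t)^n ≤ 2^n (1 + t^n)`, `tsum_norm_le`); `gl1`, `eql`: hypothesis `hpc : Ker (tK pc) (pK pc) q` with `gz_one` and `tz_eq` at `pc` (`H.noperc`).
-/

set_option autoImplicit false

noncomputable section

open Finset Filter
open scoped ENNReal

namespace IPC.Fo

variable {d : ℕ}

/-- the sequence converging to the critical point -/
def pj (d : ℕ) (j : ℕ) : ℝ := (Zg d).pc - ((Zg d).pc - 1 / (4 * (d : ℝ))) / (j + 2)

theorem pj_spec {q : ℝ≥0∞} {D : ℝ} (H : DZ d q D) : (∀ j, 1 / (4 * (d : ℝ)) ≤ pj d j) ∧ (∀ j, pj d j < (Zg d).pc) ∧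
    Tendsto (pj d) atTop (nhdsWithin (Zg d).pc (Set.Iio (Zg d).pc)) := by
  have hlt := H.lt
  have hlt2 : ∀ j, pj d j < (Zg d).pc := by
    intro j
    unfold pj
    have h1 : 0 < ((Zg d).pc - 1 / (4 * (d : ℝ))) / ((j : ℝ) + 2) := by
      refine div_pos (by linarith) (by positivity)
    linarith
  refine ⟨fun j => ?_, hlt2, ?_⟩
  · unfold pj
    have h1 : ((Zg d).pc - 1 / (4 * (d : ℝ))) / ((j : ℝ) + 2) ≤ (Zg d).pc - 1 / (4 * (d : ℝ)) := by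
      refine div_le_self (by linarith) ?_
      have h2 : (0 : ℝ) ≤ j := Nat.cast_nonneg j
      linarith
    linarith
  · rw [tendsto_nhdsWithin_iff]
    refine ⟨?_, Filter.Eventually.of_forall hlt2⟩
    have h1 : Tendsto (fun j : ℕ => ((Zg d).pc - 1 / (4 * (d : ℝ))) / ((j + 2 : ℕ) : ℝ)) atTop (nhds 0) :=
      (tendsto_const_div_atTop_nhds_zero_nat ((Zg d).pc - 1 / (4 * (d : ℝ)))).comp (tendsto_add_atTop_nat 2)
    have h2 : Tendsto (fun j : ℕ => (Zg d).pc - ((Zg d).pc - 1 / (4 * (d : ℝ))) / ((j + 2 : ℕ) : ℝ)) atTop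
        (nhds ((Zg d).pc - 0)) := tendsto_const_nhds.sub h1
    rw [sub_zero] at h2
    refine h2.congr fun j => ?_
    unfold pj
    push_cast
    rfl

private theorem ZFinD_bd {n : ℕ} (hn : 1 ≤ n) {M : ℝ} {g : (Fin d → ℤ) → ℝ} (hg : Mo n g)
    (h2 : ∑' x, |g x| ≤ 2) (h3 : ∀ e : Fin d, ∑' x, |(x e : ℝ)| ^ n * |g x| ≤ M) :
    ∑' x, (1 + ‖x‖) ^ n * |g x| ≤ 2 ^ n * (2 + d * M) := by
  have s1 : Summable fun x : Fin d → ℤ => |g x| := hg.s1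
  have s2 : Summable fun x : Fin d → ℤ => ‖x‖ ^ n * |g x| := hg.norm_pow
  have hw : ∀ x : Fin d → ℤ, (1 + ‖x‖) ^ n * |g x| ≤ 2 ^ n * (|g x| + ‖x‖ ^ n * |g x|) := by
    intro x
    have h4 : (1 + ‖x‖) ^ n ≤ 2 ^ (n - 1) * (1 ^ n + ‖x‖ ^ n) := add_pow_le zero_le_one (norm_nonneg x) n
    have h5 : (2 : ℝ) ^ (n - 1) ≤ 2 ^ n := pow_le_pow_right₀ (by norm_num) (Nat.sub_le n 1)
    have h6 : (0 : ℝ) ≤ 1 ^ n + ‖x‖ ^ n := by positivity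
    have h7 : (1 + ‖x‖) ^ n ≤ 2 ^ n * (1 ^ n + ‖x‖ ^ n) := h4.trans (mul_le_mul_of_nonneg_right h5 h6)
    refine (mul_le_mul_of_nonneg_right h7 (abs_nonneg (g x))).trans (le_of_eq ?_)
    rw [one_pow]
    ring
  have h8 : ∑' x, (1 + ‖x‖) ^ n * |g x| ≤ ∑' x, 2 ^ n * (|g x| + ‖x‖ ^ n * |g x|) :=
    Summable.tsum_le_tsum hw hg ((s1.add s2).mul_left _)
  refine h8.trans ?_
  rw [tsum_mul_left, s1.tsum_add s2]
  refine mul_le_mul_of_nonneg_left ?_ (by positivity)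
  refine add_le_add h2 ((tsum_norm_le hn hg).trans ?_)
  refine (Finset.sum_le_sum fun e _ => h3 e).trans (le_of_eq ?_)
  rw [Finset.sum_const, Finset.card_univ, Fintype.card_fin, nsmul_eq_mul]

theorem sys_pc {q : ℝ≥0∞} {D : ℝ} (H : DZ d q D)
    (hpc : Ker (CE.tK (Zg d) (Zg d).pc) (CE.pK (Zg d) (Zg d).pc) q) : ∃ K : ℝ,
    Sys (nst d) K (pj d) (Zg d).pc (fun j => tz d (pj d j)) (fun j => gz d (pj d j)) (tz d (Zg d).pc)
      (gz d (Zg d).pc) := by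
  obtain ⟨hj1, hj2, hj3⟩ := pj_spec H
  obtain ⟨M, _, hM⟩ := good_all H
  have hn : 1 ≤ nst d := by
    have h1 := le_nst d
    have h2 := H.dim
    omega
  have hc0 : 0 < (Zg d).pc := H.pos H.lt.le
  have hc2 : (Zg d).pc ≤ 1 / 2 := H.half le_rfl
  have hc1 : (Zg d).pc ≤ 1 := by linarith
  have hp0 : ∀ j, 0 ≤ pj d j := fun j => H.p0 (hj1 j)
  have hp1 : ∀ j, pj d j ≤ 1 := fun j => (hj2 j).le.trans hc1
  have hq : 1000 * q ≤ 1 := (mul_le_mul' (by norm_num) le_rfl).trans H.small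
  obtain ⟨g1, _, g3⟩ := gz_one hc0.le hc2 hq hpc
  refine ⟨2 ^ nst d * (2 + d * M), ?_⟩
  exact {
    plim := hj3.mono_right nhdsWithin_le_nhds
    p0 := hp0
    p1 := hp1
    τ0 := fun j x => tz_nonneg (hp0 j) (hp1 j) x
    τle := fun j x => T.tau_mono_p (Zg d) (hp0 j) (hj2 j).le hc1 0 x
    τl1 := fun x => tz_le_one hc0.le hc1 x
    τlim := fun x => (T.tau_leftcont (Zg d) hc0 hc1 0 x).comp hj3
    moτ := fun j => (Mo_Vz H (hj1 j) (hj2 j) (nst d)).1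
    mog := fun j => (hM (pj d j) (hj1 j) (hj2 j)).1
    eq := fun j x => tz_conv H (hj1 j) (hj2 j) x
    bd := fun j => ZFinD_bd hn (hM (pj d j) (hj1 j) (hj2 j)).1 (gz_s1 H (hj1 j) (hj2 j)).2
      (hM (pj d j) (hj1 j) (hj2 j)).2
    gl1 := g1
    eql := fun x => tz_eq hc0.le hc1 (H.noperc _ hc0.le le_rfl) g3 g1 x }

end IPC.Fo
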