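import Mathlib
import Pool.Agent.Lib.MP_25e40f_pr.E.ZIndC
import Pool.Agent.Lib.MP_25e40f_pr.E.ZBox
import Pool.Agent.Lib.MP_25e40f_pr.E.LimC
import Pool.Agent.Lib.MP_25e40f_pr.E.ZFinB
import Pool.Agent.Lib.MP_25e40f_pr.E.ZFinD

/-!
THIS JOB (ZFinE): the theorems J_out.  (The header describes the whole group ZFin; the other theorems are in other jobs and may be imported.)

# Job ZFin: the results of stream E

PROOFS.  `n = nst d` (`d - 10 ≤ n ≤ d - 9`).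
* `V_Sg`: `good_all`, `g_to_W` (`Good n c M1 (Wz d p)`), `Sg_inverse` (`Mo_Vz`, `Wz_Vz`).
* `decay_lt`: `decay_cvp` with `i = 1` (`cvp_one`), `a = d - 10 ≤ n`, `2 + (d - 10) < d`; `tz ≤ Vz` (`tz_le_Vz`).
* `decay_pc`: `T.tau_leftcont` at `pc`; `le_of_tendsto` along `nhdsWithin pc (Iio pc)` (eventually `1/(4d) ≤ p < pc`).
* `Wz_sum`: `∑ Wz * ∑ Vz = 1` (transform at `k = 0`: `FT f 0 = ∑ f`, `FT_cv`), `∑ Vz ≥ Vz 0 ≥ tz 0 = 1 > 0`.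
* `Wz_lim`: for every `A` there is a finite set `F` with `∑_F tz pc > A` (`H.chi`: the sum of `ENNReal.ofReal (tz d pc y)` is `⊤`), by left continuity `∑_F tz p > A` for `p < pc` close to `pc`, so
  `∑ Vz ≥ ∑ tz ≥ ∑_F tz > A` and `0 < ∑ Wz = 1/∑ Vz < 1/A`.
* `box_final`: `box_six` with `n = nst d`, `c = 1/(50 d)`, `M = M1`, `K0 = 1 + 2d`, `θ = 1/(4d)`, at `R = 2 m^20`, `R' = m^21` (`R^26 = 2^26 m^520 ≤ m^525` for `m^5 ≥ 2^26`, e.g. `m ≥ 64`), gives `c' ≤ R^(d-12) chn (tauD p (Lam (2 R'))) (bx d R') 5 0 y` for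
  `p < pc` with `∑ Wz ≤ w1` (`Wz_lim`: such a `p ≥ 1/(4d)` exists).  Hypotheses of `box_six`: `T = tz d p`, `V = Vz d p`, `W = Wz d p`, `TB u v = tauD p (bx d (2R')) u v`, `S = bx d (2R'+1) \ bx d (2R')` (`‖w‖ > 2R' ≥ R'`: `mem_bx`), `box_diff_Z` with `r = 2R'`
  (`u, v ∈ bx d R' ⊆ bx d (2R')`), `T.tauD_le_tau`, `tau_tr`, `T.tauD_nonneg`, `Vz_le`, `tz_low` (`θ ≤ p`: `θ^N ≤ p^N`), `Sy_Wz`, `Mo_Vz`.  Then `tauD p ≤ tauD pc` (`T.tauD_mono_p`) and `chn_mono`; `(2 m^20)^(d-12) = 2^(d-12) (m^20)^(d-12)`: the final constant is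
  `c' / 2^(d-12)`.  Note `(Zg d).Lam r = bx d r` by `rfl`.
* `sys_pc`: the sequence `p_j = pc - (pc - 1/(4d))/(j+2)`; `Sys (nst d) K p pc (fun j => tz d (p j)) (fun j => gz d (p j)) (tz d pc) (gz d pc)`: fields: `τle`: `T.tau_mono_p`; `τlim`: `T.tau_leftcont`; `bd`: `∑ (1+|x|)^n |g| ≤ 2^n (∑ |g| + ∑_e ∑ |x_e|^n |g|) ≤ 2^n (2 + d M)`
  (`(1+t)^n ≤ 2^n (1 + t^n)`, `tsum_norm_le`); `gl1`, `eql`: hypothesis `hpc : Ker (tK pc) (pK pc) q` with `gz_one` and `tz_eq` at `pc` (`H.noperc`).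
-/

set_option autoImplicit false

noncomputable section

open Finset Filter
open scoped ENNReal

namespace IPC.Fo

variable {d : ℕ}

/-- the kernel of the limit equation -/
def Jz (d : ℕ) : (Fin d → ℤ) → ℝ := cv (Pn (Zg d).pc) (gz d (Zg d).pc)

/-- the output of stream E on the kernel `J` -/
structure JOut (d : ℕ) : Prop where
  gmo : Mo (nst d) (gz d (Zg d).pc)
  mo : Mo (nst d) (Jz d)
  one : ∑' x, Jz d x = 1
  ev : Ev (Jz d)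
  sy : Sy (Jz d)
  sec : ∃ c : ℝ, 0 < c ∧ ∀ e : Fin d, c ≤ ∑' x, (x e : ℝ) ^ 2 * Jz d x
  app : ∃ (V Jm : ℕ → (Fin d → ℤ) → ℝ) (C : ℝ), 0 ≤ C ∧ (∀ m, Mo (nst d) (V m)) ∧ (∀ m, Mo (nst d) (Jm m)) ∧
    (∀ m, cv (V m) (fun x => del d x - Jm m x) = del d) ∧ (∀ m, Sg (nst d) 2 C (V m)) ∧
    ∀ k, k < nst d → Tendsto (fun m => ∑' y : Fin d → ℤ, (1 + ‖y‖) ^ k * |Jz d y - Jm m y|) atTop (nhds 0)

private theorem ZFinE_nst {q : ℝ≥0∞} {D : ℝ} (H : DZ d q D) : 4 ≤ nst d := by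
  have h := H.dim
  unfold nst
  omega

private theorem ZFinE_EvP (p : ℝ) : Ev (Pn (d := d) p) := Ev.const_mul Ev_nn p

private theorem ZFinE_SyP (p : ℝ) : Sy (Pn (d := d) p) := by
  intro σ x
  show p * nn d (fun i => x (σ i)) = p * nn d x
  rw [Sy_nn σ x]

theorem J_out {q : ℝ≥0∞} {D : ℝ} (H : DZ d q D)
    (hpc : Ker (CE.tK (Zg d) (Zg d).pc) (CE.pK (Zg d) (Zg d).pc) q) : JOut d := by
  obtain ⟨K, HS⟩ := sys_pc H hpc
  obtain ⟨hp1, hp2, hp3⟩ := pj_spec H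
  obtain ⟨M, C, hM, hC, hV⟩ := V_Sg H
  obtain ⟨M2, hM2, hg⟩ := good_all H
  have hn4 := ZFinE_nst H
  have hd : (0 : ℝ) < d := by
    have := H.dim
    exact_mod_cast (by omega : 0 < d)
  have hc : 0 < 1 / (50 * (d : ℝ)) := by positivity
  have gmo : Mo (nst d) (gz d (Zg d).pc) := (HS.glmo (by omega)).1
  have hW0 : Tendsto (fun j => ∑' x, Wz d (pj d j) x) atTop (nhds 0) := (Wz_lim H).comp hp3
  obtain ⟨w0, hw0, hκ⟩ := kappa_low d (1 / (50 * (d : ℝ))) M hc hM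
  have hev : ∀ᶠ j in atTop, ∀ e : Fin d, 1 / (50 * (d : ℝ)) ≤
      -∑' x : Fin d → ℤ, (x e : ℝ) ^ 2 * (del d x - cv (Pn (pj d j)) (gz d (pj d j)) x) := by
    have h1 : ∀ᶠ j in atTop, ∑' x, Wz d (pj d j) x < w0 := hW0.eventually (gt_mem_nhds hw0)
    filter_upwards [h1] with j hj
    intro e
    have hG := (hV (pj d j) (hp1 j) (hp2 j)).1
    exact hκ (Wz d (pj d j)) e ⟨hG.mo.mono hn4, hG.ev, fun e a h1 h2 => hG.mom e a h1 (h2.trans hn4), hG.low⟩ hj.le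
  obtain ⟨m1, m2⟩ := HS.mass (c := 1 / (50 * (d : ℝ))) (by omega) hW0 hev
  refine ⟨gmo, (limA_Pn_mo _ _).cv gmo, m1, (ZFinE_EvP _).cv (Ev_gz _), (ZFinE_SyP _).cv (Sy_gz _),
    ⟨_, hc, m2⟩, ?_⟩
  refine ⟨fun m => Vz d (pj d m), fun m => cv (Pn (pj d m)) (gz d (pj d m)), C, hC, ?_, ?_, ?_, ?_, ?_⟩
  · intro m
    exact (Mo_Vz H (hp1 m) (hp2 m) _).2
  · intro m
    exact (limA_Pn_mo _ _).cv (hg (pj d m) (hp1 m) (hp2 m)).1
  · intro m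
    have h1 := Wz_Vz H (hp1 m) (hp2 m)
    rw [cv_comm] at h1
    exact h1
  · intro m
    exact (hV (pj d m) (hp1 m) (hp2 m)).2
  · intro k hk
    have h1 := HS.Jlim hk
    refine h1.congr fun m => ?_
    refine tsum_congr fun y => ?_
    show (1 + ‖y‖) ^ k * |cv (Pn (pj d m)) (gz d (pj d m)) y - Jz d y| =
      (1 + ‖y‖) ^ k * |Jz d y - cv (Pn (pj d m)) (gz d (pj d m)) y|
    rw [abs_sub_comm]

end IPC.Fo
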